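import Pool.Agent.H67.VT.Phi

/-!
[H67 VW ARITH]  Divisor sums.

Proofs.
* `tau_over`: `∑_{f ≤ D} τ(f)/f = ∑_{a b ≤ D} 1/(a b) ≤ (∑_{a ≤ D} 1/a)^2`, `harmonic_le_one_add_log` (`phi_harm` in `VT/Phi.lean`).
* `tau_phi`: `φ(s) ≥ s/(2 + 2 log D)` (`VT.phi_low`), `1/s^2 ≤ 1/(Z s)`, `tau_over`, `1 + log D ≤ 2 + 2 log D`.
* `tau_sq`: `∑_{l ≤ x} τ(l)^2 = ∑_{a,b ≤ x} #{l ≤ x : a ∣ l, b ∣ l} ≤ ∑_{a,b ≤ x} x/[a,b] = x ∑_{a,b ≤ x} (a,b)/(a b)`
  `≤ x ∑_{g ≤ x} g ∑_{a',b' ≤ x} 1/(g^2 a' b') ≤ x (1 + log x)^3`.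
-/

namespace Pool.Agent.H67.VW

open Finset

private theorem ar_harm (D : ℕ) : ∑ m ∈ Icc 1 D, (1 : ℝ) / (m : ℝ) ≤ 1 + Real.log D := by
  have h := harmonic_le_one_add_log D
  have h2 : ((harmonic D : ℚ) : ℝ) = ∑ m ∈ Icc 1 D, (1 : ℝ) / (m : ℝ) := by
    rw [harmonic_eq_sum_Icc]
    push_cast
    simp [one_div]
  rw [← h2]
  exact h

private theorem ar_harm0 (D : ℕ) : 0 ≤ ∑ m ∈ Icc 1 D, (1 : ℝ) / (m : ℝ) :=
  sum_nonneg fun m _ => by positivity

private theorem ar_dvd {a D : ℕ} (ha : 1 ≤ a) (g : ℕ → ℝ) (hg : ∀ n, 0 ≤ g n) :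
    ∑ f ∈ Icc 1 D, (if a ∣ f then g f else 0) ≤ ∑ b ∈ Icc 1 D, g (a * b) := by
  rw [← sum_filter]
  have h1 : (Icc 1 D).filter (fun f => a ∣ f) ⊆ (Icc 1 D).image (fun b => a * b) := by
    intro f hf
    rw [mem_filter, mem_Icc] at hf
    obtain ⟨b, rfl⟩ := hf.2
    rw [mem_image]
    refine ⟨b, mem_Icc.2 ⟨?_, ?_⟩, rfl⟩
    · rcases Nat.eq_zero_or_pos b with h | h
      · rw [h] at hf
        omega
      · exact h
    · exact le_trans (Nat.le_mul_of_pos_left b ha) hf.1.2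
  calc ∑ f ∈ (Icc 1 D).filter (fun f => a ∣ f), g f
      ≤ ∑ f ∈ (Icc 1 D).image (fun b => a * b), g f :=
        sum_le_sum_of_subset_of_nonneg h1 fun i _ _ => hg i
    _ = ∑ b ∈ Icc 1 D, g (a * b) := by
        rw [sum_image]
        intro b _ c _ h
        exact Nat.eq_of_mul_eq_mul_left ha h

private theorem ar_card {f D : ℕ} (hf : f ∈ Icc 1 D) :
    (f.divisors.card : ℝ) = ∑ a ∈ Icc 1 D, (if a ∣ f then (1 : ℝ) else 0) := by
  rw [mem_Icc] at hf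
  rw [← sum_filter, sum_const, nsmul_eq_mul, mul_one]
  congr 2
  ext a
  rw [Nat.mem_divisors, mem_filter, mem_Icc]
  constructor
  · rintro ⟨h1, h2⟩
    have h3 := Nat.le_of_dvd (by omega) h1
    have h4 := Nat.pos_of_dvd_of_pos h1 (by omega)
    exact ⟨⟨h4, by omega⟩, h1⟩
  · rintro ⟨h1, h2⟩
    exact ⟨h2, by omega⟩

theorem tau_over (D : ℕ) :
    ∑ f ∈ Icc 1 D, (f.divisors.card : ℝ) / (f : ℝ) ≤ (1 + Real.log D) ^ 2 := by
  have h1 : ∀ f ∈ Icc 1 D, (f.divisors.card : ℝ) / (f : ℝ) =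
      ∑ a ∈ Icc 1 D, (if a ∣ f then 1 / (f : ℝ) else 0) := by
    intro f hf
    rw [ar_card hf, sum_div]
    apply sum_congr rfl
    intro a _
    split_ifs
    · rfl
    · simp
  rw [sum_congr rfl h1, sum_comm]
  calc ∑ a ∈ Icc 1 D, ∑ f ∈ Icc 1 D, (if a ∣ f then 1 / (f : ℝ) else 0)
      ≤ ∑ a ∈ Icc 1 D, ∑ b ∈ Icc 1 D, 1 / ((a * b : ℕ) : ℝ) := by
        apply sum_le_sum
        intro a ha
        exact ar_dvd (mem_Icc.1 ha).1 (fun f => 1 / (f : ℝ)) (fun n => by positivity)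
    _ = (∑ a ∈ Icc 1 D, 1 / (a : ℝ)) * (∑ b ∈ Icc 1 D, 1 / (b : ℝ)) := by
        rw [sum_mul_sum]
        apply sum_congr rfl
        intro a _
        apply sum_congr rfl
        intro b _
        push_cast
        rw [one_div_mul_one_div]
    _ ≤ (1 + Real.log D) ^ 2 := by
        rw [sq]
        exact mul_le_mul (ar_harm D) (ar_harm D) (ar_harm0 D) (le_trans (ar_harm0 D) (ar_harm D))

theorem tau_phi (Z D : ℕ) (hZ : 1 ≤ Z) :
    ∑ s ∈ Ioc Z D, (s.divisors.card : ℝ) / (s.totient : ℝ) ^ 2 ≤ (2 + 2 * Real.log D) ^ 4 / Z := by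
  have hZ0 : (0 : ℝ) < Z := by exact_mod_cast hZ
  have hlD : 0 ≤ Real.log D := Real.log_natCast_nonneg D
  have h1 : ∀ s ∈ Ioc Z D, (s.divisors.card : ℝ) / (s.totient : ℝ) ^ 2 ≤
      (2 + 2 * Real.log D) ^ 2 / Z * ((s.divisors.card : ℝ) / (s : ℝ)) := by
    intro s hs
    rw [mem_Ioc] at hs
    have hs0 : (0 : ℝ) < s := by exact_mod_cast (by omega : 0 < s)
    have ht : (0 : ℝ) < s.totient := by exact_mod_cast Nat.totient_pos.2 (by omega)
    have h2 := VT.phi_low s (by omega)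
    have h3 : Real.log s ≤ Real.log D := Real.log_le_log hs0 (by exact_mod_cast hs.2)
    have h4 : (s : ℝ) ≤ (2 + 2 * Real.log D) * s.totient :=
      le_trans h2 (mul_le_mul_of_nonneg_right (by linarith) ht.le)
    have h5 : (Z : ℝ) * s ≤ (2 + 2 * Real.log D) ^ 2 * (s.totient : ℝ) ^ 2 := by
      calc (Z : ℝ) * s ≤ s * s := mul_le_mul_of_nonneg_right (by exact_mod_cast hs.1.le) hs0.le
        _ ≤ ((2 + 2 * Real.log D) * s.totient) * ((2 + 2 * Real.log D) * s.totient) :=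
            mul_le_mul h4 h4 hs0.le (le_trans hs0.le h4)
        _ = _ := by ring
    have h6 : 1 / (s.totient : ℝ) ^ 2 ≤ (2 + 2 * Real.log D) ^ 2 / Z * (1 / (s : ℝ)) := by
      rw [mul_one_div, div_div, div_le_div_iff₀ (by positivity) (by positivity), one_mul]
      exact h5
    calc (s.divisors.card : ℝ) / (s.totient : ℝ) ^ 2
        = (s.divisors.card : ℝ) * (1 / (s.totient : ℝ) ^ 2) := by ring
      _ ≤ (s.divisors.card : ℝ) * ((2 + 2 * Real.log D) ^ 2 / Z * (1 / (s : ℝ))) :=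
          mul_le_mul_of_nonneg_left h6 (by positivity)
      _ = _ := by ring
  calc ∑ s ∈ Ioc Z D, (s.divisors.card : ℝ) / (s.totient : ℝ) ^ 2
      ≤ ∑ s ∈ Ioc Z D, (2 + 2 * Real.log D) ^ 2 / Z * ((s.divisors.card : ℝ) / (s : ℝ)) :=
        sum_le_sum h1
    _ = (2 + 2 * Real.log D) ^ 2 / Z * ∑ s ∈ Ioc Z D, ((s.divisors.card : ℝ) / (s : ℝ)) := by
        rw [mul_sum]
    _ ≤ (2 + 2 * Real.log D) ^ 2 / Z * (1 + Real.log D) ^ 2 := by
        apply mul_le_mul_of_nonneg_left _ (by positivity)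
        refine le_trans ?_ (tau_over D)
        apply sum_le_sum_of_subset_of_nonneg
        · intro s hs
          rw [mem_Ioc] at hs
          rw [mem_Icc]
          omega
        · intro i _ _
          positivity
    _ ≤ (2 + 2 * Real.log D) ^ 2 / Z * (2 + 2 * Real.log D) ^ 2 := by
        apply mul_le_mul_of_nonneg_left _ (by positivity)
        apply pow_le_pow_left₀ (by linarith)
        linarith
    _ = (2 + 2 * Real.log D) ^ 4 / Z := by ring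

theorem tau_sq (x : ℕ) :
    ∑ l ∈ Icc 1 x, (l.divisors.card : ℝ) ^ 2 ≤ x * (1 + Real.log x) ^ 3 := by
  have h1 : ∀ l ∈ Icc 1 x, (l.divisors.card : ℝ) ^ 2 =
      ∑ a ∈ Icc 1 x, ∑ b ∈ Icc 1 x, (if Nat.lcm a b ∣ l then (1 : ℝ) else 0) := by
    intro l hl
    rw [ar_card hl, sq, sum_mul_sum]
    apply sum_congr rfl
    intro a _
    apply sum_congr rfl
    intro b _
    rw [ite_zero_mul_ite_zero, mul_one]
    congr 1
    rw [Nat.lcm_dvd_iff]
  have h2 : ∀ a ∈ Icc 1 x, ∀ b ∈ Icc 1 x,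
      ∑ l ∈ Icc 1 x, (if Nat.lcm a b ∣ l then (1 : ℝ) else 0) ≤
        ∑ g ∈ Icc 1 x, (if g ∣ a then (if g ∣ b then (x : ℝ) * (g : ℝ) * (1 / (a : ℝ)) * (1 / (b : ℝ)) else 0) else 0) := by
    intro a ha b hb
    rw [mem_Icc] at ha hb
    have ha0 : (0 : ℝ) < a := by exact_mod_cast ha.1
    have hb0 : (0 : ℝ) < b := by exact_mod_cast hb.1
    have hg1 : 1 ≤ Nat.gcd a b := Nat.gcd_pos_of_pos_left b ha.1
    have hg2 : Nat.gcd a b ≤ x := le_trans (Nat.le_of_dvd ha.1 (Nat.gcd_dvd_left a b)) ha.2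
    have hL : 0 < Nat.lcm a b := Nat.lcm_pos ha.1 hb.1
    have hL0 : (0 : ℝ) < (Nat.lcm a b : ℝ) := by exact_mod_cast hL
    have h3 : ((Nat.gcd a b : ℕ) : ℝ) * (Nat.lcm a b : ℝ) = a * b := by
      exact_mod_cast Nat.gcd_mul_lcm a b
    have h4 : ∑ l ∈ Icc 1 x, (if Nat.lcm a b ∣ l then (1 : ℝ) else 0) ≤ (x : ℝ) / (Nat.lcm a b : ℝ) := by
      rw [← sum_filter, sum_const, nsmul_eq_mul, mul_one]
      have h5 : ((Icc 1 x).filter (fun l => Nat.lcm a b ∣ l)).card = x / Nat.lcm a b := by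
        have := Nat.Ioc_filter_dvd_card_eq_div x (Nat.lcm a b)
        rw [← this]
        rfl
      rw [h5]
      exact Nat.cast_div_le
    refine le_trans h4 ?_
    have h6 : (x : ℝ) / (Nat.lcm a b : ℝ) =
        (if Nat.gcd a b ∣ a then (if Nat.gcd a b ∣ b then
          (x : ℝ) * ((Nat.gcd a b : ℕ) : ℝ) * (1 / (a : ℝ)) * (1 / (b : ℝ)) else 0) else 0) := by
      rw [if_pos (Nat.gcd_dvd_left a b), if_pos (Nat.gcd_dvd_right a b)]
      rw [div_eq_iff hL0.ne']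
      have h7 : (x : ℝ) * ((Nat.gcd a b : ℕ) : ℝ) * (1 / (a : ℝ)) * (1 / (b : ℝ)) * (Nat.lcm a b : ℝ)
          = (x : ℝ) * (((Nat.gcd a b : ℕ) : ℝ) * (Nat.lcm a b : ℝ)) * (1 / (a : ℝ)) * (1 / (b : ℝ)) := by
        ring
      rw [h7, h3]
      field_simp
    rw [h6]
    exact single_le_sum (f := fun g : ℕ => (if g ∣ a then (if g ∣ b then
          (x : ℝ) * (g : ℝ) * (1 / (a : ℝ)) * (1 / (b : ℝ)) else 0) else 0))
      (fun g _ => by split_ifs <;> positivity) (mem_Icc.2 ⟨hg1, hg2⟩)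
  have hH := ar_harm x
  have hH0 := ar_harm0 x
  rw [sum_congr rfl h1, sum_comm]
  calc ∑ a ∈ Icc 1 x, ∑ l ∈ Icc 1 x, ∑ b ∈ Icc 1 x, (if Nat.lcm a b ∣ l then (1 : ℝ) else 0)
      = ∑ a ∈ Icc 1 x, ∑ b ∈ Icc 1 x, ∑ l ∈ Icc 1 x, (if Nat.lcm a b ∣ l then (1 : ℝ) else 0) := by
        apply sum_congr rfl
        intro a _
        rw [sum_comm]
    _ ≤ ∑ a ∈ Icc 1 x, ∑ b ∈ Icc 1 x, ∑ g ∈ Icc 1 x,
        (if g ∣ a then (if g ∣ b then (x : ℝ) * (g : ℝ) * (1 / (a : ℝ)) * (1 / (b : ℝ)) else 0) else 0) :=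
        sum_le_sum fun a ha => sum_le_sum fun b hb => h2 a ha b hb
    _ = ∑ g ∈ Icc 1 x, ∑ a ∈ Icc 1 x, ∑ b ∈ Icc 1 x,
        (if g ∣ a then (if g ∣ b then (x : ℝ) * (g : ℝ) * (1 / (a : ℝ)) * (1 / (b : ℝ)) else 0) else 0) := by
        rw [sum_comm]
        have : ∀ b ∈ Icc 1 x, ∑ a ∈ Icc 1 x, ∑ g ∈ Icc 1 x,
            (if g ∣ a then (if g ∣ b then (x : ℝ) * (g : ℝ) * (1 / (a : ℝ)) * (1 / (b : ℝ)) else 0) else 0)
            = ∑ g ∈ Icc 1 x, ∑ a ∈ Icc 1 x,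
            (if g ∣ a then (if g ∣ b then (x : ℝ) * (g : ℝ) * (1 / (a : ℝ)) * (1 / (b : ℝ)) else 0) else 0) := by
          intro b _
          rw [sum_comm]
        rw [sum_congr rfl this, sum_comm]
        apply sum_congr rfl
        intro g _
        rw [sum_comm]
    _ = ∑ g ∈ Icc 1 x, (x : ℝ) * (g : ℝ) * ((∑ a ∈ Icc 1 x, (if g ∣ a then 1 / (a : ℝ) else 0)) *
        (∑ b ∈ Icc 1 x, (if g ∣ b then 1 / (b : ℝ) else 0))) := by
        apply sum_congr rfl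
        intro g _
        rw [sum_mul_sum, mul_sum]
        apply sum_congr rfl
        intro a _
        rw [mul_sum]
        apply sum_congr rfl
        intro b _
        split_ifs <;> ring
    _ ≤ ∑ g ∈ Icc 1 x, (x : ℝ) * (g : ℝ) * ((1 / (g : ℝ) * (1 + Real.log x)) *
        (1 / (g : ℝ) * (1 + Real.log x))) := by
        apply sum_le_sum
        intro g hg
        rw [mem_Icc] at hg
        have hg0 : (0 : ℝ) < g := by exact_mod_cast hg.1
        have h8 : ∑ a ∈ Icc 1 x, (if g ∣ a then 1 / (a : ℝ) else 0) ≤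
            1 / (g : ℝ) * (1 + Real.log x) := by
          refine le_trans (ar_dvd hg.1 (fun f => 1 / (f : ℝ)) (fun n => by positivity)) ?_
          have h9 : ∑ b ∈ Icc 1 x, (fun f : ℕ => 1 / (f : ℝ)) (g * b) =
              1 / (g : ℝ) * ∑ b ∈ Icc 1 x, 1 / (b : ℝ) := by
            rw [mul_sum]
            apply sum_congr rfl
            intro b _
            push_cast
            rw [one_div_mul_one_div]
          rw [h9]
          exact mul_le_mul_of_nonneg_left hH (by positivity)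
        have h10 : 0 ≤ ∑ a ∈ Icc 1 x, (if g ∣ a then 1 / (a : ℝ) else 0) :=
          sum_nonneg fun a _ => by split_ifs <;> positivity
        apply mul_le_mul_of_nonneg_left _ (by positivity)
        exact mul_le_mul h8 h8 h10 (le_trans h10 h8)
    _ = x * (1 + Real.log x) ^ 2 * ∑ g ∈ Icc 1 x, 1 / (g : ℝ) := by
        rw [mul_sum]
        apply sum_congr rfl
        intro g hg
        rw [mem_Icc] at hg
        have hg0 : (g : ℝ) ≠ 0 := by
          have : (0 : ℝ) < g := by exact_mod_cast hg.1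
          exact this.ne'
        field_simp
    _ ≤ x * (1 + Real.log x) ^ 2 * (1 + Real.log x) :=
        mul_le_mul_of_nonneg_left hH (by positivity)
    _ = x * (1 + Real.log x) ^ 3 := by ring

end Pool.Agent.H67.VW
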