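import Pool.Agent.H67.VW.Defs

/-!
[H67 VW PIECES]  Intervals on which a monotone function is nearly constant.

Proof.  `v i = H(X) (1+δ)^i`, `J` the least natural number with `v J > H(2X)`; `N i = ⌈v i⌉₊` for `i < J`: `v i ≤ v (J-1) ≤ H(2X)`, so
`H X ≤ N i ≤ H (2X)` (`v i ≥ H X`, integers).  For `n ∈ (X,2X]` there is exactly one `i < J` with `v i ≤ H n < v (i+1)`; then `N i ≤ H n ≤ (1+δ) v i ≤ (1+δ) N i`.
`H` is monotone, so `{n ∈ (X,2X] : H n < v i} = Ioc X (c i)` with `X ≤ c i ≤ 2X`, `c` nondecreasing, `c 0 = X`, `c J = 2X`; `a i = c i`, `b i = c (i+1)`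
(`Finset.sum_Ioc_consecutive`, induction over `i`).
`(1+δ)^(J-1) ≤ H(2X)/H(X) ≤ H(2X)` gives the bound of `J`, and `∑ N i ≤ 2 ∑ v i ≤ 2 v(J-1) (1+δ)/δ ≤ (3/δ) H(2X)`
(`⌈v⌉ ≤ v + 1 ≤ 2v`, `2(1+δ) ≤ 5/2`).
-/

namespace Pool.Agent.H67.VW

open Finset

theorem pieces_ex {δ : ℝ} (hδ : 0 < δ) (hδ1 : δ ≤ 1 / 4) (X : ℕ) (H : ℕ → ℕ)
    (hH : MonotoneOn H (Set.Icc X (2 * X))) (h1 : 1 ≤ H X) :
    ∃ (J : ℕ) (a b N : ℕ → ℕ), (J : ℝ) ≤ 1 + Real.log (H (2 * X)) / Real.log (1 + δ) ∧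
      (∀ i < J, X ≤ a i ∧ a i ≤ b i ∧ b i ≤ 2 * X ∧ H X ≤ N i ∧ N i ≤ H (2 * X) ∧
        ∀ n ∈ Ioc (a i) (b i), N i ≤ H n ∧ (H n : ℝ) ≤ (1 + δ) * N i) ∧
      (∀ F : ℕ → ℝ, ∑ n ∈ Ioc X (2 * X), F n = ∑ i ∈ range J, ∑ n ∈ Ioc (a i) (b i), F n) ∧
      ∑ i ∈ range J, (N i : ℝ) ≤ 3 / δ * H (2 * X) := by
  classical
  have hX2 : X ≤ 2 * X := by omega
  have hmemX : X ∈ Set.Icc X (2 * X) := ⟨le_rfl, hX2⟩
  have hmem2 : 2 * X ∈ Set.Icc X (2 * X) := ⟨hX2, le_rfl⟩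
  have hXM : H X ≤ H (2 * X) := hH hmemX hmem2 hX2
  have hM1 : 1 ≤ H (2 * X) := h1.trans hXM
  have hh1 : (1 : ℝ) ≤ H X := by exact_mod_cast h1
  have hMr : (1 : ℝ) ≤ H (2 * X) := by exact_mod_cast hM1
  have hXMr : (H X : ℝ) ≤ H (2 * X) := by exact_mod_cast hXM
  have hδ1' : (1 : ℝ) < 1 + δ := by linarith
  set v : ℕ → ℝ := fun i => (H X : ℝ) * (1 + δ) ^ i with hv
  have hvs : ∀ i, v (i + 1) = (1 + δ) * v i := by
    intro i
    simp only [hv]
    rw [pow_succ]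
    ring
  have hvmono : Monotone v := by
    apply monotone_nat_of_le_succ
    intro i
    rw [hvs]
    have : 0 ≤ v i := by
      simp only [hv]
      positivity
    nlinarith
  have hv0 : v 0 = H X := by
    simp only [hv]
    rw [pow_zero, mul_one]
  have hvX : ∀ i, (H X : ℝ) ≤ v i := fun i => by
    rw [← hv0]
    exact hvmono (Nat.zero_le i)
  have hv1 : ∀ i, 1 ≤ v i := fun i => hh1.trans (hvX i)
  -- the number of pieces
  have hex : ∃ J, (H (2 * X) : ℝ) < v J := by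
    obtain ⟨J, hJ⟩ := pow_unbounded_of_one_lt (H (2 * X) : ℝ) hδ1'
    refine ⟨J, hJ.trans_le ?_⟩
    simp only [hv]
    have : (0 : ℝ) ≤ (1 + δ) ^ J := by positivity
    nlinarith
  set J := Nat.find hex with hJ
  have hJs : (H (2 * X) : ℝ) < v J := Nat.find_spec hex
  have hJmin : ∀ i < J, v i ≤ H (2 * X) := fun i hi => not_lt.1 (Nat.find_min hex hi)
  have hJpos : 0 < J := by
    rcases Nat.eq_zero_or_pos J with h | h
    · rw [h, hv0] at hJs
      linarith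
    · exact h
  obtain ⟨K, hK⟩ : ∃ K, J = K + 1 := ⟨J - 1, by omega⟩
  have hvK : v K ≤ H (2 * X) := hJmin K (by omega)
  -- the end points
  set c : ℕ → ℕ := fun i => Nat.findGreatest (fun n => n ≤ X ∨ (H n : ℝ) < v i) (2 * X) with hc
  have hcle : ∀ i, c i ≤ 2 * X := fun i => Nat.findGreatest_le _
  have hcX : ∀ i, X ≤ c i := fun i => Nat.le_findGreatest hX2 (Or.inl le_rfl)
  have hcP : ∀ i, c i ≤ X ∨ (H (c i) : ℝ) < v i := fun i =>
    Nat.findGreatest_spec (P := fun n => n ≤ X ∨ (H n : ℝ) < v i) hX2 (Or.inl le_rfl)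
  have hcgt : ∀ i n, c i < n → n ≤ 2 * X → v i ≤ H n := by
    intro i n hn1 hn2
    have h2 := Nat.findGreatest_is_greatest hn1 hn2
    rw [not_or, not_lt] at h2
    exact h2.2
  have hclt : ∀ i n, X < n → n ≤ c i → (H n : ℝ) < v i := by
    intro i n hn1 hn2
    have h2 : (H (c i) : ℝ) < v i := by
      rcases hcP i with h | h
      · omega
      · exact h
    have h3 : H n ≤ H (c i) :=
      hH ⟨hn1.le, hn2.trans (hcle i)⟩ ⟨hcX i, hcle i⟩ hn2
    have h4 : (H n : ℝ) ≤ H (c i) := by exact_mod_cast h3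
    linarith
  have hc0 : c 0 = X := by
    refine le_antisymm ?_ (hcX 0)
    by_contra hcon
    rw [not_le] at hcon
    have h2 := hclt 0 (c 0) hcon le_rfl
    rw [hv0] at h2
    have h3 : H X ≤ H (c 0) := hH hmemX ⟨hcX 0, hcle 0⟩ (hcX 0)
    have h4 : (H X : ℝ) ≤ H (c 0) := by exact_mod_cast h3
    linarith
  have hcJ : c J = 2 * X := by
    refine le_antisymm (hcle J) ?_
    exact Nat.le_findGreatest le_rfl (Or.inr hJs)
  have hcmono : ∀ i, c i ≤ c (i + 1) := by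
    intro i
    refine Nat.findGreatest_mono ?_ le_rfl
    intro n hn
    rcases hn with h | h
    · exact Or.inl h
    · exact Or.inr (h.trans_le (hvmono (Nat.le_succ i)))
  refine ⟨J, c, fun i => c (i + 1), fun i => ⌈v i⌉₊, ?_, ?_, ?_, ?_⟩
  · have hlog : 0 < Real.log (1 + δ) := Real.log_pos hδ1'
    have h2 : (1 + δ) ^ K ≤ (H (2 * X) : ℝ) := by
      refine le_trans ?_ hvK
      simp only [hv]
      have : (0 : ℝ) ≤ (1 + δ) ^ K := by positivity
      nlinarith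
    have h3 := Real.log_le_log (by positivity) h2
    rw [Real.log_pow] at h3
    rw [hK]
    push_cast
    have h4 : (K : ℝ) ≤ Real.log (H (2 * X)) / Real.log (1 + δ) := by
      rw [le_div_iff₀ hlog]
      exact h3
    linarith
  · intro i hi
    refine ⟨hcX i, hcmono i, hcle (i + 1), ?_, ?_, ?_⟩
    · have h2 : (H X : ℝ) ≤ ((⌈v i⌉₊ : ℕ) : ℝ) := (hvX i).trans (Nat.le_ceil _)
      exact_mod_cast h2
    · exact Nat.ceil_le.2 (hJmin i hi)
    · intro n hn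
      rw [Finset.mem_Ioc] at hn
      have h2 : n ≤ 2 * X := hn.2.trans (hcle (i + 1))
      refine ⟨Nat.ceil_le.2 (hcgt i n hn.1 h2), ?_⟩
      have h3 := hclt (i + 1) n (lt_of_le_of_lt (hcX i) hn.1) hn.2
      rw [hvs] at h3
      have h4 : v i ≤ ((⌈v i⌉₊ : ℕ) : ℝ) := Nat.le_ceil _
      have h5 : (1 + δ) * v i ≤ (1 + δ) * ((⌈v i⌉₊ : ℕ) : ℝ) := by gcongr
      linarith
  · intro F
    have h2 : ∀ k, ∑ i ∈ range k, ∑ n ∈ Ioc (c i) (c (i + 1)), F n =
        ∑ n ∈ Ioc (c 0) (c k), F n := by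
      intro k
      induction k with
      | zero => rw [Finset.range_zero, Finset.sum_empty, Finset.Ioc_self, Finset.sum_empty]
      | succ k ih =>
        rw [Finset.sum_range_succ, ih]
        exact Finset.sum_Ioc_consecutive F (by rw [hc0]; exact hcX k) (hcmono k)
    rw [h2 J, hc0, hcJ]
  · have h2 : ∀ i ∈ range J, ((⌈v i⌉₊ : ℕ) : ℝ) ≤ 2 * v i := by
      intro i _
      have h3 := Nat.ceil_lt_add_one (by linarith [hv1 i] : 0 ≤ v i)
      linarith [hv1 i]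
    refine (Finset.sum_le_sum h2).trans ?_
    rw [← Finset.mul_sum]
    have h3 : ∑ i ∈ range J, v i = (H X : ℝ) * (((1 + δ) ^ J - 1) / δ) := by
      simp only [hv]
      rw [← Finset.mul_sum, geom_sum_eq (by linarith : (1 + δ) ≠ 1), add_sub_cancel_left]
    have h4 : ∑ i ∈ range J, v i ≤ (1 + δ) * v K / δ := by
      rw [h3, hK, ← hvs, mul_div_assoc']
      simp only [hv]
      gcongr
      nlinarith
    have h5 : (1 + δ) * v K / δ ≤ (5 / 4) * H (2 * X) / δ := by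
      gcongr
      linarith
    calc 2 * ∑ i ∈ range J, v i ≤ 2 * ((5 / 4) * H (2 * X) / δ) := by linarith
      _ = (5 / 2) / δ * H (2 * X) := by ring
      _ ≤ 3 / δ * H (2 * X) := by
        gcongr
        norm_num

end Pool.Agent.H67.VW
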