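import Pool.Agent.H67.VW.Defs
import Pool.Agent.H24.AB.SLog

/-!
[H67 VW S1LOW]  The main constant from below.

Proof of `s1_low`.  Let `rad n` be the product of the primes dividing `n`.  For squarefree `r` and every finite set `A` of positive
integers with radical `r`: `∑_{n ∈ A} 1/n ≤ 1/φ(r)` (`Pool.Agent.H24.AB.rad_sum`, or `VS.sel_rad`).  Hence
`S1 ≥ ∑_{Z < n ≤ D, rad n > Z} 1/n = ∑_{Z < n ≤ D} 1/n - ∑_{Z < n ≤ D, rad n ≤ Z} 1/n`, first sum `≥ log D - log Z - log 2`
(`1/n ≥ log(1+1/n)`).  Second sum: write `n = k r`, `r = rad n`; then `k ≥ 2`, `Z/k < r ≤ Z` and `rad k ∣ r`, `r = rad(k) m`,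
`Z/(k rad k) < m ≤ Z/rad k`: for given `k` the sum over `m` of `1/m` is at most `1 + log k`, so the second sum is
`≤ ∑_{k ≤ D} (1 + log k)/(k rad k) ≤ ∑_{k ≤ D} 2/(√k rad k)` (`1 + log k ≤ 2 √k`)
`≤ 2 ∏_{p ≤ D} (1 + (1/p) ∑_{a ≥ 1} p^(-a/2)) = 2 ∏_{p ≤ D} (1 + 1/(p (√p - 1))) ≤ 2 exp(∑_p 1/(p (√p-1)))`,
a constant (`1/(√p - 1) ≤ 4/√p`, `∑ n^(-3/2)` converges).
`s1_pw`: `Zw = ⌊X^(θ+4κ)⌋ ≥ 1`, `Dw = ⌊X^d⌋ ≥ X^d/2`, `κ log X ≥ C + log 2` for large `X`.
-/

namespace Pool.Agent.H67.VW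

open Finset Filter Pool.Agent.H67.VU

/-- the radical -/
private def rd (n : ℕ) : ℕ := ∏ p ∈ n.primeFactors, p

private theorem rd_dvd (n : ℕ) : rd n ∣ n := Nat.prod_primeFactors_dvd n

private theorem rd_pos (n : ℕ) : 0 < rd n := by
  unfold rd
  exact Finset.prod_pos fun p hp => (Nat.prime_of_mem_primeFactors hp).pos

private theorem rd_pf (n : ℕ) : (rd n).primeFactors = n.primeFactors := by
  unfold rd
  exact Nat.primeFactors_prod fun p hp => Nat.prime_of_mem_primeFactors hp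

private theorem rd_sqf (n : ℕ) : Squarefree (rd n) := by
  unfold rd
  refine Finset.squarefree_prod_of_pairwise_isCoprime (fun p hp q hq hpq => ?_)
    fun p hp => (Nat.prime_of_mem_primeFactors hp).squarefree
  change IsRelPrime p q
  rw [← Nat.coprime_iff_isRelPrime]
  exact (Nat.coprime_primes (Nat.prime_of_mem_primeFactors hp)
    (Nat.prime_of_mem_primeFactors hq)).mpr hpq

private theorem rd_mono {a b : ℕ} (h : a ∣ b) (hb : b ≠ 0) : rd a ∣ rd b := by
  unfold rd
  exact Finset.prod_dvd_prod_of_subset _ _ _ (Nat.primeFactors_mono h hb)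

private theorem rd_mul {a b : ℕ} (h : Nat.Coprime a b) : rd (a * b) = rd a * rd b := by
  unfold rd
  rw [h.primeFactors_mul, Finset.prod_union h.disjoint_primeFactors]

/-- the summand -/
private noncomputable def fk (k : ℕ) : ℝ := (Real.sqrt k)⁻¹ * ((rd k : ℕ) : ℝ)⁻¹

private theorem fk_nonneg (k : ℕ) : 0 ≤ fk k := by unfold fk; positivity

private theorem fk_one : fk 1 = 1 := by
  simp [fk, rd]

private theorem fk_mul {a b : ℕ} (h : Nat.Coprime a b) : fk (a * b) = fk a * fk b := by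
  unfold fk
  rw [rd_mul h]
  push_cast
  rw [Real.sqrt_mul (by positivity), mul_inv, mul_inv]
  ring

private theorem fk_pow {p : ℕ} (hp : p.Prime) (n : ℕ) :
    fk (p ^ (n + 1)) = (p : ℝ)⁻¹ * (Real.sqrt p)⁻¹ * ((Real.sqrt p)⁻¹) ^ n := by
  unfold fk rd
  rw [Nat.primeFactors_prime_pow (Nat.succ_ne_zero n) hp, Finset.prod_singleton]
  have h : Real.sqrt ((p ^ (n + 1) : ℕ) : ℝ) = (Real.sqrt p) ^ (n + 1) := by
    push_cast
    rw [Real.sqrt_eq_iff_mul_self_eq (by positivity) (by positivity), ← mul_pow,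
      Real.mul_self_sqrt (by positivity)]
  rw [h, pow_succ, mul_inv, inv_pow]
  ring

private theorem sq_lt {p : ℕ} (hp : p.Prime) : (4 / 3 : ℝ) ≤ Real.sqrt p := by
  apply Real.le_sqrt_of_sq_le
  have : (2 : ℝ) ≤ p := by exact_mod_cast hp.two_le
  norm_num
  linarith

private theorem fk_summ {p : ℕ} (hp : p.Prime) : Summable (fun n : ℕ => ‖fk (p ^ n)‖) := by
  have h1 := sq_lt hp
  rw [← summable_nat_add_iff 1]
  have : (fun n : ℕ => ‖fk (p ^ (n + 1))‖) =
      fun n : ℕ => ((p : ℝ)⁻¹ * (Real.sqrt p)⁻¹) * ((Real.sqrt p)⁻¹) ^ n := by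
    funext n
    rw [Real.norm_of_nonneg (fk_nonneg _), fk_pow hp]
  rw [this]
  apply Summable.mul_left
  apply summable_geometric_of_lt_one (by positivity)
  apply inv_lt_one_of_one_lt₀
  linarith

private theorem fk_tsum {p : ℕ} (hp : p.Prime) :
    ∑' n : ℕ, fk (p ^ n) ≤ 1 + 4 * (((p : ℝ) ^ (3 / 2 : ℝ)))⁻¹ := by
  have h1 := sq_lt hp
  have hs0 : 0 < Real.sqrt p := by linarith
  have hp0 : (0 : ℝ) < p := by exact_mod_cast hp.pos
  have hs : Summable (fun n : ℕ => fk (p ^ n)) := by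
    have := fk_summ hp
    simpa [Real.norm_of_nonneg (fk_nonneg _)] using this
  rw [hs.tsum_eq_zero_add, pow_zero, fk_one]
  have h2 : ∑' n : ℕ, fk (p ^ (n + 1)) =
      (p : ℝ)⁻¹ * (Real.sqrt p)⁻¹ * (1 - (Real.sqrt p)⁻¹)⁻¹ := by
    rw [tsum_congr (fun n => fk_pow hp n), tsum_mul_left,
      tsum_geometric_of_lt_one (by positivity) (inv_lt_one_of_one_lt₀ (by linarith))]
  rw [h2]
  have h3 : (1 - (Real.sqrt p)⁻¹)⁻¹ ≤ 4 := by
    rw [inv_le_comm₀ _ (by norm_num)]
    · have : (Real.sqrt p)⁻¹ ≤ (4 / 3 : ℝ)⁻¹ := inv_anti₀ (by norm_num) h1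
      norm_num at this ⊢
      linarith
    · have : (Real.sqrt p)⁻¹ < 1 := inv_lt_one_of_one_lt₀ (by linarith)
      linarith
  have h4 : ((p : ℝ) ^ (3 / 2 : ℝ)) = p * Real.sqrt p := by
    rw [show (3 / 2 : ℝ) = 1 + 1 / 2 by norm_num, Real.rpow_add hp0, Real.rpow_one,
      Real.sqrt_eq_rpow]
  rw [h4, mul_inv]
  have h5 : 0 ≤ (p : ℝ)⁻¹ * (Real.sqrt p)⁻¹ := by positivity
  nlinarith [mul_le_mul_of_nonneg_left h3 h5]

private theorem fk_bound : ∃ C : ℝ, 0 < C ∧ ∀ D : ℕ, ∑ k ∈ Icc 1 D, fk k ≤ C := by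
  have hsum : Summable (fun n : ℕ => ((n : ℝ) ^ (3 / 2 : ℝ))⁻¹) :=
    Real.summable_nat_rpow_inv.2 (by norm_num)
  refine ⟨Real.exp (4 * ∑' n : ℕ, ((n : ℝ) ^ (3 / 2 : ℝ))⁻¹), Real.exp_pos _, fun D => ?_⟩
  have h := EulerProduct.summable_and_hasSum_factoredNumbers_prod_filter_prime_tsum
    fk_one (fun {m n} h => fk_mul h) (fun {p} hp => fk_summ hp) (Finset.range (D + 1))
  have hT : ∀ k ∈ Icc 1 D, k ∈ Nat.factoredNumbers (Finset.range (D + 1)) := by
    intro k hk
    rw [Finset.mem_Icc] at hk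
    apply Nat.mem_factoredNumbers_of_primeFactors_subset (by omega)
    intro q hq
    rw [Finset.mem_range]
    have := Nat.le_of_mem_primeFactors hq
    omega
  have h3 := sum_le_hasSum ((Icc 1 D).attach.map
    ⟨fun m => (⟨m.1, hT m.1 m.2⟩ : Nat.factoredNumbers (Finset.range (D + 1))),
    fun a b hab => by
      apply Subtype.ext
      simpa using hab⟩) (fun i _ => fk_nonneg _) h.2
  rw [Finset.sum_map] at h3
  simp only [Function.Embedding.coeFn_mk] at h3
  rw [Finset.sum_attach (Icc 1 D) (fun m => fk m)] at h3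
  refine h3.trans ?_
  have h4 : ∀ p ∈ (Finset.range (D + 1)).filter (fun p => p.Prime),
      ∑' n : ℕ, fk (p ^ n) ≤ Real.exp (4 * ((p : ℝ) ^ (3 / 2 : ℝ))⁻¹) := by
    intro p hp
    rw [Finset.mem_filter] at hp
    refine (fk_tsum hp.2).trans ?_
    have := Real.add_one_le_exp (4 * ((p : ℝ) ^ (3 / 2 : ℝ))⁻¹)
    linarith
  refine (Finset.prod_le_prod (fun p hp => tsum_nonneg fun n => fk_nonneg _) h4).trans ?_
  rw [← Real.exp_sum, Real.exp_le_exp, ← Finset.mul_sum]
  apply mul_le_mul_of_nonneg_left _ (by norm_num)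
  exact hsum.sum_le_tsum _ (fun n _ => by positivity)

/-- telescoping -/
private theorem harm_low (Z D : ℕ) (hZ : 1 ≤ Z) (hZD : Z ≤ D) :
    Real.log D - Real.log Z - Real.log 2 ≤ ∑ n ∈ Ioc Z D, 1 / (n : ℝ) := by
  have h1 : ∀ D : ℕ, Z ≤ D → Real.log (D + 1) - Real.log (Z + 1) ≤ ∑ n ∈ Ioc Z D, 1 / (n : ℝ) := by
    intro D hD
    induction D, hD using Nat.le_induction with
    | base => simp
    | succ D hD ih =>
      rw [← Finset.sum_Ioc_consecutive _ hD (Nat.le_succ D)]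
      have h2 : ∑ n ∈ Ioc D (D + 1), 1 / (n : ℝ) = 1 / ((D : ℝ) + 1) := by
        rw [Nat.Ioc_succ_singleton]
        simp
      have h3 : Real.log ((D : ℝ) + 1 + 1) - Real.log ((D : ℝ) + 1) ≤ 1 / ((D : ℝ) + 1) := by
        rw [← Real.log_div (by positivity) (by positivity)]
        have h4 := Real.log_le_sub_one_of_pos (x := ((D : ℝ) + 1 + 1) / ((D : ℝ) + 1))
          (by positivity)
        refine h4.trans (le_of_eq ?_)
        field_simp
        ring
      rw [Nat.succ_eq_add_one, h2]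
      push_cast
      linarith
  have h2 := h1 D hZD
  have hZ0 : (1 : ℝ) ≤ Z := by exact_mod_cast hZ
  have hD0 : (1 : ℝ) ≤ D := by exact_mod_cast hZ.trans hZD
  have h3 : Real.log D ≤ Real.log (D + 1) := Real.log_le_log (by linarith) (by linarith)
  have h4 : Real.log (Z + 1) ≤ Real.log Z + Real.log 2 := by
    rw [← Real.log_mul (by linarith) (by norm_num)]
    exact Real.log_le_log (by linarith) (by linarith)
  linarith

private theorem harm_up (L M k : ℕ) (hk : 1 ≤ k) (hM : M < (L + 1) * k) :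
    ∑ n ∈ Ioc L M, 1 / (n : ℝ) ≤ 1 + Real.log k := by
  have hlk : 0 ≤ Real.log k := Real.log_nonneg (by exact_mod_cast hk)
  by_cases hLM : M ≤ L
  · rw [Finset.Ioc_eq_empty_of_le hLM, Finset.sum_empty]
    linarith
  have h1 : ∀ M : ℕ, L + 1 ≤ M → ∑ n ∈ Ioc L M, 1 / (n : ℝ) ≤
      1 + (Real.log M - Real.log (L + 1)) := by
    intro M hM
    induction M, hM using Nat.le_induction with
    | base =>
      rw [Nat.Ioc_succ_singleton]
      simp only [Finset.sum_singleton]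
      push_cast
      have : 1 / ((L : ℝ) + 1) ≤ 1 := by
        rw [div_le_one (by positivity)]
        linarith [(Nat.cast_nonneg L : (0 : ℝ) ≤ L)]
      linarith
    | succ M hM ih =>
      rw [← Finset.sum_Ioc_consecutive _ (by omega : L ≤ M) (Nat.le_succ M), Nat.succ_eq_add_one,
        Nat.Ioc_succ_singleton]
      simp only [Finset.sum_singleton]
      have hM0 : (0 : ℝ) < M := by exact_mod_cast (by omega : 0 < M)
      have h3 : 1 / ((M : ℝ) + 1) ≤ Real.log ((M : ℝ) + 1) - Real.log M := by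
        have h4 := Real.log_le_sub_one_of_pos (x := (M : ℝ) / ((M : ℝ) + 1)) (by positivity)
        rw [Real.log_div (by positivity) (by positivity)] at h4
        have h5 : (M : ℝ) / ((M : ℝ) + 1) - 1 = - (1 / ((M : ℝ) + 1)) := by
          field_simp
          ring
        rw [h5] at h4
        linarith
      push_cast
      linarith
  refine (h1 M (by omega)).trans ?_
  have h2 : Real.log M ≤ Real.log (L + 1) + Real.log k := by
    rw [← Real.log_mul (by positivity) (by positivity)]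
    apply Real.log_le_log
    · exact_mod_cast (by omega : 0 < M)
    · exact_mod_cast hM.le
  linarith

private theorem log_sqrt (k : ℕ) (hk : 1 ≤ k) : 1 + Real.log k ≤ 2 * Real.sqrt k := by
  have hk0 : (0 : ℝ) < k := by exact_mod_cast hk
  have h1 := Real.log_le_sub_one_of_pos (Real.sqrt_pos.2 hk0)
  rw [Real.log_sqrt hk0.le] at h1
  linarith

/-- numbers with small radical -/
private theorem small_rad (Z D : ℕ) (hZ : 1 ≤ Z) :
    ∑ n ∈ (Ioc Z D).filter (fun n => rd n ≤ Z), 1 / (n : ℝ) ≤ 2 * ∑ k ∈ Icc 1 D, fk k := by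
  classical
  set B := (Ioc Z D).filter (fun n => rd n ≤ Z) with hB
  have hmaps : ∀ n ∈ B, n / rd n ∈ Icc 1 D := by
    intro n hn
    rw [hB, Finset.mem_filter, Finset.mem_Ioc] at hn
    rw [Finset.mem_Icc]
    constructor
    · exact Nat.div_pos (Nat.le_of_dvd (by omega) (rd_dvd n)) (rd_pos n)
    · exact (Nat.div_le_self _ _).trans hn.1.2
  rw [← Finset.sum_fiberwise_of_maps_to hmaps, Finset.mul_sum]
  apply Finset.sum_le_sum
  intro k hk
  rw [Finset.mem_Icc] at hk
  -- the map to m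
  have key : ∀ n ∈ B.filter (fun n => n / rd n = k),
      n = k * rd k * (rd n / rd k) ∧ rd n / rd k ∈ Ioc (Z / (k * rd k)) (Z / rd k) := by
    intro n hn
    rw [Finset.mem_filter, hB, Finset.mem_filter, Finset.mem_Ioc] at hn
    obtain ⟨⟨⟨h1, h2⟩, h3⟩, h4⟩ := hn
    have h5 : n = k * rd n := by
      rw [← h4, Nat.div_mul_cancel (rd_dvd n)]
    have h6 : rd k ∣ rd n := rd_mono ⟨rd n, h5⟩ (by omega)
    obtain ⟨m, hm⟩ := h6
    have h7 : rd n / rd k = m := by
      rw [hm, Nat.mul_div_cancel_left _ (rd_pos k)]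
    have h8 : n = k * rd k * m := by rw [mul_assoc, ← hm]; exact h5
    refine ⟨by rw [h7]; exact h8, ?_⟩
    rw [h7, Finset.mem_Ioc]
    constructor
    · rw [Nat.div_lt_iff_lt_mul (Nat.mul_pos (by omega) (rd_pos k)), mul_comm, ← h8]
      exact h1
    · rw [Nat.le_div_iff_mul_le (rd_pos k), mul_comm, ← hm]
      exact h3
  have hinj : Set.InjOn (fun n : ℕ => rd n / rd k) (B.filter (fun n => n / rd n = k) : Finset ℕ) := by
    intro a ha b hb hab
    have h1 := (key a ha).1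
    have h2 := (key b hb).1
    simp only at hab
    rw [h1, h2, hab]
  have hk0 : (0 : ℝ) < k := by exact_mod_cast hk.1
  have hr0 : (0 : ℝ) < rd k := by exact_mod_cast rd_pos k
  have h1 : ∑ n ∈ B.filter (fun n => n / rd n = k), 1 / (n : ℝ) =
      (1 / ((k : ℝ) * rd k)) * ∑ m ∈ (B.filter (fun n => n / rd n = k)).image
        (fun n : ℕ => rd n / rd k), 1 / (m : ℝ) := by
    rw [Finset.sum_image hinj, Finset.mul_sum]
    apply Finset.sum_congr rfl
    intro n hn
    have h2 := (key n hn).1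
    conv_lhs => rw [h2]
    push_cast
    rw [one_div, one_div, one_div, mul_inv]
  rw [h1]
  have h2 : ∑ m ∈ (B.filter (fun n => n / rd n = k)).image
        (fun n : ℕ => rd n / rd k), 1 / (m : ℝ) ≤ 1 + Real.log k := by
    refine le_trans (Finset.sum_le_sum_of_subset_of_nonneg (t := Ioc (Z / (k * rd k)) (Z / rd k))
      ?_ (fun i _ _ => by positivity)) (harm_up _ _ k hk.1 ?_)
    · intro m hm
      rw [Finset.mem_image] at hm
      obtain ⟨n, hn, rfl⟩ := hm
      exact (key n hn).2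
    · rw [Nat.div_lt_iff_lt_mul (rd_pos k), mul_assoc]
      have := Nat.lt_div_mul_add (a := Z) (Nat.mul_pos hk.1 (rd_pos k) : 0 < k * rd k)
      calc Z < Z / (k * rd k) * (k * rd k) + k * rd k := this
        _ = (Z / (k * rd k) + 1) * (k * rd k) := by ring
  have h3 := log_sqrt k hk.1
  calc 1 / ((k : ℝ) * rd k) * _ ≤ 1 / ((k : ℝ) * rd k) * (2 * Real.sqrt k) :=
        mul_le_mul_of_nonneg_left (h2.trans h3) (by positivity)
    _ = 2 * fk k := by
        unfold fk
        have hs : 0 < Real.sqrt k := Real.sqrt_pos.2 hk0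
        have : (k : ℝ) = Real.sqrt k * Real.sqrt k := (Real.mul_self_sqrt hk0.le).symm
        rw [one_div, mul_inv]
        conv_lhs => rw [this]
        rw [Real.sqrt_mul_self hs.le]
        field_simp

theorem s1_low : ∃ C : ℝ, 0 < C ∧ ∀ Z D : ℕ, 1 ≤ Z → Z ≤ D →
    Real.log D - Real.log Z - C ≤ S1 Z D := by
  classical
  obtain ⟨C0, hC0, hb⟩ := fk_bound
  refine ⟨Real.log 2 + 2 * C0, by have := Real.log_pos (by norm_num : (1 : ℝ) < 2); positivity,
    fun Z D hZ hZD => ?_⟩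
  have h1 := harm_low Z D hZ hZD
  have h2 := small_rad Z D hZ
  have h3 := hb D
  have h4 : ∑ n ∈ (Ioc Z D).filter (fun n => ¬ rd n ≤ Z), 1 / (n : ℝ) ≤ S1 Z D := by
    unfold S1 RR
    have hmaps : ∀ n ∈ (Ioc Z D).filter (fun n => ¬ rd n ≤ Z),
        rd n ∈ (Ioc Z D).filter (fun r => Squarefree r) := by
      intro n hn
      rw [Finset.mem_filter, Finset.mem_Ioc] at hn ⊢
      refine ⟨⟨by omega, (Nat.le_of_dvd (by omega) (rd_dvd n)).trans hn.1.2⟩, rd_sqf n⟩
    rw [← Finset.sum_fiberwise_of_maps_to hmaps]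
    apply Finset.sum_le_sum
    intro r hr
    rw [Finset.mem_filter] at hr
    apply Pool.Agent.H24.AB.rad_sum r hr.2
    intro n hn
    rw [Finset.mem_filter, Finset.mem_filter, Finset.mem_Ioc] at hn
    refine ⟨by omega, ?_⟩
    rw [← hn.2, rd_pf]
  have h5 := Finset.sum_filter_add_sum_filter_not (Ioc Z D) (fun n => rd n ≤ Z)
    (fun n : ℕ => 1 / (n : ℝ))
  linarith

theorem s1_pw {θ κ d : ℝ} (hP : PW θ κ d) : ∀ᶠ X : ℝ in atTop,
    (d - θ - 5 * κ) * Real.log X ≤ S1 (Zw θ κ X) (Dw d X) := by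
  obtain ⟨C, hC, hs⟩ := s1_low
  have h1 : ∀ᶠ X : ℝ in atTop, (C + Real.log 2) / κ ≤ Real.log X :=
    Real.tendsto_log_atTop.eventually_ge_atTop _
  filter_upwards [h1, eventually_ge_atTop (1 : ℝ)] with X hX hX1
  have hκ := hP.κ0
  have hθ := hP.θ0
  have hlow := hP.low
  have hX0 : 0 < X := by linarith
  have hlog : C + Real.log 2 ≤ κ * Real.log X := by
    rw [div_le_iff₀ hκ] at hX
    linarith
  have hz1 : 1 ≤ X ^ (θ + 4 * κ) := Real.one_le_rpow hX1 (by positivity)
  have hd1 : 1 ≤ X ^ d := Real.one_le_rpow hX1 (by linarith)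
  have hZ1 : 1 ≤ Zw θ κ X := by
    unfold Zw
    exact Nat.le_floor (by simpa using hz1)
  have hZD : Zw θ κ X ≤ Dw d X := by
    unfold Zw Dw
    apply Nat.floor_le_floor
    exact Real.rpow_le_rpow_of_exponent_le hX1 (by linarith)
  have h2 := hs _ _ hZ1 hZD
  have h3 : Real.log (Zw θ κ X) ≤ (θ + 4 * κ) * Real.log X := by
    rw [← Real.log_rpow hX0]
    apply Real.log_le_log (by exact_mod_cast hZ1)
    unfold Zw
    exact Nat.floor_le (by positivity)
  have h4 : d * Real.log X - Real.log 2 ≤ Real.log (Dw d X) := by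
    rw [← Real.log_rpow hX0, ← Real.log_div (by positivity) (by norm_num)]
    apply Real.log_le_log (by positivity)
    unfold Dw
    have h5 := Nat.lt_floor_add_one (X ^ d)
    have h6 : (1 : ℝ) ≤ (⌊X ^ d⌋₊ : ℝ) := by
      exact_mod_cast Nat.le_floor (by simpa using hd1)
    linarith
  nlinarith

end Pool.Agent.H67.VW
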