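import Pool.Agent.H67.VW.PieceV
import Pool.Agent.H67.VW.Pieces
import Pool.Agent.H67.VW.S1low
import Pool.Agent.H67.VU.Pnt3

/-!
[H67 VW ASM]  Summation over the pieces.

Notation: `S = S1 Z D ≥ (d-θ-5κ) log X ≥ 5κ log X` (`s1_pw`, `PW.low`), `V i` the sum over `Ioc (a i) (b i)` of `(PH - f)²` (nonnegative), `Φ i` from `piece_ineq`
(`H n ≤ (1+δ) N i`, so `H n ≤ 2 N i`), `θ i = ∑_{Ioc (a i) (b i)} pl`, `ℓ i = b i - a i` (real), `E = X^(1-κ/2)`.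
* `asmA`: `λ i = (1-2δ) H(X)/Φ i ≤ 1` (as `Φ i ≥ (1-2δ) N i ≥ (1-2δ) H X > 0`), so `V i ≥ λ i V i ≥ (1-2δ) H(X) S (2 θ i - ℓ i) - λ i N i E`, `λ i N i ≤ H X`.
  Sum over `i` (`F = pl` and `F = 1`): `V ≥ (1-2δ) H(X) S (2 ∑_{Ioc X 2X} pl - X) - J H(X) E`; `∑ pl ≥ (1-δ/4) X` (`VU.pntA`),
  `J ≤ 1 + log(X)/log(1+δ)`, so `J E ≤ δ/2 · S X` for large `X`: `V ≥ (1 - 4δ) S X H(X)`.
* `asmB`: `V i ≥ S Φ i (2 θ i - ℓ i) - N i E` and `θ i ≥ ℓ i - δ' X` (`VU.pnt3_unif` for `t = a i` and `t = b i`: two-sided bounds for `θ(2X) - θ(t)`; or the prime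
  number theorem directly), so `V i ≥ S ((1-2δ) N i ℓ i - 2δ' X N i) - N i E`.  `∑ N i ℓ i ≥ (1+δ)⁻¹ ∑ H n ≥ (1-δ) ∑ H n`, `∑ N i ≤ (3/δ) H(2X)`,
  `X H(2X) ≤ K ∑ H n`: `V ≥ S ∑ H n (1 - 3δ - 6 δ' K/δ) - (3/δ) K X^(-κ/2) ∑ H n`; `δ' = δ²/(12 (|K|+1))`, `X` large: `V ≥ (1-4δ) S ∑ H n`.
-/

namespace Pool.Agent.H67.VW

open Finset Filter Pool.Agent.H67.VS Pool.Agent.H67.VU

private theorem as_small (C κ η : ℝ) (hκ : 0 < κ) (hη : 0 < η) :
    ∀ᶠ X : ℕ in atTop, C * (X : ℝ) ^ (-(κ / 2)) ≤ η := by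
  have h1 : Tendsto (fun x : ℝ => C * x ^ (-(κ / 2))) atTop (nhds (C * 0)) :=
    (tendsto_rpow_neg_atTop (by linarith)).const_mul C
  rw [mul_zero] at h1
  have h2 := (h1.comp tendsto_natCast_atTop_atTop).eventually (gt_mem_nhds hη)
  filter_upwards [h2] with X hX
  exact hX.le

private theorem as_theta (δ : ℝ) (hδ : 0 < δ) : ∀ᶠ X : ℕ in atTop, ∀ a b : ℕ, X ≤ a → a ≤ b →
    b ≤ 2 * X → (b : ℝ) - a - δ * X ≤ ∑ n ∈ Ioc a b, pl n := by
  have h1 := Pool.Agent.H5.PNT.theta_tendsto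
  have h2 : ∀ᶠ x : ℝ in atTop, |Chebyshev.theta x / x - 1| < δ / 4 := by
    have h3 := Metric.tendsto_nhds.1 h1 (δ / 4) (by positivity)
    filter_upwards [h3] with x hx
    rwa [Real.dist_eq] at hx
  obtain ⟨x0, hx0⟩ := eventually_atTop.1 h2
  have hnat := tendsto_natCast_atTop_atTop (R := ℝ)
  filter_upwards [hnat.eventually_ge_atTop x0, eventually_ge_atTop 1] with X hX hX1 a b ha hab hb
  have hX1' : (1 : ℝ) ≤ X := by exact_mod_cast hX1
  have haX : (X : ℝ) ≤ a := by exact_mod_cast ha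
  have hab' : (a : ℝ) ≤ b := by exact_mod_cast hab
  have hbX : (b : ℝ) ≤ 2 * X := by exact_mod_cast hb
  have ha0 : (0 : ℝ) < a := by linarith
  have hb0 : (0 : ℝ) < b := by linarith
  rw [← pnt3_theta a b hab]
  have h3 := hx0 (a : ℝ) (by linarith)
  have h4 := hx0 (b : ℝ) (by linarith)
  rw [abs_lt] at h3 h4
  have h5 : Chebyshev.theta (a : ℝ) ≤ (1 + δ / 4) * a := by
    have := h3.2
    have h6 : Chebyshev.theta (a : ℝ) / a < 1 + δ / 4 := by linarith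
    rw [div_lt_iff₀ ha0] at h6
    exact h6.le
  have h7 : (1 - δ / 4) * b ≤ Chebyshev.theta (b : ℝ) := by
    have := h4.1
    have h6 : 1 - δ / 4 < Chebyshev.theta (b : ℝ) / b := by linarith
    rw [lt_div_iff₀ hb0] at h6
    exact h6.le
  nlinarith

private theorem as_S1 (Z D : ℕ) : 0 ≤ S1 Z D := sum_nonneg fun r _ => by positivity

private theorem as_V (a b : ℕ) (H : ℕ → ℕ) (f : ℕ → ℝ) :
    0 ≤ ∑ n ∈ Ioc a b, (PH (H n) n - f n) ^ 2 := sum_nonneg fun _ _ => sq_nonneg _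

theorem asmA {θ κ d δ : ℝ} (hP : PW θ κ d) (hδ : 0 < δ) (hδ1 : δ ≤ 1 / 4) :
    ∀ᶠ X : ℕ in atTop, ∀ (H : ℕ → ℕ) (f : ℕ → ℝ), HL θ X H → FB θ κ X f →
    (1 - 4 * δ) * S1 (Zw θ κ X) (Dw d X) * ((X : ℝ) * H X) ≤
      ∑ n ∈ Ioc X (2 * X), (PH (H n) n - f n) ^ 2 := by
  have hκ := hP.κ0
  have hθ := hP.θ0
  have hθ1 := hP.θ1
  have hlow := hP.low
  have hlog : 0 < Real.log (1 + δ) := Real.log_pos (by linarith)
  have hnat := tendsto_natCast_atTop_atTop (R := ℝ)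
  filter_upwards [piece_ineq hP hδ hδ1, VU.pntA (δ / 4) (by positivity), hnat.eventually (s1_pw hP),
    as_small (1 + 1 / Real.log (1 + δ)) κ (15 / 2 * δ * κ) hκ (by positivity),
    eventually_ge_atTop 3] with X hpiece hpnt hS hsm hX3 H f hH hf
  obtain ⟨J, a, b, N, hJ, hpr, hsum, hNs⟩ := pieces_ex hδ hδ1 X H hH.mono hH.one
  have hX0 : (0 : ℝ) < X := by exact_mod_cast (by omega : 0 < X)
  have hX3' : (3 : ℝ) ≤ X := by exact_mod_cast hX3
  have hlogX : 1 ≤ Real.log X := by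
    rw [Real.le_log_iff_exp_le hX0]
    have := Real.exp_one_lt_d9
    linarith
  obtain ⟨S, hSe⟩ : ∃ S, S = S1 (Zw θ κ X) (Dw d X) := ⟨_, rfl⟩
  have hS0 : 0 ≤ S := by
    rw [hSe]
    exact as_S1 _ _
  rw [← hSe] at hS ⊢
  have hS5 : 5 * κ * Real.log X ≤ S := by
    refine le_trans ?_ hS
    apply mul_le_mul_of_nonneg_right _ (by linarith)
    linarith
  obtain ⟨E, hE⟩ : ∃ E, E = (X : ℝ) ^ (1 - κ / 2) := ⟨_, rfl⟩
  have hE0 : 0 ≤ E := by
    rw [hE]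
    positivity
  have hEX : E = X * (X : ℝ) ^ (-(κ / 2)) := by
    rw [hE]
    nth_rewrite 2 [← Real.rpow_one (X : ℝ)]
    rw [← Real.rpow_add hX0]
    congr 1
  have hHX : (1 : ℝ) ≤ H X := by exact_mod_cast hH.one
  -- the pieces
  have hpc : ∀ i ∈ range J, (1 - 2 * δ) * H X * S *
      (2 * ∑ n ∈ Ioc (a i) (b i), pl n - ∑ n ∈ Ioc (a i) (b i), (1 : ℝ)) - H X * E ≤
      ∑ n ∈ Ioc (a i) (b i), (PH (H n) n - f n) ^ 2 := by
    intro i hi
    rw [mem_range] at hi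
    obtain ⟨p1, p2, p3, p4, p5, p6⟩ := hpr i hi
    have hN1 : 1 ≤ N i := le_trans hH.one p4
    have hNr : (1 : ℝ) ≤ N i := by exact_mod_cast hN1
    have hNX : (N i : ℝ) ≤ (X : ℝ) ^ θ := le_trans (by exact_mod_cast p5) hH.up
    have hmono : MonotoneOn H (Set.Icc (a i) (b i)) :=
      hH.mono.mono (Set.Icc_subset_Icc p1 p3)
    have hn2 : ∀ n ∈ Ioc (a i) (b i), N i ≤ H n ∧ H n ≤ 2 * N i := by
      intro n hn
      refine ⟨(p6 n hn).1, ?_⟩
      have h1 := (p6 n hn).2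
      have h2 : (H n : ℝ) ≤ 2 * N i := by
        refine le_trans h1 ?_
        apply mul_le_mul_of_nonneg_right _ (by positivity)
        linarith
      exact_mod_cast h2
    obtain ⟨Φ, hΦ1, hΦ2, hΦ3⟩ := hpiece (a i) (b i) (N i) H f p1 p2 p3 hN1 hNX hmono hn2 hf
    rw [← hSe, ← hE] at hΦ3
    have hone : ∑ n ∈ Ioc (a i) (b i), (1 : ℝ) = (b i : ℝ) - a i := by
      rw [sum_const, Nat.card_Ioc, nsmul_eq_mul, mul_one, Nat.cast_sub p2]
    rw [hone]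
    have hd : 0 < 1 - 2 * δ := by linarith
    have hΦ0 : 0 < Φ := lt_of_lt_of_le (by positivity) hΦ1
    have hHN : (H X : ℝ) ≤ N i := by exact_mod_cast p4
    obtain ⟨lam, hlam⟩ : ∃ lam, lam = (1 - 2 * δ) * H X / Φ := ⟨_, rfl⟩
    have hlam0 : 0 ≤ lam := by
      rw [hlam]
      positivity
    have hlam1 : lam ≤ 1 := by
      rw [hlam, div_le_one hΦ0]
      refine le_trans ?_ hΦ1
      exact mul_le_mul_of_nonneg_left hHN hd.le
    have hlamΦ : lam * Φ = (1 - 2 * δ) * H X := by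
      rw [hlam]
      field_simp
    have hlamN : lam * N i ≤ H X := by
      rw [hlam, div_mul_eq_mul_div, div_le_iff₀ hΦ0]
      calc (1 - 2 * δ) * H X * N i = H X * ((1 - 2 * δ) * N i) := by ring
        _ ≤ H X * Φ := mul_le_mul_of_nonneg_left hΦ1 (by positivity)
    have hV := as_V (a i) (b i) H f
    obtain ⟨V, hVe⟩ : ∃ V, V = ∑ n ∈ Ioc (a i) (b i), (PH (H n) n - f n) ^ 2 := ⟨_, rfl⟩
    obtain ⟨t, hte⟩ : ∃ t, t = 2 * ∑ n ∈ Ioc (a i) (b i), pl n - ((b i : ℝ) - a i) := ⟨_, rfl⟩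
    rw [← hVe] at hV hΦ3 ⊢
    rw [← hte] at hΦ3 ⊢
    have h1 : lam * (S * Φ * t - N i * E) ≤ lam * V := mul_le_mul_of_nonneg_left hΦ3 hlam0
    have h2 : lam * V ≤ V := by
      calc lam * V ≤ 1 * V := mul_le_mul_of_nonneg_right hlam1 hV
        _ = V := one_mul V
    have h3 : lam * (S * Φ * t - N i * E) = (1 - 2 * δ) * H X * S * t - lam * N i * E := by
      rw [← hlamΦ]
      ring
    have h4 : lam * N i * E ≤ H X * E := mul_le_mul_of_nonneg_right hlamN hE0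
    linarith
  have hsum1 := sum_le_sum hpc
  rw [← hsum (fun n => (PH (H n) n - f n) ^ 2)] at hsum1
  have e1 : ∑ i ∈ range J, ((1 - 2 * δ) * H X * S *
      (2 * ∑ n ∈ Ioc (a i) (b i), pl n - ∑ n ∈ Ioc (a i) (b i), (1 : ℝ)) - H X * E) =
      (1 - 2 * δ) * H X * S * (2 * ∑ n ∈ Ioc X (2 * X), pl n - X) - J * (H X * E) := by
    rw [sum_sub_distrib, sum_const, card_range, nsmul_eq_mul, ← mul_sum, sum_sub_distrib,
      ← mul_sum, ← hsum pl, ← hsum (fun _ => (1 : ℝ))]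
    rw [sum_const, Nat.card_Ioc, nsmul_eq_mul, mul_one, show 2 * X - X = X by omega]
  rw [e1] at hsum1
  -- J E is small
  have hJ2 : (J : ℝ) ≤ Real.log X * (1 + 1 / Real.log (1 + δ)) := by
    have h1 : Real.log (H (2 * X)) ≤ Real.log X := by
      have h2 : (1 : ℝ) ≤ H (2 * X) := by
        have h3 : H X ≤ H (2 * X) := hH.mono (Set.mem_Icc.2 ⟨le_rfl, by omega⟩)
          (Set.mem_Icc.2 ⟨by omega, le_rfl⟩) (by omega)
        exact_mod_cast le_trans hH.one h3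
      apply Real.log_le_log (by linarith)
      refine le_trans hH.up ?_
      calc (X : ℝ) ^ θ ≤ (X : ℝ) ^ (1 : ℝ) :=
            Real.rpow_le_rpow_of_exponent_le (by linarith) (by linarith)
        _ = X := Real.rpow_one _
    calc (J : ℝ) ≤ 1 + Real.log (H (2 * X)) / Real.log (1 + δ) := hJ
      _ ≤ Real.log X + Real.log X / Real.log (1 + δ) := by
          apply add_le_add hlogX
          exact div_le_div_of_nonneg_right h1 hlog.le
      _ = Real.log X * (1 + 1 / Real.log (1 + δ)) := by ring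
  have hJE : (J : ℝ) * E ≤ 3 / 2 * δ * S * X := by
    calc (J : ℝ) * E ≤ (Real.log X * (1 + 1 / Real.log (1 + δ))) * E :=
          mul_le_mul_of_nonneg_right hJ2 hE0
      _ = Real.log X * X * ((1 + 1 / Real.log (1 + δ)) * (X : ℝ) ^ (-(κ / 2))) := by
          rw [hEX]
          ring
      _ ≤ Real.log X * X * (15 / 2 * δ * κ) :=
          mul_le_mul_of_nonneg_left hsm (by positivity)
      _ = 3 / 2 * δ * (5 * κ * Real.log X) * X := by ring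
      _ ≤ 3 / 2 * δ * S * X := by
          apply mul_le_mul_of_nonneg_right _ hX0.le
          exact mul_le_mul_of_nonneg_left hS5 (by positivity)
  refine le_trans ?_ hsum1
  have h5 : (1 - δ / 2) * X ≤ 2 * ∑ n ∈ Ioc X (2 * X), pl n - X := by linarith
  have h6 : (1 - 2 * δ) * H X * S * ((1 - δ / 2) * X) ≤
      (1 - 2 * δ) * H X * S * (2 * ∑ n ∈ Ioc X (2 * X), pl n - X) := by
    apply mul_le_mul_of_nonneg_left h5
    apply mul_nonneg (mul_nonneg (by linarith) (by positivity)) hS0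
  have h7 : (J : ℝ) * (H X * E) ≤ 3 / 2 * δ * S * X * H X := by
    calc (J : ℝ) * (H X * E) = (J * E) * H X := by ring
      _ ≤ (3 / 2 * δ * S * X) * H X := mul_le_mul_of_nonneg_right hJE (by positivity)
  have h8 : 0 ≤ S * X * H X := by positivity
  have h9 : (1 - 4 * δ) * S * ((X : ℝ) * H X) ≤
      (1 - 2 * δ) * H X * S * ((1 - δ / 2) * X) - 3 / 2 * δ * S * X * H X := by
    have : (1 - 2 * δ) * H X * S * ((1 - δ / 2) * X) - 3 / 2 * δ * S * X * H X -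
        (1 - 4 * δ) * S * ((X : ℝ) * H X) = δ ^ 2 * (S * X * H X) := by ring
    have h10 : 0 ≤ δ ^ 2 * (S * X * H X) := by positivity
    linarith
  linarith

theorem asmB {θ κ d δ : ℝ} (K : ℝ) (hP : PW θ κ d) (hδ : 0 < δ) (hδ1 : δ ≤ 1 / 4) :
    ∀ᶠ X : ℕ in atTop, ∀ (H : ℕ → ℕ) (f : ℕ → ℝ), HL θ X H → FB θ κ X f →
    (X : ℝ) * H (2 * X) ≤ K * ∑ n ∈ Ioc X (2 * X), (H n : ℝ) →
    (1 - 4 * δ) * S1 (Zw θ κ X) (Dw d X) * ∑ n ∈ Ioc X (2 * X), (H n : ℝ) ≤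
      ∑ n ∈ Ioc X (2 * X), (PH (H n) n - f n) ^ 2 := by
  have hκ := hP.κ0
  have hθ := hP.θ0
  have hθ1 := hP.θ1
  have hlow := hP.low
  obtain ⟨δ', hδ'⟩ : ∃ δ', δ' = δ ^ 2 / (12 * (|K| + 1)) := ⟨_, rfl⟩
  have hK1 : 0 < |K| + 1 := by positivity
  have hδ'0 : 0 < δ' := by
    rw [hδ']
    positivity
  have hδ'K : 6 * δ' * |K| / δ ≤ δ / 2 := by
    rw [hδ', div_le_iff₀ hδ]
    have h1 : 6 * (δ ^ 2 / (12 * (|K| + 1))) * |K| = δ ^ 2 / 2 * (|K| / (|K| + 1)) := by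
      field_simp
      ring
    have h2 : |K| / (|K| + 1) ≤ 1 := by
      rw [div_le_one hK1]
      linarith
    rw [h1]
    calc δ ^ 2 / 2 * (|K| / (|K| + 1)) ≤ δ ^ 2 / 2 * 1 := mul_le_mul_of_nonneg_left h2 (by positivity)
      _ = δ / 2 * δ := by ring
  have hnat := tendsto_natCast_atTop_atTop (R := ℝ)
  filter_upwards [piece_ineq hP hδ hδ1, as_theta δ' hδ'0, hnat.eventually (s1_pw hP),
    as_small (3 / δ * |K|) κ (5 / 2 * δ * κ) hκ (by positivity),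
    eventually_ge_atTop 3] with X hpiece hpnt hS hsm hX3 H f hH hf hKH
  obtain ⟨J, a, b, N, hJ, hpr, hsum, hNs⟩ := pieces_ex hδ hδ1 X H hH.mono hH.one
  have hX0 : (0 : ℝ) < X := by exact_mod_cast (by omega : 0 < X)
  have hX3' : (3 : ℝ) ≤ X := by exact_mod_cast hX3
  have hlogX : 1 ≤ Real.log X := by
    rw [Real.le_log_iff_exp_le hX0]
    have := Real.exp_one_lt_d9
    linarith
  obtain ⟨S, hSe⟩ : ∃ S, S = S1 (Zw θ κ X) (Dw d X) := ⟨_, rfl⟩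
  have hS0 : 0 ≤ S := by
    rw [hSe]
    exact as_S1 _ _
  rw [← hSe] at hS ⊢
  have hS5 : 5 * κ ≤ S := by
    refine le_trans ?_ hS
    calc 5 * κ = (5 * κ) * 1 := by ring
      _ ≤ (d - θ - 5 * κ) * Real.log X :=
        mul_le_mul (by linarith) hlogX (by norm_num) (by linarith)
  obtain ⟨E, hE⟩ : ∃ E, E = (X : ℝ) ^ (1 - κ / 2) := ⟨_, rfl⟩
  have hE0 : 0 ≤ E := by
    rw [hE]
    positivity
  have hEX : E = X * (X : ℝ) ^ (-(κ / 2)) := by
    rw [hE]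
    nth_rewrite 2 [← Real.rpow_one (X : ℝ)]
    rw [← Real.rpow_add hX0]
    congr 1
  obtain ⟨M, hM⟩ : ∃ M, M = ∑ n ∈ Ioc X (2 * X), (H n : ℝ) := ⟨_, rfl⟩
  have hM0 : 0 ≤ M := by
    rw [hM]
    positivity
  rw [← hM] at hKH ⊢
  have hKM : (X : ℝ) * H (2 * X) ≤ |K| * M :=
    le_trans hKH (mul_le_mul_of_nonneg_right (le_abs_self K) hM0)
  have hd : 0 < 1 - 2 * δ := by linarith
  -- the pieces
  have hpc : ∀ i ∈ range J, S * ((1 - 2 * δ) * (1 - δ) * ∑ n ∈ Ioc (a i) (b i), (H n : ℝ)) -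
      S * (2 * δ' * X) * N i - E * N i ≤
      ∑ n ∈ Ioc (a i) (b i), (PH (H n) n - f n) ^ 2 := by
    intro i hi
    rw [mem_range] at hi
    obtain ⟨p1, p2, p3, p4, p5, p6⟩ := hpr i hi
    have hN1 : 1 ≤ N i := le_trans hH.one p4
    have hNr : (1 : ℝ) ≤ N i := by exact_mod_cast hN1
    have hNX : (N i : ℝ) ≤ (X : ℝ) ^ θ := le_trans (by exact_mod_cast p5) hH.up
    have hmono : MonotoneOn H (Set.Icc (a i) (b i)) :=
      hH.mono.mono (Set.Icc_subset_Icc p1 p3)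
    have hn2 : ∀ n ∈ Ioc (a i) (b i), N i ≤ H n ∧ H n ≤ 2 * N i := by
      intro n hn
      refine ⟨(p6 n hn).1, ?_⟩
      have h1 := (p6 n hn).2
      have h2 : (H n : ℝ) ≤ 2 * N i := by
        refine le_trans h1 ?_
        apply mul_le_mul_of_nonneg_right _ (by positivity)
        linarith
      exact_mod_cast h2
    obtain ⟨Φ, hΦ1, hΦ2, hΦ3⟩ := hpiece (a i) (b i) (N i) H f p1 p2 p3 hN1 hNX hmono hn2 hf
    rw [← hSe, ← hE] at hΦ3
    have hΦ0 : 0 < Φ := lt_of_lt_of_le (by positivity) hΦ1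
    have hth := hpnt (a i) (b i) p1 p2 p3
    have hl : (0 : ℝ) ≤ (b i : ℝ) - a i := by
      have : (a i : ℝ) ≤ b i := by exact_mod_cast p2
      linarith
    have hHs : ∑ n ∈ Ioc (a i) (b i), (H n : ℝ) ≤ (1 + δ) * N i * ((b i : ℝ) - a i) := by
      calc ∑ n ∈ Ioc (a i) (b i), (H n : ℝ) ≤ ∑ n ∈ Ioc (a i) (b i), (1 + δ) * (N i : ℝ) :=
            sum_le_sum fun n hn => (p6 n hn).2
        _ = (1 + δ) * N i * ((b i : ℝ) - a i) := by
            rw [sum_const, Nat.card_Ioc, nsmul_eq_mul, Nat.cast_sub p2]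
            ring
    have hHs0 : 0 ≤ ∑ n ∈ Ioc (a i) (b i), (H n : ℝ) := by positivity
    obtain ⟨h, hh⟩ : ∃ h, h = ∑ n ∈ Ioc (a i) (b i), (H n : ℝ) := ⟨_, rfl⟩
    obtain ⟨l, hle⟩ : ∃ l, l = (b i : ℝ) - a i := ⟨_, rfl⟩
    rw [← hh] at hHs hHs0 ⊢
    rw [← hle] at hl hHs hΦ3 hth
    have h1 : (1 - δ) * h ≤ N i * l := by
      calc (1 - δ) * h ≤ (1 - δ) * ((1 + δ) * N i * l) :=
            mul_le_mul_of_nonneg_left hHs (by linarith)
        _ = N i * l - δ ^ 2 * (N i * l) := by ring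
        _ ≤ N i * l := by
            have : 0 ≤ δ ^ 2 * (N i * l) := by positivity
            linarith
    have h2 : l - 2 * δ' * X ≤ 2 * ∑ n ∈ Ioc (a i) (b i), pl n - l := by linarith
    have h3 : (1 - 2 * δ) * ((1 - δ) * h) - 2 * δ' * X * N i ≤ Φ * (l - 2 * δ' * X) := by
      have h4 : (1 - 2 * δ) * ((1 - δ) * h) ≤ Φ * l := by
        calc (1 - 2 * δ) * ((1 - δ) * h) ≤ (1 - 2 * δ) * (N i * l) :=
              mul_le_mul_of_nonneg_left h1 hd.le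
          _ = ((1 - 2 * δ) * N i) * l := by ring
          _ ≤ Φ * l := mul_le_mul_of_nonneg_right hΦ1 hl
      have h5 : Φ * (2 * δ' * X) ≤ N i * (2 * δ' * X) :=
        mul_le_mul_of_nonneg_right hΦ2 (by positivity)
      linarith
    have h6 : S * ((1 - 2 * δ) * ((1 - δ) * h) - 2 * δ' * X * N i) ≤
        S * Φ * (2 * ∑ n ∈ Ioc (a i) (b i), pl n - l) := by
      calc S * ((1 - 2 * δ) * ((1 - δ) * h) - 2 * δ' * X * N i)
          ≤ S * (Φ * (l - 2 * δ' * X)) := mul_le_mul_of_nonneg_left h3 hS0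
        _ = (S * Φ) * (l - 2 * δ' * X) := by ring
        _ ≤ (S * Φ) * (2 * ∑ n ∈ Ioc (a i) (b i), pl n - l) :=
            mul_le_mul_of_nonneg_left h2 (by positivity)
    refine le_trans ?_ hΦ3
    have h7 : S * ((1 - 2 * δ) * (1 - δ) * h) - S * (2 * δ' * X) * N i - E * N i =
        S * ((1 - 2 * δ) * ((1 - δ) * h) - 2 * δ' * X * N i) - N i * E := by ring
    rw [h7]
    linarith
  have hsum1 := sum_le_sum hpc
  rw [← hsum (fun n => (PH (H n) n - f n) ^ 2)] at hsum1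
  have e1 : ∑ i ∈ range J, (S * ((1 - 2 * δ) * (1 - δ) * ∑ n ∈ Ioc (a i) (b i), (H n : ℝ)) -
      S * (2 * δ' * X) * N i - E * N i) =
      S * ((1 - 2 * δ) * (1 - δ) * M) - (S * (2 * δ' * X) + E) * ∑ i ∈ range J, (N i : ℝ) := by
    rw [sum_sub_distrib, sum_sub_distrib, ← mul_sum, ← mul_sum, ← mul_sum, ← mul_sum,
      ← hsum (fun n => (H n : ℝ)), ← hM]
    ring
  rw [e1] at hsum1
  refine le_trans ?_ hsum1
  have h1 : (S * (2 * δ' * X) + E) * ∑ i ∈ range J, (N i : ℝ) ≤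
      (S * (2 * δ' * X) + E) * (3 / δ * H (2 * X)) :=
    mul_le_mul_of_nonneg_left hNs (by positivity)
  have h2 : S * (2 * δ' * X) * (3 / δ * H (2 * X)) ≤ S * (δ / 2) * M := by
    calc S * (2 * δ' * X) * (3 / δ * H (2 * X)) = S * (6 * δ' / δ) * (X * H (2 * X)) := by ring
      _ ≤ S * (6 * δ' / δ) * (|K| * M) := mul_le_mul_of_nonneg_left hKM (by positivity)
      _ = S * (6 * δ' * |K| / δ) * M := by ring
      _ ≤ S * (δ / 2) * M := by
          apply mul_le_mul_of_nonneg_right _ hM0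
          exact mul_le_mul_of_nonneg_left hδ'K hS0
  have h3 : E * (3 / δ * H (2 * X)) ≤ S * (δ / 2) * M := by
    calc E * (3 / δ * H (2 * X)) = (3 / δ) * (X : ℝ) ^ (-(κ / 2)) * (X * H (2 * X)) := by
          rw [hEX]
          ring
      _ ≤ (3 / δ) * (X : ℝ) ^ (-(κ / 2)) * (|K| * M) :=
          mul_le_mul_of_nonneg_left hKM (by positivity)
      _ = (3 / δ * |K| * (X : ℝ) ^ (-(κ / 2))) * M := by ring
      _ ≤ (5 / 2 * δ * κ) * M := mul_le_mul_of_nonneg_right hsm hM0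
      _ = (5 * κ) * (δ / 2) * M := by ring
      _ ≤ S * (δ / 2) * M := by
          apply mul_le_mul_of_nonneg_right _ hM0
          exact mul_le_mul_of_nonneg_right hS5 (by positivity)
  have h4 : S * ((1 - 2 * δ) * (1 - δ) * M) - (1 - 4 * δ) * S * M - 2 * (S * (δ / 2) * M) =
      2 * δ ^ 2 * (S * M) := by ring
  have h5 : 0 ≤ 2 * δ ^ 2 * (S * M) := by positivity
  have h6 : (S * (2 * δ' * X) + E) * (3 / δ * H (2 * X)) =
      S * (2 * δ' * X) * (3 / δ * H (2 * X)) + E * (3 / δ * H (2 * X)) := by ring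
  linarith

end Pool.Agent.H67.VW
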