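import Pool.Agent.H67.VW.Defs
import Pool.Agent.H67.VW.Arith

/-!
[H67 VW CONVK]  A polynomial times an initial segment of the character sum.

Notation: `zc B a l = ∑_{m ∈ Ioc M1 M2, 1 ≤ b ≤ B, m b = l} a m`.
Proofs.
* `conv_eq`: `(∑_{m ∈ Ioc M1 M2} a m χ(m)) (∑_{1 ≤ b ≤ B} χ(b)) = ∑_{m,b} a m χ(m b)`, sort by `l = m b ∈ (0, M2 B]`.
* `conv_sq`: `‖zc .. l‖` for the coefficients `a 1[f m = g p]`: `∑_p ‖z_p(l)‖^2 ≤ (∑_p ‖z_p(l)‖)^2 ≤ (∑_{m b = l} ‖a m‖)^2 ≤ (α τ(l))^2`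
  (each `m` belongs to at most one `p` since `g` is injective; `m ∣ l` determines `b`), and `tau_sq`.
-/

namespace Pool.Agent.H67.VW

open Finset

/-- the coefficients of the product -/
noncomputable def zc (M1 M2 B : ℕ) (a : ℕ → ℂ) (l : ℕ) : ℂ :=
  ∑ p ∈ ((Ioc M1 M2) ×ˢ (Ioc 0 B)).filter (fun p => p.1 * p.2 = l), a p.1

theorem conv_eq (M1 M2 B : ℕ) (a : ℕ → ℂ) {q : ℕ} (χ : DirichletCharacter ℂ q) :
    (∑ m ∈ Ioc M1 M2, a m * χ (m : ZMod q)) * Kc B χ =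
      ∑ l ∈ Ioc 0 (M2 * B), zc M1 M2 B a l * χ (l : ZMod q) := by
  have h1 : (∑ m ∈ Ioc M1 M2, a m * χ (m : ZMod q)) * Kc B χ =
      ∑ x ∈ (Ioc M1 M2) ×ˢ (Ioc 0 B), a x.1 * χ ((x.1 * x.2 : ℕ) : ZMod q) := by
    rw [Kc, Finset.sum_mul_sum, Finset.sum_product]
    refine Finset.sum_congr rfl fun m _ => Finset.sum_congr rfl fun b _ => ?_
    push_cast
    rw [map_mul]
    ring
  rw [h1]
  have hmap : ∀ x ∈ (Ioc M1 M2) ×ˢ (Ioc 0 B), x.1 * x.2 ∈ Ioc 0 (M2 * B) := by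
    intro x hx
    rw [Finset.mem_product, Finset.mem_Ioc, Finset.mem_Ioc] at hx
    obtain ⟨⟨h1, h2⟩, h3, h4⟩ := hx
    rw [Finset.mem_Ioc]
    exact ⟨Nat.mul_pos (by omega) h3, Nat.mul_le_mul h2 h4⟩
  rw [← Finset.sum_fiberwise_of_maps_to hmap]
  refine Finset.sum_congr rfl fun l _ => ?_
  rw [zc, Finset.sum_mul]
  refine Finset.sum_congr rfl fun x hx => ?_
  rw [Finset.mem_filter] at hx
  rw [hx.2]

/-- the number of factorisations is at most the number of divisors -/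
theorem card_fact_le (M1 M2 B l : ℕ) (hl : l ≠ 0) :
    (((Ioc M1 M2) ×ˢ (Ioc 0 B)).filter (fun p => p.1 * p.2 = l)).card ≤ l.divisors.card := by
  refine Finset.card_le_card_of_injOn (fun p => p.1) ?_ ?_
  · intro x hx
    rw [Finset.mem_coe, Finset.mem_filter] at hx
    rw [Finset.mem_coe, Nat.mem_divisors]
    exact ⟨⟨x.2, hx.2.symm⟩, hl⟩
  · intro x hx y hy hxy
    rw [Finset.mem_coe, Finset.mem_filter] at hx hy
    have hxy' : x.1 = y.1 := hxy
    have h0 : 0 < x.1 := by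
      rcases Nat.eq_zero_or_pos x.1 with h | h
      · exfalso
        apply hl
        rw [← hx.2, h, zero_mul]
      · exact h
    have h1 : x.1 * x.2 = x.1 * y.2 := by
      rw [hx.2, hxy', hy.2]
    exact Prod.ext hxy' (Nat.eq_of_mul_eq_mul_left h0 h1)

theorem sum_ite_inj_le (α : ℝ) (hα : 0 ≤ α) (v : ℕ) (g : ℕ → ℕ) (hg : Function.Injective g)
    (P : Finset ℕ) : ∑ p ∈ P, (if v = g p then α else 0) ≤ α := by
  rw [← Finset.sum_filter, Finset.sum_const, nsmul_eq_mul]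
  have hc : (P.filter (fun p => v = g p)).card ≤ 1 := by
    rw [Finset.card_le_one]
    intro x hx y hy
    rw [Finset.mem_filter] at hx hy
    exact hg (hx.2.symm.trans hy.2)
  have hc' : ((P.filter (fun p => v = g p)).card : ℝ) ≤ 1 := by exact_mod_cast hc
  calc ((P.filter (fun p => v = g p)).card : ℝ) * α ≤ 1 * α :=
        mul_le_mul_of_nonneg_right hc' hα
    _ = α := one_mul α

theorem conv_sq (M1 M2 B : ℕ) (a : ℕ → ℂ) (α : ℝ) (hα : 0 ≤ α)
    (ha : ∀ m ∈ Ioc M1 M2, ‖a m‖ ≤ α) (f g : ℕ → ℕ) (hg : Function.Injective g) (P : Finset ℕ) :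
    ∑ p ∈ P, ∑ l ∈ Ioc 0 (M2 * B), ‖zc M1 M2 B (fun m => if f m = g p then a m else 0) l‖ ^ 2 ≤
      α ^ 2 * ((M2 * B : ℕ) * (1 + Real.log ((M2 * B : ℕ) : ℝ)) ^ 3) := by
  rw [Finset.sum_comm]
  have key : ∀ l ∈ Ioc 0 (M2 * B),
      ∑ p ∈ P, ‖zc M1 M2 B (fun m => if f m = g p then a m else 0) l‖ ^ 2 ≤
        α ^ 2 * (l.divisors.card : ℝ) ^ 2 := by
    intro l hl
    have hl0 : l ≠ 0 := by
      rw [Finset.mem_Ioc] at hl
      omega
    obtain ⟨F, hF⟩ : ∃ F : Finset (ℕ × ℕ),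
      F = ((Ioc M1 M2) ×ˢ (Ioc 0 B)).filter (fun p => p.1 * p.2 = l) := ⟨_, rfl⟩
    have hcard : (F.card : ℝ) ≤ (l.divisors.card : ℝ) := by
      rw [hF]
      exact_mod_cast card_fact_le M1 M2 B l hl0
    have hu : ∀ p ∈ P, ‖zc M1 M2 B (fun m => if f m = g p then a m else 0) l‖ ≤
        ∑ x ∈ F, (if f x.1 = g p then α else 0) := by
      intro p _
      rw [zc, ← hF]
      refine (norm_sum_le _ _).trans (Finset.sum_le_sum fun x hx => ?_)
      rw [hF, Finset.mem_filter, Finset.mem_product] at hx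
      by_cases h : f x.1 = g p
      · rw [if_pos h, if_pos h]
        exact ha _ hx.1.1
      · rw [if_neg h, if_neg h, norm_zero]
    have hsum : ∑ p ∈ P, ‖zc M1 M2 B (fun m => if f m = g p then a m else 0) l‖ ≤
        α * l.divisors.card := by
      calc ∑ p ∈ P, ‖zc M1 M2 B (fun m => if f m = g p then a m else 0) l‖
          ≤ ∑ p ∈ P, ∑ x ∈ F, (if f x.1 = g p then α else 0) := Finset.sum_le_sum hu
        _ = ∑ x ∈ F, ∑ p ∈ P, (if f x.1 = g p then α else 0) := Finset.sum_comm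
        _ ≤ ∑ x ∈ F, α := Finset.sum_le_sum fun x _ => sum_ite_inj_le α hα _ g hg P
        _ = α * F.card := by rw [Finset.sum_const, nsmul_eq_mul, mul_comm]
        _ ≤ α * l.divisors.card := mul_le_mul_of_nonneg_left hcard hα
    have hone : ∀ p ∈ P, ‖zc M1 M2 B (fun m => if f m = g p then a m else 0) l‖ ≤
        α * l.divisors.card := by
      intro p hp
      refine le_trans ?_ hsum
      exact Finset.single_le_sum
        (f := fun p => ‖zc M1 M2 B (fun m => if f m = g p then a m else 0) l‖)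
        (fun i _ => norm_nonneg _) hp
    calc ∑ p ∈ P, ‖zc M1 M2 B (fun m => if f m = g p then a m else 0) l‖ ^ 2
        ≤ ∑ p ∈ P, ‖zc M1 M2 B (fun m => if f m = g p then a m else 0) l‖ *
            (α * l.divisors.card) := by
          refine Finset.sum_le_sum fun p hp => ?_
          rw [sq]
          exact mul_le_mul_of_nonneg_left (hone p hp) (norm_nonneg _)
      _ = (∑ p ∈ P, ‖zc M1 M2 B (fun m => if f m = g p then a m else 0) l‖) *
            (α * l.divisors.card) := by rw [Finset.sum_mul]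
      _ ≤ (α * l.divisors.card) * (α * l.divisors.card) :=
          mul_le_mul_of_nonneg_right hsum (mul_nonneg hα (Nat.cast_nonneg _))
      _ = α ^ 2 * (l.divisors.card : ℝ) ^ 2 := by ring
  calc ∑ l ∈ Ioc 0 (M2 * B), ∑ p ∈ P,
        ‖zc M1 M2 B (fun m => if f m = g p then a m else 0) l‖ ^ 2
      ≤ ∑ l ∈ Ioc 0 (M2 * B), α ^ 2 * (l.divisors.card : ℝ) ^ 2 := Finset.sum_le_sum key
    _ = α ^ 2 * ∑ l ∈ Icc 1 (M2 * B), (l.divisors.card : ℝ) ^ 2 := by
        rw [← Finset.mul_sum]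
        rfl
    _ ≤ α ^ 2 * ((M2 * B : ℕ) * (1 + Real.log ((M2 * B : ℕ) : ℝ)) ^ 3) :=
        mul_le_mul_of_nonneg_left (tau_sq (M2 * B)) (sq_nonneg α)

end Pool.Agent.H67.VW
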