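import Pool.Agent.H67.VW.Defs
import Pool.Agent.H67.VS.CharB

/-!
[H67 VW CP4]  Primes in a reduced class, in terms of primitive characters.

Proof.  `VS.charb_orth` (`m = d`): left side `= ∑_{χ mod d} χ⁻¹(a) ThC χ`.  Every `χ` mod `d` is `changeLevel` of its primitive
character (`χ.primitiveCharacter`, conductor `r ∣ d`, `changeLevel_primitiveCharacter`); `charb_ThC` (`d ≤ A`): `ThC χ = ThC` of
the primitive character, `charb_lift_int`: same value at `a` (a unit mod `d`; use it for the inverse characters, `map_inv`).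
The map `c ↦ changeLevel c.2` is a bijection from `{c ∈ PC R : c.md ∣ d}` to the `χ ≠ 1` mod `d` (injective: equal lifts have
equal conductor, `DirichletCharacter.conductor_changeLevel`, `changeLevel_injective`; see `H21.MT.ch_pair` in
`Pool/Agent/H21/MT/Ch.lean`; surjective: `r ≥ 2` if `χ ≠ 1`, `r ≤ d ≤ R`, see `char_bound` in `VS/CharB.lean`).
For `χ = 1`: `χ⁻¹(a) = 1` and `ThC = ∑ w pl` over the `n` coprime to `d`, and primes `n > A ≥ d` are coprime to `d`
(or: `1 = changeLevel (1 mod 1)`, `charb_ThC`).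
-/

namespace Pool.Agent.H67.VW

open Finset Pool.Agent.H21.MT Pool.Agent.H67.VS

theorem cp4_one {A B : ℕ} {w : ℕ → ℝ} (d : ℕ) (hd : 1 ≤ d) (hdA : d ≤ A) :
    ThC A B w (1 : DirichletCharacter ℂ d) = ((theta A B w : ℝ) : ℂ) := by
  unfold ThC theta
  rw [Complex.ofReal_sum]
  refine Finset.sum_congr rfl fun n hn => ?_
  rw [Finset.mem_Ioc] at hn
  by_cases hp : n.Prime
  · have hc : n.Coprime d := by
      rw [Nat.Prime.coprime_iff_not_dvd hp]
      intro hdv
      have := Nat.le_of_dvd hd hdv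
      omega
    rw [MulChar.one_apply ((ZMod.isUnit_iff_coprime n d).2 hc), mul_one]
  · have : pl n = 0 := by unfold pl; rw [if_neg hp]
    rw [this]
    simp

theorem cp4_inj {d R : ℕ} (c c' : Ch R) (hp : c.2.IsPrimitive) (hp' : c'.2.IsPrimitive)
    (h : c.1.val + 1 ∣ d) (h' : c'.1.val + 1 ∣ d) [NeZero d]
    (he : DirichletCharacter.changeLevel h c.2 = DirichletCharacter.changeLevel h' c'.2) :
    c = c' := by
  obtain ⟨r, χ⟩ := c
  obtain ⟨r', χ'⟩ := c'
  simp only at hp hp' h h' he
  have h2 : χ.conductor = χ'.conductor := by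
    rw [← DirichletCharacter.conductor_changeLevel χ h, he,
      DirichletCharacter.conductor_changeLevel χ' h']
  rw [(DirichletCharacter.isPrimitive_def _).1 hp,
    (DirichletCharacter.isPrimitive_def _).1 hp'] at h2
  have h3 : r = r' := Fin.ext (by omega)
  subst h3
  have h4 := DirichletCharacter.changeLevel_injective h he
  rw [h4]

theorem cp4 {A B : ℕ} {w : ℕ → ℝ} (d R : ℕ) (a : ℤ) (hd : 1 ≤ d) (hdR : d ≤ R) (hdA : d ≤ A)
    (ha : IsUnit ((a : ℤ) : ZMod d)) :
    (d.totient : ℂ) * ((th A B w d (-a) : ℝ) : ℂ) = ((theta A B w : ℝ) : ℂ) +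
      ∑ c ∈ (PC R).filter (fun c => c.md ∣ d),
        c.2⁻¹ ((a : ℤ) : ZMod (c.1.val + 1)) * ThC A B w c.2 := by
  classical
  have hd0 : NeZero d := ⟨by omega⟩
  rw [charb_orth d a ha]
  rw [← Finset.add_sum_erase univ _ (Finset.mem_univ (1 : DirichletCharacter ℂ d))]
  congr 1
  · rw [inv_one, MulChar.one_apply ha, one_mul, cp4_one d hd hdA]
  · symm
    have hmem : ∀ c ∈ (PC R).filter (fun c => c.md ∣ d),
        c.2.IsPrimitive ∧ 2 ≤ c.md ∧ c.1.val + 1 ∣ d := by
      intro c hc
      rw [mem_filter, PC, mem_filter] at hc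
      exact ⟨hc.1.2.1, hc.1.2.2, hc.2⟩
    refine Finset.sum_bij (fun c hc => DirichletCharacter.changeLevel (hmem c hc).2.2 c.2)
      ?_ ?_ ?_ ?_
    · intro c hc
      rw [Finset.mem_erase]
      refine ⟨?_, Finset.mem_univ _⟩
      intro h1
      have h2 : c.2 = 1 := by
        apply DirichletCharacter.changeLevel_injective (hmem c hc).2.2
        rw [h1, map_one]
      exact ch_ne_one c (mem_filter.1 hc).1 h2
    · intro c hc c' hc' he
      exact cp4_inj c c' (hmem c hc).1 (hmem c' hc').1 (hmem c hc).2.2 (hmem c' hc').2.2 he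
    · intro χ hχ
      rw [Finset.mem_erase] at hχ
      have key : ∀ r (hr : r ∣ d) (χ' : DirichletCharacter ℂ r), χ'.IsPrimitive → 2 ≤ r →
          DirichletCharacter.changeLevel hr χ' = χ →
          ∃ (c : Ch R) (hc : c ∈ (PC R).filter (fun c => c.md ∣ d)),
            DirichletCharacter.changeLevel (hmem c hc).2.2 c.2 = χ := by
        intro r hr χ' hp h2 hch
        obtain ⟨m, rfl⟩ : ∃ m, r = m + 1 := ⟨r - 1, by omega⟩
        have hmR : m < R := by
          have := Nat.le_of_dvd hd hr
          omega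
        refine ⟨⟨⟨m, hmR⟩, χ'⟩, ?_, hch⟩
        rw [mem_filter, PC, mem_filter]
        exact ⟨⟨mem_univ _, hp, h2⟩, hr⟩
      refine key χ.conductor χ.conductor_dvd_level χ.primitiveCharacter
        χ.primitiveCharacter_isPrimitive ?_ χ.changeLevel_primitiveCharacter
      have h1 : χ.conductor ≠ 1 := by
        intro h
        exact hχ.1 (DirichletCharacter.eq_one_iff_conductor_eq_one.2 h)
      have h0 : χ.conductor ≠ 0 := by
        intro h
        have := χ.conductor_dvd_level
        rw [h, zero_dvd_iff] at this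
        omega
      omega
    · intro c hc
      have hdv := (hmem c hc).2.2
      rw [charb_ThC hdv (by omega) hdA c.2, ← map_inv, charb_lift_int hdv c.2⁻¹ a ha]

end Pool.Agent.H67.VW
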