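import Pool.Agent.H67.VW.ConvK
import Pool.Agent.H67.VU.Cut

/-!
[H67 VW CUTK]  The bilinear large sieve with a hyperbolic cut-off and an additional factor `Kc B`.

Proof.  Copy `bil_cut` of `Pool/Agent/H67/VU/Cut.lean` (`cut_ls`, `cut_bil` are public there).  After `bit_sum` the sum is
`∑_{i<s} ∑_p A_p(c) B_p(c)`; multiply by `Kc B c.2`: `A_p(c) Kc B c = ∑_{l ≤ M2 B} z_p(l) c(l)` (`conv_eq`), and Cauchy-Schwarz over the
pairs `(c,p)`: first factor, by `ls_mult` on `Ioc 0 (0 + M2 B)` and `conv_sq`: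
`∑_p ∑_c ‖A_p Kc‖^2 ≤ ∑_p C (M2 B + R^2) ∑_l ‖z_p(l)‖^2 ≤ C (M2 B + R^2) α^2 M2 B (1 + log (M2 B))^3`;
second factor as in `cut_bil`.
`bil_cutK2`: the same with `Kc` multiplied to the sum over `k`: exchange the roles of `(m,M1,M2,a)` and `(k,N1,N2,b)`
(`m k ≤ t` is symmetric).
-/

namespace Pool.Agent.H67.VW

open Finset Pool.Agent.H21.MT

/-- first factor: polynomial pieces times the initial segment -/
private theorem cutK_ls {C : ℝ} (hls : ∀ (R M N : ℕ) (a : ℕ → ℂ),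
      ∑ c ∈ PC R, ‖∑ n ∈ Ioc M (M + N), a n * c.2 (n : ZMod (c.1.val + 1))‖ ^ 2 ≤
        C * ((N : ℝ) + (R : ℝ) ^ 2) * ∑ n ∈ Ioc M (M + N), ‖a n‖ ^ 2) (hC : 0 < C)
    (R M1 M2 B : ℕ) (a : ℕ → ℂ) (α : ℝ) (hα : 0 ≤ α) (ha : ∀ m ∈ Ioc M1 M2, ‖a m‖ ≤ α)
    (f g : ℕ → ℕ) (hg : Function.Injective g) (P : Finset ℕ) :
    ∑ c ∈ PC R, ∑ p ∈ P, ‖(∑ m ∈ Ioc M1 M2, (if f m = g p then a m else 0) *
        c.2 (m : ZMod (c.1.val + 1))) * Kc B c.2‖ ^ 2 ≤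
      C * (((M2 * B : ℕ) : ℝ) + (R : ℝ) ^ 2) *
        (α ^ 2 * ((M2 * B : ℕ) * (1 + Real.log ((M2 * B : ℕ) : ℝ)) ^ 3)) := by
  rw [Finset.sum_comm]
  have h1 : ∀ p ∈ P, ∑ c ∈ PC R, ‖(∑ m ∈ Ioc M1 M2, (if f m = g p then a m else 0) *
        c.2 (m : ZMod (c.1.val + 1))) * Kc B c.2‖ ^ 2 ≤
      C * (((M2 * B : ℕ) : ℝ) + (R : ℝ) ^ 2) *
        ∑ l ∈ Ioc 0 (M2 * B), ‖zc M1 M2 B (fun m => if f m = g p then a m else 0) l‖ ^ 2 := by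
    intro p _
    have h2 := hls R 0 (M2 * B) (zc M1 M2 B (fun m => if f m = g p then a m else 0))
    rw [zero_add] at h2
    refine le_trans (le_of_eq ?_) h2
    refine sum_congr rfl fun c _ => ?_
    rw [← conv_eq M1 M2 B (fun m => if f m = g p then a m else 0) c.2]
  refine (sum_le_sum h1).trans ?_
  rw [← Finset.mul_sum]
  exact mul_le_mul_of_nonneg_left (conv_sq M1 M2 B a α hα ha f g hg P) (by positivity)

private theorem cutK_bil {C : ℝ} (hls : ∀ (R M N : ℕ) (a : ℕ → ℂ),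
      ∑ c ∈ PC R, ‖∑ n ∈ Ioc M (M + N), a n * c.2 (n : ZMod (c.1.val + 1))‖ ^ 2 ≤
        C * ((N : ℝ) + (R : ℝ) ^ 2) * ∑ n ∈ Ioc M (M + N), ‖a n‖ ^ 2) (hC : 0 < C)
    (R M1 M2 N1 N2 B : ℕ) (hN : N1 ≤ N2) (a b : ℕ → ℂ) (α : ℝ) (hα : 0 ≤ α)
    (ha : ∀ m ∈ Ioc M1 M2, ‖a m‖ ≤ α)
    (f g f' g' : ℕ → ℕ) (hg : Function.Injective g) (hg' : Function.Injective g')
    (P : Finset ℕ) :
    ∑ c ∈ PC R, ‖∑ p ∈ P, (∑ m ∈ Ioc M1 M2, (if f m = g p then a m else 0) *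
        c.2 (m : ZMod (c.1.val + 1))) * (∑ k ∈ Ioc N1 N2, (if f' k = g' p then b k else 0) *
        c.2 (k : ZMod (c.1.val + 1)))‖ * ‖Kc B c.2‖ ≤
      C * (Real.sqrt ((((M2 * B : ℕ) : ℝ) + (R : ℝ) ^ 2) *
          (α ^ 2 * ((M2 * B : ℕ) * (1 + Real.log ((M2 * B : ℕ) : ℝ)) ^ 3))) *
        Real.sqrt (((N2 : ℝ) - N1 + (R : ℝ) ^ 2) * ∑ k ∈ Ioc N1 N2, ‖b k‖ ^ 2)) := by
  have hN' : (N1 : ℝ) ≤ N2 := by exact_mod_cast hN
  have h1 : ∑ c ∈ PC R, ‖∑ p ∈ P, (∑ m ∈ Ioc M1 M2, (if f m = g p then a m else 0) *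
        c.2 (m : ZMod (c.1.val + 1))) * (∑ k ∈ Ioc N1 N2, (if f' k = g' p then b k else 0) *
        c.2 (k : ZMod (c.1.val + 1)))‖ * ‖Kc B c.2‖ ≤
      ∑ x ∈ PC R ×ˢ P, ‖(∑ m ∈ Ioc M1 M2, (if f m = g x.2 then a m else 0) *
        x.1.2 (m : ZMod (x.1.1.val + 1))) * Kc B x.1.2‖ *
        ‖∑ k ∈ Ioc N1 N2, (if f' k = g' x.2 then b k else 0) *
        x.1.2 (k : ZMod (x.1.1.val + 1))‖ := by
    rw [Finset.sum_product]
    refine Finset.sum_le_sum fun c _ => ?_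
    rw [← norm_mul, Finset.sum_mul]
    refine (norm_sum_le _ _).trans (Finset.sum_le_sum fun p _ => ?_)
    rw [norm_mul, norm_mul, norm_mul]
    apply le_of_eq
    ring
  refine h1.trans ((Real.sum_mul_le_sqrt_mul_sqrt _ _ _).trans ?_)
  rw [Finset.sum_product, Finset.sum_product]
  have h2 := cutK_ls hls hC R M1 M2 B a α hα ha f g hg P
  have h3 := Pool.Agent.H67.VU.cut_ls hls hC R N1 N2 hN b f' g' hg' P
  obtain ⟨U1, hU1⟩ : ∃ U1 : ℝ, U1 = (((M2 * B : ℕ) : ℝ) + (R : ℝ) ^ 2) *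
    (α ^ 2 * ((M2 * B : ℕ) * (1 + Real.log ((M2 * B : ℕ) : ℝ)) ^ 3)) := ⟨_, rfl⟩
  obtain ⟨U2, hU2⟩ : ∃ U2 : ℝ, U2 = ((N2 : ℝ) - N1 + (R : ℝ) ^ 2) *
    ∑ k ∈ Ioc N1 N2, ‖b k‖ ^ 2 := ⟨_, rfl⟩
  rw [mul_assoc, ← hU1] at h2
  rw [mul_assoc, ← hU2] at h3
  rw [← hU1, ← hU2]
  have h4 : Real.sqrt (C * U1) * Real.sqrt (C * U2) = C * (Real.sqrt U1 * Real.sqrt U2) := by
    rw [Real.sqrt_mul hC.le, Real.sqrt_mul hC.le]
    have h5 := Real.mul_self_sqrt hC.le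
    calc Real.sqrt C * Real.sqrt U1 * (Real.sqrt C * Real.sqrt U2) =
        (Real.sqrt C * Real.sqrt C) * (Real.sqrt U1 * Real.sqrt U2) := by ring
      _ = _ := by rw [h5]
  rw [← h4]
  exact mul_le_mul (Real.sqrt_le_sqrt h2) (Real.sqrt_le_sqrt h3) (Real.sqrt_nonneg _)
    (Real.sqrt_nonneg _)

/-- the binary digits: the sum as a sum of products, copied from `VU.bil_cut` -/
private theorem cutK_key (R M1 M2 N1 N2 t s : ℕ) (hs : N2 + 1 < 2 ^ s) (a b : ℕ → ℂ)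
    (c : Ch R) : (∑ m ∈ Ioc M1 M2, ∑ k ∈ Ioc N1 N2,
        if m * k ≤ t then a m * b k * c.2 ((m * k : ℕ) : ZMod (c.1.val + 1)) else 0) =
      ∑ i ∈ range s, ∑ p ∈ range (N2 + 1),
        (∑ m ∈ Ioc M1 M2, (if (min (t / m) N2 + 1) / 2 ^ i = p + 1 then a m else 0) *
          c.2 (m : ZMod (c.1.val + 1))) *
        (∑ k ∈ Ioc N1 N2, (if k / 2 ^ i = p then (if (k / 2 ^ i) % 2 = 0 then b k else 0) else 0) *
          c.2 (k : ZMod (c.1.val + 1))) := by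
  let β : ℕ → ℕ := fun m => min (t / m) N2 + 1
  have hβ : ∀ m, β m < 2 ^ s := fun m =>
    lt_of_le_of_lt (Nat.add_le_add_right (Nat.min_le_right _ _) 1) hs
  have e1 : ∀ m ∈ Ioc M1 M2, ∀ k ∈ Ioc N1 N2,
      (if m * k ≤ t then a m * b k * c.2 ((m * k : ℕ) : ZMod (c.1.val + 1)) else 0) =
      ∑ i ∈ range s, ∑ p ∈ range (N2 + 1),
        ((if β m / 2 ^ i = p + 1 then a m else 0) * c.2 (m : ZMod (c.1.val + 1))) *
        ((if k / 2 ^ i = p then (if (k / 2 ^ i) % 2 = 0 then b k else 0) else 0) *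
          c.2 (k : ZMod (c.1.val + 1))) := by
    intro m hm k hk
    rw [mem_Ioc] at hm hk
    have hm0 : 0 < m := by omega
    have e2 : m * k ≤ t ↔ k < β m := by
      have : k < β m ↔ k ≤ t / m := by
        simp only [β]
        rw [Nat.lt_succ_iff, Nat.le_min]
        exact ⟨fun h => h.1, fun h => ⟨h, hk.2⟩⟩
      rw [this, Nat.le_div_iff_mul_le hm0, mul_comm]
    have e3 : (if m * k ≤ t then a m * b k * c.2 ((m * k : ℕ) : ZMod (c.1.val + 1)) else 0) =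
        (if k < β m then (1 : ℂ) else 0) *
          (a m * b k * c.2 ((m * k : ℕ) : ZMod (c.1.val + 1))) := by
      by_cases h : m * k ≤ t
      · rw [if_pos h, if_pos (e2.1 h), one_mul]
      · rw [if_neg h, if_neg (fun h' => h (e2.2 h')), zero_mul]
    rw [e3, Pool.Agent.H67.VU.bit_sum k (β m) s (hβ m), Finset.sum_mul]
    refine Finset.sum_congr rfl fun i _ => ?_
    have hp : k / 2 ^ i ∈ range (N2 + 1) := by
      rw [mem_range]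
      have := Nat.div_le_self k (2 ^ i)
      omega
    rw [Finset.sum_eq_single_of_mem (k / 2 ^ i) hp]
    · rw [if_pos rfl, Nat.cast_mul, map_mul]
      by_cases h1 : (k / 2 ^ i) % 2 = 0
      · by_cases h2 : β m / 2 ^ i = k / 2 ^ i + 1
        · rw [if_pos ⟨h1, h2⟩, if_pos h2, if_pos h1]
          ring
        · rw [if_neg (fun h => h2 h.2), if_neg h2]
          ring
      · rw [if_neg (fun h => h1 h.1), if_neg h1]
        ring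
    · intro p _ hpk
      rw [if_neg (Ne.symm hpk)]
      ring
  rw [Finset.sum_congr rfl fun m hm => Finset.sum_congr rfl fun k hk => e1 m hm k hk]
  have e4 : ∀ (F : ℕ → ℕ → ℕ → ℕ → ℂ), ∑ m ∈ Ioc M1 M2, ∑ k ∈ Ioc N1 N2, ∑ i ∈ range s,
      ∑ p ∈ range (N2 + 1), F m k i p = ∑ i ∈ range s, ∑ p ∈ range (N2 + 1),
      ∑ m ∈ Ioc M1 M2, ∑ k ∈ Ioc N1 N2, F m k i p := by
    intro F
    calc _ = ∑ m ∈ Ioc M1 M2, ∑ i ∈ range s, ∑ k ∈ Ioc N1 N2,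
          ∑ p ∈ range (N2 + 1), F m k i p :=
          Finset.sum_congr rfl fun m _ => Finset.sum_comm
      _ = ∑ i ∈ range s, ∑ m ∈ Ioc M1 M2, ∑ k ∈ Ioc N1 N2,
          ∑ p ∈ range (N2 + 1), F m k i p := Finset.sum_comm
      _ = ∑ i ∈ range s, ∑ m ∈ Ioc M1 M2, ∑ p ∈ range (N2 + 1),
          ∑ k ∈ Ioc N1 N2, F m k i p :=
          Finset.sum_congr rfl fun i _ => Finset.sum_congr rfl fun m _ => Finset.sum_comm
      _ = _ := Finset.sum_congr rfl fun i _ => Finset.sum_comm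
  rw [e4]
  refine Finset.sum_congr rfl fun i _ => Finset.sum_congr rfl fun p _ => ?_
  rw [Finset.sum_mul_sum]

theorem bil_cutK : ∃ C : ℝ, 0 < C ∧ ∀ (R M1 M2 N1 N2 t s B : ℕ), M1 ≤ M2 → N1 ≤ N2 →
    N2 + 1 < 2 ^ s → ∀ (a b : ℕ → ℂ) (α : ℝ), 0 ≤ α → (∀ m ∈ Ioc M1 M2, ‖a m‖ ≤ α) →
    ∑ c ∈ PC R, ‖∑ m ∈ Ioc M1 M2, ∑ k ∈ Ioc N1 N2,
        if m * k ≤ t then a m * b k * c.2 ((m * k : ℕ) : ZMod (c.1.val + 1)) else 0‖ *
          ‖Kc B c.2‖ ≤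
      C * s * (Real.sqrt ((((M2 * B : ℕ) : ℝ) + (R : ℝ) ^ 2) *
          (α ^ 2 * ((M2 * B : ℕ) * (1 + Real.log ((M2 * B : ℕ) : ℝ)) ^ 3))) *
        Real.sqrt (((N2 : ℝ) - N1 + (R : ℝ) ^ 2) * ∑ k ∈ Ioc N1 N2, ‖b k‖ ^ 2)) := by
  obtain ⟨C, hC, hls⟩ := Pool.Agent.H67.VT.ls_mult
  refine ⟨C, hC, fun R M1 M2 N1 N2 t s B hM hN hs a b α hα ha => ?_⟩
  have hN' : (N1 : ℝ) ≤ N2 := by exact_mod_cast hN
  have hstep : ∑ c ∈ PC R, ‖∑ m ∈ Ioc M1 M2, ∑ k ∈ Ioc N1 N2,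
        if m * k ≤ t then a m * b k * c.2 ((m * k : ℕ) : ZMod (c.1.val + 1)) else 0‖ *
          ‖Kc B c.2‖ ≤
      ∑ i ∈ range s, ∑ c ∈ PC R, ‖∑ p ∈ range (N2 + 1),
        (∑ m ∈ Ioc M1 M2, (if (min (t / m) N2 + 1) / 2 ^ i = p + 1 then a m else 0) *
          c.2 (m : ZMod (c.1.val + 1))) *
        (∑ k ∈ Ioc N1 N2, (if k / 2 ^ i = p then (if (k / 2 ^ i) % 2 = 0 then b k else 0) else 0) *
          c.2 (k : ZMod (c.1.val + 1)))‖ * ‖Kc B c.2‖ := by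
    rw [Finset.sum_comm]
    refine Finset.sum_le_sum fun c _ => ?_
    rw [cutK_key R M1 M2 N1 N2 t s hs a b c, ← Finset.sum_mul]
    exact mul_le_mul_of_nonneg_right (norm_sum_le _ _) (norm_nonneg _)
  refine hstep.trans ?_
  have hone : ∀ i ∈ range s, ∑ c ∈ PC R, ‖∑ p ∈ range (N2 + 1),
        (∑ m ∈ Ioc M1 M2, (if (min (t / m) N2 + 1) / 2 ^ i = p + 1 then a m else 0) *
          c.2 (m : ZMod (c.1.val + 1))) *
        (∑ k ∈ Ioc N1 N2, (if k / 2 ^ i = p then (if (k / 2 ^ i) % 2 = 0 then b k else 0) else 0) *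
          c.2 (k : ZMod (c.1.val + 1)))‖ * ‖Kc B c.2‖ ≤
      C * (Real.sqrt ((((M2 * B : ℕ) : ℝ) + (R : ℝ) ^ 2) *
          (α ^ 2 * ((M2 * B : ℕ) * (1 + Real.log ((M2 * B : ℕ) : ℝ)) ^ 3))) *
        Real.sqrt (((N2 : ℝ) - N1 + (R : ℝ) ^ 2) * ∑ k ∈ Ioc N1 N2, ‖b k‖ ^ 2)) := by
    intro i _
    have h1 := cutK_bil hls hC R M1 M2 N1 N2 B hN a
      (fun k => if (k / 2 ^ i) % 2 = 0 then b k else 0) α hα ha
      (fun m => (min (t / m) N2 + 1) / 2 ^ i) (fun p => p + 1)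
      (fun k => k / 2 ^ i) (fun p => p) (fun x y h => Nat.succ_injective h) (fun x y h => h)
      (range (N2 + 1))
    refine h1.trans ?_
    refine mul_le_mul_of_nonneg_left ?_ hC.le
    refine mul_le_mul_of_nonneg_left ?_ (Real.sqrt_nonneg _)
    apply Real.sqrt_le_sqrt
    refine mul_le_mul_of_nonneg_left ?_ (by
      have : (0 : ℝ) ≤ (N2 : ℝ) - N1 := by linarith
      positivity)
    refine Finset.sum_le_sum fun k _ => ?_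
    beta_reduce
    split_ifs
    · exact le_rfl
    · rw [norm_zero, zero_pow two_ne_zero]
      positivity
  refine (Finset.sum_le_sum hone).trans ?_
  rw [Finset.sum_const, card_range, nsmul_eq_mul]
  apply le_of_eq
  ring

theorem bil_cutK2 : ∃ C : ℝ, 0 < C ∧ ∀ (R M1 M2 N1 N2 t s B : ℕ), M1 ≤ M2 → N1 ≤ N2 →
    M2 + 1 < 2 ^ s → ∀ (a b : ℕ → ℂ) (β : ℝ), 0 ≤ β → (∀ k ∈ Ioc N1 N2, ‖b k‖ ≤ β) →
    ∑ c ∈ PC R, ‖∑ m ∈ Ioc M1 M2, ∑ k ∈ Ioc N1 N2,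
        if m * k ≤ t then a m * b k * c.2 ((m * k : ℕ) : ZMod (c.1.val + 1)) else 0‖ *
          ‖Kc B c.2‖ ≤
      C * s * (Real.sqrt ((((N2 * B : ℕ) : ℝ) + (R : ℝ) ^ 2) *
          (β ^ 2 * ((N2 * B : ℕ) * (1 + Real.log ((N2 * B : ℕ) : ℝ)) ^ 3))) *
        Real.sqrt (((M2 : ℝ) - M1 + (R : ℝ) ^ 2) * ∑ m ∈ Ioc M1 M2, ‖a m‖ ^ 2)) := by
  obtain ⟨C, hC, h⟩ := bil_cutK
  refine ⟨C, hC, fun R M1 M2 N1 N2 t s B hM hN hs a b β hβ hb => ?_⟩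
  refine le_trans (le_of_eq ?_) (h R N1 N2 M1 M2 t s B hN hM hs b a β hβ hb)
  refine sum_congr rfl fun c _ => ?_
  congr 2
  rw [Finset.sum_comm]
  refine sum_congr rfl fun k _ => sum_congr rfl fun m _ => ?_
  rw [mul_comm m k, mul_comm (a m) (b k)]

end Pool.Agent.H67.VW
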