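import Pool.Agent.H67.VW.Defs

/-!
[H67 VW CVP]  The covariance of the primes and the test function on an interval.

Proof.  `PH (H n) n = ∑_{h ≤ H n} pl (n+h)`, so the right side is
`∑_{h ≤ N'} ∑_{h' ≤ N} φ(h') ∑_{n ∈ (a,b], h ≤ H n} pl(n+h) FF n h'`.  `{n ∈ (a,b] : h ≤ H n} = Ioc t b` with some `t = t_h`,
`a ≤ t ≤ b` (`H` monotone; compare `pnt3_thr` in `Pool/Agent/H67/VU/Pnt3.lean`), `t_h = a` for `h ≤ N`.  Shift `n → n - h`:
`FF ρ D n h' = FF ρ D (n+h) (h'-h)`; the inner sum is `∑_{n ∈ Ioc (t+h) (b+h)} pl n FF n (h'-h)`.  With `k = h'-h` (`|k| < N'`,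
`φ = 0` outside `[1,N]`) the terms `k ≠ 0` are bounded by `E` for every `h` (`hE`).  Terms `k = 0`: only `h ≤ N`, and a prime
`n > a ≥ D` is divisible by no `d` in `[2,D]`, so `FF ρ D n 0 = ρ 1`;
`∑_{n ∈ Ioc (a+h) (b+h)} pl n ≥ ∑_{n ∈ Ioc a b} pl n - h log b` (`pl ≥ 0`; the at most `h` numbers of `(a, min (a+h) b]` have
`pl ≤ log b`).
-/

namespace Pool.Agent.H67.VW

open Finset Pool.Agent.H67.VS

theorem cvp_thr {a b : ℕ} (hab : a ≤ b) (H : ℕ → ℕ) (hH : MonotoneOn H (Set.Icc a b)) (h : ℕ) :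
    ∃ t : ℕ, a ≤ t ∧ t ≤ b ∧ (Ioc a b).filter (fun n => h ≤ H n) = Ioc t b := by
  classical
  have hP : (fun n => n ≤ a ∨ H n < h) a := Or.inl le_rfl
  refine ⟨Nat.findGreatest (fun n => n ≤ a ∨ H n < h) b, Nat.le_findGreatest hab hP,
    Nat.findGreatest_le _, ?_⟩
  have hle : a ≤ Nat.findGreatest (fun n => n ≤ a ∨ H n < h) b := Nat.le_findGreatest hab hP
  have hsp : (fun n => n ≤ a ∨ H n < h) (Nat.findGreatest (fun n => n ≤ a ∨ H n < h) b) :=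
    Nat.findGreatest_spec (P := fun n => n ≤ a ∨ H n < h) hab hP
  have hgr := fun (k : ℕ) (hk : Nat.findGreatest (fun n => n ≤ a ∨ H n < h) b < k)
    (hkb : k ≤ b) => Nat.findGreatest_is_greatest hk hkb
  have hle2 : Nat.findGreatest (fun n => n ≤ a ∨ H n < h) b ≤ b := Nat.findGreatest_le _
  generalize Nat.findGreatest (fun n => n ≤ a ∨ H n < h) b = t at hle hsp hgr hle2
  ext n
  rw [mem_filter, mem_Ioc, mem_Ioc]
  constructor
  · rintro ⟨⟨h1, h2⟩, h3⟩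
    refine ⟨?_, h2⟩
    by_contra hnt
    push Not at hnt
    rcases hsp with h4 | h4
    · omega
    · have h5 := hH ⟨h1.le, h2⟩ ⟨by omega, hle2⟩ hnt
      omega
  · rintro ⟨h1, h2⟩
    have h3 := hgr n h1 h2
    push Not at h3
    exact ⟨⟨h3.1, h2⟩, h3.2⟩

theorem cvp_ff (ρ : ℕ → ℝ) (D n h : ℕ) (k : ℤ) : FF ρ D n (k + h) = FF ρ D (n + h) k := by
  unfold FF
  apply sum_congr rfl
  intro d _
  have e : (n : ℤ) + (k + h) = ((n + h : ℕ) : ℤ) + k := by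
    push_cast
    ring
  rw [e]

/-- the test function after the shift -/
theorem cvp_shift (ρ : ℕ → ℝ) (D N N' n h : ℕ) (hN : N ≤ N') (h1 : 1 ≤ h) (h2 : h ≤ N')
    (φ : ℤ → ℝ) (hφ0 : ∀ h : ℤ, h ∉ Icc (1 : ℤ) N → φ h = 0) :
    ∑ h' ∈ Icc 1 N, φ ((h' : ℕ) : ℤ) * FF ρ D n ((h' : ℕ) : ℤ) =
      ∑ k ∈ Icc (-(N' : ℤ)) N', φ (k + ((h : ℕ) : ℤ)) * FF ρ D (n + h) k := by
  have e1 : ∑ h' ∈ Icc 1 N, φ ((h' : ℕ) : ℤ) * FF ρ D n ((h' : ℕ) : ℤ) =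
      ∑ k ∈ Icc (1 - (h : ℤ)) (N - h), φ (k + ((h : ℕ) : ℤ)) * FF ρ D (n + h) k := by
    apply Finset.sum_nbij' (fun h' : ℕ => (h' : ℤ) - h) (fun k : ℤ => (k + h).toNat)
    · intro h' hh'
      rw [mem_Icc] at hh' ⊢
      constructor <;> omega
    · intro k hk
      rw [mem_Icc] at hk ⊢
      constructor <;> omega
    · intro h' hh'
      rw [mem_Icc] at hh'
      omega
    · intro k hk
      rw [mem_Icc] at hk
      omega
    · intro h' hh'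
      rw [← cvp_ff, sub_add_cancel]
  rw [e1]
  apply sum_subset
  · intro k hk
    rw [mem_Icc] at hk ⊢
    constructor <;> omega
  · intro k _ hk
    rw [hφ0, zero_mul]
    intro hk'
    apply hk
    rw [mem_Icc] at hk' ⊢
    constructor <;> omega

theorem cvp_prime (ρ : ℕ → ℝ) {D m : ℕ} (hD : 1 ≤ D) (hm : D < m) :
    pl m * FF ρ D m 0 = ρ 1 * pl m := by
  unfold pl
  split_ifs with hp
  · have h1 : FF ρ D m 0 = ρ 1 := by
      unfold FF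
      rw [sum_eq_single 1]
      · rw [if_pos (by simp)]
      · intro d hd hd1
        rw [mem_Icc] at hd
        rw [if_neg]
        intro hdm
        rw [add_zero, Int.natCast_dvd_natCast] at hdm
        rcases (Nat.dvd_prime hp).mp hdm with h | h
        · exact hd1 h
        · omega
      · intro h
        exact absurd (mem_Icc.mpr ⟨le_rfl, hD⟩) h
    rw [h1, mul_comm]
  · rw [zero_mul, mul_zero]

theorem cvp_pl_nonneg (n : ℕ) : 0 ≤ pl n := by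
  unfold pl
  split_ifs
  · exact Real.log_natCast_nonneg n
  · exact le_rfl

theorem cvp_pl_le {n b : ℕ} (hn : n ≤ b) : pl n ≤ Real.log b := by
  unfold pl
  split_ifs with hp
  · exact Real.log_le_log (by exact_mod_cast hp.pos) (by exact_mod_cast hn)
  · exact Real.log_natCast_nonneg b

theorem cvp_low {a b N h : ℕ} (hh : h ≤ N) :
    ∑ n ∈ Ioc a b, pl n - N * Real.log b ≤ ∑ n ∈ Ioc (a + h) (b + h), pl n := by
  have hl : 0 ≤ Real.log b := Real.log_natCast_nonneg b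
  have h1 : ∑ n ∈ Ioc a b, pl n ≤
      ∑ n ∈ Ioc a (min (a + h) b) ∪ Ioc (a + h) (b + h), pl n := by
    apply sum_le_sum_of_subset_of_nonneg
    · intro n hn
      rw [mem_Ioc] at hn
      rw [mem_union, mem_Ioc, mem_Ioc]
      omega
    · intro n _ _
      exact cvp_pl_nonneg n
  have h2 : ∑ n ∈ Ioc a (min (a + h) b) ∪ Ioc (a + h) (b + h), pl n ≤
      ∑ n ∈ Ioc a (min (a + h) b), pl n + ∑ n ∈ Ioc (a + h) (b + h), pl n := by
    rw [← sum_union_inter]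
    have : 0 ≤ ∑ n ∈ Ioc a (min (a + h) b) ∩ Ioc (a + h) (b + h), pl n :=
      sum_nonneg (fun n _ => cvp_pl_nonneg n)
    linarith
  have h3 : ∑ n ∈ Ioc a (min (a + h) b), pl n ≤ N * Real.log b := by
    calc ∑ n ∈ Ioc a (min (a + h) b), pl n ≤ ∑ _n ∈ Ioc a (min (a + h) b), Real.log b := by
          apply sum_le_sum
          intro n hn
          rw [mem_Ioc] at hn
          exact cvp_pl_le (by omega)
      _ = ((min (a + h) b - a : ℕ) : ℝ) * Real.log b := by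
          rw [sum_const, Nat.card_Ioc, nsmul_eq_mul]
      _ ≤ N * Real.log b := by
          apply mul_le_mul_of_nonneg_right _ hl
          exact_mod_cast (by omega : min (a + h) b - a ≤ N)
  linarith

theorem cvp_term {b t N N' D h : ℕ} {ρ : ℕ → ℝ} {E : ℝ} {φ : ℤ → ℝ} (hD : 1 ≤ D)
    (hDt : D ≤ t) (hNN : N ≤ N') (h1 : 1 ≤ h) (h2 : h ≤ N')
    (hφ0 : ∀ h : ℤ, h ∉ Icc (1 : ℤ) N → φ h = 0)
    (hE : |∑ k ∈ (Icc (-(N' : ℤ)) N').erase 0, φ (k + ((h : ℕ) : ℤ)) *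
        ∑ n ∈ Ioc (t + h) (b + h), pl n * FF ρ D n k| ≤ E) :
    ρ 1 * φ h * (∑ n ∈ Ioc (t + h) (b + h), pl n) - E ≤
      ∑ n ∈ Ioc t b, pl (n + h) *
        ∑ h' ∈ Icc 1 N, φ ((h' : ℕ) : ℤ) * FF ρ D n ((h' : ℕ) : ℤ) := by
  have e1 : ∑ n ∈ Ioc t b, pl (n + h) *
        ∑ h' ∈ Icc 1 N, φ ((h' : ℕ) : ℤ) * FF ρ D n ((h' : ℕ) : ℤ) =
      ∑ m ∈ Ioc (t + h) (b + h), pl m *
        ∑ k ∈ Icc (-(N' : ℤ)) N', φ (k + ((h : ℕ) : ℤ)) * FF ρ D m k := by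
    rw [← map_add_right_Ioc, sum_map]
    apply sum_congr rfl
    intro n _
    rw [cvp_shift ρ D N N' n h hNN h1 h2 φ hφ0]
    rfl
  have e2 : ∑ m ∈ Ioc (t + h) (b + h), pl m *
        ∑ k ∈ Icc (-(N' : ℤ)) N', φ (k + ((h : ℕ) : ℤ)) * FF ρ D m k =
      ∑ k ∈ Icc (-(N' : ℤ)) N', φ (k + ((h : ℕ) : ℤ)) *
        ∑ m ∈ Ioc (t + h) (b + h), pl m * FF ρ D m k := by
    simp only [mul_sum]
    rw [sum_comm]
    apply sum_congr rfl
    intro k _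
    apply sum_congr rfl
    intro m _
    ring
  have e3 : (0 : ℤ) ∈ Icc (-(N' : ℤ)) N' := by
    rw [mem_Icc]
    constructor <;> omega
  rw [e1, e2, ← add_sum_erase _ _ e3]
  have e4 : ∑ m ∈ Ioc (t + h) (b + h), pl m * FF ρ D m 0 =
      ρ 1 * ∑ m ∈ Ioc (t + h) (b + h), pl m := by
    rw [mul_sum]
    apply sum_congr rfl
    intro m hm
    rw [mem_Ioc] at hm
    exact cvp_prime ρ hD (by omega)
  have h5 := (abs_le.mp hE).1
  rw [e4, zero_add]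
  have e5 : φ ((h : ℕ) : ℤ) * (ρ 1 * ∑ m ∈ Ioc (t + h) (b + h), pl m) =
      ρ 1 * φ h * (∑ n ∈ Ioc (t + h) (b + h), pl n) := by ring
  rw [e5]
  linarith

theorem cov_piece {a b N N' D : ℕ} {H : ℕ → ℕ} {ρ : ℕ → ℝ} {E : ℝ} {φ : ℤ → ℝ} (hD : 1 ≤ D)
    (hDa : D ≤ a) (hab : a ≤ b) (hH : MonotoneOn H (Set.Icc a b))
    (hHN : ∀ n ∈ Ioc a b, N ≤ H n ∧ H n ≤ N') (hNN : N ≤ N') (hρ : 0 ≤ ρ 1)
    (hφ : ∀ h, 0 ≤ φ h ∧ φ h ≤ 1) (hφ0 : ∀ h : ℤ, h ∉ Icc (1 : ℤ) N → φ h = 0)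
    (hE : ∀ h ∈ Icc 1 N', ∀ t, a ≤ t → t ≤ b →
      |∑ k ∈ (Icc (-(N' : ℤ)) N').erase 0, φ (k + ((h : ℕ) : ℤ)) *
        ∑ n ∈ Ioc (t + h) (b + h), pl n * FF ρ D n k| ≤ E) :
    ρ 1 * (∑ h ∈ Icc 1 N, φ ((h : ℕ) : ℤ)) * (∑ n ∈ Ioc a b, pl n - N * Real.log b) - N' * E ≤
      ∑ n ∈ Ioc a b, PH (H n) n * ∑ h ∈ Icc 1 N, φ ((h : ℕ) : ℤ) * FF ρ D n ((h : ℕ) : ℤ) := by
  -- layers
  have e1 : ∑ n ∈ Ioc a b, PH (H n) n *
        ∑ h ∈ Icc 1 N, φ ((h : ℕ) : ℤ) * FF ρ D n ((h : ℕ) : ℤ) =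
      ∑ h ∈ Icc 1 N', ∑ n ∈ (Ioc a b).filter (fun n => h ≤ H n), pl (n + h) *
        ∑ h' ∈ Icc 1 N, φ ((h' : ℕ) : ℤ) * FF ρ D n ((h' : ℕ) : ℤ) := by
    have h1 : ∀ h ∈ Icc 1 N', ∑ n ∈ (Ioc a b).filter (fun n => h ≤ H n), pl (n + h) *
        ∑ h' ∈ Icc 1 N, φ ((h' : ℕ) : ℤ) * FF ρ D n ((h' : ℕ) : ℤ) =
        ∑ n ∈ Ioc a b, if h ≤ H n then pl (n + h) *
          ∑ h' ∈ Icc 1 N, φ ((h' : ℕ) : ℤ) * FF ρ D n ((h' : ℕ) : ℤ) else 0 :=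
      fun h _ => sum_filter _ _
    rw [sum_congr rfl h1, sum_comm]
    apply sum_congr rfl
    intro n hn
    rw [← sum_filter]
    unfold PH
    rw [sum_mul]
    apply sum_congr _ (fun _ _ => rfl)
    ext h
    rw [mem_filter, mem_Icc, mem_Icc]
    have := hHN n hn
    omega
  rw [e1]
  obtain ⟨P, hP⟩ : ∃ P : ℝ, P = ∑ n ∈ Ioc a b, pl n - N * Real.log b := ⟨_, rfl⟩
  have hterm : ∀ h ∈ Icc 1 N', ρ 1 * (if h ≤ N then φ ((h : ℕ) : ℤ) else 0) * P - E ≤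
      ∑ n ∈ (Ioc a b).filter (fun n => h ≤ H n), pl (n + h) *
        ∑ h' ∈ Icc 1 N, φ ((h' : ℕ) : ℤ) * FF ρ D n ((h' : ℕ) : ℤ) := by
    intro h hh
    have hh' := hh
    rw [mem_Icc] at hh'
    by_cases hhN : h ≤ N
    · rw [if_pos hhN]
      have e2 : (Ioc a b).filter (fun n => h ≤ H n) = Ioc a b := by
        apply filter_true_of_mem
        intro n hn
        exact hhN.trans (hHN n hn).1
      rw [e2]
      refine le_trans ?_ (cvp_term (b := b) hD hDa hNN hh'.1 hh'.2 hφ0 (hE h hh a le_rfl hab))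
      have h3 := cvp_low (a := a) (b := b) hhN
      rw [← hP] at h3
      have h4 : ρ 1 * φ h * P ≤ ρ 1 * φ h * ∑ n ∈ Ioc (a + h) (b + h), pl n :=
        mul_le_mul_of_nonneg_left h3 (mul_nonneg hρ (hφ h).1)
      linarith
    · rw [if_neg hhN]
      obtain ⟨t, ht1, ht2, ht⟩ := cvp_thr hab H hH h
      rw [ht]
      refine le_trans ?_ (cvp_term (b := b) hD (hDa.trans ht1) hNN hh'.1 hh'.2 hφ0
        (hE h hh t ht1 ht2))
      have h5 : φ h = 0 := by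
        apply hφ0
        rw [mem_Icc]
        omega
      rw [h5, mul_zero, zero_mul, zero_mul]
  refine le_trans (le_of_eq ?_) (sum_le_sum hterm)
  rw [sum_sub_distrib, sum_const, Nat.card_Icc, nsmul_eq_mul, Nat.add_sub_cancel, ← hP]
  congr 1
  rw [← sum_mul, ← mul_sum]
  congr 2
  rw [← sum_filter]
  apply sum_congr _ (fun _ _ => rfl)
  ext h
  rw [mem_filter, mem_Icc, mem_Icc]
  omega

end Pool.Agent.H67.VW
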