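import Pool.Agent.H67.VU.Defs
import Pool.Agent.H21.BV.Fej

/-!
[H67 VW DEFS]  MP_31d0eb_nt: Goldston's lower bound for the variance of primes in short intervals, in his
full range H ≤ X^(1/3-η) and with his full constant (1/2) log(X/H^3), without hypothesis.

Test function: `FF (rh Z D) D n k = ∑_{r squarefree, Z < r ≤ D} μ(r) c_r(n+k)/φ(r)`, `c_r` Ramanujan's sum.
Exponents: `θ` (length of the intervals), `κ` (a small number), `d` (moduli up to `X^d`), related by `PW`;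
`Z = Zw θ κ X = ⌊X^(θ+4κ)⌋`, `D = Dw d X = ⌊X^d⌋` (`Pool/Agent/H67/VU/Defs.lean`).
All sums over `n` are over intervals `Ioc t T` with sharp cut-off (`onef`: the constant weight).
-/

namespace Pool.Agent.H67.VW

open Finset Pool.Agent.H21.MT Pool.Agent.H67.VS Pool.Agent.H67.VT Pool.Agent.H67.VU

/-- admissible exponents -/
structure PW (θ κ d : ℝ) : Prop where
  θ0 : 0 < θ
  κ0 : 0 < κ
  κ1 : κ ≤ 1 / 100
  θ1 : θ ≤ 1 / 3 - 8 * κ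
  low : θ + 10 * κ ≤ d
  up : d ≤ (1 - θ) / 2 - 5 * κ

/-- parameter of Vaughan's identity -/
noncomputable def uw (θ κ X : ℝ) : ℕ := ⌊X ^ (θ + 6 * κ)⌋₊
/-- bound of the small conductors -/
noncomputable def Rw (κ X : ℝ) : ℕ := ⌊X ^ (5 * κ)⌋₊

/-- the moduli -/
def RR (Z D : ℕ) : Finset ℕ := (Ioc Z D).filter (fun r => Squarefree r)

/-- the main constant `∑ 1/φ(r)` -/
noncomputable def S1 (Z D : ℕ) : ℝ := ∑ r ∈ RR Z D, 1 / (r.totient : ℝ)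

/-- the weights `ρ(d) = μ(d) d ∑_{d ∣ r} 1/φ(r)` -/
noncomputable def rh (Z D d : ℕ) : ℝ :=
  ((ArithmeticFunction.moebius d : ℤ) : ℝ) * d *
    ∑ r ∈ (RR Z D).filter (fun r => d ∣ r), 1 / (r.totient : ℝ)

/-- the correlation `∑_{(d,e) ∣ k} ρ(d) ρ(e)/[d,e]` -/
noncomputable def TT (ρ : ℕ → ℝ) (D : ℕ) (k : ℤ) : ℝ :=
  ∑ d ∈ Icc 1 D, ∑ e ∈ Icc 1 D,
    if ((Nat.gcd d e : ℕ) : ℤ) ∣ k then ρ d * ρ e / (Nat.lcm d e : ℝ) else 0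

/-- `∑_{r ∣ d, (d,k)=1} ρ(d)/φ(d)` -/
noncomputable def WW (ρ : ℕ → ℝ) (D r : ℕ) (k : ℤ) : ℝ :=
  ∑ d ∈ (Icc 1 D).filter (fun d : ℕ => r ∣ d ∧ Int.gcd (d : ℤ) k = 1), ρ d / (d.totient : ℝ)

/-- the cofactors `f` of `r` in the moduli -/
def FS (Z D r : ℕ) : Finset ℕ :=
  (Icc 1 D).filter (fun f => Squarefree f ∧ f.Coprime r ∧ Z < r * f ∧ r * f ≤ D)

/-- `∑_{e ∣ f, e ∣ k} μ(e) e` (this is `μ(f) c_f(k)` for squarefree `f`) -/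
noncomputable def cs (f : ℕ) (k : ℤ) : ℝ :=
  ∑ e ∈ f.divisors.filter (fun e : ℕ => (e : ℤ) ∣ k), ((ArithmeticFunction.moebius e : ℤ) : ℝ) * e

/-- initial segment of a character sum -/
noncomputable def Kc (B : ℕ) {q : ℕ} (χ : DirichletCharacter ℂ q) : ℂ :=
  ∑ k ∈ Ioc 0 B, χ (k : ZMod q)

/-- character sum with a kernel on `[-Y,Y]` -/
noncomputable def KF (Y : ℕ) (ψ : ℤ → ℝ) {q : ℕ} (χ : DirichletCharacter ℂ q) : ℂ :=
  ∑ k ∈ Icc (-(Y : ℤ)) Y, ((ψ k : ℝ) : ℂ) * χ ((k : ℤ) : ZMod q)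

/-- kernels: bounded, supported in `[-Y,Y]`, with small second differences (for all step lengths) -/
structure Ker (Y : ℕ) (a : ℝ) (ψ : ℤ → ℝ) : Prop where
  Y1 : 1 ≤ Y
  a1 : 4 ≤ a
  bd : ∀ k, |ψ k| ≤ 1
  supp : ∀ k, ψ k ≠ 0 → |k| ≤ Y
  sm : ∀ e : ℕ, 1 ≤ e → ∑ k ∈ Icc (-(Y : ℤ) - 1) (Y + 1),
    |ψ (e * (k + 1)) - 2 * ψ (e * k) + ψ (e * (k - 1))| ≤ a * e / Y

/-- the trapezoid on `[0,N+1]` with slopes `1/I` -/
noncomputable def trap (N I : ℕ) (x : ℤ) : ℝ :=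
  (max (x : ℝ) 0 - max ((x : ℝ) - I) 0 - max ((x : ℝ) - (N + 1 - I)) 0 +
    max ((x : ℝ) - (N + 1)) 0) / I

/-- its parameter -/
noncomputable def It (δ : ℝ) (N : ℕ) : ℕ := ⌊δ * N⌋₊ + 1

/-- Fourier transform of a kernel -/
noncomputable def hatK (y : ℕ) (Ψ : ℤ → ℝ) (x : ℝ) : ℂ :=
  ∑ k ∈ Icc (-(y : ℤ)) y, ((Ψ k : ℝ) : ℂ) * Pool.Agent.H21.BV.ee (k * x)

/-- the weights of the dual sum -/
noncomputable def dw (y : ℕ) (a : ℝ) (R B : ℕ) : ℝ := min ((y : ℝ) ^ 2) (a * ((R : ℝ) / B) ^ 2)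

/-- the part of the mean value that is multiplied by the length -/
noncomputable def PB (R u T : ℝ) : ℝ := T + R * T ^ (3 / 4 : ℝ) + R * Real.sqrt R * u

/-- the part of the mean value that is multiplied by the square root of the length -/
noncomputable def QB (R u T : ℝ) : ℝ :=
  R * T / Real.sqrt u + R ^ 2 * Real.sqrt T + R ^ 2 * Real.sqrt R * u

/-- the inner sum over `f` and `e` for a character -/
noncomputable def WE (Z D Y : ℕ) (ψ : ℤ → ℝ) (r : ℕ) {q : ℕ} (χ : DirichletCharacter ℂ q) : ℝ :=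
  (r : ℝ) / (r.totient : ℝ) ^ 2 * ∑ f ∈ FS Z D r, 1 / (f.totient : ℝ) ^ 2 *
    ∑ e ∈ f.divisors, (e : ℝ) * ‖KF Y (fun k => ψ (e * k)) χ‖

/-- hypotheses on the lengths -/
structure HL (θ : ℝ) (X : ℕ) (H : ℕ → ℕ) : Prop where
  mono : MonotoneOn H (Set.Icc X (2 * X))
  one : 1 ≤ H X
  up : (H (2 * X) : ℝ) ≤ (X : ℝ) ^ θ

/-- hypotheses on the main term (logarithmic weights) -/
structure FB (θ κ : ℝ) (X : ℕ) (f : ℕ → ℝ) : Prop where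
  bd : ∀ n, |f n| ≤ (X : ℝ) ^ (θ + κ / 8)
  tv : ∀ m n : ℕ, ∑ k ∈ Ico m n, |f (k + 1) - f k| ≤ (X : ℝ) ^ (1 / 2 + κ / 4)

end Pool.Agent.H67.VW
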