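import Pool.Agent.H67.VW.Defs

/-!
[H67 VW DUALA]  Increments of the Fourier transform of a kernel.

Proof of `hat_inc`.  `dw y a r B = min (y^2) (a (r/B)^2)`, `x = B/r`, `4 min(x, 1-x) ≤ ‖1 - ee x‖` (`H21.BV.fej_low`).  Let
`Δ = hatK((B+1)/r) - hatK(B/r) = ∑_k Ξ(k) ee(k x)`, `Ξ(k) = Ψ(k) (ee(k/r) - 1)`.
(1) `‖ee(k/r) - 1‖ ≤ 2π|k|/r`, so `‖Δ‖ ≤ (2π/r) ∑_{|k| ≤ y} |k| = (2π/r) y(y+1) ≤ (4π/r) y^2 ≤ 20 y^2/r`.
(2) case `y ≤ r`: summation by parts twice: `(1 - ee x)^2 ∑_k Ξ(k) ee(k x)` has the same norm as `∑_k (Ξ(k+1) - 2Ξ(k) + Ξ(k-1)) ee(k x)`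
(finite support), hence `‖1 - ee x‖^2 ‖Δ‖ ≤ ∑_k |Ξ(k+1) - 2Ξ(k) + Ξ(k-1)|`.  With `g(k) = ee(k/r) - 1`:
`Δ²(Ψ g)(k) = g(k) Δ²Ψ(k) + (Ψ(k+1) - Ψ(k-1)) (g(k+1) - g(k)) + Ψ(k-1) Δ²g(k)`, `|g(k)| ≤ 2π(y+1)/r` where needed, `|g(k+1)-g(k)| ≤ 2π/r`,
`|Δ²g| ≤ (2π/r)^2`, `∑ |Δ²Ψ| ≤ a/y` (`sm` for `e = 1`), `|Ψ(k+1) - Ψ(k)| ≤ a/y` for all `k` (sum of second differences), so
`∑ |Ψ(k+1)-Ψ(k)| ≤ (2y+2) a/y ≤ 4a`.  Total `≤ (2π/r) (2a + 8a + 2π(2y+1)/r) ≤ (2π/r) (10a + 6π) ≤ (2π/r) 15a` (`a ≥ 4`),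
and `‖1 - ee x‖ ≥ 4B/r`: `‖Δ‖ ≤ (2π/r) (15a/16) (r/B)^2 ≤ (20/r) a (r/B)^2`.
(3) case `y > r`: `‖hatK(x)‖ ≤ (a/y)/‖1 - ee x‖^2` for `x = B/r` and `x = (B+1)/r`; in both cases the distance from `x` to the
integers is at least `B/r` (`2B+1 ≤ r`), so `‖Δ‖ ≤ 2 (a/y) (r/(4B))^2 ≤ (a/(8r)) (r/B)^2`.
-/

namespace Pool.Agent.H67.VW

open Finset Pool.Agent.H21.BV

/-- shift of a sum over the integers -/
theorem duala_shift {y : ℕ} (G : ℤ → ℂ) (hG : ∀ k, G k ≠ 0 → |k| ≤ (y : ℤ)) (c : ℤ)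
    (hc : |c| ≤ 1) : ∑ k ∈ Icc (-(y : ℤ) - 1) (y + 1), G (k + c) =
      ∑ k ∈ Icc (-(y : ℤ)) y, G k := by
  have h1 : ∑' k : ℤ, G (k + c) = ∑' k : ℤ, G k := (Equiv.addRight c).tsum_eq G
  have h2 : ∑' k : ℤ, G k = ∑ k ∈ Icc (-(y : ℤ)) y, G k := by
    refine tsum_eq_sum fun k hk => ?_
    by_contra h
    apply hk
    have := abs_le.1 (hG k h)
    exact mem_Icc.2 ⟨this.1, this.2⟩
  have h3 : ∑' k : ℤ, G (k + c) = ∑ k ∈ Icc (-(y : ℤ) - 1) (y + 1), G (k + c) := by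
    refine tsum_eq_sum fun k hk => ?_
    by_contra h
    apply hk
    have h4 := abs_le.1 (hG _ h)
    have h5 := abs_le.1 hc
    exact mem_Icc.2 ⟨by linarith [h4.1, h5.2], by linarith [h4.2, h5.1]⟩
  rw [← h3, h1, h2]

/-- two summations by parts -/
theorem hat_sbp {y : ℕ} (F : ℤ → ℂ) (hF : ∀ k, F k ≠ 0 → |k| ≤ (y : ℤ)) (x : ℝ) :
    ‖ee x - 1‖ ^ 2 * ‖∑ k ∈ Icc (-(y : ℤ)) y, F k * ee (k * x)‖ ≤
      ∑ k ∈ Icc (-(y : ℤ) - 1) (y + 1), ‖F (k + 1) - 2 * F k + F (k - 1)‖ := by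
  set G : ℤ → ℂ := fun k => F k * ee (k * x) with hGd
  have hG : ∀ k, G k ≠ 0 → |k| ≤ (y : ℤ) := fun k hk => hF k (left_ne_zero_of_mul hk)
  have s1 := duala_shift G hG 1 (by norm_num)
  have s0 := duala_shift G hG 0 (by norm_num)
  have s2 := duala_shift G hG (-1) (by norm_num)
  have hex : ee (-x) * ee x = 1 := by
    rw [← ee_add, neg_add_cancel, ee_zero]
  have key : ∑ k ∈ Icc (-(y : ℤ) - 1) (y + 1),
      (F (k + 1) - 2 * F k + F (k - 1)) * ee (k * x) =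
      ee (-x) * (ee x - 1) ^ 2 * ∑ k ∈ Icc (-(y : ℤ)) y, F k * ee (k * x) := by
    have e1 : ∀ k : ℤ, (F (k + 1) - 2 * F k + F (k - 1)) * ee (k * x) =
        ee (-x) * G (k + 1) - 2 * G (k + 0) + ee x * G (k + -1) := by
      intro k
      have a1 : ee ((k : ℝ) * x) = ee (-x) * ee (((k + 1 : ℤ) : ℝ) * x) := by
        rw [← ee_add]; congr 1; push_cast; ring
      have a2 : ee ((k : ℝ) * x) = ee x * ee (((k + -1 : ℤ) : ℝ) * x) := by
        rw [← ee_add]; congr 1; push_cast; ring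
      have a3 : k - 1 = k + -1 := by ring
      simp only [hGd, add_zero]
      rw [a3]
      calc (F (k + 1) - 2 * F k + F (k + -1)) * ee (k * x)
          = F (k + 1) * ee (k * x) - 2 * (F k * ee (k * x)) + F (k + -1) * ee (k * x) := by ring
        _ = F (k + 1) * (ee (-x) * ee (((k + 1 : ℤ) : ℝ) * x)) - 2 * (F k * ee (k * x)) +
            F (k + -1) * (ee x * ee (((k + -1 : ℤ) : ℝ) * x)) := by rw [← a1, ← a2]
        _ = _ := by ring
    rw [Finset.sum_congr rfl fun k _ => e1 k, Finset.sum_add_distrib, Finset.sum_sub_distrib,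
      ← Finset.mul_sum, ← Finset.mul_sum, ← Finset.mul_sum, s1, s0, s2]
    have e2 : ee (-x) * (ee x - 1) ^ 2 = ee (-x) - 2 + ee x := by
      calc ee (-x) * (ee x - 1) ^ 2 = (ee (-x) * ee x) * ee x - 2 * (ee (-x) * ee x) + ee (-x) := by
            ring
        _ = _ := by rw [hex]; ring
    rw [e2]
    simp only [hGd]
    ring
  have hn : ‖ee x - 1‖ ^ 2 * ‖∑ k ∈ Icc (-(y : ℤ)) y, F k * ee (k * x)‖ =
      ‖∑ k ∈ Icc (-(y : ℤ) - 1) (y + 1), (F (k + 1) - 2 * F k + F (k - 1)) * ee (k * x)‖ := by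
    rw [key, norm_mul, norm_mul, norm_pow, norm_ee, one_mul]
  rw [hn]
  refine (norm_sum_le _ _).trans (Finset.sum_le_sum fun k _ => ?_)
  rw [norm_mul, norm_ee, mul_one]

theorem duala_ee_le (t : ℝ) : ‖ee t - 1‖ ≤ 2 * Real.pi * |t| := by
  unfold ee
  have h := Real.norm_exp_I_mul_ofReal_sub_one_le (x := 2 * Real.pi * t)
  rw [mul_comm] at h
  refine h.trans ?_
  rw [Real.norm_eq_abs, abs_mul, abs_of_pos (by positivity : (0 : ℝ) < 2 * Real.pi)]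

/-- second differences, step one -/
theorem duala_sm {y : ℕ} {a : ℝ} {Ψ : ℤ → ℝ} (hk : Ker y a Ψ) :
    ∑ k ∈ Icc (-(y : ℤ) - 1) (y + 1), |Ψ (k + 1) - 2 * Ψ k + Ψ (k - 1)| ≤ a / y := by
  have h := hk.sm 1 le_rfl
  simpa using h

theorem duala_zero {y : ℕ} {a : ℝ} {Ψ : ℤ → ℝ} (hk : Ker y a Ψ) (k : ℤ)
    (h : (y : ℤ) < |k|) : Ψ k = 0 := by
  by_contra h1
  exact absurd (hk.supp k h1) (not_le.2 h)

theorem duala_diff {y : ℕ} {a : ℝ} {Ψ : ℤ → ℝ} (hk : Ker y a Ψ) (k : ℤ) :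
    |Ψ (k + 1) - Ψ k| ≤ a / y := by
  have hy : (0 : ℝ) < y := by exact_mod_cast hk.Y1
  have ha : 0 ≤ a / y := div_nonneg (by linarith [hk.a1]) hy.le
  by_cases h1 : k < -(y : ℤ) - 2
  · rw [duala_zero hk k (by rw [lt_abs]; right; linarith),
      duala_zero hk (k + 1) (by rw [lt_abs]; right; linarith)]
    simpa using ha
  by_cases h2 : (y : ℤ) + 1 < k
  · rw [duala_zero hk k (by rw [lt_abs]; left; linarith),
      duala_zero hk (k + 1) (by rw [lt_abs]; left; linarith)]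
    simpa using ha
  push Not at h1 h2
  obtain ⟨n, hn⟩ := Int.eq_ofNat_of_zero_le (show (0 : ℤ) ≤ k + (y : ℤ) + 2 by linarith)
  have hkn : k = -(y : ℤ) - 2 + n := by linarith
  have hn2 : (n : ℤ) ≤ 2 * y + 3 := by linarith
  have ind : ∀ n : ℕ, |Ψ (-(y : ℤ) - 2 + n + 1) - Ψ (-(y : ℤ) - 2 + n)| ≤
      ∑ j ∈ range n, |Ψ (-(y : ℤ) - 1 + j + 1) - 2 * Ψ (-(y : ℤ) - 1 + j) +
        Ψ (-(y : ℤ) - 1 + j - 1)| := by
    intro n
    induction n with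
    | zero =>
      rw [Finset.range_zero, Finset.sum_empty]
      have b1 : Ψ (-(y : ℤ) - 2 + ((0 : ℕ) : ℤ) + 1) = 0 :=
        duala_zero hk _ (by rw [lt_abs]; right; push_cast; linarith)
      have b2 : Ψ (-(y : ℤ) - 2 + ((0 : ℕ) : ℤ)) = 0 :=
        duala_zero hk _ (by rw [lt_abs]; right; push_cast; linarith)
      rw [b1, b2]
      simp
    | succ n ih =>
      rw [Finset.sum_range_succ]
      have c1 : -(y : ℤ) - 2 + ((n + 1 : ℕ) : ℤ) + 1 = -(y : ℤ) - 1 + n + 1 := by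
        push_cast; ring
      have c2 : -(y : ℤ) - 2 + ((n + 1 : ℕ) : ℤ) = -(y : ℤ) - 1 + n := by push_cast; ring
      have c3 : -(y : ℤ) - 2 + (n : ℤ) + 1 = -(y : ℤ) - 1 + n := by ring
      have c4 : -(y : ℤ) - 2 + (n : ℤ) = -(y : ℤ) - 1 + n - 1 := by ring
      rw [c1, c2]
      rw [c3, c4] at ih
      calc |Ψ (-(y : ℤ) - 1 + n + 1) - Ψ (-(y : ℤ) - 1 + n)|
          = |(Ψ (-(y : ℤ) - 1 + n) - Ψ (-(y : ℤ) - 1 + n - 1)) +
            (Ψ (-(y : ℤ) - 1 + n + 1) - 2 * Ψ (-(y : ℤ) - 1 + n) +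
              Ψ (-(y : ℤ) - 1 + n - 1))| := by congr 1; ring
        _ ≤ _ := (abs_add_le _ _).trans (add_le_add ih le_rfl)
  rw [hkn]
  refine (ind n).trans ((?_ : _ ≤ _).trans (duala_sm hk))
  have hinj : Set.InjOn (fun j : ℕ => -(y : ℤ) - 1 + j) (range n : Finset ℕ) := by
    intro i _ j _ hij
    simp only at hij
    have : (i : ℤ) = j := by linarith
    exact_mod_cast this
  rw [← Finset.sum_image (f := fun k : ℤ => |Ψ (k + 1) - 2 * Ψ k + Ψ (k - 1)|) hinj]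
  refine Finset.sum_le_sum_of_subset_of_nonneg ?_ fun _ _ _ => abs_nonneg _
  intro k hk'
  obtain ⟨j, hj, rfl⟩ := Finset.mem_image.1 hk'
  have hj' : (j : ℤ) < n := by exact_mod_cast Finset.mem_range.1 hj
  refine mem_Icc.2 ⟨by linarith [Int.natCast_nonneg j], by linarith⟩

theorem duala_abs_sum (y : ℕ) :
    ∑ k ∈ Icc (-(y : ℤ)) y, |(k : ℝ)| = (y : ℝ) * (y + 1) := by
  induction y with
  | zero => simp
  | succ n ih =>
    have h1 : Icc (-((n + 1 : ℕ) : ℤ)) ((n + 1 : ℕ) : ℤ) =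
        insert (-((n + 1 : ℕ) : ℤ)) (insert ((n + 1 : ℕ) : ℤ) (Icc (-(n : ℤ)) n)) := by
      ext k
      simp only [mem_Icc, Finset.mem_insert]
      push_cast
      omega
    rw [h1, Finset.sum_insert, Finset.sum_insert, ih]
    · push_cast
      rw [abs_neg, abs_of_nonneg (by positivity : (0 : ℝ) ≤ (n : ℝ) + 1)]
      ring
    · simp only [mem_Icc]
      push_cast
      omega
    · simp only [mem_Icc, Finset.mem_insert]
      push_cast
      omega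

theorem duala_hat_diff (y r B : ℕ) (hr : 0 < r) (Ψ : ℤ → ℝ) :
    hatK y Ψ (((B + 1 : ℕ) : ℝ) / r) - hatK y Ψ ((B : ℝ) / r) =
      ∑ k ∈ Icc (-(y : ℤ)) y, (((Ψ k : ℝ) : ℂ) * (ee (k / r) - 1)) * ee (k * ((B : ℝ) / r)) := by
  unfold hatK
  rw [← Finset.sum_sub_distrib]
  refine Finset.sum_congr rfl fun k _ => ?_
  have h1 : (k : ℝ) * (((B + 1 : ℕ) : ℝ) / r) = k / r + k * ((B : ℝ) / r) := by
    push_cast
    field_simp
    ring
  rw [h1, ee_add]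
  ring

/-- the trivial bound -/
theorem duala_one {y r B : ℕ} {a : ℝ} {Ψ : ℤ → ℝ} (hk : Ker y a Ψ) (hr : 0 < r) :
    ‖hatK y Ψ (((B + 1 : ℕ) : ℝ) / r) - hatK y Ψ ((B : ℝ) / r)‖ ≤ 20 / r * (y : ℝ) ^ 2 := by
  have hr' : (0 : ℝ) < r := by exact_mod_cast hr
  have hy : (1 : ℝ) ≤ y := by exact_mod_cast hk.Y1
  rw [duala_hat_diff y r B hr Ψ]
  calc ‖∑ k ∈ Icc (-(y : ℤ)) y, (((Ψ k : ℝ) : ℂ) * (ee (k / r) - 1)) * ee (k * ((B : ℝ) / r))‖
      ≤ ∑ k ∈ Icc (-(y : ℤ)) y, 2 * Real.pi / r * |(k : ℝ)| := by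
        refine (norm_sum_le _ _).trans (Finset.sum_le_sum fun k _ => ?_)
        rw [norm_mul, norm_ee, mul_one, norm_mul, Complex.norm_real, Real.norm_eq_abs]
        calc |Ψ k| * ‖ee (k / r) - 1‖ ≤ 1 * (2 * Real.pi * |(k : ℝ) / r|) :=
              mul_le_mul (hk.bd k) (duala_ee_le _) (norm_nonneg _) zero_le_one
          _ = 2 * Real.pi / r * |(k : ℝ)| := by
              rw [abs_div, abs_of_pos hr']; ring
    _ = 2 * Real.pi / r * ((y : ℝ) * (y + 1)) := by rw [← Finset.mul_sum, duala_abs_sum]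
    _ ≤ 20 / r * (y : ℝ) ^ 2 := by
        rw [div_mul_eq_mul_div, div_mul_eq_mul_div]
        apply div_le_div_of_nonneg_right _ hr'.le
        have hpi := Real.pi_lt_d2
        have hpi0 := Real.pi_pos
        have h1 : (y : ℝ) * (y + 1) ≤ 2 * (y : ℝ) ^ 2 := by nlinarith
        calc 2 * Real.pi * ((y : ℝ) * (y + 1)) ≤ 2 * Real.pi * (2 * (y : ℝ) ^ 2) :=
              mul_le_mul_of_nonneg_left h1 (by positivity)
          _ ≤ 20 * (y : ℝ) ^ 2 := by nlinarith [sq_nonneg (y : ℝ)]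

theorem duala_g_diff (r : ℕ) (hr : 0 < r) (k : ℤ) :
    ‖ee (((k + 1 : ℤ) : ℝ) / r) - ee ((k : ℝ) / r)‖ ≤ 2 * Real.pi / r := by
  have hr' : (0 : ℝ) < r := by exact_mod_cast hr
  have h1 : ee (((k + 1 : ℤ) : ℝ) / r) - ee ((k : ℝ) / r) =
      ee ((k : ℝ) / r) * (ee (1 / r) - 1) := by
    have : ((k + 1 : ℤ) : ℝ) / r = k / r + 1 / r := by push_cast; ring
    rw [this, ee_add]
    ring
  rw [h1, norm_mul, norm_ee, one_mul]
  refine (duala_ee_le _).trans_eq ?_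
  rw [abs_of_pos (by positivity : (0 : ℝ) < 1 / r)]
  ring

theorem duala_g_diff2 (r : ℕ) (hr : 0 < r) (k : ℤ) :
    ‖ee (((k + 1 : ℤ) : ℝ) / r) - 2 * ee ((k : ℝ) / r) + ee (((k - 1 : ℤ) : ℝ) / r)‖ ≤
      (2 * Real.pi / r) ^ 2 := by
  have hr' : (0 : ℝ) < r := by exact_mod_cast hr
  have h1 : ee (((k + 1 : ℤ) : ℝ) / r) - 2 * ee ((k : ℝ) / r) + ee (((k - 1 : ℤ) : ℝ) / r) =
      ee (((k - 1 : ℤ) : ℝ) / r) * (ee (1 / r) - 1) ^ 2 := by
    have e1 : ((k + 1 : ℤ) : ℝ) / r = ((k - 1 : ℤ) : ℝ) / r + 1 / r + 1 / r := by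
      push_cast; ring
    have e2 : (k : ℝ) / r = ((k - 1 : ℤ) : ℝ) / r + 1 / r := by push_cast; ring
    rw [e1, e2, ee_add, ee_add]
    ring
  rw [h1, norm_mul, norm_ee, one_mul, norm_pow]
  have h2 : ‖ee (1 / (r : ℝ)) - 1‖ ≤ 2 * Real.pi / r := by
    refine (duala_ee_le _).trans_eq ?_
    rw [abs_of_pos (by positivity : (0 : ℝ) < 1 / r)]
    ring
  exact pow_le_pow_left₀ (norm_nonneg _) h2 2

/-- the case `y ≤ r` -/
theorem duala_two {y r B : ℕ} {a : ℝ} {Ψ : ℤ → ℝ} (hk : Ker y a Ψ) (hB : 1 ≤ B)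
    (hBr : 2 * B + 1 ≤ r) (hyr : y ≤ r) :
    ‖hatK y Ψ (((B + 1 : ℕ) : ℝ) / r) - hatK y Ψ ((B : ℝ) / r)‖ ≤
      20 / r * (a * ((r : ℝ) / B) ^ 2) := by
  have hr : 0 < r := by omega
  have hr' : (0 : ℝ) < r := by exact_mod_cast hr
  have hr3 : (3 : ℝ) ≤ r := by
    have : 3 ≤ r := by omega
    exact_mod_cast this
  have hy : (1 : ℝ) ≤ y := by exact_mod_cast hk.Y1
  have hy0 : (0 : ℝ) < y := by linarith
  have hyr' : (y : ℝ) ≤ r := by exact_mod_cast hyr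
  have hB' : (1 : ℝ) ≤ B := by exact_mod_cast hB
  have ha := hk.a1
  have hpi0 := Real.pi_pos
  have hpi := Real.pi_lt_d2
  rw [duala_hat_diff y r B hr Ψ]
  set F : ℤ → ℂ := fun k => ((Ψ k : ℝ) : ℂ) * (ee (k / r) - 1) with hFd
  set Δ : ℂ := ∑ k ∈ Icc (-(y : ℤ)) y, F k * ee (k * ((B : ℝ) / r)) with hΔ
  have hF : ∀ k, F k ≠ 0 → |k| ≤ (y : ℤ) := by
    intro k hk'
    refine hk.supp k ?_
    intro h0
    apply hk'
    simp only [hFd]
    rw [h0]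
    simp
  have hs := hat_sbp F hF ((B : ℝ) / r)
  have hlow : 4 * ((B : ℝ) / r) ≤ ‖ee ((B : ℝ) / r) - 1‖ := by
    have h1 : |(B : ℝ) / r| ≤ 1 / 2 := by
      rw [abs_of_nonneg (by positivity), div_le_div_iff₀ hr' (by norm_num)]
      have : (2 * B + 1 : ℝ) ≤ r := by exact_mod_cast hBr
      linarith
    have h2 := fej_low ((B : ℝ) / r) h1
    rwa [abs_of_nonneg (by positivity)] at h2
  -- pointwise bound
  have hpt : ∀ k ∈ Icc (-(y : ℤ) - 1) (y + 1), ‖F (k + 1) - 2 * F k + F (k - 1)‖ ≤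
      2 * Real.pi * (y + 1) / r * |Ψ (k + 1) - 2 * Ψ k + Ψ (k - 1)| +
        (2 * (a / y) * (2 * Real.pi / r) + (2 * Real.pi / r) ^ 2) := by
    intro k hk'
    have hkk := mem_Icc.1 hk'
    have e1 : F (k + 1) - 2 * F k + F (k - 1) =
        (ee ((k : ℝ) / r) - 1) * ((Ψ (k + 1) - 2 * Ψ k + Ψ (k - 1) : ℝ) : ℂ) +
        ((Ψ (k + 1) - Ψ (k - 1) : ℝ) : ℂ) * (ee (((k + 1 : ℤ) : ℝ) / r) - ee ((k : ℝ) / r)) +
        ((Ψ (k - 1) : ℝ) : ℂ) * (ee (((k + 1 : ℤ) : ℝ) / r) - 2 * ee ((k : ℝ) / r) +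
          ee (((k - 1 : ℤ) : ℝ) / r)) := by
      simp only [hFd]
      push_cast
      ring
    have b1 : ‖ee ((k : ℝ) / r) - 1‖ ≤ 2 * Real.pi * (y + 1) / r := by
      refine (duala_ee_le _).trans ?_
      rw [abs_div, abs_of_pos hr', ← mul_div_assoc]
      apply div_le_div_of_nonneg_right _ hr'.le
      apply mul_le_mul_of_nonneg_left _ (by positivity)
      rw [abs_le]
      constructor
      · have h2 : ((-(y : ℤ) - 1 : ℤ) : ℝ) ≤ k := by exact_mod_cast hkk.1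
        push_cast at h2
        linarith
      · have h2 : (k : ℝ) ≤ ((y + 1 : ℤ) : ℝ) := by exact_mod_cast hkk.2
        push_cast at h2
        linarith
    have b2 : |Ψ (k + 1) - Ψ (k - 1)| ≤ 2 * (a / y) := by
      have c1 := duala_diff hk k
      have c2 := duala_diff hk (k - 1)
      rw [sub_add_cancel] at c2
      have c3 : Ψ (k + 1) - Ψ (k - 1) = (Ψ (k + 1) - Ψ k) + (Ψ k - Ψ (k - 1)) := by ring
      rw [c3]
      exact (abs_add_le _ _).trans (by linarith)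
    rw [e1]
    refine (norm_add₃_le).trans ?_
    rw [norm_mul, norm_mul, norm_mul, Complex.norm_real, Complex.norm_real, Complex.norm_real,
      Real.norm_eq_abs, Real.norm_eq_abs, Real.norm_eq_abs, add_assoc]
    refine add_le_add ?_ (add_le_add ?_ ?_)
    · exact mul_le_mul_of_nonneg_right b1 (abs_nonneg _)
    · exact mul_le_mul b2 (duala_g_diff r hr k) (norm_nonneg _) (by positivity)
    · calc |Ψ (k - 1)| * ‖ee (((k + 1 : ℤ) : ℝ) / r) - 2 * ee ((k : ℝ) / r) +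
            ee (((k - 1 : ℤ) : ℝ) / r)‖ ≤ 1 * (2 * Real.pi / r) ^ 2 :=
            mul_le_mul (hk.bd _) (duala_g_diff2 r hr k) (norm_nonneg _) zero_le_one
        _ = _ := one_mul _
  have hcard : ((Icc (-(y : ℤ) - 1) (y + 1)).card : ℝ) = 2 * y + 3 := by
    rw [Int.card_Icc]
    have : ((y : ℤ) + 1 + 1 - (-(y : ℤ) - 1)).toNat = 2 * y + 3 := by omega
    rw [this]
    push_cast
    ring
  have htot : ∑ k ∈ Icc (-(y : ℤ) - 1) (y + 1), ‖F (k + 1) - 2 * F k + F (k - 1)‖ ≤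
      2 * Real.pi / r * (17 * a) := by
    refine (Finset.sum_le_sum hpt).trans ?_
    rw [Finset.sum_add_distrib, ← Finset.mul_sum, Finset.sum_const, nsmul_eq_mul, hcard]
    have d1 : 2 * Real.pi * (y + 1) / r *
        ∑ k ∈ Icc (-(y : ℤ) - 1) (y + 1), |Ψ (k + 1) - 2 * Ψ k + Ψ (k - 1)| ≤
        2 * Real.pi / r * (2 * a) := by
      calc 2 * Real.pi * (y + 1) / r *
          ∑ k ∈ Icc (-(y : ℤ) - 1) (y + 1), |Ψ (k + 1) - 2 * Ψ k + Ψ (k - 1)|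
          ≤ 2 * Real.pi * (y + 1) / r * (a / y) :=
            mul_le_mul_of_nonneg_left (duala_sm hk) (by positivity)
        _ = 2 * Real.pi / r * ((y + 1) / y * a) := by ring
        _ ≤ 2 * Real.pi / r * (2 * a) := by
            apply mul_le_mul_of_nonneg_left _ (by positivity)
            apply mul_le_mul_of_nonneg_right _ (by linarith)
            rw [div_le_iff₀ hy0]
            linarith
    have d2 : (2 * (y : ℝ) + 3) * (2 * (a / y) * (2 * Real.pi / r) + (2 * Real.pi / r) ^ 2) ≤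
        2 * Real.pi / r * (15 * a) := by
      have d3 : (2 * (y : ℝ) + 3) * (2 * (a / y)) ≤ 10 * a := by
        calc (2 * (y : ℝ) + 3) * (2 * (a / y)) = 2 * a * ((2 * y + 3) / y) := by ring
          _ ≤ 2 * a * 5 := by
              apply mul_le_mul_of_nonneg_left _ (by linarith)
              rw [div_le_iff₀ hy0]
              linarith
          _ = 10 * a := by ring
      have d4 : (2 * (y : ℝ) + 3) * (2 * Real.pi / r) ≤ 5 * a := by
        calc (2 * (y : ℝ) + 3) * (2 * Real.pi / r) = 2 * Real.pi * ((2 * y + 3) / r) := by ring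
          _ ≤ 2 * Real.pi * 3 := by
              apply mul_le_mul_of_nonneg_left _ (by positivity)
              rw [div_le_iff₀ hr']
              linarith
          _ ≤ 5 * a := by linarith
      calc (2 * (y : ℝ) + 3) * (2 * (a / y) * (2 * Real.pi / r) + (2 * Real.pi / r) ^ 2)
          = 2 * Real.pi / r * ((2 * (y : ℝ) + 3) * (2 * (a / y)) +
            (2 * (y : ℝ) + 3) * (2 * Real.pi / r)) := by ring
        _ ≤ 2 * Real.pi / r * (10 * a + 5 * a) :=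
            mul_le_mul_of_nonneg_left (add_le_add d3 d4) (by positivity)
        _ = _ := by ring
    calc _ ≤ 2 * Real.pi / r * (2 * a) + 2 * Real.pi / r * (15 * a) := add_le_add d1 d2
      _ = _ := by ring
  have hfin : (4 * ((B : ℝ) / r)) ^ 2 * ‖Δ‖ ≤ 2 * Real.pi / r * (17 * a) := by
    calc (4 * ((B : ℝ) / r)) ^ 2 * ‖Δ‖ ≤ ‖ee ((B : ℝ) / r) - 1‖ ^ 2 * ‖Δ‖ := by
          apply mul_le_mul_of_nonneg_right _ (norm_nonneg _)
          exact pow_le_pow_left₀ (by positivity) hlow 2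
      _ ≤ _ := hs.trans htot
  have hB0 : (0 : ℝ) < B := by linarith
  calc ‖Δ‖ = ((r : ℝ) / B) ^ 2 / 16 * ((4 * ((B : ℝ) / r)) ^ 2 * ‖Δ‖) := by
        field_simp
        ring
    _ ≤ ((r : ℝ) / B) ^ 2 / 16 * (2 * Real.pi / r * (17 * a)) :=
        mul_le_mul_of_nonneg_left hfin (by positivity)
    _ = (2 * Real.pi * 17 / 16) / r * (a * ((r : ℝ) / B) ^ 2) := by ring
    _ ≤ 20 / r * (a * ((r : ℝ) / B) ^ 2) := by
        apply mul_le_mul_of_nonneg_right _ (by positivity)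
        apply div_le_div_of_nonneg_right _ hr'.le
        linarith

/-- the size of the Fourier transform -/
theorem duala_size {y : ℕ} {a : ℝ} {Ψ : ℤ → ℝ} (hk : Ker y a Ψ) (x δ : ℝ) (hδ : 0 < δ)
    (hx : 4 * δ ≤ ‖ee x - 1‖) : ‖hatK y Ψ x‖ ≤ a / y / (4 * δ) ^ 2 := by
  have hs := hat_sbp (y := y) (fun k => ((Ψ k : ℝ) : ℂ)) (fun k hk' => hk.supp k (by
    intro h0
    exact hk' (by rw [h0]; simp))) x
  have h1 : ∑ k ∈ Icc (-(y : ℤ) - 1) (y + 1),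
      ‖((Ψ (k + 1) : ℝ) : ℂ) - 2 * ((Ψ k : ℝ) : ℂ) + ((Ψ (k - 1) : ℝ) : ℂ)‖ ≤ a / y := by
    refine le_trans (le_of_eq ?_) (duala_sm hk)
    refine Finset.sum_congr rfl fun k _ => ?_
    rw [← Real.norm_eq_abs, ← Complex.norm_real]
    congr 1
    push_cast
    ring
  have h2 : (4 * δ) ^ 2 * ‖hatK y Ψ x‖ ≤ a / y := by
    calc (4 * δ) ^ 2 * ‖hatK y Ψ x‖ ≤ ‖ee x - 1‖ ^ 2 * ‖hatK y Ψ x‖ := by
          apply mul_le_mul_of_nonneg_right _ (norm_nonneg _)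
          exact pow_le_pow_left₀ (by positivity) hx 2
      _ ≤ a / y := hs.trans h1
  rw [le_div_iff₀ (by positivity)]
  linarith

/-- the case `y > r` -/
theorem duala_three {y r B : ℕ} {a : ℝ} {Ψ : ℤ → ℝ} (hk : Ker y a Ψ) (hB : 1 ≤ B)
    (hBr : 2 * B + 1 ≤ r) (hyr : r < y) :
    ‖hatK y Ψ (((B + 1 : ℕ) : ℝ) / r) - hatK y Ψ ((B : ℝ) / r)‖ ≤
      20 / r * (a * ((r : ℝ) / B) ^ 2) := by
  have hr : 0 < r := by omega
  have hr' : (0 : ℝ) < r := by exact_mod_cast hr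
  have hy0 : (0 : ℝ) < y := by exact_mod_cast hk.Y1
  have hyr' : (r : ℝ) ≤ y := by exact_mod_cast hyr.le
  have hB0 : (0 : ℝ) < B := by exact_mod_cast hB
  have hBr' : (2 * B + 1 : ℝ) ≤ r := by exact_mod_cast hBr
  have ha := hk.a1
  have hδ : (0 : ℝ) < (B : ℝ) / r := by positivity
  have l1 : 4 * ((B : ℝ) / r) ≤ ‖ee ((B : ℝ) / r) - 1‖ := by
    have h1 : |(B : ℝ) / r| ≤ 1 / 2 := by
      rw [abs_of_nonneg (by positivity), div_le_div_iff₀ hr' (by norm_num)]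
      linarith
    have h2 := fej_low ((B : ℝ) / r) h1
    rwa [abs_of_nonneg (by positivity)] at h2
  have l2 : 4 * ((B : ℝ) / r) ≤ ‖ee (((B + 1 : ℕ) : ℝ) / r) - 1‖ := by
    have hc : ((B + 1 : ℕ) : ℝ) = (B : ℝ) + 1 := by push_cast; ring
    rw [hc]
    by_cases h3 : ((B : ℝ) + 1) / r ≤ 1 / 2
    · have h1 : |((B : ℝ) + 1) / r| ≤ 1 / 2 := by
        rw [abs_of_nonneg (by positivity)]; exact h3
      have h2 := fej_low _ h1
      rw [abs_of_nonneg (by positivity)] at h2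
      refine le_trans ?_ h2
      apply mul_le_mul_of_nonneg_left _ (by norm_num)
      apply div_le_div_of_nonneg_right _ hr'.le
      linarith
    · push Not at h3
      have h4 : ee (((B : ℝ) + 1) / r) = ee (((B : ℝ) + 1) / r - 1) := by
        have h5 : ((B : ℝ) + 1) / r = (((B : ℝ) + 1) / r - 1) + ((1 : ℤ) : ℝ) := by
          push_cast; ring
        conv_lhs => rw [h5]
        rw [ee_add, ee_int, mul_one]
      have h6 : ((B : ℝ) + 1) / r - 1 ≤ -((B : ℝ) / r) := by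
        rw [← sub_nonneg]
        have : -((B : ℝ) / r) - (((B : ℝ) + 1) / r - 1) = (r - (2 * B + 1)) / r := by
          field_simp
          ring
        rw [this]
        exact div_nonneg (by linarith) hr'.le
      have h7 : |((B : ℝ) + 1) / r - 1| = 1 - ((B : ℝ) + 1) / r := by
        rw [abs_of_nonpos (by linarith)]
        ring
      have h8 : |((B : ℝ) + 1) / r - 1| ≤ 1 / 2 := by rw [h7]; linarith
      have h2 := fej_low _ h8
      rw [h4]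
      refine le_trans ?_ h2
      rw [h7]
      linarith
  have s1 := duala_size hk _ _ hδ l1
  have s2 := duala_size hk _ _ hδ l2
  have e1 : a / y / (4 * ((B : ℝ) / r)) ^ 2 = 1 / 16 / y * (a * ((r : ℝ) / B) ^ 2) := by
    field_simp
    norm_num
  rw [e1] at s1 s2
  calc ‖hatK y Ψ (((B + 1 : ℕ) : ℝ) / r) - hatK y Ψ ((B : ℝ) / r)‖
      ≤ 1 / 16 / y * (a * ((r : ℝ) / B) ^ 2) + 1 / 16 / y * (a * ((r : ℝ) / B) ^ 2) :=
        (norm_sub_le _ _).trans (add_le_add s2 s1)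
    _ = 1 / 8 / y * (a * ((r : ℝ) / B) ^ 2) := by ring
    _ ≤ 20 / r * (a * ((r : ℝ) / B) ^ 2) := by
        apply mul_le_mul_of_nonneg_right _ (by positivity)
        rw [div_le_div_iff₀ hy0 hr']
        nlinarith

theorem hat_inc {y r B : ℕ} {a : ℝ} {Ψ : ℤ → ℝ} (hk : Ker y a Ψ) (hB : 1 ≤ B)
    (hBr : 2 * B + 1 ≤ r) :
    ‖hatK y Ψ (((B + 1 : ℕ) : ℝ) / r) - hatK y Ψ ((B : ℝ) / r)‖ ≤ 20 / r * dw y a r B := by
  have hr' : (0 : ℝ) < r := by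
    have : 0 < r := by omega
    exact_mod_cast this
  unfold dw
  rw [mul_min_of_nonneg _ _ (by positivity)]
  refine le_min (duala_one hk (by omega)) ?_
  rcases le_or_gt y r with h | h
  · exact duala_two hk hB hBr h
  · exact duala_three hk hB hBr h

end Pool.Agent.H67.VW
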