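import Pool.Agent.H67.VW.DualA
import Pool.Agent.H67.VT.LsB

/-!
[H67 VW DUALB]  The dual form of a smooth character sum.

Proof.  Let `g(b) = hatK y Ψ (b/r)`, `K_B = ∑_{1 ≤ b ≤ B} χ⁻¹(b)`.  Gauss sums: for every integer `k`
`τ(χ⁻¹) χ(k) = ∑_{1 ≤ b < r} χ⁻¹(b) ee(b k/r)` and `|τ(χ⁻¹)| = √r` (`VT.lsb_expand`, `VT.lsb_gauss` in `Pool/Agent/H67/VT/LsB.lean`, used in the
same way in `Pool/Agent/H67/VU/Pv.lean`; for the negative `k` replace `k` by `k + r |k|` or use the identity in `ZMod r` directly), so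
`√r ‖KF y Ψ χ‖ = ‖∑_{1 ≤ b < r} χ⁻¹(b) g(b)‖ = ‖∑_{1 ≤ B ≤ r-2} K_B (g(B) - g(B+1))‖`, because `K_{r-1} = 0` (`χ ≠ 1`).
For `2B+1 ≤ r` use `hat_inc`.  For `2B ≥ r` let `B' = r-1-B`, `1 ≤ B' `, `2B'+1 ≤ r`: `K_B = -χ⁻¹(-1) K_{B'}`, and
`g(r-b) = conj g(b)` (`Ψ` real) gives `|g(B+1) - g(B)| = |g(B'+1) - g(B')|`.  Hence
`√r ‖KF‖ ≤ 2 ∑_{1 ≤ B, 2B+1 ≤ r} ‖K_B‖ (20/r) dw y a r B`, and `‖K_B‖ = ‖Kc B χ‖` (complex conjugate).
-/

namespace Pool.Agent.H67.VW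

open Finset

private theorem dual_ee {r : ℕ} [NeZero r] (k : ℤ) (b : ZMod r) :
    ZMod.stdAddChar (N := r) ((k : ZMod r) * b) =
      Pool.Agent.H21.BV.ee (k * ((b.val : ℝ) / r)) := by
  have h1 : (k : ZMod r) * b = ((k * (b.val : ℤ) : ℤ) : ZMod r) := by
    push_cast
    rw [ZMod.natCast_zmod_val]
  rw [h1, ZMod.stdAddChar_coe]
  unfold Pool.Agent.H21.BV.ee
  congr 1
  push_cast
  ring

private theorem dual_gauss {r : ℕ} [NeZero r] (y : ℕ) (Ψ : ℤ → ℝ) (χ : DirichletCharacter ℂ r)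
    (hχ : χ.IsPrimitive) :
    ∑ b : ZMod r, hatK y Ψ ((b.val : ℝ) / r) * χ⁻¹ b =
      KF y Ψ χ * gaussSum χ⁻¹ (ZMod.stdAddChar (N := r)) := by
  have hp : (χ⁻¹).IsPrimitive := by
    rw [DirichletCharacter.isPrimitive_def] at hχ ⊢
    rw [DirichletCharacter.conductor_inv, hχ]
  unfold hatK KF
  simp_rw [Finset.sum_mul]
  rw [Finset.sum_comm]
  refine Finset.sum_congr rfl fun k _ => ?_
  have h1 := gaussSum_mulShift_of_isPrimitive (ZMod.stdAddChar (N := r)) hp (k : ZMod r)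
  rw [inv_inv] at h1
  rw [mul_assoc, ← h1]
  unfold gaussSum
  rw [Finset.mul_sum]
  refine Finset.sum_congr rfl fun b _ => ?_
  rw [AddChar.mulShift_apply, dual_ee]
  ring

private theorem dual_range {r : ℕ} [NeZero r] (G : ℕ → ℂ) (χ : DirichletCharacter ℂ r) :
    ∑ b : ZMod r, G b.val * χ b = ∑ v ∈ range r, G v * χ (v : ZMod r) := by
  refine Finset.sum_nbij' (fun b => b.val) (fun v => (v : ZMod r)) ?_ ?_ ?_ ?_ ?_
  · intro b _
    exact mem_range.2 (ZMod.val_lt b)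
  · intro v _
    exact mem_univ _
  · intro b _
    exact ZMod.natCast_zmod_val b
  · intro v hv
    exact ZMod.val_cast_of_lt (mem_range.1 hv)
  · intro b _
    rw [ZMod.natCast_zmod_val]

private theorem dual_kc {r : ℕ} [NeZero r] (hr : 2 ≤ r) (χ : DirichletCharacter ℂ r) (n : ℕ) :
    ∑ v ∈ range (n + 1), χ (v : ZMod r) = Kc n χ := by
  have hz : χ (0 : ZMod r) = 0 := by
    apply MulChar.map_nonunit
    have : Nontrivial (ZMod r) := ZMod.nontrivial_iff.2 (by omega)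
    exact not_isUnit_zero
  have h : range (n + 1) = insert 0 (Ioc 0 n) := by
    ext k
    rw [mem_range, mem_insert, mem_Ioc]
    omega
  unfold Kc
  rw [h, sum_insert (by simp), Nat.cast_zero, hz, zero_add]

private theorem dual_inv {r : ℕ} [NeZero r] (χ : DirichletCharacter ℂ r) (n : ℕ) :
    ‖Kc n χ⁻¹‖ = ‖Kc n χ‖ := by
  unfold Kc
  rw [← Complex.norm_conj (∑ k ∈ Ioc 0 n, χ (k : ZMod r)), map_sum]
  simp_rw [Pool.Agent.H67.VT.lsb_conj]

private theorem dual_total {r : ℕ} [NeZero r] (hr : 2 ≤ r) (χ : DirichletCharacter ℂ r)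
    (h1 : χ ≠ 1) : Kc (r - 1) χ = 0 := by
  rw [← dual_kc hr, Nat.sub_add_cancel (by omega)]
  have h2 := dual_range (fun _ => 1) χ
  simp only [one_mul] at h2
  rw [← h2]
  exact MulChar.sum_eq_zero_of_ne_one h1

private theorem dual_refl {r : ℕ} [NeZero r] (hr : 2 ≤ r) (χ : DirichletCharacter ℂ r)
    (h1 : χ ≠ 1) (i : ℕ) (hi : i ≤ r - 1) : ‖Kc (r - 1 - i) χ‖ = ‖Kc i χ‖ := by
  have h2 := dual_total hr χ h1
  have h3 : Kc (r - 1) χ = Kc i χ + ∑ k ∈ Ioc i (r - 1), χ (k : ZMod r) := by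
    unfold Kc
    rw [← Finset.sum_union, Finset.Ioc_union_Ioc_eq_Ioc (by omega) hi]
    exact Finset.Ioc_disjoint_Ioc_of_le le_rfl
  have h4 : ∑ k ∈ Ioc i (r - 1), χ (k : ZMod r) = χ (-1) * Kc (r - 1 - i) χ := by
    unfold Kc
    rw [Finset.mul_sum]
    refine Finset.sum_nbij' (fun k => r - k) (fun k => r - k) ?_ ?_ ?_ ?_ ?_
    · intro k hk
      rw [mem_Ioc] at hk ⊢
      omega
    · intro k hk
      rw [mem_Ioc] at hk ⊢
      omega
    · intro k hk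
      rw [mem_Ioc] at hk
      omega
    · intro k hk
      rw [mem_Ioc] at hk
      omega
    · intro k hk
      rw [mem_Ioc] at hk
      rw [← map_mul, Nat.cast_sub (by omega), ZMod.natCast_self]
      congr 1
      ring
  rw [h2, h4] at h3
  have h5 : Kc i χ = -(χ (-1) * Kc (r - 1 - i) χ) := by
    linear_combination -h3
  have h6 : ‖χ (-1)‖ = 1 := by
    have := χ.unit_norm_eq_one (-1 : (ZMod r)ˣ)
    simpa using this
  rw [h5, norm_neg, norm_mul, h6, one_mul]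

private theorem dual_conj {r : ℕ} (hr : 0 < r) (y : ℕ) (Ψ : ℤ → ℝ) (b : ℕ) (hb : b ≤ r) :
    hatK y Ψ (((r - b : ℕ) : ℝ) / r) = (starRingEnd ℂ) (hatK y Ψ ((b : ℝ) / r)) := by
  unfold hatK
  rw [map_sum]
  refine Finset.sum_congr rfl fun k _ => ?_
  rw [map_mul, Complex.conj_ofReal, Pool.Agent.H21.BV.conj_ee]
  congr 1
  have h0 : (r : ℝ) ≠ 0 := by positivity
  have h1 : (k : ℝ) * (((r - b : ℕ) : ℝ) / r) = (k : ℝ) + (-(k * ((b : ℝ) / r))) := by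
    rw [Nat.cast_sub hb]
    field_simp
    ring
  rw [h1, Pool.Agent.H21.BV.ee_add, Pool.Agent.H21.BV.ee_int, one_mul]

theorem dual {r y : ℕ} [NeZero r] {a : ℝ} {Ψ : ℤ → ℝ} (hr : 2 ≤ r) (hk : Ker y a Ψ)
    (χ : DirichletCharacter ℂ r) (hχ : χ.IsPrimitive) :
    ‖KF y Ψ χ‖ ≤ 40 / (r * Real.sqrt r) * ∑ B ∈ Icc 1 r, dw y a r B * ‖Kc B χ‖ := by
  have hr0 : (0 : ℝ) < r := by
    have : 0 < r := by omega
    exact_mod_cast this
  have hp : (χ⁻¹).IsPrimitive := by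
    rw [DirichletCharacter.isPrimitive_def] at hχ ⊢
    rw [DirichletCharacter.conductor_inv, hχ]
  have hne : χ ≠ 1 := by
    rintro rfl
    rw [DirichletCharacter.isPrimitive_def, DirichletCharacter.conductor_one] at hχ
    omega
  have hne' : χ⁻¹ ≠ 1 := by rwa [Ne, inv_eq_one]
  obtain ⟨g, hg⟩ : ∃ g : ℕ → ℂ, ∀ v, g v = hatK y Ψ ((v : ℝ) / r) := ⟨_, fun _ => rfl⟩
  have h1 := dual_gauss y Ψ χ hχ
  have h2 := dual_range g χ⁻¹
  simp_rw [← hg] at h1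
  rw [h2] at h1
  have h3 : ∑ v ∈ range r, g v * χ⁻¹ (v : ZMod r) =
      - ∑ i ∈ range (r - 1), (g (i + 1) - g i) * Kc i χ⁻¹ := by
    have h4 := Finset.sum_range_by_parts g (fun v => χ⁻¹ (v : ZMod r)) r
    simp only [smul_eq_mul] at h4
    have h5 : ∑ v ∈ range r, χ⁻¹ (v : ZMod r) = 0 := by
      have h6 := dual_kc hr χ⁻¹ (r - 1)
      rw [Nat.sub_add_cancel (by omega), dual_total hr χ⁻¹ hne'] at h6
      exact h6
    rw [h4, h5, mul_zero, zero_sub]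
    congr 1
    refine Finset.sum_congr rfl fun i _ => ?_
    rw [dual_kc hr]
  have h7 : ‖gaussSum χ⁻¹ (ZMod.stdAddChar (N := r))‖ = Real.sqrt r := by
    have h8 := Pool.Agent.H67.VT.lsb_gauss χ⁻¹ hp
    rw [Complex.mul_conj'] at h8
    have h9 : ‖gaussSum χ⁻¹ (ZMod.stdAddChar (N := r))‖ ^ 2 = (r : ℝ) := by exact_mod_cast h8
    rw [← h9, Real.sqrt_sq (norm_nonneg _)]
  have h10 : ‖KF y Ψ χ‖ * Real.sqrt r ≤
      ∑ i ∈ range (r - 1), ‖g (i + 1) - g i‖ * ‖Kc i χ‖ := by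
    rw [← h7, ← norm_mul, ← h1, h3, norm_neg]
    refine (norm_sum_le _ _).trans (le_of_eq ?_)
    refine Finset.sum_congr rfl fun i _ => ?_
    rw [norm_mul, dual_inv]
  -- the increments
  obtain ⟨H, hH⟩ : ∃ H : ℕ → ℝ, ∀ i, H i = 20 / r * dw y a r i * ‖Kc i χ‖ := ⟨_, fun _ => rfl⟩
  have ha4 := hk.a1
  have hdw : ∀ i, 0 ≤ dw y a r i := by
    intro i
    unfold dw
    exact le_min (by positivity) (by positivity)
  have hH0 : ∀ i, 0 ≤ H i := by
    intro i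
    rw [hH]
    have := hdw i
    positivity
  have hlow : ∀ i, 1 ≤ i → 2 * i + 1 ≤ r → ‖g (i + 1) - g i‖ * ‖Kc i χ‖ ≤ H i := by
    intro i hi1 hi2
    rw [hH, hg, hg]
    exact mul_le_mul_of_nonneg_right (hat_inc hk hi1 hi2) (norm_nonneg _)
  have hall : ∀ i ∈ Ico 1 (r - 1), ‖g (i + 1) - g i‖ * ‖Kc i χ‖ ≤ H i + H (r - 1 - i) := by
    intro i hi
    rw [mem_Ico] at hi
    by_cases hc : 2 * i + 1 ≤ r
    · have := hlow i hi.1 hc
      have := hH0 (r - 1 - i)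
      linarith
    · have h11 := hlow (r - 1 - i) (by omega) (by omega)
      have h12 : ‖g (i + 1) - g i‖ = ‖g (r - 1 - i + 1) - g (r - 1 - i)‖ := by
        have e1 : g (r - 1 - i + 1) = (starRingEnd ℂ) (g i) := by
          have : r - 1 - i + 1 = r - i := by omega
          rw [this, hg, hg, dual_conj (by omega) y Ψ i (by omega)]
        have e2 : g (r - 1 - i) = (starRingEnd ℂ) (g (i + 1)) := by
          have : r - 1 - i = r - (i + 1) := by omega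
          rw [this, hg, hg, dual_conj (by omega) y Ψ (i + 1) (by omega)]
        rw [e1, e2, ← map_sub, Complex.norm_conj, norm_sub_rev]
      rw [h12, ← dual_refl hr χ hne i (by omega)]
      have := hH0 i
      linarith
  have h13 : ∑ i ∈ range (r - 1), ‖g (i + 1) - g i‖ * ‖Kc i χ‖ =
      ∑ i ∈ Ico 1 (r - 1), ‖g (i + 1) - g i‖ * ‖Kc i χ‖ := by
    by_cases h : r = 2
    · subst h
      simp [Kc]
    · have e : range (r - 1) = insert 0 (Ico 1 (r - 1)) := by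
        ext k
        rw [mem_range, mem_insert, mem_Ico]
        omega
      rw [e, sum_insert (by simp)]
      simp [Kc]
  have h14 : ∑ i ∈ Ico 1 (r - 1), H (r - 1 - i) = ∑ i ∈ Ico 1 (r - 1), H i := by
    refine Finset.sum_nbij' (fun k => r - 1 - k) (fun k => r - 1 - k) ?_ ?_ ?_ ?_ ?_
    · intro k hk
      rw [mem_Ico] at hk ⊢
      omega
    · intro k hk
      rw [mem_Ico] at hk ⊢
      omega
    · intro k hk
      rw [mem_Ico] at hk
      omega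
    · intro k hk
      rw [mem_Ico] at hk
      omega
    · intro k _
      rfl
  have h15 : ∑ i ∈ Ico 1 (r - 1), H i ≤ ∑ i ∈ Icc 1 r, H i := by
    refine Finset.sum_le_sum_of_subset_of_nonneg ?_ fun i _ _ => hH0 i
    intro k hk
    rw [mem_Ico] at hk
    rw [mem_Icc]
    omega
  have h16 : ‖KF y Ψ χ‖ * Real.sqrt r ≤ 2 * ∑ i ∈ Icc 1 r, H i := by
    calc ‖KF y Ψ χ‖ * Real.sqrt r ≤ ∑ i ∈ Ico 1 (r - 1), ‖g (i + 1) - g i‖ * ‖Kc i χ‖ := by
          rw [← h13]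
          exact h10
      _ ≤ ∑ i ∈ Ico 1 (r - 1), (H i + H (r - 1 - i)) := Finset.sum_le_sum hall
      _ = 2 * ∑ i ∈ Ico 1 (r - 1), H i := by
          rw [Finset.sum_add_distrib, h14]
          ring
      _ ≤ _ := by linarith
  have h17 : ∑ i ∈ Icc 1 r, H i = 20 / r * ∑ B ∈ Icc 1 r, dw y a r B * ‖Kc B χ‖ := by
    rw [Finset.mul_sum]
    refine Finset.sum_congr rfl fun i _ => ?_
    rw [hH]
    ring
  have hsq : 0 < Real.sqrt r := Real.sqrt_pos.2 hr0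
  have h18 : ‖KF y Ψ χ‖ ≤ (2 * ∑ i ∈ Icc 1 r, H i) / Real.sqrt r := by
    rwa [le_div_iff₀ hsq]
  refine h18.trans (le_of_eq ?_)
  rw [h17]
  field_simp
  ring

end Pool.Agent.H67.VW
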