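import Pool.Agent.H67.VW.TyK

/-!
[H67 VW THK]  The mean value of the sums over primes times initial segments.

Proof.  Copy `th_mean` of `Pool/Agent/H67/VU/Th.lean`: pointwise `th_det`, then multiply by `‖Kc B c.2‖` and sum.  The four
terms `thG`: `ty_cutK` (for `t` and for `T`; `PB`, `QB`, `log` are increasing in `T`, `B ≤ t ≤ T`).
The remaining term: `(3 u √R l² + 2 √T l) ∑_c ‖Kc B c‖`, `l = 1 + log T`, and by Cauchy-Schwarz, `card_PC`, `ls_mult`: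
`∑_{c ∈ PC R} ‖Kc B c‖ ≤ R √(C (B + R²) B) ≤ C' (R B + R² √B)`; `u √R (R B + R² √B) ≤ B PB + √B QB`,
`√T (R B + R² √B) ≤ B R T^(3/4) + √B R² √T` (`T ≥ 1`).
-/

namespace Pool.Agent.H67.VW

open Finset Pool.Agent.H21.MT Pool.Agent.H67.VS Pool.Agent.H67.VU

/-- the sum of the absolute values of the initial segments -/
theorem thk_kc : ∃ C : ℝ, 0 < C ∧ ∀ (R B : ℕ),
    ∑ c ∈ PC R, ‖Kc B c.2‖ ≤ C * ((R : ℝ) * B + (R : ℝ) ^ 2 * Real.sqrt B) := by
  obtain ⟨C, hC, hls⟩ := Pool.Agent.H67.VT.ls_mult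
  refine ⟨Real.sqrt C, Real.sqrt_pos.mpr hC, ?_⟩
  intro R B
  have h1 := hls R 0 B (fun _ => 1)
  have h2 : ∑ c ∈ PC R, ‖Kc B c.2‖ ^ 2 ≤ C * ((B : ℝ) + (R : ℝ) ^ 2) * B := by
    have e1 : ∀ c : Ch R, ∑ n ∈ Ioc 0 (0 + B), (fun _ => (1 : ℂ)) n *
        c.2 (n : ZMod (c.1.val + 1)) = Kc B c.2 := by
      intro c
      unfold Kc
      rw [zero_add]
      apply sum_congr rfl
      intro n _
      rw [one_mul]
    have e2 : ∑ n ∈ Ioc 0 (0 + B), ‖(fun _ => (1 : ℂ)) n‖ ^ 2 = (B : ℝ) := by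
      simp
    rw [e2] at h1
    simp only [e1] at h1
    exact h1
  have hB0 : (0 : ℝ) ≤ B := Nat.cast_nonneg B
  have hR0 : (0 : ℝ) ≤ R := Nat.cast_nonneg R
  have hsB : Real.sqrt B ^ 2 = B := Real.sq_sqrt hB0
  have hsC : Real.sqrt C ^ 2 = C := Real.sq_sqrt hC.le
  have hsB0 := Real.sqrt_nonneg (B : ℝ)
  have h3 : (∑ c ∈ PC R, ‖Kc B c.2‖) ^ 2 ≤
      (Real.sqrt C * ((R : ℝ) * B + (R : ℝ) ^ 2 * Real.sqrt B)) ^ 2 := by
    calc (∑ c ∈ PC R, ‖Kc B c.2‖) ^ 2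
        ≤ ((PC R).card : ℝ) * ∑ c ∈ PC R, ‖Kc B c.2‖ ^ 2 := sq_sum_le_card_mul_sum_sq
      _ ≤ (R : ℝ) ^ 2 * (C * ((B : ℝ) + (R : ℝ) ^ 2) * B) := by
          apply mul_le_mul (card_PC R) h2 _ (by positivity)
          exact sum_nonneg (fun _ _ => by positivity)
      _ ≤ (Real.sqrt C * ((R : ℝ) * B + (R : ℝ) ^ 2 * Real.sqrt B)) ^ 2 := by
          rw [mul_pow, hsC, add_sq, mul_pow ((R : ℝ) ^ 2), hsB]
          have : 0 ≤ C * (2 * ((R : ℝ) * B) * ((R : ℝ) ^ 2 * Real.sqrt B)) := by positivity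
          nlinarith
  exact le_of_sq_le_sq h3 (by positivity)

theorem thk_PB_mono {R u t T : ℕ} (htT : t ≤ T) : PB R u t ≤ PB R u T := by
  unfold PB
  have h : (t : ℝ) ≤ T := by exact_mod_cast htT
  have h1 : (t : ℝ) ^ (3 / 4 : ℝ) ≤ (T : ℝ) ^ (3 / 4 : ℝ) :=
    Real.rpow_le_rpow (Nat.cast_nonneg t) h (by norm_num)
  gcongr

theorem thk_QB_mono {R u t T : ℕ} (htT : t ≤ T) : QB R u t ≤ QB R u T := by
  unfold QB
  have h : (t : ℝ) ≤ T := by exact_mod_cast htT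
  gcongr

theorem th_meanK : ∃ C : ℝ, 0 < C ∧ ∀ (R u t T B : ℕ), 1 ≤ u → u ^ 3 ≤ t → t ≤ T → R ≤ T →
    1 ≤ B → B ≤ t →
    ∑ c ∈ PC R, ‖ThC t T onef c.2‖ * ‖Kc B c.2‖ ≤
      C * (1 + Real.log T) ^ 6 * (B * PB R u T + Real.sqrt B * QB R u T) := by
  classical
  obtain ⟨C1, hC1, hty⟩ := ty_cutK
  obtain ⟨C2, hC2, hkc⟩ := thk_kc
  refine ⟨4 * C1 + 5 * C2, by linarith, ?_⟩
  intro R u t T B hu hut htT hRT hB1 hBt
  obtain ⟨c', b, hc', hb, hV⟩ := vaughan u hu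
  have hu3 : 1 ≤ u ^ 3 := Nat.one_le_pow _ _ hu
  have ht1 : 1 ≤ t := by omega
  have hT1 : 1 ≤ T := by omega
  have hTr : (1 : ℝ) ≤ T := by exact_mod_cast hT1
  have htr : (1 : ℝ) ≤ t := by exact_mod_cast ht1
  have hur : (1 : ℝ) ≤ u := by exact_mod_cast hu
  have hlT : 0 ≤ Real.log T := Real.log_natCast_nonneg T
  obtain ⟨lg, hlg⟩ : ∃ lg, lg = 1 + Real.log T := ⟨_, rfl⟩
  have hlg1 : 1 ≤ lg := by linarith
  have hPB0 : ∀ Y : ℕ, 0 ≤ PB R u Y := by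
    intro Y
    unfold PB
    positivity
  have hQB0 : ∀ Y : ℕ, 0 ≤ QB R u Y := by
    intro Y
    unfold QB
    positivity
  obtain ⟨E, hE⟩ : ∃ E : ℝ, E = B * PB R u T + Real.sqrt B * QB R u T := ⟨_, rfl⟩
  have hE0 : 0 ≤ E := by
    rw [hE]
    have := hPB0 T
    have := hQB0 T
    positivity
  have hloglg : ∀ m : ℕ, m ≤ T → Real.log m ≤ lg := by
    intro m hm
    rcases Nat.eq_zero_or_pos m with h | h
    · rw [h, Nat.cast_zero, Real.log_zero]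
      linarith
    · have : Real.log m ≤ Real.log T :=
        Real.log_le_log (by exact_mod_cast h) (by exact_mod_cast hm)
      linarith
  -- the bilinear sums for `Y ≤ T`
  have hbil : ∀ (Y : ℕ), 1 ≤ Y → Y ≤ T → B ≤ Y → ∀ (a' b' : ℕ → ℝ) (α β : ℝ),
      (∀ m, u < m → m ≤ T → |a' m| ≤ α) → (∀ k, u < k → k ≤ T → |b' k| ≤ β) → 0 ≤ α → 0 ≤ β →
      α * β = lg → ∑ c ∈ PC R, ‖thG u Y a' b' c.2‖ * ‖Kc B c.2‖ ≤ C1 * lg ^ 5 * E := by
    intro Y hY1 hYT hBY a' b' α β ha hb' hα hβ hαβ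
    have h1 := hty R u Y B hu hY1 hB1 hBY a' b' α β (fun m h1 h2 => ha m h1 (h2.trans hYT))
      (fun k h1 h2 => hb' k h1 (h2.trans hYT)) hα hβ
    refine h1.trans ?_
    have hYr : (1 : ℝ) ≤ Y := by exact_mod_cast hY1
    have hYTr : (Y : ℝ) ≤ T := by exact_mod_cast hYT
    have hlY : Real.log Y ≤ Real.log T := Real.log_le_log (by linarith) hYTr
    have hlY0 : 0 ≤ Real.log Y := Real.log_natCast_nonneg Y
    have e1 : (1 + Real.log Y) ^ 4 ≤ lg ^ 4 := by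
      rw [hlg]
      gcongr
    have e2 : B * PB R u Y + Real.sqrt B * QB R u Y ≤ E := by
      rw [hE]
      have := thk_PB_mono (R := R) (u := u) hYT
      have := thk_QB_mono (R := R) (u := u) hYT
      gcongr
    have e3 : 0 ≤ B * PB R u Y + Real.sqrt B * QB R u Y := by
      have := hPB0 Y
      have := hQB0 Y
      positivity
    calc C1 * α * β * (1 + Real.log Y) ^ 4 * (B * PB R u Y + Real.sqrt B * QB R u Y)
        = C1 * (α * β) * (1 + Real.log Y) ^ 4 * (B * PB R u Y + Real.sqrt B * QB R u Y) := by ring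
      _ ≤ C1 * lg * lg ^ 4 * E := by
          rw [hαβ]
          gcongr
      _ = C1 * lg ^ 5 * E := by ring
  obtain ⟨F, hF⟩ : ∃ F : ℝ, F = 3 * u * Real.sqrt R * lg ^ 2 + 2 * Real.sqrt T * Real.log T :=
    ⟨_, rfl⟩
  have hF0 : 0 ≤ F := by
    rw [hF]
    positivity
  have hdet : ∀ c ∈ PC R, ‖ThC t T onef c.2‖ * ‖Kc B c.2‖ ≤
      ‖thG u T (fun m => if m ≤ u * u then c' m else 0) onef c.2‖ * ‖Kc B c.2‖ +
      ‖thG u t (fun m => if m ≤ u * u then c' m else 0) onef c.2‖ * ‖Kc B c.2‖ +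
      ‖thG u T (fun m => ((ArithmeticFunction.moebius m : ℤ) : ℝ)) b c.2‖ * ‖Kc B c.2‖ +
      ‖thG u t (fun m => ((ArithmeticFunction.moebius m : ℤ) : ℝ)) b c.2‖ * ‖Kc B c.2‖ +
      F * ‖Kc B c.2‖ := by
    intro c hc
    rw [← add_mul, ← add_mul, ← add_mul, ← add_mul]
    apply mul_le_mul_of_nonneg_right _ (norm_nonneg _)
    rw [hF, hlg]
    unfold PC at hc
    rw [mem_filter] at hc
    obtain ⟨_, hp, h2⟩ := hc
    have hlt := c.1.isLt
    exact th_det hu hut htT hRT c.2 hp h2 (by unfold Ch.md at h2; omega) c' b hc' hV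
  have hca : ∀ m, u < m → m ≤ T → |(if m ≤ u * u then c' m else 0)| ≤ lg := by
    intro m _ hm
    split_ifs
    · exact (hc' m).trans (hloglg m hm)
    · rw [abs_zero]
      linarith
  have hone : ∀ k, u < k → k ≤ T → |onef k| ≤ 1 := by
    intro k _ _
    unfold onef
    rw [abs_one]
  have hmu : ∀ m : ℕ, u < m → m ≤ T → |((ArithmeticFunction.moebius m : ℤ) : ℝ)| ≤ 1 := by
    intro m _ _
    exact_mod_cast ArithmeticFunction.abs_moebius_le_one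
  have hbb : ∀ k, u < k → k ≤ T → |b k| ≤ lg := by
    intro k _ hk
    exact (hb k).trans (hloglg k hk)
  have hBT : B ≤ T := hBt.trans htT
  have b1 := hbil T hT1 le_rfl hBT _ onef lg 1 hca hone (by linarith) zero_le_one (by ring)
  have b2 := hbil t ht1 htT hBt _ onef lg 1 hca hone (by linarith) zero_le_one (by ring)
  have b3 := hbil T hT1 le_rfl hBT _ b 1 lg hmu hbb zero_le_one (by linarith) (by ring)
  have b4 := hbil t ht1 htT hBt _ b 1 lg hmu hbb zero_le_one (by linarith) (by ring)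
  have hsum := sum_le_sum hdet
  rw [sum_add_distrib, sum_add_distrib, sum_add_distrib, sum_add_distrib, ← mul_sum] at hsum
  have hk := mul_le_mul_of_nonneg_left (hkc R B) hF0
  have htot : ∑ c ∈ PC R, ‖ThC t T onef c.2‖ * ‖Kc B c.2‖ ≤ 4 * (C1 * lg ^ 5 * E) +
      F * (C2 * ((R : ℝ) * B + (R : ℝ) ^ 2 * Real.sqrt B)) := by
    linarith
  refine htot.trans ?_
  rw [← hlg, ← hE]
  have p5 : lg ^ 5 ≤ lg ^ 6 := pow_le_pow_right₀ hlg1 (by norm_num)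
  have p2 : lg ^ 2 ≤ lg ^ 6 := pow_le_pow_right₀ hlg1 (by norm_num)
  have p1 : Real.log T ≤ lg ^ 6 := by
    have : lg ≤ lg ^ 6 := by
      calc lg = lg ^ 1 := (pow_one lg).symm
        _ ≤ lg ^ 6 := pow_le_pow_right₀ hlg1 (by norm_num)
    linarith
  obtain ⟨W, hW⟩ : ∃ W : ℝ, W = (R : ℝ) * B + (R : ℝ) ^ 2 * Real.sqrt B := ⟨_, rfl⟩
  have hW0 : 0 ≤ W := by
    rw [hW]
    positivity
  -- the two parts of the remaining term
  have r1 : u * Real.sqrt R * W ≤ E := by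
    have e1 : (R : ℝ) * Real.sqrt R * u ≤ PB R u T := by
      unfold PB
      have : 0 ≤ (T : ℝ) + R * (T : ℝ) ^ (3 / 4 : ℝ) := by positivity
      linarith
    have e2 : (R : ℝ) ^ 2 * Real.sqrt R * u ≤ QB R u T := by
      unfold QB
      have : 0 ≤ (R : ℝ) * T / Real.sqrt u + (R : ℝ) ^ 2 * Real.sqrt T := by positivity
      linarith
    have e3 : u * Real.sqrt R * W =
        B * ((R : ℝ) * Real.sqrt R * u) + Real.sqrt B * ((R : ℝ) ^ 2 * Real.sqrt R * u) := by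
      rw [hW]
      ring
    rw [e3, hE]
    gcongr
  have r2 : Real.sqrt T * W ≤ E := by
    have e0 : Real.sqrt T ≤ (T : ℝ) ^ (3 / 4 : ℝ) := by
      rw [Real.sqrt_eq_rpow]
      exact Real.rpow_le_rpow_of_exponent_le hTr (by norm_num)
    have e1 : (R : ℝ) * Real.sqrt T ≤ PB R u T := by
      unfold PB
      have h1 : (R : ℝ) * Real.sqrt T ≤ R * (T : ℝ) ^ (3 / 4 : ℝ) := by gcongr
      have : 0 ≤ (R : ℝ) * Real.sqrt R * u := by positivity
      linarith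
    have e2 : (R : ℝ) ^ 2 * Real.sqrt T ≤ QB R u T := by
      unfold QB
      have : 0 ≤ (R : ℝ) * T / Real.sqrt u := by positivity
      have : 0 ≤ (R : ℝ) ^ 2 * Real.sqrt R * u := by positivity
      linarith
    have e3 : Real.sqrt T * W =
        B * ((R : ℝ) * Real.sqrt T) + Real.sqrt B * ((R : ℝ) ^ 2 * Real.sqrt T) := by
      rw [hW]
      ring
    rw [e3, hE]
    gcongr
  have q1 : 4 * (C1 * lg ^ 5 * E) ≤ 4 * (C1 * lg ^ 6 * E) := by gcongr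
  have q2 : F * (C2 * W) ≤ 5 * (C2 * (lg ^ 6 * E)) := by
    have e : F * (C2 * W) = C2 * (3 * (lg ^ 2 * (u * Real.sqrt R * W)) +
        2 * (Real.log T * (Real.sqrt T * W))) := by
      rw [hF]
      ring
    have e1 : lg ^ 2 * (u * Real.sqrt R * W) ≤ lg ^ 6 * E :=
      mul_le_mul p2 r1 (by positivity) (by positivity)
    have e2 : Real.log T * (Real.sqrt T * W) ≤ lg ^ 6 * E :=
      mul_le_mul p1 r2 (by positivity) (by positivity)
    rw [e]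
    calc C2 * (3 * (lg ^ 2 * (u * Real.sqrt R * W)) + 2 * (Real.log T * (Real.sqrt T * W)))
        ≤ C2 * (3 * (lg ^ 6 * E) + 2 * (lg ^ 6 * E)) := by gcongr
      _ = 5 * (C2 * (lg ^ 6 * E)) := by ring
  rw [← hW]
  have e : (4 * C1 + 5 * C2) * lg ^ 6 * E = 4 * (C1 * lg ^ 6 * E) + 5 * (C2 * (lg ^ 6 * E)) := by
    ring
  rw [e]
  linarith

end Pool.Agent.H67.VW
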