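import Pool.Agent.H67.VW.DualB
import Pool.Agent.H67.VW.ThK

/-!
[H67 VW DUALC]  The mean value of the sums over primes times smooth short sums.

Proofs.
* `dw_sum1`: `∑_{B ≤ R} dw y a R B * B ≤ ∑ a R²/B ≤ a R² (1 + log R)`.
* `dw_sum2`: `B ≤ R/y`: `∑ y² √B ≤ y² (R/y) √(R/y) = √y R √R`; `B > R/y`: `∑ a R² B^(-3/2) ≤ 3 a R² /√(R/y) = 3 a √y R √R`
  (`∑_{B > x} B^(-3/2) ≤ 3/√x` for `x > 0`; for `x < 1` the sum over `B ≥ 1` is `≤ 3 ≤ 3/√x`).
* `dual_mean`: for `r = c.md`, `R < 2r ≤ 2R`: `dual` (`c ∈ PC R`: primitive, `r ≥ 2`), `40/(r √r) ≤ 120/(R √R)`,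
  `dw y a r B ≤ dw y a R B`, `Icc 1 r ⊆ Icc 1 R`.  Exchange the sums over `c` and `B`, `th_meanK` (`B ≤ R ≤ t`):
  `≤ (120/(R √R)) ∑_B dw y a R B C l^6 (B PB + √B QB)`, then `dw_sum1`, `dw_sum2`, `1 + log R ≤ l`, `a ≥ 4`.
-/

namespace Pool.Agent.H67.VW

open Finset Pool.Agent.H21.MT Pool.Agent.H67.VS Pool.Agent.H67.VU

theorem dw_sum1 (y R : ℕ) (a : ℝ) (ha : 0 ≤ a) :
    ∑ B ∈ Icc 1 R, dw y a R B * B ≤ a * (R : ℝ) ^ 2 * (1 + Real.log R) := by
  have h1 : ∀ B ∈ Icc 1 R, dw y a R B * B ≤ a * (R : ℝ) ^ 2 * ((B : ℝ)⁻¹) := by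
    intro B hB
    have hB1 : (1 : ℝ) ≤ (B : ℝ) := by exact_mod_cast (mem_Icc.1 hB).1
    have hB0 : (0 : ℝ) < B := by linarith
    calc dw y a R B * B ≤ (a * ((R : ℝ) / B) ^ 2) * B :=
          mul_le_mul_of_nonneg_right (min_le_right _ _) hB0.le
      _ = a * (R : ℝ) ^ 2 * ((B : ℝ)⁻¹) := by
          field_simp
  refine (Finset.sum_le_sum h1).trans ?_
  rw [← Finset.mul_sum]
  have h2 : ∑ B ∈ Icc 1 R, ((B : ℝ)⁻¹) ≤ 1 + Real.log R := by
    have h3 := harmonic_le_one_add_log R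
    rw [harmonic_eq_sum_Icc] at h3
    push_cast at h3
    exact h3
  exact mul_le_mul_of_nonneg_left h2 (mul_nonneg ha (sq_nonneg _))

theorem tail_aux (x : ℝ) (hx : 0 < x) (N : ℕ) :
    (x < N → ∑ B ∈ Icc 1 N, (if x < (B : ℝ) then 1 / ((B : ℝ) * Real.sqrt B) else 0) ≤
        3 / Real.sqrt x - 2 / Real.sqrt N) ∧
      (¬ x < N → ∑ B ∈ Icc 1 N, (if x < (B : ℝ) then 1 / ((B : ℝ) * Real.sqrt B) else 0) ≤ 0) := by
  induction N with
  | zero =>
    refine ⟨fun h => ?_, fun _ => by simp⟩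
    exfalso
    push_cast at h
    linarith
  | succ N ih =>
    have hN1 : (0 : ℝ) < ((N + 1 : ℕ) : ℝ) := by positivity
    have hs : ∑ B ∈ Icc 1 (N + 1), (if x < (B : ℝ) then 1 / ((B : ℝ) * Real.sqrt B) else 0) =
        ∑ B ∈ Icc 1 N, (if x < (B : ℝ) then 1 / ((B : ℝ) * Real.sqrt B) else 0) +
        (if x < ((N + 1 : ℕ) : ℝ) then 1 / (((N + 1 : ℕ) : ℝ) * Real.sqrt ((N + 1 : ℕ) : ℝ)) else 0) :=
      Finset.sum_Icc_succ_top (by omega) _
    constructor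
    · intro h
      rw [hs, if_pos h]
      have hsq1 : 0 < Real.sqrt ((N + 1 : ℕ) : ℝ) := Real.sqrt_pos.2 hN1
      by_cases hN : x < N
      · have h1 := ih.1 hN
        have hN0 : (0 : ℝ) < N := by linarith
        have hsq0 : 0 < Real.sqrt (N : ℝ) := Real.sqrt_pos.2 hN0
        have hle : Real.sqrt (N : ℝ) ≤ Real.sqrt ((N + 1 : ℕ) : ℝ) :=
          Real.sqrt_le_sqrt (by push_cast; linarith)
        have hq0 : Real.sqrt (N : ℝ) * Real.sqrt (N : ℝ) = N := Real.mul_self_sqrt hN0.le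
        have hq1 : Real.sqrt ((N + 1 : ℕ) : ℝ) * Real.sqrt ((N + 1 : ℕ) : ℝ) = ((N + 1 : ℕ) : ℝ) :=
          Real.mul_self_sqrt hN1.le
        obtain ⟨s, hs'⟩ : ∃ s, s = Real.sqrt (N : ℝ) := ⟨_, rfl⟩
        obtain ⟨t, ht'⟩ : ∃ t, t = Real.sqrt ((N + 1 : ℕ) : ℝ) := ⟨_, rfl⟩
        rw [← hs'] at hsq0 hle hq0
        rw [← ht'] at hsq1 hle hq1
        rw [← ht']
        have hst : t * t = s * s + 1 := by
          rw [hq1, hq0]; push_cast; ring
        have key : 1 / (((N + 1 : ℕ) : ℝ) * t) ≤ 2 / s - 2 / t := by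
          rw [← hq1, div_sub_div _ _ hsq0.ne' hsq1.ne', div_le_div_iff₀ (by positivity) (by positivity)]
          have h3 : 2 * t - s * 2 = 2 * (t - s) := by ring
          have h4 : (t - s) * (t + s) = 1 := by nlinarith
          have h5 : 0 < t - s := by
            by_contra hcon
            push Not at hcon
            nlinarith
          have h6 : 1 ≤ 2 * (t - s) * t := by nlinarith
          rw [h3]
          have h7 : s * t ≤ t * t := by nlinarith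
          have h8 : t * t ≤ (2 * (t - s) * t) * (t * t) := by
            nlinarith [mul_pos hsq1 hsq1]
          nlinarith
        rw [← hs'] at h1
        linarith
      · have h1 := ih.2 hN
        push Not at hN
        have hx1 : Real.sqrt x ≤ Real.sqrt ((N + 1 : ℕ) : ℝ) := Real.sqrt_le_sqrt h.le
        have hsx : 0 < Real.sqrt x := Real.sqrt_pos.2 hx
        have h2 : 3 / Real.sqrt ((N + 1 : ℕ) : ℝ) ≤ 3 / Real.sqrt x :=
          div_le_div_of_nonneg_left (by norm_num) hsx hx1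
        have h3 : 1 / (((N + 1 : ℕ) : ℝ) * Real.sqrt ((N + 1 : ℕ) : ℝ)) ≤
            1 / Real.sqrt ((N + 1 : ℕ) : ℝ) := by
          apply one_div_le_one_div_of_le hsq1
          have h4 : (1 : ℝ) ≤ ((N + 1 : ℕ) : ℝ) := by push_cast; linarith [(Nat.cast_nonneg N : (0 : ℝ) ≤ N)]
          nlinarith
        have h5 : 3 / Real.sqrt ((N + 1 : ℕ) : ℝ) - 2 / Real.sqrt ((N + 1 : ℕ) : ℝ) =
            1 / Real.sqrt ((N + 1 : ℕ) : ℝ) := by ring
        linarith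
    · intro h
      rw [hs, if_neg h, add_zero]
      apply ih.2
      intro h'
      apply h
      push_cast
      linarith

theorem tail_sum (x : ℝ) (hx : 0 < x) (N : ℕ) :
    ∑ B ∈ Icc 1 N, (if x < (B : ℝ) then 1 / ((B : ℝ) * Real.sqrt B) else 0) ≤
      3 / Real.sqrt x := by
  by_cases h : x < N
  · refine ((tail_aux x hx N).1 h).trans ?_
    have : 0 ≤ 2 / Real.sqrt N := by positivity
    linarith
  · refine ((tail_aux x hx N).2 h).trans ?_
    positivity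

theorem head_sum (x : ℝ) (hx : 0 < x) (N : ℕ) :
    ∑ B ∈ Icc 1 N, (if x < (B : ℝ) then 0 else Real.sqrt B) ≤ x * Real.sqrt x := by
  have h1 : ∀ B ∈ Icc 1 N, (if x < (B : ℝ) then 0 else Real.sqrt B) ≤
      (if B ∈ Icc 1 ⌊x⌋₊ then Real.sqrt x else 0) := by
    intro B hB
    have hB1 := (mem_Icc.1 hB).1
    by_cases h : x < (B : ℝ)
    · rw [if_pos h]
      split_ifs
      · positivity
      · exact le_rfl
    · rw [if_neg h]
      push Not at h
      rw [if_pos (mem_Icc.2 ⟨hB1, Nat.le_floor h⟩)]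
      exact Real.sqrt_le_sqrt h
  refine (Finset.sum_le_sum h1).trans ?_
  rw [← Finset.sum_filter, Finset.sum_const, nsmul_eq_mul]
  refine mul_le_mul_of_nonneg_right ?_ (Real.sqrt_nonneg _)
  have h2 : ((Icc 1 N).filter (fun B => B ∈ Icc 1 ⌊x⌋₊)).card ≤ ⌊x⌋₊ := by
    calc ((Icc 1 N).filter (fun B => B ∈ Icc 1 ⌊x⌋₊)).card ≤ (Icc 1 ⌊x⌋₊).card :=
          Finset.card_le_card (fun B hB => (mem_filter.1 hB).2)
      _ = ⌊x⌋₊ := by simp
  calc (((Icc 1 N).filter (fun B => B ∈ Icc 1 ⌊x⌋₊)).card : ℝ) ≤ (⌊x⌋₊ : ℝ) := by exact_mod_cast h2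
    _ ≤ x := Nat.floor_le hx.le

theorem dw_sum2 (y R : ℕ) (a : ℝ) (ha : 1 ≤ a) (hy : 1 ≤ y) (hR : 1 ≤ R) :
    ∑ B ∈ Icc 1 R, dw y a R B * Real.sqrt B ≤ 4 * a * Real.sqrt y * (R * Real.sqrt R) := by
  have hy0 : (0 : ℝ) < y := by exact_mod_cast hy
  have hR0 : (0 : ℝ) < R := by exact_mod_cast hR
  obtain ⟨x, hx⟩ : ∃ x : ℝ, x = (R : ℝ) / y := ⟨_, rfl⟩
  have hx0 : 0 < x := by rw [hx]; positivity
  have h1 : ∀ B ∈ Icc 1 R, dw y a R B * Real.sqrt B ≤
      (y : ℝ) ^ 2 * (if x < (B : ℝ) then 0 else Real.sqrt B) +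
        a * (R : ℝ) ^ 2 * (if x < (B : ℝ) then 1 / ((B : ℝ) * Real.sqrt B) else 0) := by
    intro B hB
    have hB0 : (0 : ℝ) < (B : ℝ) := by exact_mod_cast (mem_Icc.1 hB).1
    have hsB : 0 < Real.sqrt (B : ℝ) := Real.sqrt_pos.2 hB0
    by_cases h : x < (B : ℝ)
    · rw [if_pos h, if_pos h, mul_zero, zero_add]
      calc dw y a R B * Real.sqrt B ≤ (a * ((R : ℝ) / B) ^ 2) * Real.sqrt B :=
            mul_le_mul_of_nonneg_right (min_le_right _ _) hsB.le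
        _ = a * (R : ℝ) ^ 2 * (1 / ((B : ℝ) * Real.sqrt B)) := by
            have h2 : Real.sqrt (B : ℝ) * Real.sqrt B = B := Real.mul_self_sqrt hB0.le
            field_simp
            nlinarith
    · rw [if_neg h, if_neg h, mul_zero, add_zero]
      exact mul_le_mul_of_nonneg_right (min_le_left _ _) hsB.le
  refine (Finset.sum_le_sum h1).trans ?_
  rw [Finset.sum_add_distrib, ← Finset.mul_sum, ← Finset.mul_sum]
  have h2 := mul_le_mul_of_nonneg_left (head_sum x hx0 R) (sq_nonneg (y : ℝ))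
  have h3 := mul_le_mul_of_nonneg_left (tail_sum x hx0 R)
    (mul_nonneg (by linarith : (0 : ℝ) ≤ a) (sq_nonneg (R : ℝ)))
  have hsy : 0 < Real.sqrt (y : ℝ) := Real.sqrt_pos.2 hy0
  have hsR : 0 < Real.sqrt (R : ℝ) := Real.sqrt_pos.2 hR0
  have hqy : Real.sqrt (y : ℝ) * Real.sqrt y = y := Real.mul_self_sqrt hy0.le
  have hqR : Real.sqrt (R : ℝ) * Real.sqrt R = R := Real.mul_self_sqrt hR0.le
  have hsx : Real.sqrt x = Real.sqrt R / Real.sqrt y := by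
    rw [hx, Real.sqrt_div hR0.le]
  have e1 : (y : ℝ) ^ 2 * (x * Real.sqrt x) = Real.sqrt y * (R * Real.sqrt R) := by
    rw [hsx, hx]
    have : (y : ℝ) ^ 2 * ((R : ℝ) / y * (Real.sqrt R / Real.sqrt y)) =
        (y : ℝ) / Real.sqrt y * (R * Real.sqrt R) := by
      field_simp
    rw [this]
    congr 1
    rw [div_eq_iff hsy.ne']
    exact hqy.symm
  have e2 : a * (R : ℝ) ^ 2 * (3 / Real.sqrt x) = 3 * a * Real.sqrt y * (R * Real.sqrt R) := by
    rw [hsx]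
    have : a * (R : ℝ) ^ 2 * (3 / (Real.sqrt R / Real.sqrt y)) =
        3 * a * Real.sqrt y * (R * ((R : ℝ) / Real.sqrt R)) := by
      field_simp
    rw [this]
    congr 2
    rw [div_eq_iff hsR.ne']
    exact hqR.symm
  rw [e1] at h2
  rw [e2] at h3
  have h4 : 0 ≤ Real.sqrt y * (R * Real.sqrt R) := by positivity
  nlinarith

theorem dw_mono (y : ℕ) (a : ℝ) (ha : 0 ≤ a) (r R B : ℕ) (h : r ≤ R) :
    dw y a r B ≤ dw y a R B := by
  unfold dw
  refine min_le_min_left _ ?_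
  refine mul_le_mul_of_nonneg_left ?_ ha
  have h' : (r : ℝ) ≤ R := by exact_mod_cast h
  have h0 : (0 : ℝ) ≤ B := Nat.cast_nonneg _
  have h1 : (0 : ℝ) ≤ (r : ℝ) / B := by positivity
  exact pow_le_pow_left₀ h1 (div_le_div_of_nonneg_right h' h0) 2

theorem dw_nonneg (y : ℕ) (a : ℝ) (ha : 0 ≤ a) (R B : ℕ) : 0 ≤ dw y a R B := by
  unfold dw
  exact le_min (sq_nonneg _) (mul_nonneg ha (sq_nonneg _))

theorem coef_le (r R : ℕ) (hr : 1 ≤ r) (hR : 1 ≤ R) (h : R ≤ 2 * r) :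
    40 / ((r : ℝ) * Real.sqrt r) ≤ 120 / ((R : ℝ) * Real.sqrt R) := by
  have hr0 : (0 : ℝ) < r := by exact_mod_cast hr
  have hR0 : (0 : ℝ) < R := by exact_mod_cast hR
  have h' : (R : ℝ) ≤ 2 * r := by exact_mod_cast h
  have hsr : 0 < Real.sqrt (r : ℝ) := Real.sqrt_pos.2 hr0
  have hsR : 0 < Real.sqrt (R : ℝ) := Real.sqrt_pos.2 hR0
  rw [div_le_div_iff₀ (by positivity) (by positivity)]
  have h1 : Real.sqrt (R : ℝ) ≤ 3 / 2 * Real.sqrt r := by
    have h2 : Real.sqrt (R : ℝ) ≤ Real.sqrt (2 * r) := Real.sqrt_le_sqrt h'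
    have h3 : Real.sqrt (2 * (r : ℝ)) = Real.sqrt 2 * Real.sqrt r :=
      Real.sqrt_mul (by norm_num) _
    have h4 : Real.sqrt 2 ≤ 3 / 2 := by
      rw [Real.sqrt_le_left (by norm_num)]
      norm_num
    calc Real.sqrt (R : ℝ) ≤ Real.sqrt 2 * Real.sqrt r := by rw [← h3]; exact h2
      _ ≤ 3 / 2 * Real.sqrt r := mul_le_mul_of_nonneg_right h4 hsr.le
  have h5 : (R : ℝ) * Real.sqrt R ≤ (2 * r) * (3 / 2 * Real.sqrt r) :=
    mul_le_mul h' h1 hsR.le (by positivity)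
  nlinarith

theorem dual_mean : ∃ C : ℝ, 0 < C ∧ ∀ (R u t T y : ℕ) (a : ℝ) (Ψ : ℤ → ℝ), 1 ≤ u → u ^ 3 ≤ t →
    t ≤ T → R ≤ t → 1 ≤ R → Ker y a Ψ →
    ∑ c ∈ (PC R).filter (fun c => R < 2 * c.md), ‖ThC t T onef c.2‖ * ‖KF y Ψ c.2‖ ≤
      C * a * (1 + Real.log T) ^ 7 *
        (Real.sqrt R * PB R u T + Real.sqrt y * QB R u T) := by
  classical
  obtain ⟨C0, hC0, hmean⟩ := th_meanK
  refine ⟨480 * C0, by positivity, ?_⟩
  intro R u t T y a Ψ hu hut htT hRt hR hK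
  have ha4 : 4 ≤ a := hK.a1
  have ha0 : 0 ≤ a := by linarith
  have hR0 : (0 : ℝ) < R := by exact_mod_cast hR
  have hsR : 0 < Real.sqrt (R : ℝ) := Real.sqrt_pos.2 hR0
  have hT1 : 1 ≤ T := by omega
  have hT1' : (1 : ℝ) ≤ T := by exact_mod_cast hT1
  obtain ⟨l, hl⟩ : ∃ l : ℝ, l = 1 + Real.log T := ⟨_, rfl⟩
  have hl1 : 1 ≤ l := by
    rw [hl]
    have := Real.log_nonneg hT1'
    linarith
  have hlR : 1 + Real.log R ≤ l := by
    rw [hl]
    have : Real.log R ≤ Real.log T :=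
      Real.log_le_log hR0 (by exact_mod_cast hRt.trans htT)
    linarith
  have hPB : 0 ≤ PB R u T := by
    unfold PB
    positivity
  have hQB : 0 ≤ QB R u T := by
    unfold QB
    positivity
  have hstep1 : ∀ c ∈ (PC R).filter (fun c => R < 2 * c.md),
      ‖ThC t T onef c.2‖ * ‖KF y Ψ c.2‖ ≤
        120 / ((R : ℝ) * Real.sqrt R) * ∑ B ∈ Icc 1 R, dw y a R B *
          (‖ThC t T onef c.2‖ * ‖Kc B c.2‖) := by
    intro c hc
    rw [mem_filter] at hc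
    obtain ⟨hc1, hc2⟩ := hc
    have hc3 : c.2.IsPrimitive ∧ 2 ≤ c.md := by
      unfold PC at hc1
      rw [mem_filter] at hc1
      exact hc1.2
    have hmd : c.md = c.1.val + 1 := rfl
    have hrR : c.1.val + 1 ≤ R := c.1.2
    have hd := dual (r := c.1.val + 1) (by rw [← hmd]; exact hc3.2) hK c.2 hc3.1
    have hco : 40 / (((c.1.val + 1 : ℕ) : ℝ) * Real.sqrt ((c.1.val + 1 : ℕ) : ℝ)) ≤
        120 / ((R : ℝ) * Real.sqrt R) :=
      coef_le (c.1.val + 1) R (by omega) hR (by rw [hmd] at hc2; omega)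
    have hs1 : ∑ B ∈ Icc 1 (c.1.val + 1), dw y a (c.1.val + 1) B * ‖Kc B c.2‖ ≤
        ∑ B ∈ Icc 1 R, dw y a R B * ‖Kc B c.2‖ := by
      refine (Finset.sum_le_sum fun B _ => mul_le_mul_of_nonneg_right
        (dw_mono y a ha0 (c.1.val + 1) R B hrR) (norm_nonneg _)).trans ?_
      refine Finset.sum_le_sum_of_subset_of_nonneg (Icc_subset_Icc le_rfl hrR) ?_
      intro B _ _
      exact mul_nonneg (dw_nonneg y a ha0 R B) (norm_nonneg _)
    have hs0 : 0 ≤ ∑ B ∈ Icc 1 (c.1.val + 1), dw y a (c.1.val + 1) B * ‖Kc B c.2‖ :=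
      Finset.sum_nonneg fun B _ => mul_nonneg (dw_nonneg y a ha0 _ B) (norm_nonneg _)
    have hkf : ‖KF y Ψ c.2‖ ≤ 120 / ((R : ℝ) * Real.sqrt R) *
        ∑ B ∈ Icc 1 R, dw y a R B * ‖Kc B c.2‖ := by
      refine hd.trans ?_
      exact mul_le_mul hco hs1 hs0 (by positivity)
    calc ‖ThC t T onef c.2‖ * ‖KF y Ψ c.2‖
        ≤ ‖ThC t T onef c.2‖ * (120 / ((R : ℝ) * Real.sqrt R) *
            ∑ B ∈ Icc 1 R, dw y a R B * ‖Kc B c.2‖) :=
          mul_le_mul_of_nonneg_left hkf (norm_nonneg _)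
      _ = 120 / ((R : ℝ) * Real.sqrt R) * ∑ B ∈ Icc 1 R, dw y a R B *
          (‖ThC t T onef c.2‖ * ‖Kc B c.2‖) := by
          rw [mul_left_comm, Finset.mul_sum]
          congr 1
          refine Finset.sum_congr rfl fun B _ => ?_
          ring
  have hstep2 : ∑ c ∈ (PC R).filter (fun c => R < 2 * c.md),
      ‖ThC t T onef c.2‖ * ‖KF y Ψ c.2‖ ≤
        120 / ((R : ℝ) * Real.sqrt R) * ∑ B ∈ Icc 1 R, dw y a R B *
          ∑ c ∈ PC R, (‖ThC t T onef c.2‖ * ‖Kc B c.2‖) := by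
    refine (Finset.sum_le_sum hstep1).trans ?_
    rw [← Finset.mul_sum]
    refine mul_le_mul_of_nonneg_left ?_ (by positivity)
    rw [Finset.sum_comm]
    refine Finset.sum_le_sum fun B _ => ?_
    rw [← Finset.mul_sum]
    refine mul_le_mul_of_nonneg_left ?_ (dw_nonneg y a ha0 R B)
    refine Finset.sum_le_sum_of_subset_of_nonneg (Finset.filter_subset _ _) ?_
    intro c _ _
    exact mul_nonneg (norm_nonneg _) (norm_nonneg _)
  have hstep3 : ∑ B ∈ Icc 1 R, dw y a R B *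
          ∑ c ∈ PC R, (‖ThC t T onef c.2‖ * ‖Kc B c.2‖) ≤
      C0 * l ^ 6 * (PB R u T * ∑ B ∈ Icc 1 R, dw y a R B * B +
        QB R u T * ∑ B ∈ Icc 1 R, dw y a R B * Real.sqrt B) := by
    have e1 : C0 * l ^ 6 * (PB R u T * ∑ B ∈ Icc 1 R, dw y a R B * B +
        QB R u T * ∑ B ∈ Icc 1 R, dw y a R B * Real.sqrt B) =
        ∑ B ∈ Icc 1 R, dw y a R B * (C0 * l ^ 6 * (B * PB R u T + Real.sqrt B * QB R u T)) := by
      rw [Finset.mul_sum, Finset.mul_sum, ← Finset.sum_add_distrib, Finset.mul_sum]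
      refine Finset.sum_congr rfl fun B _ => ?_
      ring
    rw [e1]
    refine Finset.sum_le_sum fun B hB => ?_
    rw [mem_Icc] at hB
    refine mul_le_mul_of_nonneg_left ?_ (dw_nonneg y a ha0 R B)
    rw [hl]
    exact hmean R u t T B hu hut htT (hRt.trans htT) hB.1 (hB.2.trans hRt)
  have hd1 := dw_sum1 y R a ha0
  have hd2 := dw_sum2 y R a (by linarith) hK.Y1 hR
  have hl6 : 0 ≤ C0 * l ^ 6 := by positivity
  have hstep4 : C0 * l ^ 6 * (PB R u T * ∑ B ∈ Icc 1 R, dw y a R B * B +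
        QB R u T * ∑ B ∈ Icc 1 R, dw y a R B * Real.sqrt B) ≤
      C0 * l ^ 6 * (PB R u T * (a * (R : ℝ) ^ 2 * l) +
        QB R u T * (4 * a * Real.sqrt y * (R * Real.sqrt R) * l)) := by
    refine mul_le_mul_of_nonneg_left (add_le_add ?_ ?_) hl6
    · refine mul_le_mul_of_nonneg_left (hd1.trans ?_) hPB
      exact mul_le_mul_of_nonneg_left hlR (by positivity)
    · refine mul_le_mul_of_nonneg_left (hd2.trans ?_) hQB
      have h0 : 0 ≤ 4 * a * Real.sqrt y * (R * Real.sqrt R) := by positivity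
      calc 4 * a * Real.sqrt y * (R * Real.sqrt R) =
            4 * a * Real.sqrt y * (R * Real.sqrt R) * 1 := by ring
        _ ≤ 4 * a * Real.sqrt y * (R * Real.sqrt R) * l := mul_le_mul_of_nonneg_left hl1 h0
  have hc0 : 0 ≤ 120 / ((R : ℝ) * Real.sqrt R) := by positivity
  refine hstep2.trans ((mul_le_mul_of_nonneg_left (hstep3.trans hstep4) hc0).trans ?_)
  rw [← hl]
  have hqR : Real.sqrt (R : ℝ) * Real.sqrt R = R := Real.mul_self_sqrt hR0.le
  have e2 : (R : ℝ) ^ 2 = (R * Real.sqrt R) * Real.sqrt R := by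
    rw [mul_assoc, hqR]; ring
  have e3 : 120 / ((R : ℝ) * Real.sqrt R) *
      (C0 * l ^ 6 * (PB R u T * (a * (R : ℝ) ^ 2 * l) +
        QB R u T * (4 * a * Real.sqrt y * (R * Real.sqrt R) * l))) =
      120 * C0 * a * l ^ 7 * (Real.sqrt R * PB R u T + 4 * (Real.sqrt y * QB R u T)) := by
    rw [e2]
    have hne : (R : ℝ) * Real.sqrt R ≠ 0 := by positivity
    generalize (R : ℝ) * Real.sqrt R = w at hne
    field_simp
  rw [e3]
  have h5 : 0 ≤ Real.sqrt R * PB R u T := mul_nonneg hsR.le hPB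
  have h6 : 0 ≤ Real.sqrt y * QB R u T := mul_nonneg (Real.sqrt_nonneg _) hQB
  have h7 : 0 ≤ 120 * C0 * a * l ^ 7 := by positivity
  calc 120 * C0 * a * l ^ 7 * (Real.sqrt R * PB R u T + 4 * (Real.sqrt y * QB R u T))
      ≤ 120 * C0 * a * l ^ 7 * (4 * (Real.sqrt R * PB R u T + Real.sqrt y * QB R u T)) := by
        refine mul_le_mul_of_nonneg_left ?_ h7
        linarith
    _ = 480 * C0 * a * l ^ 7 * (Real.sqrt R * PB R u T + Real.sqrt y * QB R u T) := by ring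

end Pool.Agent.H67.VW
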