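import Pool.Agent.H67.VW.Defs

/-!
[H67 VW NUM4]  The exponents.

Proofs.  `u = uw θ κ X = ⌊X^(θ+6κ)⌋`, `1 ≤ X^(θ+6κ)/2 ≤ u ≤ X^(θ+6κ)` for large `X`; `θ ≤ 1/3 - 8κ`, `d ≤ (1-θ)/2 - 5κ`, `κ ≤ 1/100`.
* `num_u`: `u^3 ≤ X^(3θ+18κ) ≤ X^(1-6κ)`.
* `num_big` (`X^(5κ)/2 ≤ R`; `R ≤ 2X^d`): the six terms, divided by `R`:
  `T/√R ≤ 3√2 X^(1-5κ/2)`;  `√R T^(3/4) ≤ √2 X^(d/2) 3 X^(3/4) ≤ 5 X^(1-θ/4-5κ/2)`;  `R u ≤ 2 X^(d+θ+6κ) ≤ 2 X^(1/2+θ/2+κ) ≤ 2 X^(2/3-3κ)`;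
  `√y T/√u ≤ 2 X^(θ/2) 3X X^(-θ/2-3κ) = 6 X^(1-3κ)`;  `√y R √T ≤ √2 X^(θ/2) 2 X^d √3 X^(1/2) ≤ 5 X^(1-5κ)`;
  `√y R √R u ≤ 4 X^(θ/2 + 3d/2 + θ + 6κ) ≤ 4 X^(3/4 + 3θ/4 - 3κ/2) ≤ 4 X^(1-15κ/2)`.
* `num_small` (`R = Rw κ X ≤ X^(5κ)`): `T ≤ 3X`;  `R T/√u ≤ 5 X^(1+2κ)`;  `R² √T ≤ 2 X^(1/2+10κ)`;  `R² √R u ≤ X^(θ + 37κ/2) ≤ X^(1/3 + 21κ/2)`.
-/

namespace Pool.Agent.H67.VW

open Filter Pool.Agent.H67.VU

private theorem n4_floor {X a : ℝ} (hX : 1 ≤ X) (ha : 0 ≤ a) : 1 ≤ ⌊X ^ a⌋₊ := by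
  apply Nat.le_floor
  rw [Nat.cast_one]
  exact Real.one_le_rpow hX ha

private theorem n4_up {X a : ℝ} (hX : 1 ≤ X) : ((⌊X ^ a⌋₊ : ℕ) : ℝ) ≤ X ^ a :=
  Nat.floor_le (Real.rpow_nonneg (by linarith) _)

private theorem n4_low {X a : ℝ} (hX : 1 ≤ X) (ha : 0 ≤ a) : X ^ a / 2 ≤ ((⌊X ^ a⌋₊ : ℕ) : ℝ) := by
  have h1 : (1 : ℝ) ≤ ((⌊X ^ a⌋₊ : ℕ) : ℝ) := by exact_mod_cast n4_floor hX ha
  have h2 := Nat.lt_floor_add_one (X ^ a)
  linarith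

private theorem n4_sqrt {X a c C r : ℝ} (hX : 1 ≤ X) (hr : r ≤ C * X ^ a) (hc0 : 0 ≤ c)
    (hc : C ≤ c ^ 2) : Real.sqrt r ≤ c * X ^ (a / 2) := by
  have hX0 : 0 < X := by linarith
  rw [Real.sqrt_le_iff]
  refine ⟨by positivity, ?_⟩
  have h1 : (X ^ (a / 2)) ^ 2 = X ^ a := by
    rw [← Real.rpow_natCast, ← Real.rpow_mul hX0.le]
    congr 1
    push_cast
    ring
  rw [mul_pow, h1]
  exact hr.trans (mul_le_mul_of_nonneg_right hc (by positivity))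

private theorem n4_sqrt_low {X a r : ℝ} (hX : 1 ≤ X) (hr : X ^ a / 2 ≤ r) :
    2 / 3 * X ^ (a / 2) ≤ Real.sqrt r := by
  have hX0 : 0 < X := by linarith
  apply Real.le_sqrt_of_sq_le
  have h1 : (X ^ (a / 2)) ^ 2 = X ^ a := by
    rw [← Real.rpow_natCast, ← Real.rpow_mul hX0.le]
    congr 1
    push_cast
    ring
  rw [mul_pow, h1]
  have h2 : 0 ≤ X ^ a := by positivity
  linarith

theorem num_u {θ κ d : ℝ} (hP : PW θ κ d) : ∀ᶠ X : ℝ in atTop,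
    1 ≤ uw θ κ X ∧ ((uw θ κ X : ℕ) : ℝ) ^ 3 ≤ X ∧ 1 ≤ Rw κ X ∧ 1 ≤ Zw θ κ X ∧ 1 ≤ Dw d X := by
  filter_upwards [eventually_ge_atTop 1] with X hX
  have h1 := hP.θ0
  have h2 := hP.κ0
  have h3 := hP.θ1
  have h4 := hP.low
  have hX0 : 0 < X := by linarith
  refine ⟨n4_floor hX (by linarith), ?_, n4_floor hX (by linarith), n4_floor hX (by linarith),
    n4_floor hX (by linarith)⟩
  have h5 : ((uw θ κ X : ℕ) : ℝ) ≤ X ^ (θ + 6 * κ) := n4_up hX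
  calc ((uw θ κ X : ℕ) : ℝ) ^ 3 ≤ (X ^ (θ + 6 * κ)) ^ 3 := pow_le_pow_left₀ (by positivity) h5 3
    _ = X ^ ((θ + 6 * κ) * 3) := by
        rw [← Real.rpow_natCast, ← Real.rpow_mul hX0.le]
        congr 1
    _ ≤ X ^ (1 : ℝ) := Real.rpow_le_rpow_of_exponent_le hX (by linarith)
    _ = X := Real.rpow_one X

theorem num_big {θ κ d : ℝ} (hP : PW θ κ d) : ∀ᶠ X : ℝ in atTop, ∀ R y T : ℝ,
    X ^ (5 * κ) / 2 ≤ R → R ≤ 2 * X ^ d → 0 ≤ y → y ≤ 2 * X ^ θ → 0 ≤ T → T ≤ 3 * X →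
    1 / R * (Real.sqrt R * PB R (uw θ κ X) T + Real.sqrt y * QB R (uw θ κ X) T) ≤
      40 * X ^ (1 - 5 / 2 * κ) := by
  filter_upwards [eventually_ge_atTop 1] with X hX R y T hR hR2 hy hy2 hT hT2
  have h1 := hP.θ0
  have h2 := hP.κ0
  have h3 := hP.θ1
  have h4 := hP.low
  have h5 := hP.up
  have hX0 : 0 < X := by linarith
  have hR0 : 0 < R := lt_of_lt_of_le (by positivity) hR
  obtain ⟨u, hu⟩ : ∃ u : ℝ, u = ((uw θ κ X : ℕ) : ℝ) := ⟨_, rfl⟩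
  have hu1 : u ≤ X ^ (θ + 6 * κ) := by
    rw [hu]
    exact n4_up hX
  have hu2 : X ^ (θ + 6 * κ) / 2 ≤ u := by
    rw [hu]
    exact n4_low hX (by linarith)
  have hu0 : 0 < u := lt_of_lt_of_le (by positivity) hu2
  rw [← hu]
  have hsR := n4_sqrt (c := 3 / 2) hX hR2 (by norm_num) (by norm_num)
  have hsR2 := n4_sqrt_low hX hR
  have hsy := n4_sqrt (c := 3 / 2) hX hy2 (by norm_num) (by norm_num)
  have hsu2 := n4_sqrt_low hX hu2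
  have hT3 : T ≤ 3 * X ^ (1 : ℝ) := by
    rw [Real.rpow_one]
    exact hT2
  have hsT := n4_sqrt (c := 2) hX hT3 (by norm_num) (by norm_num)
  have hsRp : 0 < Real.sqrt R := Real.sqrt_pos.2 hR0
  have hsup : 0 < Real.sqrt u := Real.sqrt_pos.2 hu0
  have hsy0 : 0 ≤ Real.sqrt y := Real.sqrt_nonneg y
  have hsT0 : 0 ≤ Real.sqrt T := Real.sqrt_nonneg T
  have hT34 : T ^ (3 / 4 : ℝ) ≤ 3 * X ^ (3 / 4 : ℝ) := by
    calc T ^ (3 / 4 : ℝ) ≤ (3 * X) ^ (3 / 4 : ℝ) := Real.rpow_le_rpow hT hT2 (by norm_num)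
      _ = 3 ^ (3 / 4 : ℝ) * X ^ (3 / 4 : ℝ) := Real.mul_rpow (by norm_num) hX0.le
      _ ≤ 3 * X ^ (3 / 4 : ℝ) := by
          apply mul_le_mul_of_nonneg_right _ (by positivity)
          calc (3 : ℝ) ^ (3 / 4 : ℝ) ≤ 3 ^ (1 : ℝ) :=
                Real.rpow_le_rpow_of_exponent_le (by norm_num) (by norm_num)
            _ = 3 := Real.rpow_one 3
  have hT340 : 0 ≤ T ^ (3 / 4 : ℝ) := Real.rpow_nonneg hT _
  have hmono : ∀ a : ℝ, a ≤ 1 - 5 / 2 * κ → X ^ a ≤ X ^ (1 - 5 / 2 * κ) := fun a ha =>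
    Real.rpow_le_rpow_of_exponent_le hX ha
  obtain ⟨M, hM⟩ : ∃ M, M = X ^ (1 - 5 / 2 * κ) := ⟨_, rfl⟩
  rw [← hM]
  rw [← hM] at hmono
  have hRR : Real.sqrt R * Real.sqrt R = R := Real.mul_self_sqrt hR0.le
  have huu : Real.sqrt u * Real.sqrt u = u := Real.mul_self_sqrt hu0.le
  have hexp : 1 / R * (Real.sqrt R * PB R u T + Real.sqrt y * QB R u T) =
      T / Real.sqrt R + Real.sqrt R * T ^ (3 / 4 : ℝ) + R * u + Real.sqrt y * (T / Real.sqrt u) +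
      Real.sqrt y * R * Real.sqrt T + Real.sqrt y * R * Real.sqrt R * u := by
    unfold PB QB
    obtain ⟨s, hs⟩ : ∃ s, s = Real.sqrt R := ⟨_, rfl⟩
    obtain ⟨v, hv⟩ : ∃ v, v = Real.sqrt u := ⟨_, rfl⟩
    rw [← hs] at hRR hsRp ⊢
    rw [← hv] at hsup ⊢
    rw [← hRR]
    have hs0 : s ≠ 0 := hsRp.ne'
    have hv0 : v ≠ 0 := hsup.ne'
    field_simp
    ring
  rw [hexp]
  have t1 : T / Real.sqrt R ≤ 9 / 2 * M := by
    rw [div_le_iff₀ hsRp]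
    calc T ≤ 3 * X ^ (1 : ℝ) := hT3
      _ = 9 / 2 * M * (2 / 3 * X ^ (5 * κ / 2)) := by
          rw [hM]
          have : X ^ (1 : ℝ) = X ^ (1 - 5 / 2 * κ) * X ^ (5 * κ / 2) := by
            rw [← Real.rpow_add hX0]
            congr 1
            ring
          rw [this]
          ring
      _ ≤ 9 / 2 * M * Real.sqrt R := by
          apply mul_le_mul_of_nonneg_left hsR2
          rw [hM]
          positivity
  have t2 : Real.sqrt R * T ^ (3 / 4 : ℝ) ≤ 9 / 2 * M := by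
    calc Real.sqrt R * T ^ (3 / 4 : ℝ) ≤ (3 / 2 * X ^ (d / 2)) * (3 * X ^ (3 / 4 : ℝ)) :=
          mul_le_mul hsR hT34 hT340 (by positivity)
      _ = 9 / 2 * X ^ (d / 2 + 3 / 4) := by
          rw [Real.rpow_add hX0]
          ring
      _ ≤ 9 / 2 * M := mul_le_mul_of_nonneg_left (hmono _ (by linarith)) (by norm_num)
  have t3 : R * u ≤ 2 * M := by
    calc R * u ≤ (2 * X ^ d) * X ^ (θ + 6 * κ) := mul_le_mul hR2 hu1 hu0.le (by positivity)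
      _ = 2 * X ^ (d + (θ + 6 * κ)) := by
          rw [Real.rpow_add hX0 d (θ + 6 * κ)]
          ring
      _ ≤ 2 * M := mul_le_mul_of_nonneg_left (hmono _ (by linarith)) (by norm_num)
  have t4a : T / Real.sqrt u ≤ 9 / 2 * X ^ (1 - (θ + 6 * κ) / 2) := by
    rw [div_le_iff₀ hsup]
    calc T ≤ 3 * X ^ (1 : ℝ) := hT3
      _ = 9 / 2 * X ^ (1 - (θ + 6 * κ) / 2) * (2 / 3 * X ^ ((θ + 6 * κ) / 2)) := by
          have : X ^ (1 : ℝ) = X ^ (1 - (θ + 6 * κ) / 2) * X ^ ((θ + 6 * κ) / 2) := by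
            rw [← Real.rpow_add hX0]
            congr 1
            ring
          rw [this]
          ring
      _ ≤ 9 / 2 * X ^ (1 - (θ + 6 * κ) / 2) * Real.sqrt u :=
          mul_le_mul_of_nonneg_left hsu2 (by positivity)
  have t4 : Real.sqrt y * (T / Real.sqrt u) ≤ 7 * M := by
    calc Real.sqrt y * (T / Real.sqrt u) ≤ (3 / 2 * X ^ (θ / 2)) * (9 / 2 * X ^ (1 - (θ + 6 * κ) / 2)) :=
          mul_le_mul hsy t4a (by positivity) (by positivity)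
      _ = 27 / 4 * X ^ (θ / 2 + (1 - (θ + 6 * κ) / 2)) := by
          rw [Real.rpow_add hX0]
          ring
      _ ≤ 27 / 4 * M := mul_le_mul_of_nonneg_left (hmono _ (by linarith)) (by norm_num)
      _ ≤ 7 * M := by
          apply mul_le_mul_of_nonneg_right (by norm_num)
          rw [hM]
          positivity
  have t5 : Real.sqrt y * R * Real.sqrt T ≤ 6 * M := by
    calc Real.sqrt y * R * Real.sqrt T ≤ (3 / 2 * X ^ (θ / 2)) * (2 * X ^ d) * (2 * X ^ ((1 : ℝ) / 2)) :=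
          mul_le_mul (mul_le_mul hsy hR2 hR0.le (by positivity)) hsT hsT0 (by positivity)
      _ = 6 * X ^ (θ / 2 + d + (1 : ℝ) / 2) := by
          rw [Real.rpow_add hX0, Real.rpow_add hX0]
          ring
      _ ≤ 6 * M := mul_le_mul_of_nonneg_left (hmono _ (by linarith)) (by norm_num)
  have t6 : Real.sqrt y * R * Real.sqrt R * u ≤ 9 / 2 * M := by
    calc Real.sqrt y * R * Real.sqrt R * u ≤ (3 / 2 * X ^ (θ / 2)) * (2 * X ^ d) *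
          (3 / 2 * X ^ (d / 2)) * X ^ (θ + 6 * κ) :=
          mul_le_mul (mul_le_mul (mul_le_mul hsy hR2 hR0.le (by positivity)) hsR hsRp.le
            (by positivity)) hu1 hu0.le (by positivity)
      _ = 9 / 2 * X ^ (θ / 2 + d + d / 2 + (θ + 6 * κ)) := by
          rw [Real.rpow_add hX0 (θ / 2 + d + d / 2) (θ + 6 * κ),
            Real.rpow_add hX0 (θ / 2 + d) (d / 2), Real.rpow_add hX0 (θ / 2) d]
          ring
      _ ≤ 9 / 2 * M := mul_le_mul_of_nonneg_left (hmono _ (by linarith)) (by norm_num)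
  have hM0 : 0 ≤ M := by
    rw [hM]
    positivity
  linarith

theorem num_small {θ κ d : ℝ} (hP : PW θ κ d) : ∀ᶠ X : ℝ in atTop, ∀ R T : ℝ,
    0 ≤ R → R ≤ X ^ (5 * κ) → 0 ≤ T → T ≤ 3 * X →
    T + R * T / Real.sqrt (uw θ κ X) + R ^ 2 * Real.sqrt T + R ^ 2 * Real.sqrt R * uw θ κ X ≤
      12 * X ^ (1 + 2 * κ) := by
  filter_upwards [eventually_ge_atTop 1] with X hX R T hR hR2 hT hT2
  have h1 := hP.θ0
  have h2 := hP.κ0
  have h2' := hP.κ1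
  have h3 := hP.θ1
  have h4 := hP.low
  have h5 := hP.up
  have hX0 : 0 < X := by linarith
  obtain ⟨u, hu⟩ : ∃ u : ℝ, u = ((uw θ κ X : ℕ) : ℝ) := ⟨_, rfl⟩
  have hu1 : u ≤ X ^ (θ + 6 * κ) := by
    rw [hu]
    exact n4_up hX
  have hu2 : X ^ (θ + 6 * κ) / 2 ≤ u := by
    rw [hu]
    exact n4_low hX (by linarith)
  have hu0 : 0 < u := lt_of_lt_of_le (by positivity) hu2
  rw [← hu]
  have hR3 : R ≤ 1 * X ^ (5 * κ) := by linarith
  have hsR := n4_sqrt (c := 1) hX hR3 (by norm_num) (by norm_num)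
  have hsu2 := n4_sqrt_low hX hu2
  have hT3 : T ≤ 3 * X ^ (1 : ℝ) := by
    rw [Real.rpow_one]
    exact hT2
  have hsT := n4_sqrt (c := 2) hX hT3 (by norm_num) (by norm_num)
  have hsup : 0 < Real.sqrt u := Real.sqrt_pos.2 hu0
  have hmono : ∀ a : ℝ, a ≤ 1 + 2 * κ → X ^ a ≤ X ^ (1 + 2 * κ) := fun a ha =>
    Real.rpow_le_rpow_of_exponent_le hX ha
  obtain ⟨M, hM⟩ : ∃ M, M = X ^ (1 + 2 * κ) := ⟨_, rfl⟩
  rw [← hM]
  rw [← hM] at hmono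
  have t0 : T ≤ 3 * M := hT3.trans (mul_le_mul_of_nonneg_left (hmono _ (by linarith)) (by norm_num))
  have t1 : R * T / Real.sqrt u ≤ 9 / 2 * M := by
    rw [div_le_iff₀ hsup]
    calc R * T ≤ X ^ (5 * κ) * (3 * X ^ (1 : ℝ)) := mul_le_mul hR2 hT3 hT (by positivity)
      _ = 9 / 2 * X ^ (5 * κ + (1 - (θ + 6 * κ) / 2)) * (2 / 3 * X ^ ((θ + 6 * κ) / 2)) := by
          have : X ^ (5 * κ) * X ^ (1 : ℝ) =
              X ^ (5 * κ + (1 - (θ + 6 * κ) / 2)) * X ^ ((θ + 6 * κ) / 2) := by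
            rw [← Real.rpow_add hX0, ← Real.rpow_add hX0]
            congr 1
            ring
          calc X ^ (5 * κ) * (3 * X ^ (1 : ℝ)) = 3 * (X ^ (5 * κ) * X ^ (1 : ℝ)) := by ring
            _ = _ := by
              rw [this]
              ring
      _ ≤ 9 / 2 * M * Real.sqrt u := by
          apply mul_le_mul _ hsu2 (by positivity)
          · rw [hM]
            positivity
          · exact mul_le_mul_of_nonneg_left (hmono _ (by linarith)) (by norm_num)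
  have hRsq : R ^ 2 ≤ X ^ (5 * κ) * X ^ (5 * κ) := by
    rw [sq]
    exact mul_le_mul hR2 hR2 hR (by positivity)
  have t2 : R ^ 2 * Real.sqrt T ≤ 2 * M := by
    calc R ^ 2 * Real.sqrt T ≤ (X ^ (5 * κ) * X ^ (5 * κ)) * (2 * X ^ ((1 : ℝ) / 2)) :=
          mul_le_mul hRsq hsT (Real.sqrt_nonneg _) (by positivity)
      _ = 2 * X ^ (5 * κ + 5 * κ + (1 : ℝ) / 2) := by
          rw [Real.rpow_add hX0, Real.rpow_add hX0]
          ring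
      _ ≤ 2 * M := mul_le_mul_of_nonneg_left (hmono _ (by linarith)) (by norm_num)
  have t3 : R ^ 2 * Real.sqrt R * u ≤ 1 * M := by
    calc R ^ 2 * Real.sqrt R * u ≤ (X ^ (5 * κ) * X ^ (5 * κ)) * (1 * X ^ (5 * κ / 2)) *
          X ^ (θ + 6 * κ) :=
          mul_le_mul (mul_le_mul hRsq hsR (Real.sqrt_nonneg _) (by positivity)) hu1 hu0.le
            (by positivity)
      _ = 1 * X ^ (5 * κ + 5 * κ + 5 * κ / 2 + (θ + 6 * κ)) := by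
          rw [Real.rpow_add hX0 (5 * κ + 5 * κ + 5 * κ / 2) (θ + 6 * κ),
            Real.rpow_add hX0 (5 * κ + 5 * κ) (5 * κ / 2), Real.rpow_add hX0 (5 * κ) (5 * κ)]
          ring
      _ ≤ 1 * M := mul_le_mul_of_nonneg_left (hmono _ (by linarith)) (by norm_num)
  have hM0 : 0 ≤ M := by
    rw [hM]
    positivity
  linarith

end Pool.Agent.H67.VW
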