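import Pool.Agent.H67.VW.KerD
import Pool.Agent.H67.VW.Arith

/-!
[H67 VW WES]  The inner sums `WE`.

Proofs.  `l = 2 + 2 log D`, `φ(n) ≥ n/l` for `1 ≤ n ≤ D` (`VT.phi_low`).  If `r > D` then `FS Z D r` is empty and `WE = 0`; else `r/φ(r)^2 ≤ l²/r`.
* `we_small`: `e ‖KF Y (ψ(e .)) χ‖ ≤ 2Y` (`kf_triv`), so `WE ≤ (l²/r) 2Y ∑_{f ∈ FS} τ(f)/φ(f)^2`, and `1/φ(f)^2 ≤ l²/f² ≤ l² (r/Z)/f` since `r f > Z`;
  `tau_over`: `∑ τ(f)/f ≤ (1 + log D)^2 ≤ l²`.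
* `we_big`: exchange the sums: `∑_e e ‖KF Y (ψ(e .)) χ‖ ∑_{f ∈ FS, e ∣ f} 1/φ(f)^2`; `∑_{f ≤ D, e ∣ f} 1/φ(f)^2 ≤ l² ∑_m 1/(e m)^2 ≤ 2 l²/e²`;
  for `e > Y` the term vanishes (`kf_zero`), otherwise `kf_dil`.
-/

namespace Pool.Agent.H67.VW

open Finset

private theorem we_phi {n D : ℕ} (hn : 1 ≤ n) (hnD : n ≤ D) :
    1 / (n.totient : ℝ) ^ 2 ≤ (2 + 2 * Real.log D) ^ 2 / (n : ℝ) ^ 2 := by
  have hlD : 0 ≤ Real.log D := Real.log_natCast_nonneg D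
  have hn0 : (0 : ℝ) < n := by exact_mod_cast hn
  have ht : (0 : ℝ) < n.totient := by exact_mod_cast Nat.totient_pos.2 hn
  have h3 : Real.log n ≤ Real.log D := Real.log_le_log hn0 (by exact_mod_cast hnD)
  have h4 : (n : ℝ) ≤ (2 + 2 * Real.log D) * n.totient :=
    le_trans (VT.phi_low n hn) (mul_le_mul_of_nonneg_right (by linarith) ht.le)
  rw [div_le_div_iff₀ (by positivity) (by positivity), one_mul, ← mul_pow]
  exact pow_le_pow_left₀ hn0.le h4 2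

private theorem we_r {r D : ℕ} (hn : 1 ≤ r) (hnD : r ≤ D) :
    (r : ℝ) / (r.totient : ℝ) ^ 2 ≤ (2 + 2 * Real.log D) ^ 2 / (r : ℝ) := by
  have hn0 : (0 : ℝ) < r := by exact_mod_cast hn
  have h := we_phi hn hnD
  calc (r : ℝ) / (r.totient : ℝ) ^ 2 = r * (1 / (r.totient : ℝ) ^ 2) := by ring
    _ ≤ r * ((2 + 2 * Real.log D) ^ 2 / (r : ℝ) ^ 2) := mul_le_mul_of_nonneg_left h hn0.le
    _ = (2 + 2 * Real.log D) ^ 2 / (r : ℝ) := by
        field_simp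

private theorem we_empty {Z D r : ℕ} (hr : D < r) : FS Z D r = ∅ := by
  unfold FS
  rw [filter_eq_empty_iff]
  intro f hf h
  rw [mem_Icc] at hf
  have : r * 1 ≤ r * f := Nat.mul_le_mul_left r hf.1
  omega

private theorem we_dvd {a D : ℕ} (ha : 1 ≤ a) (g : ℕ → ℝ) (hg : ∀ n, 0 ≤ g n) :
    ∑ f ∈ Icc 1 D, (if a ∣ f then g f else 0) ≤ ∑ b ∈ Icc 1 D, g (a * b) := by
  rw [← sum_filter]
  have h1 : (Icc 1 D).filter (fun f => a ∣ f) ⊆ (Icc 1 D).image (fun b => a * b) := by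
    intro f hf
    rw [mem_filter, mem_Icc] at hf
    obtain ⟨b, rfl⟩ := hf.2
    rw [mem_image]
    refine ⟨b, mem_Icc.2 ⟨?_, ?_⟩, rfl⟩
    · rcases Nat.eq_zero_or_pos b with h | h
      · rw [h] at hf
        omega
      · exact h
    · exact le_trans (Nat.le_mul_of_pos_left b ha) hf.1.2
  calc ∑ f ∈ (Icc 1 D).filter (fun f => a ∣ f), g f
      ≤ ∑ f ∈ (Icc 1 D).image (fun b => a * b), g f :=
        sum_le_sum_of_subset_of_nonneg h1 fun i _ _ => hg i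
    _ = ∑ b ∈ Icc 1 D, g (a * b) := by
        rw [sum_image]
        intro b _ c _ h
        exact Nat.eq_of_mul_eq_mul_left ha h

private theorem we_sq (D : ℕ) : ∑ m ∈ Icc 1 D, 1 / (m : ℝ) ^ 2 ≤ 2 := by
  have h : ∀ n : ℕ, ∑ m ∈ Icc 1 (n + 1), 1 / (m : ℝ) ^ 2 ≤ 2 - 1 / ((n : ℝ) + 1) := by
    intro n
    induction n with
    | zero =>
      rw [zero_add, Icc_self, sum_singleton]
      norm_num
    | succ n ih =>
      rw [sum_Icc_succ_top (by omega)]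
      have h1 : 1 / (((n + 1 + 1 : ℕ) : ℝ)) ^ 2 ≤ 1 / ((n : ℝ) + 1) - 1 / (((n + 1 : ℕ) : ℝ) + 1) := by
        push_cast
        have hn : (0 : ℝ) ≤ n := by positivity
        rw [div_sub_div _ _ (by positivity) (by positivity),
          div_le_div_iff₀ (by positivity) (by positivity)]
        nlinarith
      linarith
  rcases Nat.eq_zero_or_pos D with h0 | h0
  · rw [h0]
    simp
  · obtain ⟨n, rfl⟩ : ∃ n, D = n + 1 := ⟨D - 1, by omega⟩
    have h1 := h n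
    have h2 : (0 : ℝ) ≤ 1 / ((n : ℝ) + 1) := by positivity
    linarith

theorem we_small {Z D Y r q : ℕ} {a : ℝ} {ψ : ℤ → ℝ} (hZ : 1 ≤ Z) (hr : 1 ≤ r) (hq : 2 ≤ q)
    (h : Ker Y a ψ) (χ : DirichletCharacter ℂ q) :
    WE Z D Y ψ r χ ≤ 2 * Y * (2 + 2 * Real.log D) ^ 6 / Z := by
  have hlD : 0 ≤ Real.log D := Real.log_natCast_nonneg D
  have hZ0 : (0 : ℝ) < Z := by exact_mod_cast hZ
  have hr0 : (0 : ℝ) < r := by exact_mod_cast hr
  obtain ⟨l, hl⟩ : ∃ l, l = 2 + 2 * Real.log D := ⟨_, rfl⟩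
  have hl0 : 0 < l := by
    rw [hl]
    linarith
  rcases lt_or_ge D r with hrD | hrD
  · unfold WE
    rw [we_empty hrD, sum_empty, mul_zero]
    positivity
  have h1 : ∀ f ∈ FS Z D r, 1 / (f.totient : ℝ) ^ 2 *
      ∑ e ∈ f.divisors, (e : ℝ) * ‖KF Y (fun k => ψ ((e : ℤ) * k)) χ‖ ≤
      l ^ 2 * (r / Z) * (2 * Y) * ((f.divisors.card : ℝ) / f) := by
    intro f hf
    unfold FS at hf
    rw [mem_filter, mem_Icc] at hf
    have hf0 : (0 : ℝ) < f := by exact_mod_cast hf.1.1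
    have h2 := we_phi hf.1.1 hf.1.2
    rw [← hl] at h2
    have h3 : 1 / (f : ℝ) ≤ r / Z := by
      rw [div_le_div_iff₀ hf0 hZ0, one_mul]
      exact_mod_cast hf.2.2.2.1.le
    have h4 : 1 / (f.totient : ℝ) ^ 2 ≤ l ^ 2 * (r / Z) * (1 / f) := by
      calc 1 / (f.totient : ℝ) ^ 2 ≤ l ^ 2 / (f : ℝ) ^ 2 := h2
        _ = l ^ 2 * (1 / f) * (1 / f) := by
            field_simp
        _ ≤ l ^ 2 * (r / Z) * (1 / f) := by
            apply mul_le_mul_of_nonneg_right _ (by positivity)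
            exact mul_le_mul_of_nonneg_left h3 (by positivity)
    have h5 : ∑ e ∈ f.divisors, (e : ℝ) * ‖KF Y (fun k => ψ ((e : ℤ) * k)) χ‖ ≤
        (f.divisors.card : ℝ) * (2 * Y) := by
      rw [← nsmul_eq_mul, ← sum_const]
      apply sum_le_sum
      intro e he
      have he1 : 1 ≤ e := Nat.pos_of_mem_divisors he
      have he0 : (0 : ℝ) < e := by exact_mod_cast he1
      have h6 := kf_triv h he1 hq χ
      rw [le_div_iff₀ he0] at h6
      linarith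
    have h7 : 0 ≤ ∑ e ∈ f.divisors, (e : ℝ) * ‖KF Y (fun k => ψ ((e : ℤ) * k)) χ‖ :=
      sum_nonneg fun e _ => by positivity
    calc _ ≤ (l ^ 2 * (r / Z) * (1 / f)) * ((f.divisors.card : ℝ) * (2 * Y)) :=
          mul_le_mul h4 h5 h7 (by positivity)
      _ = _ := by ring
  have h8 : ∑ f ∈ FS Z D r, 1 / (f.totient : ℝ) ^ 2 *
      ∑ e ∈ f.divisors, (e : ℝ) * ‖KF Y (fun k => ψ ((e : ℤ) * k)) χ‖ ≤
      l ^ 2 * (r / Z) * (2 * Y) * l ^ 2 := by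
    refine (sum_le_sum h1).trans ?_
    rw [← mul_sum]
    apply mul_le_mul_of_nonneg_left _ (by positivity)
    calc ∑ f ∈ FS Z D r, ((f.divisors.card : ℝ) / f) ≤ ∑ f ∈ Icc 1 D, ((f.divisors.card : ℝ) / f) := by
          apply sum_le_sum_of_subset_of_nonneg
          · exact filter_subset _ _
          · intro i _ _
            positivity
      _ ≤ (1 + Real.log D) ^ 2 := tau_over D
      _ ≤ l ^ 2 := by
          apply pow_le_pow_left₀ (by linarith)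
          rw [hl]
          linarith
  have h9 := we_r hr hrD
  rw [← hl] at h9 ⊢
  have h10 : 0 ≤ ∑ f ∈ FS Z D r, 1 / (f.totient : ℝ) ^ 2 *
      ∑ e ∈ f.divisors, (e : ℝ) * ‖KF Y (fun k => ψ ((e : ℤ) * k)) χ‖ :=
    sum_nonneg fun f _ => mul_nonneg (by positivity) (sum_nonneg fun e _ => by positivity)
  unfold WE
  calc _ ≤ (l ^ 2 / (r : ℝ)) * (l ^ 2 * (r / Z) * (2 * Y) * l ^ 2) :=
        mul_le_mul h9 h8 h10 (by positivity)
    _ = 2 * Y * l ^ 6 / Z := by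
        field_simp

theorem we_big {Z D Y r q : ℕ} {a : ℝ} {ψ : ℤ → ℝ} (hr : 1 ≤ r) (hq : 2 ≤ q)
    (h : Ker Y a ψ) (χ : DirichletCharacter ℂ q) :
    WE Z D Y ψ r χ ≤ 2 * (2 + 2 * Real.log D) ^ 4 / r *
      ∑ e ∈ Icc 1 Y, 1 / (e : ℝ) * ‖KF (Y / e) (fun k => ψ ((e : ℤ) * k)) χ‖ := by
  have hlD : 0 ≤ Real.log D := Real.log_natCast_nonneg D
  have hr0 : (0 : ℝ) < r := by exact_mod_cast hr
  obtain ⟨l, hl⟩ : ∃ l, l = 2 + 2 * Real.log D := ⟨_, rfl⟩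
  have hl0 : 0 < l := by
    rw [hl]
    linarith
  rcases lt_or_ge D r with hrD | hrD
  · unfold WE
    rw [we_empty hrD, sum_empty, mul_zero]
    exact mul_nonneg (by positivity) (sum_nonneg fun e _ => by positivity)
  obtain ⟨κ, hκ⟩ : ∃ κ : ℕ → ℝ, κ = fun e : ℕ => ‖KF Y (fun k => ψ ((e : ℤ) * k)) χ‖ := ⟨_, rfl⟩
  have hκ0 : ∀ e, 0 ≤ κ e := by
    intro e
    rw [hκ]
    positivity
  have h1 : ∀ f ∈ FS Z D r, 1 / (f.totient : ℝ) ^ 2 * ∑ e ∈ f.divisors, (e : ℝ) * κ e ≤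
      ∑ e ∈ Icc 1 D, (e : ℝ) * κ e * (if e ∣ f then l ^ 2 / (f : ℝ) ^ 2 else 0) := by
    intro f hf
    unfold FS at hf
    rw [mem_filter, mem_Icc] at hf
    have hf0 : (0 : ℝ) < f := by exact_mod_cast hf.1.1
    have h2 := we_phi hf.1.1 hf.1.2
    rw [← hl] at h2
    have h3 : ∑ e ∈ f.divisors, (e : ℝ) * κ e = ∑ e ∈ Icc 1 D, (if e ∣ f then (e : ℝ) * κ e else 0) := by
      rw [← sum_filter]
      apply sum_congr _ (fun _ _ => rfl)
      ext e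
      rw [Nat.mem_divisors, mem_filter, mem_Icc]
      constructor
      · rintro ⟨h4, h5⟩
        have h6 := Nat.le_of_dvd (by omega) h4
        have h7 := Nat.pos_of_dvd_of_pos h4 (by omega)
        exact ⟨⟨h7, by omega⟩, h4⟩
      · rintro ⟨h4, h5⟩
        exact ⟨h5, by omega⟩
    rw [h3, mul_sum]
    apply sum_le_sum
    intro e _
    split_ifs
    · rw [mul_comm]
      exact mul_le_mul_of_nonneg_left h2 (mul_nonneg (by positivity) (hκ0 e))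
    · simp
  have h8 : ∑ f ∈ FS Z D r, 1 / (f.totient : ℝ) ^ 2 * ∑ e ∈ f.divisors, (e : ℝ) * κ e ≤
      ∑ e ∈ Icc 1 D, 2 * l ^ 2 * (1 / (e : ℝ) * κ e) := by
    refine (sum_le_sum h1).trans ?_
    rw [sum_comm]
    apply sum_le_sum
    intro e he
    rw [mem_Icc] at he
    have he0 : (0 : ℝ) < e := by exact_mod_cast he.1
    rw [← mul_sum]
    have h9 : ∑ f ∈ FS Z D r, (if e ∣ f then l ^ 2 / (f : ℝ) ^ 2 else 0) ≤ l ^ 2 / (e : ℝ) ^ 2 * 2 := by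
      calc ∑ f ∈ FS Z D r, (if e ∣ f then l ^ 2 / (f : ℝ) ^ 2 else 0)
          ≤ ∑ f ∈ Icc 1 D, (if e ∣ f then l ^ 2 / (f : ℝ) ^ 2 else 0) := by
            apply sum_le_sum_of_subset_of_nonneg
            · exact filter_subset _ _
            · intro i _ _
              split_ifs <;> positivity
        _ ≤ ∑ b ∈ Icc 1 D, l ^ 2 / ((e * b : ℕ) : ℝ) ^ 2 :=
            we_dvd he.1 (fun f => l ^ 2 / (f : ℝ) ^ 2) (fun n => by positivity)
        _ = l ^ 2 / (e : ℝ) ^ 2 * ∑ b ∈ Icc 1 D, 1 / (b : ℝ) ^ 2 := by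
            rw [mul_sum]
            apply sum_congr rfl
            intro b _
            push_cast
            rw [mul_pow, div_mul_div_comm, mul_one]
        _ ≤ l ^ 2 / (e : ℝ) ^ 2 * 2 := mul_le_mul_of_nonneg_left (we_sq D) (by positivity)
    calc (e : ℝ) * κ e * ∑ f ∈ FS Z D r, (if e ∣ f then l ^ 2 / (f : ℝ) ^ 2 else 0)
        ≤ (e : ℝ) * κ e * (l ^ 2 / (e : ℝ) ^ 2 * 2) :=
          mul_le_mul_of_nonneg_left h9 (mul_nonneg he0.le (hκ0 e))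
      _ = 2 * l ^ 2 * (1 / (e : ℝ) * κ e) := by
          field_simp
  have h10 : ∑ e ∈ Icc 1 D, 2 * l ^ 2 * (1 / (e : ℝ) * κ e) ≤
      2 * l ^ 2 * ∑ e ∈ Icc 1 Y, 1 / (e : ℝ) * ‖KF (Y / e) (fun k => ψ ((e : ℤ) * k)) χ‖ := by
    rw [← mul_sum]
    apply mul_le_mul_of_nonneg_left _ (by positivity)
    have h11 : ∑ e ∈ Icc 1 Y, 1 / (e : ℝ) * ‖KF (Y / e) (fun k => ψ ((e : ℤ) * k)) χ‖ =
        ∑ e ∈ Icc 1 Y, 1 / (e : ℝ) * κ e := by
      apply sum_congr rfl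
      intro e he
      rw [mem_Icc] at he
      rw [hκ]
      show _ = 1 / (e : ℝ) * ‖KF Y (fun k => ψ ((e : ℤ) * k)) χ‖
      rw [kf_dil h he.1 χ]
    rw [h11]
    calc ∑ e ∈ Icc 1 D, 1 / (e : ℝ) * κ e
        = ∑ e ∈ (Icc 1 D).filter (fun e => e ≤ Y), 1 / (e : ℝ) * κ e := by
          rw [sum_filter]
          apply sum_congr rfl
          intro e _
          split_ifs with h12
          · rfl
          · rw [hκ]
            show 1 / (e : ℝ) * ‖KF Y (fun k => ψ ((e : ℤ) * k)) χ‖ = 0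
            rw [kf_zero h (by omega) hq χ, norm_zero, mul_zero]
      _ ≤ ∑ e ∈ Icc 1 Y, 1 / (e : ℝ) * κ e := by
          apply sum_le_sum_of_subset_of_nonneg
          · intro e he
            rw [mem_filter, mem_Icc] at he
            rw [mem_Icc]
            omega
          · intro i _ _
            exact mul_nonneg (by positivity) (hκ0 i)
  have h9 := we_r hr hrD
  rw [← hl] at h9 ⊢
  have h13 : 0 ≤ ∑ f ∈ FS Z D r, 1 / (f.totient : ℝ) ^ 2 * ∑ e ∈ f.divisors, (e : ℝ) * κ e :=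
    sum_nonneg fun f _ => mul_nonneg (by positivity)
      (sum_nonneg fun e _ => mul_nonneg (by positivity) (hκ0 e))
  have h14 : WE Z D Y ψ r χ = (r : ℝ) / (r.totient : ℝ) ^ 2 *
      ∑ f ∈ FS Z D r, 1 / (f.totient : ℝ) ^ 2 * ∑ e ∈ f.divisors, (e : ℝ) * κ e := by
    rw [hκ]
    rfl
  rw [h14]
  calc _ ≤ (l ^ 2 / (r : ℝ)) * (2 * l ^ 2 *
        ∑ e ∈ Icc 1 Y, 1 / (e : ℝ) * ‖KF (Y / e) (fun k => ψ ((e : ℤ) * k)) χ‖) :=
        mul_le_mul h9 (h8.trans h10) h13 (by positivity)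
    _ = _ := by ring

end Pool.Agent.H67.VW
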