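import Pool.Agent.H67.VW.Trans
import Pool.Agent.H67.VW.DualC
import Pool.Agent.H67.VW.WEs
import Pool.Agent.H67.VW.Num4

/-!
[H67 VW DY4]  All conductors together.

Proof.  (Compare `Pool/Agent/H67/VU/Dy3.lean`.)  `Z = Zw θ κ X`, `D = Dw d X`, `u = uw θ κ X`, `R0 = Rw κ X`, `l = 2 + 2 log D`, `X` large (`num_u`:
`u^3 ≤ X ≤ t`).  Split `PC D` into `c.md ≤ R0` and `c.md > R0`.
Small conductors: `we_small`: `WE ≤ 2 Y l^6/Z ≤ 8 l^6 X^(-4κ)` (`Z ≥ X^(θ+4κ)/2`, `Y ≤ 2X^θ`), `transport` to `PC R0`, `VU.th_mean` (`R0 ≤ X^(5κ)`) and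
`num_small`: total `≤ 8 l^6 X^(-4κ) C (1 + log T)^5 12 X^(1+2κ)`.
Large conductors: blocks `R/2 < c.md ≤ R`, `R = 2^(i+1) R0`, `i < I`, `I ≤ 2 (1 + log X)`, only those with `R ≤ 2D ≤ 2X^d ≤ X ≤ t`.  In a block
`we_big`: `WE ≤ (4 l^4/R) ∑_{e ≤ Y} (1/e) ‖KF (Y/e) (ψ(e .)) c.2‖`; for each `e ≤ Y`: `transport` to `PC R` with the function
`f q χ = if R < 2 q then ‖ThC χ‖ ‖KF χ‖ else 0`, `dual_mean` with the kernel of `ker_dil` (`y = Y/e`), then `num_big`: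
`≤ (4 l^4) (1 + log Y) C a (1 + log T)^7 40 X^(1-5κ/2)`.  Sum over the blocks.  All powers of `log X` are `≤ X^(κ/4)` for large `X`, `a ≥ 4`.
-/

namespace Pool.Agent.H67.VW

open Finset Filter Pool.Agent.H21.MT Pool.Agent.H67.VS Pool.Agent.H67.VU

private theorem dy4_small {C : ℝ} (hC : 0 < C)
    (hth : ∀ (R u t T : ℕ), 1 ≤ u → u ^ 3 ≤ t → t ≤ T → R ≤ T →
      ∑ c ∈ PC R, ‖ThC t T onef c.2‖ ≤ C * (1 + Real.log T) ^ 5 *
      (T + R * T / Real.sqrt u + (R : ℝ) ^ 2 * Real.sqrt T + (R : ℝ) ^ 2 * Real.sqrt R * u))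
    {Z D R u t T Y : ℕ} {a : ℝ} {ψ : ℤ → ℝ} (hZ : 1 ≤ Z) (hu : 1 ≤ u) (hut : u ^ 3 ≤ t)
    (htT : t ≤ T) (hR : R ≤ T) (hk : Ker Y a ψ) (s : Finset (Ch D))
    (hs : ∀ c ∈ s, c ∈ PC D ∧ c.md ≤ R) :
    ∑ c ∈ s, ‖ThC t T onef c.2‖ * WE Z D Y ψ c.md c.2 ≤
      2 * Y * (2 + 2 * Real.log D) ^ 6 / Z * (C * (1 + Real.log T) ^ 5 *
      (T + R * T / Real.sqrt u + (R : ℝ) ^ 2 * Real.sqrt T +
        (R : ℝ) ^ 2 * Real.sqrt R * u)) := by
  classical
  have hlD : 0 ≤ Real.log D := Real.log_natCast_nonneg D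
  obtain ⟨A, hA⟩ : ∃ A : ℝ, A = 2 * Y * (2 + 2 * Real.log D) ^ 6 / Z := ⟨_, rfl⟩
  have hA0 : 0 ≤ A := by rw [hA]; positivity
  obtain ⟨f, hf⟩ : ∃ f : (q : ℕ) → DirichletCharacter ℂ q → ℝ,
    f = fun q χ => ‖ThC t T onef χ‖ := ⟨_, rfl⟩
  have h1 := transport D R f (by intro q χ; rw [hf]; exact norm_nonneg _) s hs
  have h2 := hth R u t T hu hut htT hR
  calc ∑ c ∈ s, ‖ThC t T onef c.2‖ * WE Z D Y ψ c.md c.2
      ≤ ∑ c ∈ s, A * f (c.1.val + 1) c.2 := by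
        refine sum_le_sum fun c hc => ?_
        have h3 := (hs c hc).1
        unfold PC at h3
        rw [mem_filter] at h3
        have h4 : 2 ≤ c.1.val + 1 := h3.2.2
        have h5 : WE Z D Y ψ c.md c.2 ≤ A := by
          rw [hA]
          exact we_small hZ (by have := h3.2.2; omega) h4 hk c.2
        rw [hf, mul_comm A]
        exact mul_le_mul_of_nonneg_left h5 (norm_nonneg _)
    _ = A * ∑ c ∈ s, f (c.1.val + 1) c.2 := by rw [mul_sum]
    _ ≤ A * ∑ c ∈ PC R, f (c.1.val + 1) c.2 := mul_le_mul_of_nonneg_left h1 hA0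
    _ ≤ _ := by
        rw [← hA]
        refine mul_le_mul_of_nonneg_left ?_ hA0
        rw [hf]
        exact h2

private theorem dy4_harm (Y : ℕ) : ∑ e ∈ Icc 1 Y, 1 / (e : ℝ) ≤ 1 + Real.log Y := by
  have h := harmonic_le_one_add_log Y
  rw [harmonic_eq_sum_Icc] at h
  push_cast at h
  simpa [one_div] using h

private theorem dy4_block {C : ℝ} (hC : 0 < C)
    (hdm : ∀ (R u t T y : ℕ) (a : ℝ) (Ψ : ℤ → ℝ), 1 ≤ u → u ^ 3 ≤ t →
      t ≤ T → R ≤ t → 1 ≤ R → Ker y a Ψ →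
      ∑ c ∈ (PC R).filter (fun c => R < 2 * c.md), ‖ThC t T onef c.2‖ * ‖KF y Ψ c.2‖ ≤
      C * a * (1 + Real.log T) ^ 7 *
        (Real.sqrt R * PB R u T + Real.sqrt y * QB R u T))
    {Z D R u t T Y : ℕ} {a : ℝ} {ψ : ℤ → ℝ} (hu : 1 ≤ u) (hut : u ^ 3 ≤ t)
    (htT : t ≤ T) (hR1 : 1 ≤ R) (hR : R ≤ t) (hk : Ker Y a ψ) (s : Finset (Ch D))
    (hs : ∀ c ∈ s, c ∈ PC D ∧ c.md ≤ R ∧ R < 2 * c.md) :
    ∑ c ∈ s, ‖ThC t T onef c.2‖ * WE Z D Y ψ c.md c.2 ≤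
      4 * (2 + 2 * Real.log D) ^ 4 * (1 + Real.log Y) * (C * a * (1 + Real.log T) ^ 7) *
      (1 / R * (Real.sqrt R * PB R u T + Real.sqrt Y * QB R u T)) := by
  classical
  have hlD : 0 ≤ Real.log D := Real.log_natCast_nonneg D
  have hlT : 0 ≤ Real.log T := Real.log_natCast_nonneg T
  have hR0 : (0 : ℝ) < R := by exact_mod_cast hR1
  have ha0 : 0 ≤ a := by linarith [hk.a1]
  obtain ⟨A, hA⟩ : ∃ A : ℝ, A = 4 * (2 + 2 * Real.log D) ^ 4 / R := ⟨_, rfl⟩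
  have hA0 : 0 ≤ A := by rw [hA]; positivity
  have hPB : 0 ≤ PB R u T := by unfold PB; positivity
  have hQB : 0 ≤ QB R u T := by unfold QB; positivity
  obtain ⟨B, hB⟩ : ∃ B : ℝ, B = C * a * (1 + Real.log T) ^ 7 *
      (Real.sqrt R * PB R u T + Real.sqrt Y * QB R u T) := ⟨_, rfl⟩
  have hB0 : 0 ≤ B := by rw [hB]; positivity
  have hinner : ∀ e ∈ Icc 1 Y, ∑ c ∈ s, ‖ThC t T onef c.2‖ *
      ‖KF (Y / e) (fun k => ψ ((e : ℤ) * k)) c.2‖ ≤ B := by
    intro e he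
    rw [mem_Icc] at he
    obtain ⟨f, hf⟩ : ∃ f : (q : ℕ) → DirichletCharacter ℂ q → ℝ,
      f = fun q χ => if R < 2 * q then ‖ThC t T onef χ‖ *
        ‖KF (Y / e) (fun k => ψ ((e : ℤ) * k)) χ‖ else 0 := ⟨_, rfl⟩
    have hf0 : ∀ q χ, 0 ≤ f q χ := by
      intro q χ
      rw [hf]
      show 0 ≤ (if R < 2 * q then ‖ThC t T onef χ‖ *
        ‖KF (Y / e) (fun k => ψ ((e : ℤ) * k)) χ‖ else 0)
      split_ifs
      · positivity
      · exact le_rfl
    have h1 := transport D R f hf0 s (fun c hc => ⟨(hs c hc).1, (hs c hc).2.1⟩)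
    have h2 := hdm R u t T (Y / e) a (fun k => ψ ((e : ℤ) * k)) hu hut htT hR hR1
      (ker_dil hk he.1 he.2)
    have h3 : ∑ c ∈ s, ‖ThC t T onef c.2‖ * ‖KF (Y / e) (fun k => ψ ((e : ℤ) * k)) c.2‖ =
        ∑ c ∈ s, f (c.1.val + 1) c.2 := by
      refine sum_congr rfl fun c hc => ?_
      rw [hf]
      show _ = if R < 2 * (c.1.val + 1) then _ else _
      rw [if_pos (show R < 2 * (c.1.val + 1) from (hs c hc).2.2)]
    have h4 : ∑ c ∈ PC R, f (c.1.val + 1) c.2 =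
        ∑ c ∈ (PC R).filter (fun c => R < 2 * c.md), ‖ThC t T onef c.2‖ *
          ‖KF (Y / e) (fun k => ψ ((e : ℤ) * k)) c.2‖ := by
      rw [sum_filter, hf]
      rfl
    rw [h3]
    refine h1.trans ?_
    rw [h4]
    refine h2.trans ?_
    rw [hB]
    have h5 : Real.sqrt ((Y / e : ℕ) : ℝ) ≤ Real.sqrt Y :=
      Real.sqrt_le_sqrt (by exact_mod_cast Nat.div_le_self Y e)
    gcongr
  have hY := dy4_harm Y
  calc ∑ c ∈ s, ‖ThC t T onef c.2‖ * WE Z D Y ψ c.md c.2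
      ≤ ∑ c ∈ s, ∑ e ∈ Icc 1 Y, A * (1 / (e : ℝ) * (‖ThC t T onef c.2‖ *
          ‖KF (Y / e) (fun k => ψ ((e : ℤ) * k)) c.2‖)) := by
        refine sum_le_sum fun c hc => ?_
        have h3 := (hs c hc).1
        unfold PC at h3
        rw [mem_filter] at h3
        have h4 : 2 ≤ c.1.val + 1 := h3.2.2
        have h40 : 1 ≤ c.md := by have := h3.2.2; omega
        have h5 := we_big (Z := Z) (D := D) h40 h4 hk c.2
        have h6 : (0 : ℝ) < c.md := by exact_mod_cast h40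
        have h7 : 2 * (2 + 2 * Real.log D) ^ 4 / (c.md : ℝ) ≤ A := by
          rw [hA, div_le_div_iff₀ h6 hR0]
          have h8 : (R : ℝ) ≤ 2 * c.md := by exact_mod_cast (hs c hc).2.2.le
          have h9 : 0 ≤ (2 + 2 * Real.log D) ^ 4 := by positivity
          nlinarith
        have h8 : 0 ≤ ∑ e ∈ Icc 1 Y, 1 / (e : ℝ) *
            ‖KF (Y / e) (fun k => ψ ((e : ℤ) * k)) c.2‖ :=
          sum_nonneg fun e _ => by positivity
        calc ‖ThC t T onef c.2‖ * WE Z D Y ψ c.md c.2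
            ≤ ‖ThC t T onef c.2‖ * (A * ∑ e ∈ Icc 1 Y, 1 / (e : ℝ) *
              ‖KF (Y / e) (fun k => ψ ((e : ℤ) * k)) c.2‖) :=
              mul_le_mul_of_nonneg_left
                (h5.trans (mul_le_mul_of_nonneg_right h7 h8)) (norm_nonneg _)
          _ = _ := by
              rw [mul_sum, mul_sum]
              refine sum_congr rfl fun e _ => ?_
              ring
    _ = ∑ e ∈ Icc 1 Y, A * (1 / (e : ℝ) * ∑ c ∈ s, ‖ThC t T onef c.2‖ *
          ‖KF (Y / e) (fun k => ψ ((e : ℤ) * k)) c.2‖) := by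
        rw [sum_comm]
        refine sum_congr rfl fun e _ => ?_
        rw [mul_sum, mul_sum]
    _ ≤ ∑ e ∈ Icc 1 Y, A * (1 / (e : ℝ) * B) := by
        refine sum_le_sum fun e he => ?_
        exact mul_le_mul_of_nonneg_left (mul_le_mul_of_nonneg_left (hinner e he)
          (by positivity)) hA0
    _ = A * B * ∑ e ∈ Icc 1 Y, 1 / (e : ℝ) := by
        rw [mul_sum]
        refine sum_congr rfl fun e _ => ?_
        ring
    _ ≤ A * B * (1 + Real.log Y) := mul_le_mul_of_nonneg_left hY (mul_nonneg hA0 hB0)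
    _ = _ := by
        rw [hA, hB]
        ring

private theorem dy4_ev (κ C : ℝ) (hκ : 0 < κ) : ∀ᶠ X : ℝ in atTop,
    C * (3 + 2 * Real.log X) ^ 13 ≤ X ^ (κ / 2) := by
  have h1 := (isLittleO_log_rpow_atTop (show (0 : ℝ) < κ / 28 by positivity)).bound
    (show (0 : ℝ) < 1 by norm_num)
  have h2 := (tendsto_rpow_atTop (show (0 : ℝ) < κ / 28 by positivity)).eventually_ge_atTop
    (|C| * 5 ^ 13)
  filter_upwards [h1, h2, eventually_ge_atTop (Real.exp 1)] with X hX1 hX2 hX3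
  have hX0 : 0 < X := lt_of_lt_of_le (Real.exp_pos 1) hX3
  have hL : 1 ≤ Real.log X := by
    rw [Real.le_log_iff_exp_le hX0]
    exact hX3
  have h3 : Real.log X ≤ X ^ (κ / 28) := by
    rw [one_mul, Real.norm_of_nonneg (by linarith),
      Real.norm_of_nonneg (Real.rpow_nonneg hX0.le _)] at hX1
    exact hX1
  have e : X ^ (κ / 2) = X ^ (κ / 28) * (X ^ (κ / 28)) ^ 13 := by
    rw [← Real.rpow_natCast (X ^ (κ / 28)) 13, ← Real.rpow_mul hX0.le, ← Real.rpow_add hX0]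
    congr 1
    push_cast
    ring
  rw [e]
  generalize X ^ (κ / 28) = b at *
  generalize Real.log X = L at *
  have hb0 : 0 ≤ b := by linarith
  calc C * (3 + 2 * L) ^ 13 ≤ |C| * (5 * L) ^ 13 := by
        have : C ≤ |C| := le_abs_self C
        have h5 : 3 + 2 * L ≤ 5 * L := by linarith
        gcongr
    _ = (|C| * 5 ^ 13) * L ^ 13 := by ring
    _ ≤ b * b ^ 13 := by gcongr

theorem dyad4 {θ κ d : ℝ} (hP : PW θ κ d) : ∀ᶠ X : ℕ in atTop,
    ∀ (t T Y : ℕ) (a : ℝ) (ψ : ℤ → ℝ), X ≤ t → t ≤ T → T ≤ 3 * X → Ker Y a ψ →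
    (Y : ℝ) ≤ 2 * (X : ℝ) ^ θ →
    ∑ c ∈ PC (Dw d X), ‖ThC t T onef c.2‖ * WE (Zw θ κ X) (Dw d X) Y ψ c.md c.2 ≤
      a * (X : ℝ) ^ (1 - 3 / 2 * κ) := by
  obtain ⟨C1, hC1, hth⟩ := th_mean
  obtain ⟨C2, hC2, hdm⟩ := dual_mean
  have hθ0 := hP.θ0
  have hκ0 := hP.κ0
  have hκ1 := hP.κ1
  have hθ1 := hP.θ1
  have hdu := hP.up
  have hdl := hP.low
  have hd1 : d ≤ 1 / 2 := by linarith
  have ev : ∀ᶠ X : ℝ in atTop, _ :=
    ((((num_u hP).and (num_big hP)).and (num_small hP)).and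
      (dy4_ev κ (320 * (C1 + C2)) hκ0)).and ((eventually_ge_atTop (16 : ℝ)).and
        ((tendsto_rpow_atTop (show (0 : ℝ) < θ + 4 * κ by linarith)).eventually_ge_atTop 2))
  filter_upwards [tendsto_natCast_atTop_atTop.eventually ev] with Xn hXn
  obtain ⟨⟨⟨⟨hnu, hbig⟩, hsm⟩, hlog⟩, hX16, hZbig⟩ := hXn
  intro t T Y a ψ hXt htT hT3 hk hYX
  obtain ⟨X, hXdef⟩ : ∃ X : ℝ, X = (Xn : ℝ) := ⟨_, rfl⟩
  rw [← hXdef] at hnu hbig hsm hlog hX16 hZbig hYX
  rw [← hXdef]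
  obtain ⟨hu1, hu3, hR01, hZ1, hD1⟩ := hnu
  have hX1 : 1 ≤ X := by linarith
  have hX0 : 0 < X := by linarith
  have hL0 : 0 ≤ Real.log X := Real.log_nonneg hX1
  have hTX : (T : ℝ) ≤ 3 * X := by
    rw [hXdef]
    exact_mod_cast hT3
  have hXtr : X ≤ (t : ℝ) := by
    rw [hXdef]
    exact_mod_cast hXt
  have htTr : (t : ℝ) ≤ T := by exact_mod_cast htT
  obtain ⟨D, hD⟩ : ∃ D : ℕ, D = Dw d X := ⟨_, rfl⟩
  obtain ⟨Z, hZ⟩ : ∃ Z : ℕ, Z = Zw θ κ X := ⟨_, rfl⟩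
  obtain ⟨u, hu⟩ : ∃ u : ℕ, u = uw θ κ X := ⟨_, rfl⟩
  obtain ⟨R0, hR0⟩ : ∃ R0 : ℕ, R0 = Rw κ X := ⟨_, rfl⟩
  rw [← hu] at hu1 hu3 hbig hsm
  rw [← hR0] at hR01
  rw [← hZ] at hZ1
  rw [← hD] at hD1
  rw [← hD, ← hZ]
  have hDX : (D : ℝ) ≤ X ^ d := by rw [hD]; exact Nat.floor_le (Real.rpow_nonneg hX0.le _)
  have hDX2 : (D : ℝ) ≤ Real.sqrt X := by
    refine hDX.trans ?_
    rw [Real.sqrt_eq_rpow]
    exact Real.rpow_le_rpow_of_exponent_le hX1 hd1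
  have hsX : 2 * Real.sqrt X ≤ X := by
    have h1 : Real.sqrt X * Real.sqrt X = X := Real.mul_self_sqrt hX0.le
    have h2 : 4 ≤ Real.sqrt X := by
      rw [show (4 : ℝ) = Real.sqrt 16 by
        rw [show (16 : ℝ) = 4 ^ 2 by norm_num, Real.sqrt_sq (by norm_num)]]
      exact Real.sqrt_le_sqrt hX16
    nlinarith [Real.sqrt_nonneg X]
  have hDX' : (D : ℝ) ≤ X := by linarith [Real.sqrt_nonneg X]
  have hR0X : (R0 : ℝ) ≤ X ^ (5 * κ) := by
    rw [hR0]; exact Nat.floor_le (Real.rpow_nonneg hX0.le _)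
  have hR0X2 : X ^ (5 * κ) ≤ (R0 : ℝ) + 1 := by
    rw [hR0]; exact (Nat.lt_floor_add_one _).le
  have hR0le : (R0 : ℝ) ≤ X := by
    refine hR0X.trans ?_
    calc X ^ (5 * κ) ≤ X ^ (1 : ℝ) := Real.rpow_le_rpow_of_exponent_le hX1 (by linarith)
      _ = X := Real.rpow_one X
  have hut : u ^ 3 ≤ t := by
    have h1 : ((u ^ 3 : ℕ) : ℝ) ≤ (t : ℝ) := by
      push_cast
      exact hu3.trans hXtr
    exact_mod_cast h1
  have hlT0 : 0 ≤ Real.log T := Real.log_natCast_nonneg T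
  have hlD0 : 0 ≤ Real.log D := Real.log_natCast_nonneg D
  have hlD : Real.log D ≤ Real.log X :=
    Real.log_le_log (by exact_mod_cast hD1) hDX'
  have hT0 : (0 : ℝ) < T := by linarith
  have hlog3 : Real.log 3 ≤ 3 - 1 := Real.log_le_sub_one_of_pos (by norm_num)
  have hlT : Real.log T ≤ 2 + Real.log X := by
    have h1 : Real.log T ≤ Real.log (3 * X) := Real.log_le_log hT0 hTX
    rw [Real.log_mul (by norm_num) hX0.ne'] at h1
    linarith
  have ha4 := hk.a1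
  have hY1 : (1 : ℝ) ≤ Y := by exact_mod_cast hk.Y1
  have hXθ : X ^ θ ≤ X := by
    calc X ^ θ ≤ X ^ (1 : ℝ) := Real.rpow_le_rpow_of_exponent_le hX1 (by linarith)
      _ = X := Real.rpow_one X
  have hlY : Real.log Y ≤ 1 + Real.log X := by
    have h1 : Real.log Y ≤ Real.log (2 * X) := Real.log_le_log (by linarith) (by linarith)
    rw [Real.log_mul (by norm_num) hX0.ne'] at h1
    have h2 : Real.log 2 ≤ 2 - 1 := Real.log_le_sub_one_of_pos (by norm_num)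
    linarith
  have hlY0 : 0 ≤ Real.log Y := Real.log_natCast_nonneg Y
  obtain ⟨L, hL⟩ : ∃ L : ℝ, L = 3 + 2 * Real.log X := ⟨_, rfl⟩
  have hL1 : 1 ≤ L := by linarith
  rw [← hL] at hlog
  classical
  -- small conductors
  have hA : ∑ c ∈ (PC D).filter (fun c => c.md ≤ R0),
      ‖ThC t T onef c.2‖ * WE Z D Y ψ c.md c.2 ≤ a / 2 * X ^ (1 - 3 / 2 * κ) := by
    have h1 := dy4_small hC1 hth (Z := Z) (D := D) (R := R0) (u := u) (t := t) (T := T)
      hZ1 hu1 hut htT (by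
        have h2 : (R0 : ℝ) ≤ (T : ℝ) := by linarith
        exact_mod_cast h2) hk ((PC D).filter (fun c => c.md ≤ R0)) (by
        intro c hc
        exact ⟨(mem_filter.1 hc).1, (mem_filter.1 hc).2⟩)
    have h2 := hsm R0 T (Nat.cast_nonneg _) hR0X hT0.le hTX
    refine h1.trans ?_
    have hZr : X ^ (θ + 4 * κ) / 2 ≤ (Z : ℝ) := by
      have h3 : X ^ (θ + 4 * κ) < (Z : ℝ) + 1 := by
        rw [hZ]; exact Nat.lt_floor_add_one _
      linarith
    have hZ0 : (0 : ℝ) < Z := by exact_mod_cast hZ1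
    have h4 : 2 * (Y : ℝ) / Z ≤ 8 * X ^ (-(4 * κ)) := by
      rw [div_le_iff₀ hZ0]
      have h5 : X ^ θ = X ^ (-(4 * κ)) * X ^ (θ + 4 * κ) := by
        rw [← Real.rpow_add hX0]
        congr 1
        ring
      have h6 : 0 ≤ X ^ (-(4 * κ)) := Real.rpow_nonneg hX0.le _
      calc 2 * (Y : ℝ) ≤ 2 * (2 * X ^ θ) := by linarith
        _ = 8 * X ^ (-(4 * κ)) * (X ^ (θ + 4 * κ) / 2) := by rw [h5]; ring
        _ ≤ 8 * X ^ (-(4 * κ)) * Z := mul_le_mul_of_nonneg_left hZr (by positivity)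
    have h7 : 0 ≤ (T : ℝ) + R0 * T / Real.sqrt u + (R0 : ℝ) ^ 2 * Real.sqrt T +
        (R0 : ℝ) ^ 2 * Real.sqrt R0 * u := by positivity
    have h8 : 2 * (Y : ℝ) * (2 + 2 * Real.log D) ^ 6 / Z =
        (2 * (Y : ℝ) / Z) * (2 + 2 * Real.log D) ^ 6 := by ring
    rw [h8]
    have hX12 : X ^ (1 - 3 / 2 * κ) = X ^ (κ / 2) * (X ^ (-(4 * κ)) * X ^ (1 + 2 * κ)) := by
      rw [← Real.rpow_add hX0, ← Real.rpow_add hX0]
      congr 1
      ring
    have h9 : 0 ≤ X ^ (-(4 * κ)) := Real.rpow_nonneg hX0.le _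
    have h10 : 0 ≤ X ^ (1 + 2 * κ) := Real.rpow_nonneg hX0.le _
    have h11 : L ^ 11 ≤ L ^ 13 := pow_le_pow_right₀ hL1 (by norm_num)
    calc 2 * (Y : ℝ) / Z * (2 + 2 * Real.log D) ^ 6 * (C1 * (1 + Real.log T) ^ 5 *
          (T + R0 * T / Real.sqrt u + (R0 : ℝ) ^ 2 * Real.sqrt T +
            (R0 : ℝ) ^ 2 * Real.sqrt R0 * u))
        ≤ (8 * X ^ (-(4 * κ))) * L ^ 6 * (C1 * L ^ 5 * (12 * X ^ (1 + 2 * κ))) := by
          gcongr
          · rw [hL]; linarith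
          · rw [hL]; linarith
      _ = (96 * C1) * L ^ 11 * (X ^ (-(4 * κ)) * X ^ (1 + 2 * κ)) := by ring
      _ ≤ (320 * (C1 + C2)) * L ^ 13 * (X ^ (-(4 * κ)) * X ^ (1 + 2 * κ)) := by
          apply mul_le_mul_of_nonneg_right _ (mul_nonneg h9 h10)
          apply mul_le_mul _ h11 (by positivity) (by positivity)
          linarith
      _ ≤ X ^ (κ / 2) * (X ^ (-(4 * κ)) * X ^ (1 + 2 * κ)) :=
          mul_le_mul_of_nonneg_right hlog (mul_nonneg h9 h10)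
      _ = 1 * X ^ (1 - 3 / 2 * κ) := by rw [hX12]; ring
      _ ≤ a / 2 * X ^ (1 - 3 / 2 * κ) :=
          mul_le_mul_of_nonneg_right (by linarith) (Real.rpow_nonneg hX0.le _)
  -- large conductors
  have hB : ∑ c ∈ (PC D).filter (fun c => ¬ c.md ≤ R0),
      ‖ThC t T onef c.2‖ * WE Z D Y ψ c.md c.2 ≤ a / 2 * X ^ (1 - 3 / 2 * κ) := by
    obtain ⟨s, hs⟩ : ∃ s : Finset (Ch D), s = (PC D).filter (fun c => ¬ c.md ≤ R0) :=
      ⟨_, rfl⟩
    rw [← hs]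
    set idx : Ch D → ℕ := fun c => Nat.log 2 (c.md / (R0 + 1)) with hidx
    set I : ℕ := ⌊2 * Real.log X⌋₊ + 1 with hI
    have hmdD : ∀ c : Ch D, c.md ≤ D := fun c => c.1.2
    have hq : ∀ c ∈ s, 2 ^ idx c * (R0 + 1) ≤ c.md ∧ c.md < 2 ^ (idx c + 1) * (R0 + 1) := by
      intro c hc
      rw [hs] at hc
      have h1 : R0 < c.md := not_le.1 (mem_filter.1 hc).2
      have h2 : 0 < c.md / (R0 + 1) := Nat.div_pos h1 (Nat.succ_pos R0)
      constructor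
      · rw [← Nat.le_div_iff_mul_le (Nat.succ_pos R0)]
        exact Nat.pow_log_le_self 2 h2.ne'
      · rw [← Nat.div_lt_iff_lt_mul (Nat.succ_pos R0)]
        exact Nat.lt_pow_succ_log_self (by norm_num) _
    have hmaps : ∀ c ∈ s, idx c ∈ range I := by
      intro c hc
      have h1 := (hq c hc).1
      have h2 : 2 ^ idx c ≤ D := by
        calc 2 ^ idx c = 2 ^ idx c * 1 := (mul_one _).symm
          _ ≤ 2 ^ idx c * (R0 + 1) := Nat.mul_le_mul_left _ (Nat.succ_pos R0)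
          _ ≤ c.md := h1
          _ ≤ D := hmdD c
      have h3 : ((2 : ℝ)) ^ idx c ≤ X := by
        calc ((2 : ℝ)) ^ idx c = ((2 ^ idx c : ℕ) : ℝ) := by push_cast; rfl
          _ ≤ (D : ℝ) := by exact_mod_cast h2
          _ ≤ X := hDX'
      have h4 : (idx c : ℝ) * Real.log 2 ≤ Real.log X := by
        rw [← Real.log_pow]
        exact Real.log_le_log (by positivity) h3
      have h5 : (idx c : ℝ) ≤ 2 * Real.log X := by
        have := Real.log_two_gt_d9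
        have h6 : (0 : ℝ) ≤ (idx c : ℝ) := Nat.cast_nonneg _
        nlinarith
      rw [mem_range, hI]
      exact Nat.lt_succ_of_le (Nat.le_floor h5)
    have hP0 : 0 ≤ X ^ (1 - 5 / 2 * κ) := Real.rpow_nonneg hX0.le _
    have hfib : ∀ i ∈ range I, ∑ c ∈ s.filter (fun c => idx c = i),
        ‖ThC t T onef c.2‖ * WE Z D Y ψ c.md c.2 ≤
        160 * C2 * a * L ^ 12 * X ^ (1 - 5 / 2 * κ) := by
      intro i _
      rcases (s.filter (fun c => idx c = i)).eq_empty_or_nonempty with he | ⟨c0, hc0⟩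
      · rw [he, sum_empty]
        positivity
      set Ri : ℕ := 2 ^ i * (R0 + 1) with hRi
      have hRi0 : 0 < Ri := by positivity
      have hRiD : Ri ≤ D := by
        have h1 := (mem_filter.1 hc0)
        have h2 := (hq c0 h1.1).1
        rw [h1.2] at h2
        exact h2.trans (hmdD c0)
      have hRiR0 : R0 + 1 ≤ Ri := Nat.le_mul_of_pos_left _ (by positivity)
      obtain ⟨R, hRdef⟩ : ∃ R : ℕ, R = 2 * Ri - 1 := ⟨_, rfl⟩
      have hR1 : 1 ≤ R := by omega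
      have hRiR : Ri ≤ R := by omega
      have hR2D : R ≤ 2 * D := by omega
      have hR2Dr : (R : ℝ) ≤ 2 * D := by exact_mod_cast hR2D
      have hRX : (R : ℝ) ≤ X := by
        have := hDX2
        linarith
      have hRt : R ≤ t := by
        have h1 : (R : ℝ) ≤ (t : ℝ) := by linarith
        exact_mod_cast h1
      have hRlow : X ^ (5 * κ) / 2 ≤ (R : ℝ) := by
        have h1 : ((R0 + 1 : ℕ) : ℝ) ≤ (R : ℝ) := by exact_mod_cast hRiR0.trans hRiR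
        push_cast at h1
        have h2 : 0 ≤ X ^ (5 * κ) := Real.rpow_nonneg hX0.le _
        linarith
      have h1 := dy4_block hC2 hdm (Z := Z) (D := D) (R := R) (u := u) (t := t) (T := T)
        hu1 hut htT hR1 hRt hk (s.filter (fun c => idx c = i)) (by
          intro c hc
          have h1 := mem_filter.1 hc
          have h2 := hq c h1.1
          rw [h1.2] at h2
          have h3 : 2 ^ (i + 1) * (R0 + 1) = 2 * (2 ^ i * (R0 + 1)) := by ring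
          have h4 := h1.1
          rw [hs] at h4
          refine ⟨(mem_filter.1 h4).1, by omega, by omega⟩)
      have h2 := hbig R Y T hRlow (by linarith) (Nat.cast_nonneg _) hYX hT0.le hTX
      refine h1.trans ?_
      have hPB : 0 ≤ PB R u T := by unfold PB; positivity
      have hQB : 0 ≤ QB R u T := by unfold QB; positivity
      calc 4 * (2 + 2 * Real.log D) ^ 4 * (1 + Real.log Y) * (C2 * a * (1 + Real.log T) ^ 7) *
            (1 / R * (Real.sqrt R * PB R u T + Real.sqrt Y * QB R u T))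
          ≤ 4 * L ^ 4 * L * (C2 * a * L ^ 7) * (40 * X ^ (1 - 5 / 2 * κ)) := by
            gcongr
            · rw [hL]; linarith
            · rw [hL]; linarith
            · rw [hL]; linarith
        _ = _ := by ring
    have e1 : ∑ c ∈ s, ‖ThC t T onef c.2‖ * WE Z D Y ψ c.md c.2 =
        ∑ i ∈ range I, ∑ c ∈ s.filter (fun c => idx c = i),
          ‖ThC t T onef c.2‖ * WE Z D Y ψ c.md c.2 :=
      (sum_fiberwise_of_maps_to hmaps _).symm
    rw [e1]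
    have hI2 : (I : ℝ) ≤ L := by
      rw [hI, hL]
      push_cast
      have := Nat.floor_le (show 0 ≤ 2 * Real.log X by positivity)
      linarith
    have e2 : X ^ (1 - 3 / 2 * κ) = X ^ (κ / 2) * (X ^ (κ / 2) * X ^ (1 - 5 / 2 * κ)) := by
      rw [← Real.rpow_add hX0, ← Real.rpow_add hX0]
      congr 1
      ring
    have hXκ1 : 1 ≤ X ^ (κ / 2) := Real.one_le_rpow hX1 (by positivity)
    calc ∑ i ∈ range I, ∑ c ∈ s.filter (fun c => idx c = i),
          ‖ThC t T onef c.2‖ * WE Z D Y ψ c.md c.2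
        ≤ ∑ _i ∈ range I, 160 * C2 * a * L ^ 12 * X ^ (1 - 5 / 2 * κ) := sum_le_sum hfib
      _ = I * (160 * C2 * a * L ^ 12 * X ^ (1 - 5 / 2 * κ)) := by
          rw [sum_const, card_range, nsmul_eq_mul]
      _ ≤ L * (160 * C2 * a * L ^ 12 * X ^ (1 - 5 / 2 * κ)) :=
          mul_le_mul_of_nonneg_right hI2 (by positivity)
      _ = a / 2 * ((320 * C2) * L ^ 13) * X ^ (1 - 5 / 2 * κ) := by ring
      _ ≤ a / 2 * ((320 * (C1 + C2)) * L ^ 13) * X ^ (1 - 5 / 2 * κ) := by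
          gcongr
          linarith
      _ ≤ a / 2 * X ^ (κ / 2) * X ^ (1 - 5 / 2 * κ) := by
          gcongr
      _ ≤ a / 2 * (X ^ (κ / 2) * (X ^ (κ / 2) * X ^ (1 - 5 / 2 * κ))) := by
          have h1 : X ^ (κ / 2) * X ^ (1 - 5 / 2 * κ) ≤
              X ^ (κ / 2) * (X ^ (κ / 2) * X ^ (1 - 5 / 2 * κ)) := by
            apply mul_le_mul_of_nonneg_left _ (by positivity)
            exact le_mul_of_one_le_left hP0 hXκ1
          rw [mul_assoc]
          exact mul_le_mul_of_nonneg_left h1 (by linarith)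
      _ = a / 2 * X ^ (1 - 3 / 2 * κ) := by rw [e2]
  rw [← sum_filter_add_sum_filter_not (PC D) (fun c => c.md ≤ R0)]
  linarith

end Pool.Agent.H67.VW
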