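import Pool.Agent.H67.VW.Asm
import Pool.Agent.H67.VU.FinT

/-!
[H67 VW FIN4]  From logarithmic weights to `π`, for one exponent `θ`.

Proof.  `δ = η/10`, `η' = η/4`; `f` from `VU.fin_f` (`θ < 1/3`), `Vf = ∑ (PH - f)² ≤ X + (1+η')² (log X)² V`.  With `M0 = X H X` resp. `∑ H n` (both `≥ X`, as `H ≥ 1`
on `[X,2X]`): `asmA`/`asmB`: `(1-4δ) S M0 ≤ X + (1+η')² (log X)² V` and `X ≤ M0 ≤ δ S M0` for large `X` (`S ≥ 5κ log X`), so
`(1-5δ) S M0 ≤ (1+η')² (log X)² V`, `(1-5δ)/(1+η')² ≥ 1 - η`, `S ≥ (d-θ-5κ) log X` (`s1_pw`).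
-/

namespace Pool.Agent.H67.VW

open Finset Filter Pool.Agent.H67.VU

private theorem fin4_core {η s L c M0 V Vf x : ℝ} (hη : 0 < η) (hη1 : η ≤ 1) (hL : 0 < L)
    (hs : c * L ≤ s) (hs0 : 0 ≤ s) (hM : x ≤ M0) (hM0 : 0 ≤ M0) (hs1 : 1 ≤ η / 10 * s)
    (h1 : (1 - 4 * (η / 10)) * s * M0 ≤ Vf) (h2 : Vf ≤ x + (1 + η / 4) ^ 2 * L ^ 2 * V) :
    (1 - η) * c * M0 / L ≤ V := by
  have hsM : 0 ≤ s * M0 := mul_nonneg hs0 hM0
  have h3 : M0 ≤ η / 10 * (s * M0) := by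
    have := mul_le_mul_of_nonneg_right hs1 hM0
    linarith
  have h4 : (1 - η / 2) * (s * M0) ≤ (1 + η / 4) ^ 2 * (L ^ 2 * V) := by
    have e1 : (1 - 4 * (η / 10)) * s * M0 = (1 - 4 * (η / 10)) * (s * M0) := by ring
    have e2 : (1 + η / 4) ^ 2 * L ^ 2 * V = (1 + η / 4) ^ 2 * (L ^ 2 * V) := by ring
    rw [e1] at h1
    rw [e2] at h2
    linarith
  have h5 : (1 - η) * (1 + η / 4) ^ 2 ≤ 1 - η / 2 := by
    have e3 : 1 - η / 2 - (1 - η) * (1 + η / 4) ^ 2 = 7 / 16 * η ^ 2 + 1 / 16 * η ^ 3 := by ring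
    have e4 : 0 ≤ 7 / 16 * η ^ 2 + 1 / 16 * η ^ 3 := by positivity
    linarith
  have h6 : (1 + η / 4) ^ 2 * ((1 - η) * (s * M0)) ≤ (1 + η / 4) ^ 2 * (L ^ 2 * V) := by
    have := mul_le_mul_of_nonneg_right h5 hsM
    calc (1 + η / 4) ^ 2 * ((1 - η) * (s * M0)) = (1 - η) * (1 + η / 4) ^ 2 * (s * M0) := by ring
      _ ≤ (1 - η / 2) * (s * M0) := this
      _ ≤ _ := h4
  have h7 : (1 - η) * (s * M0) ≤ L ^ 2 * V := le_of_mul_le_mul_left h6 (by positivity)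
  have h8 : (1 - η) * (c * L * M0) ≤ (1 - η) * (s * M0) :=
    mul_le_mul_of_nonneg_left (mul_le_mul_of_nonneg_right hs hM0) (by linarith)
  rw [div_le_iff₀ hL]
  refine le_of_mul_le_mul_right ?_ hL
  calc (1 - η) * c * M0 * L = (1 - η) * (c * L * M0) := by ring
    _ ≤ L ^ 2 * V := h8.trans h7
    _ = V * L * L := by ring

theorem fin4 {θ κ d η : ℝ} (K : ℝ) (hP : PW θ κ d) (hη : 0 < η) (hη1 : η ≤ 1) :
    ∀ᶠ X : ℕ in atTop, ∀ H : ℕ → ℕ, HL θ X H → ∀ M : ℕ → ℝ,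
    (MonotoneOn M (Set.Icc X (2 * X)) ∨ AntitoneOn M (Set.Icc X (2 * X)) ∨
      ∑ n ∈ Ico X (2 * X), |M (n + 1) - M n| ≤ (X : ℝ) ^ (1 / 2 : ℝ)) →
    (1 - η) * (d - θ - 5 * κ) * ((X : ℝ) * H X) / Real.log X ≤
      ∑ n ∈ Ioc X (2 * X), ((((Ioc n (n + H n)).filter Nat.Prime).card : ℝ) - M n) ^ 2 ∧
    ((X : ℝ) * H (2 * X) ≤ K * ∑ n ∈ Ioc X (2 * X), (H n : ℝ) →
      (1 - η) * (d - θ - 5 * κ) * (∑ n ∈ Ioc X (2 * X), (H n : ℝ)) / Real.log X ≤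
        ∑ n ∈ Ioc X (2 * X), ((((Ioc n (n + H n)).filter Nat.Prime).card : ℝ) - M n) ^ 2) := by
  have hδ : 0 < η / 10 := by positivity
  have hc : 5 * κ ≤ d - θ - 5 * κ := by linarith [hP.low]
  have hκ := hP.κ0
  have hθ3 : θ < 1 / 3 := by linarith [hP.θ1]
  have hnat := tendsto_natCast_atTop_atTop (R := ℝ)
  filter_upwards [asmA hP hδ (by linarith), asmB K hP hδ (by linarith),
    fin_f (κ := κ) (η := η / 4) hP.θ0 hθ3 hκ (by positivity) (by linarith),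
    hnat.eventually (s1_pw hP),
    (Real.tendsto_log_atTop.comp hnat).eventually_ge_atTop (10 / (η * (5 * κ)) + 1),
    eventually_ge_atTop 1] with X hA hB hF hS hlog hX1
  intro H hH M hM
  obtain ⟨f, hf1, hf2, hf3⟩ := hF H hH.mono hH.up M hM
  have hFB : FB θ κ X f := ⟨hf1, hf2⟩
  replace hlog : 10 / (η * (5 * κ)) + 1 ≤ Real.log X := hlog
  have hq : 0 < 10 / (η * (5 * κ)) := by positivity
  have hL : 0 < Real.log (X : ℝ) := by linarith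
  have hs0 : 5 * κ * Real.log X ≤ S1 (Zw θ κ X) (Dw d X) :=
    (mul_le_mul_of_nonneg_right hc hL.le).trans hS
  have hs1 : 1 ≤ η / 10 * S1 (Zw θ κ X) (Dw d X) := by
    have h1 : 10 / (η * (5 * κ)) ≤ Real.log X := by linarith
    rw [div_le_iff₀ (by positivity)] at h1
    have h2 : η * (5 * κ * Real.log X) ≤ η * S1 (Zw θ κ X) (Dw d X) :=
      mul_le_mul_of_nonneg_left hs0 hη.le
    linarith
  have hs00 : 0 ≤ S1 (Zw θ κ X) (Dw d X) := le_trans (by positivity) hs0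
  have hXpos : (0 : ℝ) ≤ X := Nat.cast_nonneg _
  have hHX : (1 : ℝ) ≤ H X := by exact_mod_cast hH.one
  have hUV : X ≤ 2 * X := by omega
  constructor
  · exact fin4_core hη hη1 hL hS hs00 (le_mul_of_one_le_right hXpos hHX) (by positivity) hs1
      (hA H f hH hFB) hf3
  · intro hK
    have hHn : ∀ n ∈ Ioc X (2 * X), (1 : ℝ) ≤ H n := by
      intro n hn
      obtain ⟨h1, h2⟩ := mem_Ioc.1 hn
      have h3 : H X ≤ H n := hH.mono ⟨le_rfl, hUV⟩ ⟨h1.le, h2⟩ h1.le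
      exact_mod_cast hH.one.trans h3
    have hM0 : (X : ℝ) ≤ ∑ n ∈ Ioc X (2 * X), (H n : ℝ) := by
      calc (X : ℝ) = ∑ n ∈ Ioc X (2 * X), (1 : ℝ) := by
            rw [sum_const, Nat.card_Ioc, nsmul_eq_mul, mul_one]
            congr 1
            omega
        _ ≤ _ := sum_le_sum hHn
    exact fin4_core hη hη1 hL hS hs00 hM0 (hXpos.trans hM0) hs1 (hB H f hH hFB hK) hf3

end Pool.Agent.H67.VW
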