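import Pool.Agent.H67.VW.Defs
import Pool.Agent.H21.MT.Abel

/-!
[H67 VW FPC]  Functions of bounded variation do not see the test function.

Proof.  For fixed `h` and every `t ≥ a`: `∑_{n ∈ (a,t]} FF ρ D n h = ∑_d ρ(d) #{n ∈ (a,t] : d ∣ n+h} = ∑_d ρ(d) ((t-a)/d + θ_d)`,
`|θ_d| ≤ 1`, and `∑ ρ(d)/d = 0`, so it is at most `D K` in absolute value.  Abel summation (`H21.MT.abel_le`, see
`Pool/Agent/H67/VU/Fp3.lean`): `|∑_n f n FF| ≤ D K (|f b| + variation) ≤ D K (F + T)`.  Sum over `h` with `0 ≤ φ ≤ 1`.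
-/

namespace Pool.Agent.H67.VW

open Finset Pool.Agent.H67.VS

private theorem fpc_count (A t m h : ℕ) (hm : 0 < m) :
    |(∑ x ∈ Ioc A t, if (m : ℤ) ∣ (x : ℤ) + (h : ℤ) then (1 : ℝ) else 0) -
      ((Ioc A t).card : ℝ) / m| ≤ 1 := by
  have h1 := Pool.Agent.H21.MT.ap_count A t m ((m - 1) * h) hm
  have h2 : (∑ x ∈ Ioc A t, if (m : ℤ) ∣ (x : ℤ) + (h : ℤ) then (1 : ℝ) else 0) =
      (((Ioc A t).filter (fun j => j % m = ((m - 1) * h) % m)).card : ℝ) := by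
    rw [← sum_filter, sum_const, nsmul_eq_mul, mul_one]
    congr 2
    ext x
    rw [mem_filter, mem_filter]
    refine and_congr_right fun _ => ?_
    have h3 : (m : ℤ) ∣ (x : ℤ) + (h : ℤ) ↔ m ∣ x + h := by
      rw [← Nat.cast_add]
      exact Int.natCast_dvd_natCast
    rw [h3]
    have h4 : (m - 1) * h + h = m * h := by
      obtain ⟨m', rfl⟩ := Nat.exists_eq_succ_of_ne_zero hm.ne'
      simp
      ring
    constructor
    · intro h5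
      have h6 : x + h ≡ (m - 1) * h + h [MOD m] := by
        rw [h4]
        exact ((Nat.modEq_zero_iff_dvd.2 h5).trans
          (Nat.modEq_zero_iff_dvd.2 (Dvd.intro _ rfl)).symm)
      exact Nat.ModEq.add_right_cancel' h h6
    · intro h5
      have h6 : x + h ≡ (m - 1) * h + h [MOD m] := Nat.ModEq.add_right h h5
      rw [h4] at h6
      exact Nat.modEq_zero_iff_dvd.1 (h6.trans (Nat.modEq_zero_iff_dvd.2 (Dvd.intro _ rfl)))
  rw [h2]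
  exact h1

private theorem fpc_partial {a t D h : ℕ} {ρ : ℕ → ℝ} {K : ℝ}
    (hρ : ∀ d, |ρ d| ≤ K) (h0 : ∑ d ∈ Icc 1 D, ρ d / (d : ℝ) = 0) :
    |∑ x ∈ Ioc a t, FF ρ D x (h : ℤ)| ≤ D * K := by
  have h1 : ∑ x ∈ Ioc a t, FF ρ D x (h : ℤ) =
      ∑ d ∈ Icc 1 D, ρ d * ((∑ x ∈ Ioc a t, if (d : ℤ) ∣ (x : ℤ) + (h : ℤ) then (1 : ℝ) else 0) -
      ((Ioc a t).card : ℝ) / d) := by
    have h2 : ∑ x ∈ Ioc a t, FF ρ D x (h : ℤ) =
        ∑ d ∈ Icc 1 D, ρ d * (∑ x ∈ Ioc a t, if (d : ℤ) ∣ (x : ℤ) + (h : ℤ) then (1 : ℝ) else 0) := by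
      unfold FF
      rw [sum_comm]
      apply sum_congr rfl
      intro d _
      rw [mul_sum]
      apply sum_congr rfl
      intro x _
      split_ifs <;> simp
    have h3 : ∑ d ∈ Icc 1 D, ρ d * (((Ioc a t).card : ℝ) / d) = 0 := by
      have h4 : ∑ d ∈ Icc 1 D, ρ d * (((Ioc a t).card : ℝ) / d) =
          ((Ioc a t).card : ℝ) * ∑ d ∈ Icc 1 D, ρ d / (d : ℝ) := by
        rw [mul_sum]
        apply sum_congr rfl
        intro d _
        ring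
      rw [h4, h0, mul_zero]
    rw [h2, ← sub_zero (∑ d ∈ Icc 1 D, ρ d * _), ← h3, ← sum_sub_distrib]
    apply sum_congr rfl
    intro d _
    ring
  rw [h1]
  refine (abs_sum_le_sum_abs _ _).trans ?_
  calc ∑ d ∈ Icc 1 D, |ρ d * ((∑ x ∈ Ioc a t, if (d : ℤ) ∣ (x : ℤ) + (h : ℤ) then (1 : ℝ) else 0) -
      ((Ioc a t).card : ℝ) / d)| ≤ ∑ d ∈ Icc 1 D, K := by
        apply sum_le_sum
        intro d hd
        rw [abs_mul]
        have h5 := fpc_count a t d h (mem_Icc.1 hd).1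
        calc |ρ d| * _ ≤ |ρ d| * 1 := mul_le_mul_of_nonneg_left h5 (abs_nonneg _)
          _ ≤ K := by rw [mul_one]; exact hρ d
    _ = D * K := by
        rw [sum_const, Nat.card_Icc, nsmul_eq_mul, Nat.add_sub_cancel]

theorem f_piece {a b N D : ℕ} {ρ : ℕ → ℝ} {K F T : ℝ} {φ : ℤ → ℝ} (hK : 0 ≤ K)
    (hρ : ∀ d, |ρ d| ≤ K) (h0 : ∑ d ∈ Icc 1 D, ρ d / (d : ℝ) = 0)
    (hφ : ∀ h, 0 ≤ φ h ∧ φ h ≤ 1) (f : ℕ → ℝ) (hf : ∀ n, |f n| ≤ F)
    (hT : ∀ m n : ℕ, ∑ k ∈ Ico m n, |f (k + 1) - f k| ≤ T) :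
    |∑ n ∈ Ioc a b, f n * ∑ h ∈ Icc 1 N, φ ((h : ℕ) : ℤ) * FF ρ D n ((h : ℕ) : ℤ)| ≤
      N * (D * K) * (F + T) := by
  have hF0 : 0 ≤ F := (abs_nonneg _).trans (hf 0)
  have hT0 : 0 ≤ T := by
    have := hT 0 0
    simpa using this
  rcases le_total b a with hba | hab
  · rw [Ioc_eq_empty_of_le hba, sum_empty, abs_zero]
    positivity
  have e1 : ∑ n ∈ Ioc a b, f n * ∑ h ∈ Icc 1 N, φ ((h : ℕ) : ℤ) * FF ρ D n ((h : ℕ) : ℤ) =
      ∑ h ∈ Icc 1 N, φ ((h : ℕ) : ℤ) * ∑ n ∈ Ioc a b, f n * FF ρ D n ((h : ℕ) : ℤ) := by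
    have e2 : ∀ n ∈ Ioc a b, f n * ∑ h ∈ Icc 1 N, φ ((h : ℕ) : ℤ) * FF ρ D n ((h : ℕ) : ℤ) =
        ∑ h ∈ Icc 1 N, φ ((h : ℕ) : ℤ) * (f n * FF ρ D n ((h : ℕ) : ℤ)) := by
      intro n _
      rw [mul_sum]
      apply sum_congr rfl
      intro h _
      ring
    rw [sum_congr rfl e2, sum_comm]
    apply sum_congr rfl
    intro h _
    rw [mul_sum]
  rw [e1]
  refine (abs_sum_le_sum_abs _ _).trans ?_
  have h6 : ∀ h ∈ Icc 1 N, |φ ((h : ℕ) : ℤ) * ∑ n ∈ Ioc a b, f n * FF ρ D n ((h : ℕ) : ℤ)| ≤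
      (D * K) * (F + T) := by
    intro h _
    rw [abs_mul, abs_of_nonneg (hφ _).1]
    have h1 := Pool.Agent.H21.MT.abel_le (fun x => ((FF ρ D x (h : ℤ) : ℝ) : ℂ)) f
      (D * K) a b ?_ (by positivity) hab
    · have h2 : ∑ k ∈ Ioc a b, ((FF ρ D k (h : ℤ) : ℝ) : ℂ) * (f k : ℂ) =
          ((∑ x ∈ Ioc a b, f x * FF ρ D x (h : ℤ) : ℝ) : ℂ) := by
        push_cast
        exact sum_congr rfl fun x _ => mul_comm _ _
      rw [h2, Complex.norm_real, Real.norm_eq_abs] at h1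
      have h3 : |f b| + ∑ k ∈ Ioo a b, |f (k + 1) - f k| ≤ F + T := by
        apply add_le_add (hf b)
        rw [Pool.Agent.H21.MT.Ioo_eq_Ico]
        exact hT _ _
      calc φ ((h : ℕ) : ℤ) * |∑ n ∈ Ioc a b, f n * FF ρ D n ((h : ℕ) : ℤ)|
          ≤ 1 * |∑ n ∈ Ioc a b, f n * FF ρ D n ((h : ℕ) : ℤ)| :=
            mul_le_mul_of_nonneg_right (hφ _).2 (abs_nonneg _)
        _ ≤ (D * K) * (|f b| + ∑ k ∈ Ioo a b, |f (k + 1) - f k|) := by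
            rw [one_mul]
            exact h1
        _ ≤ (D * K) * (F + T) := mul_le_mul_of_nonneg_left h3 (by positivity)
    · intro k _
      have h4 : ∑ j ∈ Ioc a k, ((FF ρ D j (h : ℤ) : ℝ) : ℂ) =
          ((∑ j ∈ Ioc a k, FF ρ D j (h : ℤ) : ℝ) : ℂ) := by
        push_cast
        rfl
      rw [h4, Complex.norm_real, Real.norm_eq_abs]
      exact fpc_partial hρ h0
  refine (sum_le_sum h6).trans ?_
  rw [sum_const, Nat.card_Icc, nsmul_eq_mul, Nat.add_sub_cancel]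
  exact le_of_eq (by ring)

end Pool.Agent.H67.VW
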