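import Pool.Agent.H67.VW.Fin4

/-!
[H67 VW GRID]  Uniformity in the length: the final theorem.

Proof.  We may assume `η ≤ 1/10` (the hypothesis for `η` implies the one for `min η (1/10)`, the conclusion for `min η (1/10)` implies the one for `η`, since
`H (2X) ≤ X^(1/3)` makes `log(X/H(2X)^3) ≥ 0`; if `η > 1/3` there is no such `H` for `X ≥ 2`).  `κ = η²/10`, `η' = η/4`; for `j = 1, 2, ..` with `θ_j = j κ ≤ 1/3 - 10κ`
let `d_j = (1-θ_j)/2 - 5κ`: `PW θ_j κ d_j`.  Finitely many `j`, so for large `X` all `fin4 K` (with `η'`) hold.  Given `H`, let `x = log H(2X)/log X ∈ [0, 1/3-η]`, `j = ⌊x/κ⌋ + 1`: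
`x < θ_j ≤ x + κ ≤ 1/3 - 10κ` (`11 κ ≤ η`), `H(2X) = X^x ≤ X^θ_j`, so `HL θ_j X H`.  `d_j - θ_j - 5κ = (1-3θ_j)/2 - 10κ ≥ (1-3x)/2 - 12κ` and
`(1-η') ((1-3x)/2 - 12κ) ≥ (1/2-η)(1-3x)`, because `1-3x ≥ 3η` and `12κ ≤ (2/5) η (1-3x)`: `(1-η/4)(1/2 - 2η/5) ≥ 1/2 - η`.
`log(X/H(2X)^3)/log X = 1-3x`.
-/

namespace Pool.Agent.H67.VW

open Finset Filter Pool.Agent.H67.VU

/-- the numerical inequality -/
private theorem grid_num {η κ x θ : ℝ} (hη : 0 < η) (hη1 : η ≤ 1 / 10) (hκ : κ = η ^ 2 / 10)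
    (hx1 : x ≤ 1 / 3 - η) (hθ : θ ≤ x + κ) :
    (1 / 2 - η) * (1 - 3 * x) ≤ (1 - η / 4) * ((1 - θ) / 2 - 5 * κ - θ - 5 * κ) := by
  have h1 : 3 * η ≤ 1 - 3 * x := by linarith
  have h2 : (1 - 3 * x) / 2 - 12 * κ ≤ (1 - θ) / 2 - 5 * κ - θ - 5 * κ := by
    have : 0 ≤ κ := by rw [hκ]; positivity
    linarith
  have h3 : 12 * κ ≤ 2 / 5 * η * (1 - 3 * x) := by
    rw [hκ]
    nlinarith
  have h4 : 0 ≤ 1 - 3 * x := by linarith
  calc (1 / 2 - η) * (1 - 3 * x) ≤ ((1 - η / 4) * (1 / 2 - 2 / 5 * η)) * (1 - 3 * x) := by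
        apply mul_le_mul_of_nonneg_right _ h4
        nlinarith
    _ = (1 - η / 4) * ((1 - 3 * x) / 2 - 2 / 5 * η * (1 - 3 * x)) := by ring
    _ ≤ (1 - η / 4) * ((1 - 3 * x) / 2 - 12 * κ) := by
        apply mul_le_mul_of_nonneg_left _ (by linarith)
        linarith
    _ ≤ _ := mul_le_mul_of_nonneg_left h2 (by linarith)

private theorem grid_core (η K : ℝ) (hη : 0 < η) (hη1 : η ≤ 1 / 10) :
    ∀ᶠ X : ℕ in atTop, ∀ H : ℕ → ℕ,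
    MonotoneOn H (Set.Icc X (2 * X)) → 1 ≤ H X → (H (2 * X) : ℝ) ≤ (X : ℝ) ^ (1 / 3 - η) →
    ∀ M : ℕ → ℝ,
    (MonotoneOn M (Set.Icc X (2 * X)) ∨ AntitoneOn M (Set.Icc X (2 * X)) ∨
      ∑ n ∈ Ico X (2 * X), |M (n + 1) - M n| ≤ (X : ℝ) ^ (1 / 2 : ℝ)) →
    0 ≤ Real.log (X / (H (2 * X) : ℝ) ^ 3) ∧
    (1 / 2 - η) * ((X : ℝ) * H X) * Real.log (X / (H (2 * X) : ℝ) ^ 3) / Real.log X ^ 2 ≤
      ∑ n ∈ Ioc X (2 * X), ((((Ioc n (n + H n)).filter Nat.Prime).card : ℝ) - M n) ^ 2 ∧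
    ((X : ℝ) * H (2 * X) ≤ K * ∑ n ∈ Ioc X (2 * X), (H n : ℝ) →
      (1 / 2 - η) * (∑ n ∈ Ioc X (2 * X), (H n : ℝ)) * Real.log (X / (H (2 * X) : ℝ) ^ 3) /
        Real.log X ^ 2 ≤
        ∑ n ∈ Ioc X (2 * X), ((((Ioc n (n + H n)).filter Nat.Prime).card : ℝ) - M n) ^ 2) := by
  obtain ⟨κ, hκ⟩ : ∃ κ : ℝ, κ = η ^ 2 / 10 := ⟨_, rfl⟩
  have hκ0 : 0 < κ := by rw [hκ]; positivity
  have hκη : 11 * κ ≤ η := by rw [hκ]; nlinarith
  have hκ1 : κ ≤ 1 / 100 := by rw [hκ]; nlinarith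
  obtain ⟨J, hJ⟩ : ∃ J : ℕ, J = ⌈1 / κ⌉₊ + 2 := ⟨_, rfl⟩
  have hall : ∀ᶠ X : ℕ in atTop, ∀ j ∈ range J, PW (j * κ) κ ((1 - j * κ) / 2 - 5 * κ) →
      ∀ H : ℕ → ℕ, HL (j * κ) X H → ∀ M : ℕ → ℝ,
      (MonotoneOn M (Set.Icc X (2 * X)) ∨ AntitoneOn M (Set.Icc X (2 * X)) ∨
        ∑ n ∈ Ico X (2 * X), |M (n + 1) - M n| ≤ (X : ℝ) ^ (1 / 2 : ℝ)) →
      (1 - η / 4) * (((1 - j * κ) / 2 - 5 * κ) - j * κ - 5 * κ) * ((X : ℝ) * H X) / Real.log X ≤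
        ∑ n ∈ Ioc X (2 * X), ((((Ioc n (n + H n)).filter Nat.Prime).card : ℝ) - M n) ^ 2 ∧
      ((X : ℝ) * H (2 * X) ≤ K * ∑ n ∈ Ioc X (2 * X), (H n : ℝ) →
        (1 - η / 4) * (((1 - j * κ) / 2 - 5 * κ) - j * κ - 5 * κ) *
          (∑ n ∈ Ioc X (2 * X), (H n : ℝ)) / Real.log X ≤
          ∑ n ∈ Ioc X (2 * X), ((((Ioc n (n + H n)).filter Nat.Prime).card : ℝ) - M n) ^ 2) := by
    rw [Filter.eventually_all_finset]
    intro j _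
    by_cases hP : PW (j * κ) κ ((1 - j * κ) / 2 - 5 * κ)
    · filter_upwards [fin4 (η := η / 4) K hP (by linarith) (by linarith)] with X hX
      intro _
      exact hX
    · exact Filter.Eventually.of_forall fun X h => absurd h hP
  filter_upwards [hall, eventually_ge_atTop 2] with X hX hX2 H hH h1 hup M hM
  have hXr : (2 : ℝ) ≤ X := by exact_mod_cast hX2
  have hX0 : (0 : ℝ) < X := by linarith
  have hL : 0 < Real.log X := Real.log_pos (by linarith)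
  have hHX : H X ≤ H (2 * X) := hH ⟨le_rfl, by omega⟩ ⟨by omega, le_rfl⟩ (by omega)
  have hh1 : (1 : ℝ) ≤ H (2 * X) := by exact_mod_cast h1.trans hHX
  have hh0 : (0 : ℝ) < H (2 * X) := by linarith
  obtain ⟨x, hx⟩ : ∃ x : ℝ, x = Real.log (H (2 * X)) / Real.log X := ⟨_, rfl⟩
  have hlogh : Real.log (H (2 * X)) = x * Real.log X := by
    rw [hx]
    field_simp
  have hx0 : 0 ≤ x := by
    rw [hx]
    exact div_nonneg (Real.log_nonneg hh1) hL.le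
  have hx1 : x ≤ 1 / 3 - η := by
    rw [hx, div_le_iff₀ hL]
    have := Real.log_le_log hh0 hup
    rwa [Real.log_rpow hX0] at this
  obtain ⟨j, hj⟩ : ∃ j : ℕ, j = ⌊x / κ⌋₊ + 1 := ⟨_, rfl⟩
  have hxκ0 : 0 ≤ x / κ := div_nonneg hx0 hκ0.le
  have hj1 : x ≤ j * κ := by
    have h2 := (Nat.lt_floor_add_one (x / κ)).le
    rw [div_le_iff₀ hκ0] at h2
    rw [hj]
    push_cast
    exact h2
  have hj2 : j * κ ≤ x + κ := by
    have h2 := Nat.floor_le hxκ0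
    rw [le_div_iff₀ hκ0] at h2
    rw [hj]
    push_cast
    linarith
  have hjJ : j ∈ range J := by
    rw [mem_range, hJ, hj]
    have h2 : ⌊x / κ⌋₊ ≤ ⌈1 / κ⌉₊ := by
      refine (Nat.floor_le_floor ?_).trans (Nat.floor_le_ceil _)
      exact div_le_div_of_nonneg_right (by linarith) hκ0.le
    omega
  have hj3 : 0 < (j : ℝ) * κ := by
    have : (0 : ℝ) < j := by
      rw [hj]
      positivity
    positivity
  have hP : PW (j * κ) κ ((1 - j * κ) / 2 - 5 * κ) :=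
    ⟨hj3, hκ0, hκ1, by linarith, by linarith, le_rfl⟩
  have hHL : HL (j * κ) X H := by
    refine ⟨hH, h1, ?_⟩
    rw [← Real.log_le_log_iff hh0 (by positivity), Real.log_rpow hX0, hlogh]
    exact mul_le_mul_of_nonneg_right hj1 hL.le
  obtain ⟨hA, hB⟩ := hX j hjJ hP H hHL M hM
  have hlog : Real.log (X / (H (2 * X) : ℝ) ^ 3) = (1 - 3 * x) * Real.log X := by
    rw [Real.log_div hX0.ne' (by positivity), Real.log_pow, hlogh]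
    push_cast
    ring
  have hnum := grid_num hη hη1 hκ hx1 hj2
  have hkey : ∀ M0 : ℝ, 0 ≤ M0 →
      (1 / 2 - η) * M0 * Real.log (X / (H (2 * X) : ℝ) ^ 3) / Real.log X ^ 2 ≤
      (1 - η / 4) * (((1 - j * κ) / 2 - 5 * κ) - j * κ - 5 * κ) * M0 / Real.log X := by
    intro M0 hM0
    rw [hlog]
    have e : (1 / 2 - η) * M0 * ((1 - 3 * x) * Real.log X) / Real.log X ^ 2 =
        ((1 / 2 - η) * (1 - 3 * x)) * M0 / Real.log X := by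
      field_simp
    rw [e]
    apply div_le_div_of_nonneg_right _ hL.le
    exact mul_le_mul_of_nonneg_right hnum hM0
  refine ⟨?_, ?_, fun hK => ?_⟩
  · rw [hlog]
    exact mul_nonneg (by linarith) hL.le
  · exact (hkey _ (by positivity)).trans hA
  · exact (hkey _ (sum_nonneg fun n _ => Nat.cast_nonneg _)).trans (hB hK)

theorem final4 : ∀ η K : ℝ, 0 < η → ∃ X₀ : ℕ, ∀ X : ℕ, X₀ ≤ X → ∀ H : ℕ → ℕ,
    MonotoneOn H (Set.Icc X (2 * X)) → 1 ≤ H X → (H (2 * X) : ℝ) ≤ (X : ℝ) ^ (1 / 3 - η) →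
    ∀ M : ℕ → ℝ,
    (MonotoneOn M (Set.Icc X (2 * X)) ∨ AntitoneOn M (Set.Icc X (2 * X)) ∨
      ∑ n ∈ Ico X (2 * X), |M (n + 1) - M n| ≤ (X : ℝ) ^ (1 / 2 : ℝ)) →
    (1 / 2 - η) * ((X : ℝ) * H X) * Real.log (X / (H (2 * X) : ℝ) ^ 3) / Real.log X ^ 2 ≤
      ∑ n ∈ Ioc X (2 * X), ((((Ioc n (n + H n)).filter Nat.Prime).card : ℝ) - M n) ^ 2 ∧
    ((X : ℝ) * H (2 * X) ≤ K * ∑ n ∈ Ioc X (2 * X), (H n : ℝ) →
      (1 / 2 - η) * (∑ n ∈ Ioc X (2 * X), (H n : ℝ)) * Real.log (X / (H (2 * X) : ℝ) ^ 3) /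
        Real.log X ^ 2 ≤
        ∑ n ∈ Ioc X (2 * X), ((((Ioc n (n + H n)).filter Nat.Prime).card : ℝ) - M n) ^ 2) := by
  intro η K hη
  obtain ⟨η', hη'⟩ : ∃ η' : ℝ, η' = min η (1 / 10) := ⟨_, rfl⟩
  have h0 : 0 < η' := by rw [hη']; exact lt_min hη (by norm_num)
  have h1 : η' ≤ 1 / 10 := by rw [hη']; exact min_le_right _ _
  have h2 : η' ≤ η := by rw [hη']; exact min_le_left _ _
  obtain ⟨X₀, hX₀⟩ := eventually_atTop.1 ((grid_core η' K h0 h1).and (eventually_ge_atTop 1))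
  refine ⟨X₀, fun X hX H hH hH1 hup M hM => ?_⟩
  obtain ⟨hc, hX1⟩ := hX₀ X hX
  have hXr : (1 : ℝ) ≤ X := by exact_mod_cast hX1
  have hup' : (H (2 * X) : ℝ) ≤ (X : ℝ) ^ (1 / 3 - η') :=
    hup.trans (Real.rpow_le_rpow_of_exponent_le hXr (by linarith))
  obtain ⟨hl, hA, hB⟩ := hc H hH hH1 hup' M hM
  have hL : 0 ≤ Real.log X ^ 2 := by positivity
  have hkey : ∀ M0 : ℝ, 0 ≤ M0 →
      (1 / 2 - η) * M0 * Real.log (X / (H (2 * X) : ℝ) ^ 3) / Real.log X ^ 2 ≤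
      (1 / 2 - η') * M0 * Real.log (X / (H (2 * X) : ℝ) ^ 3) / Real.log X ^ 2 := by
    intro M0 hM0
    apply div_le_div_of_nonneg_right _ hL
    apply mul_le_mul_of_nonneg_right _ hl
    exact mul_le_mul_of_nonneg_right (by linarith) hM0
  exact ⟨(hkey _ (by positivity)).trans hA, fun hK =>
    (hkey _ (sum_nonneg fun n _ => Nat.cast_nonneg _)).trans (hB hK)⟩

end Pool.Agent.H67.VW
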