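import Pool.Agent.H67.VW.Defs

/-!
[H67 VW KERD]  Dilated kernels and trivial bounds.

Proofs.
* `ker_dil`: `|e k| ≤ Y` iff `|k| ≤ Y/e` (floor).  `sm` for the step `e'`: the sum over the smaller range `|k| ≤ Y/e + 1` is at most the
  sum over `|k| ≤ Y + 1` for the step `e e'` of `ψ`, `≤ a e e'/Y ≤ a e'/(Y/e)` (`(Y/e : ℕ) ≤ Y/e`).
* `kf_dil`: `ψ(e k) = 0` for `|k| > Y/e`.
* `kf_zero`: only `k = 0` contributes, and `χ(0) = 0` for a character of modulus `q ≥ 2`.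
* `kf_triv`: at most `2Y/e` values `k ≠ 0` with `|e k| ≤ Y`, each term at most `1`.
-/

namespace Pool.Agent.H67.VW

open Finset

theorem kerd_abs {Y e : ℕ} (he : 1 ≤ e) {k : ℤ} (hk : |(e : ℤ) * k| ≤ Y) :
    |k| ≤ ((Y / e : ℕ) : ℤ) := by
  rw [abs_mul, Nat.abs_cast] at hk
  rw [Int.abs_eq_natAbs] at hk ⊢
  have h1 : e * k.natAbs ≤ Y := by exact_mod_cast hk
  have h2 : k.natAbs ≤ Y / e := by
    rw [Nat.le_div_iff_mul_le (by omega)]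
    rw [mul_comm]
    exact h1
  exact_mod_cast h2

theorem ker_dil {Y e : ℕ} {a : ℝ} {ψ : ℤ → ℝ} (h : Ker Y a ψ) (he : 1 ≤ e) (heY : e ≤ Y) :
    Ker (Y / e) a (fun k => ψ ((e : ℤ) * k)) := by
  have hYe : 1 ≤ Y / e := Nat.div_pos heY (by omega)
  have hle : Y / e ≤ Y := Nat.div_le_self _ _
  refine ⟨hYe, h.a1, fun k => h.bd _, fun k hk => kerd_abs he (h.supp _ hk), fun e' he' => ?_⟩
  have h1 := h.sm (e * e') (Nat.mul_pos (by omega) (by omega))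
  have h2 : ∑ k ∈ Icc (-((Y / e : ℕ) : ℤ) - 1) ((Y / e : ℕ) + 1),
      |ψ ((e : ℤ) * ((e' : ℤ) * (k + 1))) - 2 * ψ ((e : ℤ) * ((e' : ℤ) * k)) +
        ψ ((e : ℤ) * ((e' : ℤ) * (k - 1)))| ≤ a * ((e * e' : ℕ) : ℝ) / Y := by
    refine le_trans ?_ h1
    have h3 : ∀ k : ℤ, |ψ ((e : ℤ) * ((e' : ℤ) * (k + 1))) - 2 * ψ ((e : ℤ) * ((e' : ℤ) * k)) +
        ψ ((e : ℤ) * ((e' : ℤ) * (k - 1)))| =
        |ψ (((e * e' : ℕ) : ℤ) * (k + 1)) - 2 * ψ (((e * e' : ℕ) : ℤ) * k) +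
          ψ (((e * e' : ℕ) : ℤ) * (k - 1))| := by
      intro k
      push_cast
      rw [mul_assoc, mul_assoc, mul_assoc]
    rw [sum_congr rfl fun k _ => h3 k]
    refine sum_le_sum_of_subset_of_nonneg ?_ fun k _ _ => abs_nonneg _
    intro k hk
    rw [mem_Icc] at hk ⊢
    have h4 : ((Y / e : ℕ) : ℤ) ≤ (Y : ℤ) := by exact_mod_cast hle
    constructor <;> linarith [hk.1, hk.2]
  refine le_trans h2 ?_
  have hY0 : (0 : ℝ) < (Y : ℝ) := by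
    have := h.Y1
    exact_mod_cast (by omega : 0 < Y)
  have hYe0 : (0 : ℝ) < ((Y / e : ℕ) : ℝ) := by exact_mod_cast hYe
  have ha : 0 ≤ a := le_trans (by norm_num) h.a1
  rw [div_le_div_iff₀ hY0 hYe0]
  have h5 : ((Y / e : ℕ) : ℝ) * e ≤ Y := by exact_mod_cast Nat.div_mul_le_self Y e
  push_cast
  have h6 : 0 ≤ a * (e' : ℝ) := mul_nonneg ha (Nat.cast_nonneg _)
  calc a * ((e : ℝ) * e') * ((Y / e : ℕ) : ℝ) = a * e' * (((Y / e : ℕ) : ℝ) * e) := by ring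
    _ ≤ a * e' * Y := mul_le_mul_of_nonneg_left h5 h6

theorem kf_dil {Y e q : ℕ} {a : ℝ} {ψ : ℤ → ℝ} (h : Ker Y a ψ) (he : 1 ≤ e)
    (χ : DirichletCharacter ℂ q) :
    KF Y (fun k => ψ ((e : ℤ) * k)) χ = KF (Y / e) (fun k => ψ ((e : ℤ) * k)) χ := by
  unfold KF
  symm
  have hle : Y / e ≤ Y := Nat.div_le_self _ _
  have h4 : ((Y / e : ℕ) : ℤ) ≤ (Y : ℤ) := by exact_mod_cast hle
  refine sum_subset ?_ ?_
  · intro k hk
    rw [mem_Icc] at hk ⊢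
    constructor <;> linarith [hk.1, hk.2]
  · intro k _ hk
    have h1 : ψ ((e : ℤ) * k) = 0 := by
      by_contra hne
      have h2 := abs_le.1 (kerd_abs he (h.supp _ hne))
      exact hk (mem_Icc.2 h2)
    simp only [h1, Complex.ofReal_zero, zero_mul]

theorem kerd_chi0 {q : ℕ} (hq : 2 ≤ q) (χ : DirichletCharacter ℂ q) :
    χ (((0 : ℤ)) : ZMod q) = 0 := by
  have : Fact (1 < q) := ⟨by omega⟩
  rw [Int.cast_zero]
  exact MulChar.map_nonunit χ not_isUnit_zero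

theorem kf_zero {Y e q : ℕ} {a : ℝ} {ψ : ℤ → ℝ} (h : Ker Y a ψ) (he : Y < e) (hq : 2 ≤ q)
    (χ : DirichletCharacter ℂ q) : KF Y (fun k => ψ ((e : ℤ) * k)) χ = 0 := by
  unfold KF
  refine sum_eq_zero fun k _ => ?_
  by_cases hk : k = 0
  · rw [hk, kerd_chi0 hq, mul_zero]
  · have h1 : ψ ((e : ℤ) * k) = 0 := by
      by_contra hne
      have h2 := h.supp _ hne
      have h3 := kerd_abs (by omega) h2
      rw [Nat.div_eq_of_lt he] at h3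
      have h4 : |k| = 0 := le_antisymm (by exact_mod_cast h3) (abs_nonneg k)
      exact hk (abs_eq_zero.1 h4)
    simp only [h1, Complex.ofReal_zero, zero_mul]

theorem kf_triv {Y e q : ℕ} {a : ℝ} {ψ : ℤ → ℝ} (h : Ker Y a ψ) (he : 1 ≤ e) (hq : 2 ≤ q)
    (χ : DirichletCharacter ℂ q) : ‖KF Y (fun k => ψ ((e : ℤ) * k)) χ‖ ≤ 2 * Y / e := by
  rw [kf_dil h he χ]
  have he0 : (0 : ℝ) < e := by exact_mod_cast he
  have h0 : (0 : ℤ) ∈ Icc (-((Y / e : ℕ) : ℤ)) ((Y / e : ℕ) : ℤ) :=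
    mem_Icc.2 ⟨by have := Int.natCast_nonneg (Y / e); linarith, Int.natCast_nonneg _⟩
  unfold KF
  rw [← add_sum_erase _ _ h0, kerd_chi0 hq, mul_zero, zero_add]
  refine le_trans (norm_sum_le _ _) ?_
  have h1 : ∀ k ∈ (Icc (-((Y / e : ℕ) : ℤ)) ((Y / e : ℕ) : ℤ)).erase 0,
      ‖((ψ ((e : ℤ) * k) : ℝ) : ℂ) * χ ((k : ℤ) : ZMod q)‖ ≤ 1 := by
    intro k _
    rw [norm_mul, Complex.norm_real, Real.norm_eq_abs]
    exact mul_le_one₀ (h.bd _) (norm_nonneg _) (DirichletCharacter.norm_le_one χ _)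
  refine le_trans (sum_le_card_nsmul _ _ _ h1) ?_
  rw [card_erase_of_mem h0, Int.card_Icc, nsmul_eq_mul, mul_one]
  have h2 : (((Y / e : ℕ) : ℤ) + 1 - (-((Y / e : ℕ) : ℤ))).toNat - 1 = 2 * (Y / e) := by
    omega
  rw [h2, le_div_iff₀ he0]
  have h5 : ((Y / e : ℕ) : ℝ) * e ≤ Y := by exact_mod_cast Nat.div_mul_le_self Y e
  push_cast
  have h6 : ((Y / e : ℕ) : ℝ) = (((Y / e : ℕ)) : ℝ) := rfl
  linarith

end Pool.Agent.H67.VW
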