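import Pool.Agent.H67.VW.Wf
import Pool.Agent.H67.VW.Arith

/-!
[H67 VW WB]  Sums of the weights `WW` against a kernel.

Proofs.
* `wb_one`: `ww_eq` with `r = 1`, `FS Z D 1 ⊆ Ioc Z D`; `|∑_k ψ(k) cs f k| ≤ ∑_{e ∣ f} e #{0 < |k| ≤ Y : e ∣ k} ≤ ∑_{e ∣ f} e (2Y/e) = 2 Y τ(f)`;
  `tau_phi`.
* `wb_char`: let `r = c.md`.  For `k` not coprime to `r` the character vanishes at `-k`; otherwise `ww_eq`.  So the sum is
  `μ(r) (r/φ(r)^2) ∑_f (μ(f)/φ(f)^2) ∑_{e ∣ f} μ(e) e ∑_{k ≠ 0, e ∣ k} ψ(k) c⁻¹(-k)`, and with `k = e k'` the inner sum is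
  `c⁻¹(-e) ∑_{k'} ψ(e k') c⁻¹(k')` (`k' = 0` may be added: the character vanishes at `0` as `r ≥ 2`; `|e k'| ≤ Y` may be replaced by
  `|k'| ≤ Y` by `supp`), norm `≤ ‖∑ ψ(e k') c⁻¹(k')‖ = ‖conj (KF Y (ψ(e .)) c)‖` (`VT.lsb_conj`).
-/

namespace Pool.Agent.H67.VW

open Finset Pool.Agent.H21.MT

/-- the nonzero multiples of `e` in `[-Y,Y]` -/
private lemma wb_count (Y e : ℕ) (he : 1 ≤ e) :
    (e : ℝ) * ((((Icc (-(Y : ℤ)) Y).erase 0).filter (fun k => (e : ℤ) ∣ k)).card : ℝ) ≤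
      2 * Y := by
  have h1 : ((Icc (-(Y : ℤ)) Y).erase 0).filter (fun k => (e : ℤ) ∣ k) ⊆
      ((Icc 1 (Y / e)).image (fun j : ℕ => (e : ℤ) * j)) ∪
      ((Icc 1 (Y / e)).image (fun j : ℕ => -((e : ℤ) * j))) := by
    intro k hk
    simp only [mem_filter, mem_erase, mem_Icc, mem_union, mem_image] at hk ⊢
    obtain ⟨⟨h0, h1, h2⟩, j, rfl⟩ := hk
    have hj0 : j ≠ 0 := fun h => h0 (by rw [h, mul_zero])
    have he' : (1 : ℤ) ≤ e := by exact_mod_cast he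
    rcases lt_or_gt_of_ne hj0 with h | h
    · right
      refine ⟨j.natAbs, ⟨by omega, ?_⟩, ?_⟩
      · rw [Nat.le_div_iff_mul_le (by omega)]
        have : ((j.natAbs * e : ℕ) : ℤ) ≤ Y := by
          push_cast
          rw [abs_of_neg h]
          linarith
        exact_mod_cast this
      · rw [Int.natCast_natAbs, abs_of_neg h]
        ring
    · left
      refine ⟨j.natAbs, ⟨by omega, ?_⟩, ?_⟩
      · rw [Nat.le_div_iff_mul_le (by omega)]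
        have : ((j.natAbs * e : ℕ) : ℤ) ≤ Y := by
          push_cast
          rw [abs_of_pos h]
          linarith
        exact_mod_cast this
      · rw [Int.natCast_natAbs, abs_of_pos h]
  have h2 := (card_le_card h1).trans (card_union_le _ _)
  have h3 : ((Icc 1 (Y / e)).image (fun j : ℕ => (e : ℤ) * j)).card ≤ Y / e := by
    refine card_image_le.trans ?_
    simp
  have h4 : ((Icc 1 (Y / e)).image (fun j : ℕ => -((e : ℤ) * j))).card ≤ Y / e := by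
    refine card_image_le.trans ?_
    simp
  have h5 : e * (((Icc (-(Y : ℤ)) Y).erase 0).filter (fun k => (e : ℤ) ∣ k)).card ≤
      2 * Y := by
    calc _ ≤ e * (Y / e + Y / e) := Nat.mul_le_mul_left _ (by omega)
      _ = 2 * (e * (Y / e)) := by ring
      _ ≤ 2 * Y := Nat.mul_le_mul_left _ (Nat.mul_div_le _ _)
  exact_mod_cast h5

theorem wb_one (Z D Y : ℕ) (hZ : 1 ≤ Z) (ψ : ℤ → ℝ) (hψ : ∀ k, |ψ k| ≤ 1) :
    |∑ k ∈ (Icc (-(Y : ℤ)) Y).erase 0, ψ k * WW (rh Z D) D 1 k| ≤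
      2 * Y * (2 + 2 * Real.log D) ^ 4 / Z := by
  have h1 : ∀ k ∈ (Icc (-(Y : ℤ)) Y).erase 0, ψ k * WW (rh Z D) D 1 k =
      ∑ f ∈ FS Z D 1, ((ArithmeticFunction.moebius f : ℤ) : ℝ) / (f.totient : ℝ) ^ 2 *
        (ψ k * cs f k) := by
    intro k _
    rw [ww_eq Z D 1 le_rfl k (by simp)]
    simp only [ArithmeticFunction.moebius_apply_one, Int.cast_one, Nat.cast_one, Nat.totient_one,
      one_pow, div_one, one_mul]
    rw [Finset.mul_sum]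
    refine Finset.sum_congr rfl fun f _ => ?_
    ring
  rw [Finset.sum_congr rfl h1, Finset.sum_comm]
  have hmu : ∀ e : ℕ, |((ArithmeticFunction.moebius e : ℤ) : ℝ)| ≤ 1 := by
    intro e
    have := ArithmeticFunction.abs_moebius_le_one (n := e)
    exact_mod_cast this
  have h2 : ∀ f ∈ FS Z D 1, |∑ k ∈ (Icc (-(Y : ℤ)) Y).erase 0,
      ((ArithmeticFunction.moebius f : ℤ) : ℝ) / (f.totient : ℝ) ^ 2 * (ψ k * cs f k)| ≤
      2 * Y * ((f.divisors.card : ℝ) / (f.totient : ℝ) ^ 2) := by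
    intro f _
    rw [← Finset.mul_sum, abs_mul]
    have h3 : |∑ k ∈ (Icc (-(Y : ℤ)) Y).erase 0, ψ k * cs f k| ≤ 2 * Y * f.divisors.card := by
      calc |∑ k ∈ (Icc (-(Y : ℤ)) Y).erase 0, ψ k * cs f k| ≤
          ∑ k ∈ (Icc (-(Y : ℤ)) Y).erase 0, |ψ k * cs f k| := Finset.abs_sum_le_sum_abs _ _
        _ ≤ ∑ k ∈ (Icc (-(Y : ℤ)) Y).erase 0, ∑ e ∈ f.divisors,
            if (e : ℤ) ∣ k then (e : ℝ) else 0 := by
          refine Finset.sum_le_sum fun k _ => ?_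
          rw [abs_mul]
          have h4 : |cs f k| ≤ ∑ e ∈ f.divisors, if (e : ℤ) ∣ k then (e : ℝ) else 0 := by
            unfold cs
            rw [← Finset.sum_filter]
            refine (Finset.abs_sum_le_sum_abs _ _).trans (Finset.sum_le_sum fun e _ => ?_)
            rw [abs_mul, abs_of_nonneg (show (0 : ℝ) ≤ (e : ℝ) from Nat.cast_nonneg e)]
            have := hmu e
            have h0 : (0 : ℝ) ≤ e := Nat.cast_nonneg e
            nlinarith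
          calc |ψ k| * |cs f k| ≤ 1 * |cs f k| :=
                mul_le_mul_of_nonneg_right (hψ k) (abs_nonneg _)
            _ ≤ _ := by rw [one_mul]; exact h4
        _ = ∑ e ∈ f.divisors, (e : ℝ) *
            ((((Icc (-(Y : ℤ)) Y).erase 0).filter (fun k => (e : ℤ) ∣ k)).card : ℝ) := by
          rw [Finset.sum_comm]
          refine Finset.sum_congr rfl fun e _ => ?_
          rw [← Finset.sum_filter, Finset.sum_const, nsmul_eq_mul, mul_comm]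
        _ ≤ ∑ e ∈ f.divisors, 2 * (Y : ℝ) := by
          refine Finset.sum_le_sum fun e he => wb_count Y e ?_
          exact Nat.pos_of_mem_divisors he
        _ = 2 * Y * f.divisors.card := by
          rw [Finset.sum_const, nsmul_eq_mul, mul_comm]
    have h5 : |((ArithmeticFunction.moebius f : ℤ) : ℝ) / (f.totient : ℝ) ^ 2| ≤
        1 / (f.totient : ℝ) ^ 2 := by
      rw [abs_div, abs_of_nonneg (by positivity : (0 : ℝ) ≤ (f.totient : ℝ) ^ 2)]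
      exact div_le_div_of_nonneg_right (hmu f) (by positivity)
    calc _ ≤ 1 / (f.totient : ℝ) ^ 2 * (2 * Y * f.divisors.card) :=
          mul_le_mul h5 h3 (abs_nonneg _) (by positivity)
      _ = _ := by ring
  calc |∑ f ∈ FS Z D 1, ∑ k ∈ (Icc (-(Y : ℤ)) Y).erase 0,
      ((ArithmeticFunction.moebius f : ℤ) : ℝ) / (f.totient : ℝ) ^ 2 * (ψ k * cs f k)| ≤
      ∑ f ∈ FS Z D 1, 2 * Y * ((f.divisors.card : ℝ) / (f.totient : ℝ) ^ 2) :=
        (Finset.abs_sum_le_sum_abs _ _).trans (Finset.sum_le_sum h2)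
    _ ≤ ∑ f ∈ Ioc Z D, 2 * Y * ((f.divisors.card : ℝ) / (f.totient : ℝ) ^ 2) := by
      refine Finset.sum_le_sum_of_subset_of_nonneg ?_ (fun _ _ _ => by positivity)
      intro f hf
      unfold FS at hf
      simp only [mem_filter, one_mul, mem_Icc] at hf
      rw [mem_Ioc]
      exact ⟨hf.2.2.2.1, hf.2.2.2.2⟩
    _ = 2 * Y * ∑ f ∈ Ioc Z D, ((f.divisors.card : ℝ) / (f.totient : ℝ) ^ 2) := by
      rw [Finset.mul_sum]
    _ ≤ 2 * Y * ((2 + 2 * Real.log D) ^ 4 / Z) :=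
      mul_le_mul_of_nonneg_left (tau_phi Z D hZ) (by positivity)
    _ = _ := by ring

open ComplexConjugate in
/-- multiples of `e` -/
private lemma wb_mult {q : ℕ} [NeZero q] (hq : 2 ≤ q) (Y e : ℕ) (he : 1 ≤ e) (ψ : ℤ → ℝ)
    (hψ : ∀ k, ψ k ≠ 0 → |k| ≤ (Y : ℤ)) (χ : DirichletCharacter ℂ q) :
    ‖∑ k ∈ ((Icc (-(Y : ℤ)) Y).erase 0).filter (fun k => (e : ℤ) ∣ k),
        ((ψ k : ℝ) : ℂ) * χ⁻¹ (((-k : ℤ) : ℤ) : ZMod q)‖ ≤ ‖KF Y (fun k => ψ (e * k)) χ‖ := by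
  have he' : (1 : ℤ) ≤ e := by exact_mod_cast he
  have h0 : ∀ χ' : DirichletCharacter ℂ q, χ' ((0 : ℤ) : ZMod q) = 0 := by
    intro χ'
    apply MulChar.map_nonunit
    rw [Int.cast_zero]
    have : Fact (1 < q) := ⟨by omega⟩
    exact not_isUnit_zero
  have h1 : ∑ k ∈ ((Icc (-(Y : ℤ)) Y).erase 0).filter (fun k => (e : ℤ) ∣ k),
        ((ψ k : ℝ) : ℂ) * χ⁻¹ (((-k : ℤ) : ℤ) : ZMod q) =
      ∑ k ∈ (Icc (-(Y : ℤ)) Y).filter (fun k => (e : ℤ) ∣ k),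
        ((ψ k : ℝ) : ℂ) * χ⁻¹ (((-k : ℤ) : ℤ) : ZMod q) := by
    refine Finset.sum_subset (filter_subset_filter _ (erase_subset _ _)) ?_
    intro k hk hk'
    have : k = 0 := by
      by_contra hne
      apply hk'
      rw [mem_filter] at hk ⊢
      exact ⟨mem_erase.2 ⟨hne, hk.1⟩, hk.2⟩
    rw [this, neg_zero, h0, mul_zero]
  have h2 : ∑ k ∈ (Icc (-(Y : ℤ)) Y).filter (fun k => (e : ℤ) ∣ k),
        ((ψ k : ℝ) : ℂ) * χ⁻¹ (((-k : ℤ) : ℤ) : ZMod q) =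
      ∑ k ∈ (Icc (-(Y : ℤ)) Y).filter (fun k => |(e : ℤ) * k| ≤ Y),
        ((ψ (e * k) : ℝ) : ℂ) * χ⁻¹ (((-(e * k) : ℤ) : ℤ) : ZMod q) := by
    symm
    refine Finset.sum_nbij' (fun k => (e : ℤ) * k) (fun k => k / (e : ℤ)) ?_ ?_ ?_ ?_ ?_
    · intro k hk
      rw [mem_filter, mem_Icc] at hk ⊢
      have := abs_le.1 hk.2
      exact ⟨⟨this.1, this.2⟩, Dvd.intro _ rfl⟩
    · intro k hk
      rw [mem_filter, mem_Icc] at hk ⊢
      obtain ⟨⟨h3, h4⟩, j, rfl⟩ := hk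
      rw [Int.mul_ediv_cancel_left _ (by omega)]
      refine ⟨?_, abs_le.2 ⟨h3, h4⟩⟩
      have h5 : |j| ≤ Y := by
        have h6 : |(e : ℤ) * j| ≤ Y := abs_le.2 ⟨h3, h4⟩
        rw [abs_mul, abs_of_nonneg (by omega : (0 : ℤ) ≤ e)] at h6
        have := abs_nonneg j
        nlinarith
      exact abs_le.1 h5
    · intro k _
      exact Int.mul_ediv_cancel_left _ (by omega)
    · intro k hk
      rw [mem_filter] at hk
      exact Int.mul_ediv_cancel' hk.2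
    · intro k _
      rfl
  have h3 : ∑ k ∈ (Icc (-(Y : ℤ)) Y).filter (fun k => |(e : ℤ) * k| ≤ Y),
        ((ψ (e * k) : ℝ) : ℂ) * χ⁻¹ (((-(e * k) : ℤ) : ℤ) : ZMod q) =
      ∑ k ∈ Icc (-(Y : ℤ)) Y,
        ((ψ (e * k) : ℝ) : ℂ) * χ⁻¹ (((-(e * k) : ℤ) : ℤ) : ZMod q) := by
    refine Finset.sum_subset (filter_subset _ _) ?_
    intro k hk hk'
    have : ψ (e * k) = 0 := by
      by_contra hne
      exact hk' (mem_filter.2 ⟨hk, hψ _ hne⟩)
    rw [this]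
    simp
  have h4 : ∑ k ∈ Icc (-(Y : ℤ)) Y,
        ((ψ (e * k) : ℝ) : ℂ) * χ⁻¹ (((-(e * k) : ℤ) : ℤ) : ZMod q) =
      χ⁻¹ (((-(e : ℤ) : ℤ) : ℤ) : ZMod q) * conj (KF Y (fun k => ψ (e * k)) χ) := by
    unfold KF
    rw [map_sum, Finset.mul_sum]
    refine Finset.sum_congr rfl fun k _ => ?_
    have h6 : conj (χ ((k : ℤ) : ZMod q)) = χ⁻¹ ((k : ℤ) : ZMod q) := MulChar.star_apply' χ _
    rw [map_mul, Complex.conj_ofReal, h6]
    have h5 : (((-(e * k) : ℤ) : ℤ) : ZMod q) =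
        (((-(e : ℤ) : ℤ) : ℤ) : ZMod q) * ((k : ℤ) : ZMod q) := by
      push_cast
      ring
    rw [h5, map_mul]
    ring
  rw [h1, h2, h3, h4, norm_mul, RCLike.norm_conj]
  calc _ ≤ 1 * ‖KF Y (fun k => ψ (e * k)) χ‖ :=
        mul_le_mul_of_nonneg_right (DirichletCharacter.norm_le_one _ _) (norm_nonneg _)
    _ = _ := one_mul _

theorem wb_char {R : ℕ} (Z D Y : ℕ) (ψ : ℤ → ℝ) (hψ : ∀ k, ψ k ≠ 0 → |k| ≤ (Y : ℤ))
    (c : Ch R) (hc : c ∈ PC R) :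
    ‖∑ k ∈ (Icc (-(Y : ℤ)) Y).erase 0, ((ψ k * WW (rh Z D) D c.md k : ℝ) : ℂ) *
        c.2⁻¹ (((-k : ℤ) : ℤ) : ZMod (c.1.val + 1))‖ ≤ WE Z D Y ψ c.md c.2 := by
  classical
  have hc2 : 2 ≤ c.1.val + 1 := by
    rw [PC, mem_filter] at hc
    exact hc.2.2
  have hmu : ∀ e : ℕ, ‖(((ArithmeticFunction.moebius e : ℤ) : ℝ) : ℂ)‖ ≤ 1 := by
    intro e
    rw [Complex.norm_real, Real.norm_eq_abs]
    have := ArithmeticFunction.abs_moebius_le_one (n := e)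
    exact_mod_cast this
  have h1 : ∀ k ∈ (Icc (-(Y : ℤ)) Y).erase 0, ((ψ k * WW (rh Z D) D c.md k : ℝ) : ℂ) *
        c.2⁻¹ (((-k : ℤ) : ℤ) : ZMod (c.1.val + 1)) =
      (((ArithmeticFunction.moebius c.md : ℤ) : ℝ) : ℂ) *
        ((((c.md : ℝ) / (c.md.totient : ℝ) ^ 2 : ℝ)) : ℂ) *
        ∑ f ∈ FS Z D c.md, ((((ArithmeticFunction.moebius f : ℤ) : ℝ) : ℂ) *
          (((1 / (f.totient : ℝ) ^ 2 : ℝ)) : ℂ)) *
          ∑ e ∈ f.divisors, if (e : ℤ) ∣ k then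
            ((((ArithmeticFunction.moebius e : ℤ) : ℝ) : ℂ) * (e : ℂ)) *
            (((ψ k : ℝ) : ℂ) * c.2⁻¹ (((-k : ℤ) : ℤ) : ZMod (c.1.val + 1))) else 0 := by
    intro k _
    by_cases hu : IsUnit (((-k : ℤ) : ℤ) : ZMod (c.1.val + 1))
    · have hg : Int.gcd ((c.md : ℕ) : ℤ) k = 1 := by
        rw [ZMod.coe_int_isUnit_iff_isCoprime] at hu
        have h2 := Int.isCoprime_iff_gcd_eq_one.1 hu
        rw [Int.gcd_neg] at h2
        exact h2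
      have h3 : ∀ f ∈ FS Z D c.md, ∑ e ∈ f.divisors, (if (e : ℤ) ∣ k then
            ((((ArithmeticFunction.moebius e : ℤ) : ℝ) : ℂ) * (e : ℂ)) *
            (((ψ k : ℝ) : ℂ) * c.2⁻¹ (((-k : ℤ) : ℤ) : ZMod (c.1.val + 1))) else 0) =
          ((cs f k : ℝ) : ℂ) *
            (((ψ k : ℝ) : ℂ) * c.2⁻¹ (((-k : ℤ) : ℤ) : ZMod (c.1.val + 1))) := by
        intro f _
        rw [← Finset.sum_filter, ← Finset.sum_mul]
        congr 1
        unfold cs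
        rw [Complex.ofReal_sum]
        refine Finset.sum_congr rfl fun e _ => ?_
        push_cast
        ring
      have h3' : ∑ f ∈ FS Z D c.md, ((((ArithmeticFunction.moebius f : ℤ) : ℝ) : ℂ) *
          (((1 / (f.totient : ℝ) ^ 2 : ℝ)) : ℂ)) *
          (∑ e ∈ f.divisors, if (e : ℤ) ∣ k then
            ((((ArithmeticFunction.moebius e : ℤ) : ℝ) : ℂ) * (e : ℂ)) *
            (((ψ k : ℝ) : ℂ) * c.2⁻¹ (((-k : ℤ) : ℤ) : ZMod (c.1.val + 1))) else 0) =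
          ∑ f ∈ FS Z D c.md, ((((ArithmeticFunction.moebius f : ℤ) : ℝ) : ℂ) *
          (((1 / (f.totient : ℝ) ^ 2 : ℝ)) : ℂ)) * (((cs f k : ℝ) : ℂ) *
            (((ψ k : ℝ) : ℂ) * c.2⁻¹ (((-k : ℤ) : ℤ) : ZMod (c.1.val + 1)))) :=
        Finset.sum_congr rfl (fun f hf => by rw [h3 f hf])
      rw [h3', ww_eq Z D c.md (by unfold Ch.md; omega) k hg]
      rw [Complex.ofReal_mul, Complex.ofReal_mul, Complex.ofReal_mul, Complex.ofReal_sum]
      simp only [Finset.mul_sum, Finset.sum_mul]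
      refine Finset.sum_congr rfl fun f _ => ?_
      push_cast
      ring
    · rw [MulChar.map_nonunit _ hu]
      simp
  rw [Finset.sum_congr rfl h1, ← Finset.mul_sum, Finset.sum_comm]
  unfold WE
  rw [norm_mul, norm_mul, Complex.norm_real ((c.md : ℝ) / (c.md.totient : ℝ) ^ 2),
    Real.norm_eq_abs, abs_of_nonneg (by positivity :
      (0 : ℝ) ≤ (c.md : ℝ) / (c.md.totient : ℝ) ^ 2)]
  have h4 : ‖∑ f ∈ FS Z D c.md, ∑ k ∈ (Icc (-(Y : ℤ)) Y).erase 0,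
        ((((ArithmeticFunction.moebius f : ℤ) : ℝ) : ℂ) *
          (((1 / (f.totient : ℝ) ^ 2 : ℝ)) : ℂ)) *
          ∑ e ∈ f.divisors, (if (e : ℤ) ∣ k then
            ((((ArithmeticFunction.moebius e : ℤ) : ℝ) : ℂ) * (e : ℂ)) *
            (((ψ k : ℝ) : ℂ) * c.2⁻¹ (((-k : ℤ) : ℤ) : ZMod (c.1.val + 1))) else 0)‖ ≤
      ∑ f ∈ FS Z D c.md, 1 / (f.totient : ℝ) ^ 2 *
        ∑ e ∈ f.divisors, (e : ℝ) * ‖KF Y (fun k => ψ (e * k)) c.2‖ := by
    refine (norm_sum_le _ _).trans (Finset.sum_le_sum fun f _ => ?_)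
    rw [← Finset.mul_sum, norm_mul, norm_mul,
      Complex.norm_real (1 / (f.totient : ℝ) ^ 2), Real.norm_eq_abs,
      abs_of_nonneg (by positivity : (0 : ℝ) ≤ 1 / (f.totient : ℝ) ^ 2), Finset.sum_comm]
    have h5 : ‖∑ e ∈ f.divisors, ∑ k ∈ (Icc (-(Y : ℤ)) Y).erase 0, (if (e : ℤ) ∣ k then
            ((((ArithmeticFunction.moebius e : ℤ) : ℝ) : ℂ) * (e : ℂ)) *
            (((ψ k : ℝ) : ℂ) * c.2⁻¹ (((-k : ℤ) : ℤ) : ZMod (c.1.val + 1))) else 0)‖ ≤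
        ∑ e ∈ f.divisors, (e : ℝ) * ‖KF Y (fun k => ψ (e * k)) c.2‖ := by
      refine (norm_sum_le _ _).trans (Finset.sum_le_sum fun e he => ?_)
      rw [← Finset.sum_filter, ← Finset.mul_sum, norm_mul, norm_mul, Complex.norm_natCast]
      have h6 := wb_mult hc2 Y e (Nat.pos_of_mem_divisors he) ψ hψ c.2
      have h7 := hmu e
      have h8 : (0 : ℝ) ≤ e := Nat.cast_nonneg e
      calc _ ≤ (1 * (e : ℝ)) * ‖KF Y (fun k => ψ (e * k)) c.2‖ :=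
            mul_le_mul (mul_le_mul_of_nonneg_right h7 h8) h6 (norm_nonneg _) (by positivity)
        _ = _ := by ring
    have h9 := hmu f
    calc _ ≤ (1 * (1 / (f.totient : ℝ) ^ 2)) *
          ∑ e ∈ f.divisors, (e : ℝ) * ‖KF Y (fun k => ψ (e * k)) c.2‖ :=
          mul_le_mul (mul_le_mul_of_nonneg_right h9 (by positivity)) h5 (norm_nonneg _)
            (by positivity)
      _ = _ := by rw [one_mul]
  have h10 := hmu c.md
  calc _ ≤ (1 * ((c.md : ℝ) / (c.md.totient : ℝ) ^ 2)) *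
        ∑ f ∈ FS Z D c.md, 1 / (f.totient : ℝ) ^ 2 *
        ∑ e ∈ f.divisors, (e : ℝ) * ‖KF Y (fun k => ψ (e * k)) c.2‖ :=
        mul_le_mul (mul_le_mul_of_nonneg_right h10 (by positivity)) h4 (norm_nonneg _)
          (by positivity)
    _ = _ := by rw [one_mul]

end Pool.Agent.H67.VW
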