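import Pool.Agent.H67.VW.Off4
import Pool.Agent.H67.VW.Wb
import Pool.Agent.H67.VW.Dy4

/-!
[H67 VW KEY4]  The off-diagonal part of the covariance is negligible.

Proof.  `off4` with `A = t`, `B = T`, `w = onef`, `ρ = rh Z D`, `S = (Icc (-Y) Y).erase 0` (`D ≤ X ≤ t`).  First term: `theta t T onef ≤ T log T ≤ 3X log(3X)` and
`wb_one`: `≤ 3X log(3X) 4X^θ l^4 2X^(-θ-4κ) ≤ X^(1-3κ)`.  Second term: `wb_char` for every `c`, then `dyad4`: `≤ a X^(1-3κ/2)`.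
`a ≥ 4`, and `X^(1-3κ) + a X^(1-3κ/2) ≤ a X^(1-κ)` for large `X`.
-/

namespace Pool.Agent.H67.VW

open Finset Filter Pool.Agent.H21.MT Pool.Agent.H67.VS Pool.Agent.H67.VU

private theorem key4_ev (κ C : ℝ) (hκ : 0 < κ) : ∀ᶠ X : ℝ in atTop,
    C * (3 + 2 * Real.log X) ^ 5 ≤ X ^ κ ∧ 2 ≤ X ^ (κ / 2) := by
  have h1 := (isLittleO_log_rpow_atTop (show (0 : ℝ) < κ / 6 by positivity)).bound
    (show (0 : ℝ) < 1 by norm_num)
  have h2 := (tendsto_rpow_atTop (show (0 : ℝ) < κ / 6 by positivity)).eventually_ge_atTop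
    (|C| * 5 ^ 5)
  have h4 := (tendsto_rpow_atTop (show (0 : ℝ) < κ / 2 by positivity)).eventually_ge_atTop 2
  filter_upwards [h1, h2, h4, eventually_ge_atTop (Real.exp 1)] with X hX1 hX2 hX4 hX3
  refine ⟨?_, hX4⟩
  have hX0 : 0 < X := lt_of_lt_of_le (Real.exp_pos 1) hX3
  have hL : 1 ≤ Real.log X := by
    rw [Real.le_log_iff_exp_le hX0]
    exact hX3
  have h3 : Real.log X ≤ X ^ (κ / 6) := by
    rw [one_mul, Real.norm_of_nonneg (by linarith),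
      Real.norm_of_nonneg (Real.rpow_nonneg hX0.le _)] at hX1
    exact hX1
  have e : X ^ κ = X ^ (κ / 6) * (X ^ (κ / 6)) ^ 5 := by
    rw [← Real.rpow_natCast (X ^ (κ / 6)) 5, ← Real.rpow_mul hX0.le, ← Real.rpow_add hX0]
    congr 1
    push_cast
    ring
  rw [e]
  generalize X ^ (κ / 6) = b at *
  generalize Real.log X = L at *
  have hb0 : 0 ≤ b := by linarith
  calc C * (3 + 2 * L) ^ 5 ≤ |C| * (5 * L) ^ 5 := by
        have : C ≤ |C| := le_abs_self C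
        have h5 : 3 + 2 * L ≤ 5 * L := by linarith
        gcongr
    _ = (|C| * 5 ^ 5) * L ^ 5 := by ring
    _ ≤ b * b ^ 5 := by gcongr

/-- the trivial bound of the main term -/
private theorem key4_theta (t T : ℕ) : |theta t T onef| ≤ T * Real.log T := by
  have hlT : 0 ≤ Real.log T := Real.log_natCast_nonneg T
  have h0 : ∀ n, 0 ≤ pl n := by
    intro n
    unfold pl
    split_ifs
    · exact Real.log_natCast_nonneg n
    · exact le_rfl
  have h1 : 0 ≤ theta t T onef := by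
    unfold theta onef
    exact sum_nonneg fun n _ => mul_nonneg zero_le_one (h0 n)
  rw [abs_of_nonneg h1]
  unfold theta onef
  calc ∑ n ∈ Ioc t T, 1 * pl n ≤ ∑ _n ∈ Ioc t T, Real.log T := by
        refine sum_le_sum fun n hn => ?_
        rw [mem_Ioc] at hn
        rw [one_mul]
        unfold pl
        split_ifs
        · exact Real.log_le_log (by exact_mod_cast (by omega : 0 < n)) (by exact_mod_cast hn.2)
        · exact hlT
    _ = ((T - t : ℕ) : ℝ) * Real.log T := by rw [sum_const, Nat.card_Ioc, nsmul_eq_mul]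
    _ ≤ T * Real.log T := by
        apply mul_le_mul_of_nonneg_right _ hlT
        exact_mod_cast Nat.sub_le T t

theorem key4 {θ κ d : ℝ} (hP : PW θ κ d) : ∀ᶠ X : ℕ in atTop,
    ∀ (t T Y : ℕ) (a : ℝ) (ψ : ℤ → ℝ), X ≤ t → t ≤ T → T ≤ 3 * X → Ker Y a ψ →
    (Y : ℝ) ≤ 2 * (X : ℝ) ^ θ →
    |∑ k ∈ (Icc (-(Y : ℤ)) Y).erase 0, ψ k *
      ∑ n ∈ Ioc t T, pl n * FF (rh (Zw θ κ X) (Dw d X)) (Dw d X) n k| ≤
      a * (X : ℝ) ^ (1 - κ) := by
  have hθ0 := hP.θ0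
  have hκ0 := hP.κ0
  have hκ1 := hP.κ1
  have hθ1 := hP.θ1
  have hdu := hP.up
  have hdl := hP.low
  have hd1 : d ≤ 1 / 2 := by linarith
  have ev : ∀ᶠ X : ℝ in atTop, _ :=
    ((num_u hP).and (key4_ev κ 24 hκ0)).and (eventually_ge_atTop (1 : ℝ))
  filter_upwards [tendsto_natCast_atTop_atTop.eventually ev, dyad4 hP] with Xn hXn hdy
  obtain ⟨⟨hnu, hlog, h2κ⟩, hX1⟩ := hXn
  intro t T Y a ψ hXt htT hT3 hk hYX
  have hdy' := hdy t T Y a ψ hXt htT hT3 hk hYX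
  obtain ⟨X, hXdef⟩ : ∃ X : ℝ, X = (Xn : ℝ) := ⟨_, rfl⟩
  rw [← hXdef] at hnu hlog h2κ hX1 hYX hdy'
  rw [← hXdef]
  obtain ⟨hu1, hu3, hR01, hZ1, hD1⟩ := hnu
  have hX0 : 0 < X := by linarith
  have hL0 : 0 ≤ Real.log X := Real.log_nonneg hX1
  have hTX : (T : ℝ) ≤ 3 * X := by
    rw [hXdef]
    exact_mod_cast hT3
  have hXtr : X ≤ (t : ℝ) := by
    rw [hXdef]
    exact_mod_cast hXt
  have htTr : (t : ℝ) ≤ T := by exact_mod_cast htT
  obtain ⟨D, hD⟩ : ∃ D : ℕ, D = Dw d X := ⟨_, rfl⟩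
  obtain ⟨Z, hZ⟩ : ∃ Z : ℕ, Z = Zw θ κ X := ⟨_, rfl⟩
  rw [← hD, ← hZ] at hdy'
  rw [← hD, ← hZ]
  rw [← hZ] at hZ1
  rw [← hD] at hD1
  have hDX : (D : ℝ) ≤ X := by
    have h1 : (D : ℝ) ≤ X ^ d := by rw [hD]; exact Nat.floor_le (Real.rpow_nonneg hX0.le _)
    refine h1.trans ?_
    calc X ^ d ≤ X ^ (1 : ℝ) := Real.rpow_le_rpow_of_exponent_le hX1 (by linarith)
      _ = X := Real.rpow_one X
  have hDt : D ≤ t := by
    have h1 : (D : ℝ) ≤ (t : ℝ) := by linarith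
    exact_mod_cast h1
  have hlD0 : 0 ≤ Real.log D := Real.log_natCast_nonneg D
  have hlD : Real.log D ≤ Real.log X := Real.log_le_log (by exact_mod_cast hD1) hDX
  have hT0 : (0 : ℝ) < T := by linarith
  have hlT : Real.log T ≤ 2 + Real.log X := by
    have h1 : Real.log T ≤ Real.log (3 * X) := Real.log_le_log hT0 hTX
    rw [Real.log_mul (by norm_num) hX0.ne'] at h1
    have hlog3 : Real.log 3 ≤ 3 - 1 := Real.log_le_sub_one_of_pos (by norm_num)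
    linarith
  have hlT0 : 0 ≤ Real.log T := Real.log_natCast_nonneg T
  have ha4 := hk.a1
  have hoff := off4 (A := t) (B := T) (w := onef) (ρ := rh Z D) hDt
    ((Icc (-(Y : ℤ)) Y).erase 0) ψ
  have e0 : ∑ k ∈ (Icc (-(Y : ℤ)) Y).erase 0, ψ k * ∑ n ∈ Ioc t T, onef n * pl n *
      FF (rh Z D) D n k = ∑ k ∈ (Icc (-(Y : ℤ)) Y).erase 0, ψ k *
      ∑ n ∈ Ioc t T, pl n * FF (rh Z D) D n k := by
    refine sum_congr rfl fun k _ => ?_
    congr 1
    refine sum_congr rfl fun n _ => ?_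
    unfold onef
    ring
  rw [e0] at hoff
  refine hoff.trans ?_
  have h1 : |theta t T onef| * |∑ k ∈ (Icc (-(Y : ℤ)) Y).erase 0, ψ k * WW (rh Z D) D 1 k| ≤
      X ^ (1 - κ - κ / 2) := by
    have hw := wb_one Z D Y hZ1 ψ hk.bd
    have ht := key4_theta t T
    have hZr : X ^ (θ + 4 * κ) / 2 ≤ (Z : ℝ) := by
      have h3 : X ^ (θ + 4 * κ) < (Z : ℝ) + 1 := by
        rw [hZ]; exact Nat.lt_floor_add_one _
      have h4 : (1 : ℝ) ≤ Z := by exact_mod_cast hZ1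
      linarith
    have hZ0 : (0 : ℝ) < Z := by exact_mod_cast hZ1
    have h4 : 2 * (Y : ℝ) / Z ≤ 8 * X ^ (-(4 * κ)) := by
      rw [div_le_iff₀ hZ0]
      have h5 : X ^ θ = X ^ (-(4 * κ)) * X ^ (θ + 4 * κ) := by
        rw [← Real.rpow_add hX0]
        congr 1
        ring
      have h6 : 0 ≤ X ^ (-(4 * κ)) := Real.rpow_nonneg hX0.le _
      calc 2 * (Y : ℝ) ≤ 2 * (2 * X ^ θ) := by linarith
        _ ≤ 8 * X ^ (-(4 * κ)) * (X ^ (θ + 4 * κ) / 2) := by rw [h5]; linarith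
        _ ≤ 8 * X ^ (-(4 * κ)) * Z := mul_le_mul_of_nonneg_left hZr (by positivity)
    have h9 : 0 ≤ X ^ (-(4 * κ)) := Real.rpow_nonneg hX0.le _
    have h10 : 0 ≤ X ^ (-(4 * κ)) * X := mul_nonneg h9 hX0.le
    have hle : X ^ κ * (X ^ (-(4 * κ)) * X) ≤ X ^ (1 - κ - κ / 2) := by
      have e1 : X ^ κ * (X ^ (-(4 * κ)) * X) = X ^ (1 - 3 * κ) := by
        nth_rewrite 3 [← Real.rpow_one X]
        rw [← Real.rpow_add hX0, ← Real.rpow_add hX0]
        congr 1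
        ring
      rw [e1]
      exact Real.rpow_le_rpow_of_exponent_le hX1 (by linarith)
    calc |theta t T onef| * |∑ k ∈ (Icc (-(Y : ℤ)) Y).erase 0, ψ k * WW (rh Z D) D 1 k|
        ≤ (T * Real.log T) * (2 * Y * (2 + 2 * Real.log D) ^ 4 / Z) :=
          mul_le_mul ht hw (abs_nonneg _) (by positivity)
      _ = (T * Real.log T) * ((2 * Y / Z) * (2 + 2 * Real.log D) ^ 4) := by ring
      _ ≤ ((3 * X) * (3 + 2 * Real.log X)) * ((8 * X ^ (-(4 * κ))) *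
          (3 + 2 * Real.log X) ^ 4) := by
          gcongr
          · linarith
          · linarith
      _ = (24 * (3 + 2 * Real.log X) ^ 5) * (X ^ (-(4 * κ)) * X) := by ring
      _ ≤ X ^ κ * (X ^ (-(4 * κ)) * X) := mul_le_mul_of_nonneg_right hlog h10
      _ ≤ _ := hle
  have h2 : ∑ c ∈ PC D, ‖ThC t T onef c.2‖ *
      ‖∑ k ∈ (Icc (-(Y : ℤ)) Y).erase 0, ((ψ k * WW (rh Z D) D c.md k : ℝ) : ℂ) *
        c.2⁻¹ (((-k : ℤ) : ℤ) : ZMod (c.1.val + 1))‖ ≤ a * X ^ (1 - 3 / 2 * κ) := by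
    refine le_trans ?_ hdy'
    refine sum_le_sum fun c hc => ?_
    exact mul_le_mul_of_nonneg_left (wb_char Z D Y ψ hk.supp c hc) (norm_nonneg _)
  have e1 : (1 : ℝ) - κ - κ / 2 = 1 - 3 / 2 * κ := by ring
  rw [e1] at h1
  have e2 : X ^ (1 - κ) = X ^ (κ / 2) * X ^ (1 - 3 / 2 * κ) := by
    rw [← Real.rpow_add hX0]
    congr 1
    ring
  have hP0 : 0 ≤ X ^ (1 - 3 / 2 * κ) := Real.rpow_nonneg hX0.le _
  calc _ ≤ X ^ (1 - 3 / 2 * κ) + a * X ^ (1 - 3 / 2 * κ) := add_le_add h1 h2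
    _ ≤ a * (2 * X ^ (1 - 3 / 2 * κ)) := by nlinarith
    _ ≤ a * (X ^ (κ / 2) * X ^ (1 - 3 / 2 * κ)) := by
        apply mul_le_mul_of_nonneg_left _ (by linarith)
        exact mul_le_mul_of_nonneg_right h2κ hP0
    _ = a * X ^ (1 - κ) := by rw [e2]

end Pool.Agent.H67.VW
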