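import Pool.Agent.H67.VW.Cp4

/-!
[H67 VW OFF4]  The off-diagonal terms and the primitive characters.

Proof.  `FF ρ D n k = ∑_{d ≤ D} [d ∣ n+k] ρ(d)`, so the sum over `n` is `∑_{d ≤ D} ρ(d) th A B w d k`.  If `(d,k) > 1` then
`th A B w d k = 0` (`VS.charb_th_zero` with `a = -k`, a common divisor `g > 1`, `d ≤ D ≤ A`).  If `(d,k) = 1`: `cp4` with `a = -k`, `R = D`:
`th d k = (1/φ(d)) (theta + ∑_{c ∈ PC D, c.md ∣ d} c⁻¹(-k) ThC c)`.  Exchange the sums over `k`, `d`, `c`: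
`∑_k ψ(k) ∑_n .. = theta ∑_k ψ(k) WW ρ D 1 k + ∑_{c ∈ PC D} ThC c ∑_k ψ(k) c⁻¹(-k) WW ρ D c.md k`.
(`Int.gcd d k = 1` iff `(k : ZMod d)` is a unit iff `(-k : ZMod d)` is: `ZMod.coe_int_isUnit_iff_isCoprime`,
`Int.isCoprime_iff_gcd_eq_one`.)
-/

namespace Pool.Agent.H67.VW

open Finset Pool.Agent.H21.MT Pool.Agent.H67.VS

/-- sum over `n` as a sum of primes in progressions -/
private lemma off4_th {A B D : ℕ} {w : ℕ → ℝ} {ρ : ℕ → ℝ} (k : ℤ) :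
    ∑ n ∈ Ioc A B, w n * pl n * FF ρ D n k = ∑ d ∈ Icc 1 D, ρ d * th A B w d k := by
  unfold FF th
  simp_rw [Finset.mul_sum]
  rw [Finset.sum_comm]
  refine Finset.sum_congr rfl fun d _ => Finset.sum_congr rfl fun n _ => ?_
  split_ifs with h
  · ring
  · simp

private lemma off4_one {A B D : ℕ} {w : ℕ → ℝ} {ρ : ℕ → ℝ} (hDA : D ≤ A) (k : ℤ) (d : ℕ)
    (hd : d ∈ Icc 1 D) :
    ((ρ d * th A B w d k : ℝ) : ℂ) =
      if Int.gcd (d : ℤ) k = 1 then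
        ((ρ d / (d.totient : ℝ) : ℝ) : ℂ) * (((theta A B w : ℝ) : ℂ) +
          ∑ c ∈ (PC D).filter (fun c => c.md ∣ d),
            c.2⁻¹ (((-k : ℤ) : ℤ) : ZMod (c.1.val + 1)) * ThC A B w c.2) else 0 := by
  rw [mem_Icc] at hd
  split_ifs with hg
  · have hu : IsUnit (((-k : ℤ) : ℤ) : ZMod d) := by
      rw [ZMod.coe_int_isUnit_iff_isCoprime]
      exact (Int.isCoprime_iff_gcd_eq_one.2 hg).neg_right
    have h := cp4 (A := A) (B := B) (w := w) d D (-k) hd.1 hd.2 (hd.2.trans hDA) hu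
    rw [neg_neg] at h
    have hφ : (d.totient : ℂ) ≠ 0 := by
      have := Nat.totient_pos.2 (show 0 < d by omega)
      exact_mod_cast this.ne'
    rw [← h]
    push_cast
    field_simp
  · obtain ⟨l, hl, hl2⟩ := Nat.exists_prime_and_dvd hg
    have hl3 : l ∣ d :=
      Int.natCast_dvd_natCast.1 ((Int.natCast_dvd_natCast.2 hl2).trans (Int.gcd_dvd_left _ _))
    have hl4 : (l : ℤ) ∣ -k :=
      (dvd_neg).2 ((Int.natCast_dvd_natCast.2 hl2).trans (Int.gcd_dvd_right _ _))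
    have h0 := charb_th_zero (A := A) (B := B) (w := w) d l (-k) (by omega) (by omega)
      hl.one_lt hl3 hl4
    rw [neg_neg] at h0
    rw [h0]
    simp

private lemma off4_pt {A B D : ℕ} {w : ℕ → ℝ} {ρ : ℕ → ℝ} (hDA : D ≤ A) (k : ℤ) :
    ((∑ n ∈ Ioc A B, w n * pl n * FF ρ D n k : ℝ) : ℂ) =
      ((theta A B w : ℝ) : ℂ) * ((WW ρ D 1 k : ℝ) : ℂ) +
      ∑ c ∈ PC D, ThC A B w c.2 * (((WW ρ D c.md k : ℝ) : ℂ) *
          c.2⁻¹ (((-k : ℤ) : ℤ) : ZMod (c.1.val + 1))) := by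
  classical
  rw [off4_th, Complex.ofReal_sum, Finset.sum_congr rfl (off4_one hDA k), ← Finset.sum_filter]
  simp_rw [mul_add]
  rw [Finset.sum_add_distrib]
  congr 1
  · rw [← Finset.sum_mul, mul_comm]
    congr 1
    unfold WW
    rw [Complex.ofReal_sum]
    refine Finset.sum_congr ?_ fun _ _ => rfl
    ext d
    simp
  · have h1 : ∀ c ∈ PC D, ThC A B w c.2 * (((WW ρ D c.md k : ℝ) : ℂ) *
          c.2⁻¹ (((-k : ℤ) : ℤ) : ZMod (c.1.val + 1))) =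
        ∑ d ∈ (Icc 1 D).filter (fun d : ℕ => Int.gcd (d : ℤ) k = 1),
          if c.md ∣ d then ((ρ d / (d.totient : ℝ) : ℝ) : ℂ) *
            (c.2⁻¹ (((-k : ℤ) : ℤ) : ZMod (c.1.val + 1)) * ThC A B w c.2) else 0 := by
      intro c _
      rw [← Finset.sum_filter, ← Finset.sum_mul, Finset.filter_filter]
      unfold WW
      rw [Complex.ofReal_sum]
      have h2 : (Icc 1 D).filter (fun d : ℕ => Int.gcd (d : ℤ) k = 1 ∧ c.md ∣ d) =
          (Icc 1 D).filter (fun d : ℕ => c.md ∣ d ∧ Int.gcd (d : ℤ) k = 1) := by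
        ext d
        simp only [mem_filter]
        tauto
      rw [h2]
      ring
    rw [Finset.sum_congr rfl h1, Finset.sum_comm]
    refine Finset.sum_congr rfl fun d _ => ?_
    rw [← Finset.sum_filter, Finset.mul_sum]

theorem off4 {A B D : ℕ} {w : ℕ → ℝ} {ρ : ℕ → ℝ} (hDA : D ≤ A) (S : Finset ℤ) (ψ : ℤ → ℝ) :
    |∑ k ∈ S, ψ k * ∑ n ∈ Ioc A B, w n * pl n * FF ρ D n k| ≤
      |theta A B w| * |∑ k ∈ S, ψ k * WW ρ D 1 k| +
      ∑ c ∈ PC D, ‖ThC A B w c.2‖ *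
        ‖∑ k ∈ S, ((ψ k * WW ρ D c.md k : ℝ) : ℂ) *
          c.2⁻¹ (((-k : ℤ) : ℤ) : ZMod (c.1.val + 1))‖ := by
  have key : ((∑ k ∈ S, ψ k * ∑ n ∈ Ioc A B, w n * pl n * FF ρ D n k : ℝ) : ℂ) =
      ((theta A B w : ℝ) : ℂ) * ((∑ k ∈ S, ψ k * WW ρ D 1 k : ℝ) : ℂ) +
      ∑ c ∈ PC D, ThC A B w c.2 * ∑ k ∈ S, ((ψ k * WW ρ D c.md k : ℝ) : ℂ) *
          c.2⁻¹ (((-k : ℤ) : ℤ) : ZMod (c.1.val + 1)) := by
    rw [Complex.ofReal_sum, Complex.ofReal_sum]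
    have h1 : ∀ k ∈ S, ((ψ k * ∑ n ∈ Ioc A B, w n * pl n * FF ρ D n k : ℝ) : ℂ) =
        ((theta A B w : ℝ) : ℂ) * ((ψ k * WW ρ D 1 k : ℝ) : ℂ) +
        ∑ c ∈ PC D, ThC A B w c.2 * (((ψ k * WW ρ D c.md k : ℝ) : ℂ) *
          c.2⁻¹ (((-k : ℤ) : ℤ) : ZMod (c.1.val + 1))) := by
      intro k _
      rw [Complex.ofReal_mul, off4_pt hDA k, mul_add, Finset.mul_sum]
      congr 1
      · push_cast
        ring
      · refine Finset.sum_congr rfl fun c _ => ?_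
        push_cast
        ring
    rw [Finset.sum_congr rfl h1, Finset.sum_add_distrib, ← Finset.mul_sum, Finset.sum_comm]
    congr 1
    refine Finset.sum_congr rfl fun c _ => ?_
    rw [← Finset.mul_sum]
  have h2 : |∑ k ∈ S, ψ k * ∑ n ∈ Ioc A B, w n * pl n * FF ρ D n k| =
      ‖((∑ k ∈ S, ψ k * ∑ n ∈ Ioc A B, w n * pl n * FF ρ D n k : ℝ) : ℂ)‖ := by
    rw [Complex.norm_real, Real.norm_eq_abs]
  rw [h2, key]
  refine (norm_add_le _ _).trans ?_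
  refine add_le_add ?_ ?_
  · rw [norm_mul, Complex.norm_real, Complex.norm_real, Real.norm_eq_abs, Real.norm_eq_abs]
  · refine (norm_sum_le _ _).trans (Finset.sum_le_sum fun c _ => ?_)
    rw [norm_mul]

end Pool.Agent.H67.VW
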