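import Pool.Agent.H67.VW.Defs
import Pool.Agent.H67.VS.Ap

/-!
[H67 VW SQP]  The mean square of the test function on an interval.

Proof.  Expand: `∑_{h,h'} φ(h) φ(h') ∑_{d,e} ρ(d) ρ(e) #{n ∈ (a,b] : d ∣ n+h, e ∣ n+h'}`.  The number is `0` if `(d,e) ∤ h-h'`,
otherwise it is `(b-a)/[d,e] + θ`, `|θ| ≤ 1` (one residue class mod `[d,e]`; `VS.ap_wt`/`VT` have counting lemmas, or
`Nat.count`/`Int.Ioc_filter_modEq_card`).  So the sum over `n` is `(b-a) TT ρ D (h-h') + O((D K)^2)`.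
Diagonal: `φ(h)^2 ≤ φ(h)`.  Off-diagonal: `φ(h) φ(h') ≤ 1`, `TT ρ D (-k) = TT ρ D k`, and each `k = |h-h'|` occurs at most
`2N` times.
-/

namespace Pool.Agent.H67.VW

open Finset Pool.Agent.H67.VS

/-- counting a pair of congruences on an interval -/
theorem sqp_count {a b : ℕ} (hab : a ≤ b) (d e : ℕ) (hd : 0 < d) (he : 0 < e) (c c' : ℤ) :
    |∑ n ∈ Ioc a b, (if (d : ℤ) ∣ (n : ℤ) + c ∧ (e : ℤ) ∣ (n : ℤ) + c' then (1 : ℝ) else 0) -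
      (if ((Nat.gcd d e : ℕ) : ℤ) ∣ c - c' then ((b : ℝ) - a) / (Nat.lcm d e : ℝ) else 0)| ≤ 1 := by
  rcases cong2 d e hd he c c' with h | ⟨r, hr⟩
  · have h1 : ∑ n ∈ Ioc a b, (if (d : ℤ) ∣ (n : ℤ) + c ∧ (e : ℤ) ∣ (n : ℤ) + c' then (1 : ℝ)
        else 0) = 0 := by
      refine sum_eq_zero fun n _ => ?_
      rw [if_neg (h n)]
    have h2 : ¬ ((Nat.gcd d e : ℕ) : ℤ) ∣ c - c' := by
      rintro ⟨k, hk⟩
      have hb : ((Nat.gcd d e : ℕ) : ℤ) = d * Nat.gcdA d e + e * Nat.gcdB d e :=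
        Nat.gcd_eq_gcd_ab d e
      refine h (-c + d * Nat.gcdA d e * k) ⟨⟨Nat.gcdA d e * k, by ring⟩,
        ⟨-(Nat.gcdB d e * k), ?_⟩⟩
      rw [hb] at hk
      linear_combination -hk
    rw [h1, if_neg h2]
    simp
  · have h1 : ∀ n : ℕ, (if (d : ℤ) ∣ (n : ℤ) + c ∧ (e : ℤ) ∣ (n : ℤ) + c' then (1 : ℝ)
        else 0) = if ((Nat.lcm d e : ℕ) : ℤ) ∣ (n : ℤ) + r then (1 : ℝ) else 0 := by
      intro n
      by_cases hc : ((Nat.lcm d e : ℕ) : ℤ) ∣ (n : ℤ) + r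
      · rw [if_pos hc, if_pos ((hr n).2 hc)]
      · rw [if_neg hc, if_neg (fun hh => hc ((hr n).1 hh))]
    have h2 : ((Nat.gcd d e : ℕ) : ℤ) ∣ c - c' := by
      have h3 := (hr (-r)).2 (by simp)
      have h4 : ((Nat.gcd d e : ℕ) : ℤ) ∣ -r + c :=
        (Int.natCast_dvd_natCast.2 (Nat.gcd_dvd_left d e)).trans h3.1
      have h5 : ((Nat.gcd d e : ℕ) : ℤ) ∣ -r + c' :=
        (Int.natCast_dvd_natCast.2 (Nat.gcd_dvd_right d e)).trans h3.2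
      have h6 : c - c' = (-r + c) - (-r + c') := by ring
      rw [h6]
      exact dvd_sub h4 h5
    obtain ⟨s, hs⟩ := ap_res (Nat.lcm d e) (Nat.lcm_pos hd he) r
    rw [if_pos h2, sum_congr rfl fun n _ => h1 n]
    have h3 : ∑ n ∈ Ioc a b, (if ((Nat.lcm d e : ℕ) : ℤ) ∣ (n : ℤ) + r then (1 : ℝ) else 0) =
        (((Ioc a b).filter (fun n => n % Nat.lcm d e = s % Nat.lcm d e)).card : ℝ) := by
      rw [sum_boole]
      congr 2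
      exact filter_congr fun n _ => hs n
    rw [h3]
    have h4 := H21.MT.ap_count a b (Nat.lcm d e) s (Nat.lcm_pos hd he)
    have h5 : (((Ioc a b).card : ℕ) : ℝ) = (b : ℝ) - a := by
      rw [Nat.card_Ioc, Nat.cast_sub hab]
    rw [h5] at h4
    exact h4

/-- the correlation of the test function on an interval -/
theorem sqp_corr {a b D : ℕ} {ρ : ℕ → ℝ} {K : ℝ} (hab : a ≤ b) (hK : 0 ≤ K)
    (hρ : ∀ d, |ρ d| ≤ K) (h h' : ℤ) :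
    |∑ n ∈ Ioc a b, FF ρ D n h * FF ρ D n h' - ((b : ℝ) - a) * TT ρ D (h - h')| ≤ (D * K) ^ 2 := by
  have e1 : ∀ n : ℕ, FF ρ D n h * FF ρ D n h' = ∑ d ∈ Icc 1 D, ∑ e ∈ Icc 1 D, ρ d * ρ e *
      (if (d : ℤ) ∣ (n : ℤ) + h ∧ (e : ℤ) ∣ (n : ℤ) + h' then (1 : ℝ) else 0) := by
    intro n
    unfold FF
    rw [sum_mul_sum]
    refine sum_congr rfl fun d _ => sum_congr rfl fun e _ => ?_
    by_cases h1 : (d : ℤ) ∣ (n : ℤ) + h
    · by_cases h2 : (e : ℤ) ∣ (n : ℤ) + h'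
      · rw [if_pos h1, if_pos h2, if_pos ⟨h1, h2⟩, mul_one]
      · have h3 : ¬ ((d : ℤ) ∣ (n : ℤ) + h ∧ (e : ℤ) ∣ (n : ℤ) + h') := fun hh => h2 hh.2
        rw [if_neg h2, if_neg h3, mul_zero, mul_zero]
    · have h3 : ¬ ((d : ℤ) ∣ (n : ℤ) + h ∧ (e : ℤ) ∣ (n : ℤ) + h') := fun hh => h1 hh.1
      rw [if_neg h1, if_neg h3, zero_mul, mul_zero]
  have e2 : ∑ n ∈ Ioc a b, FF ρ D n h * FF ρ D n h' - ((b : ℝ) - a) * TT ρ D (h - h') =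
      ∑ d ∈ Icc 1 D, ∑ e ∈ Icc 1 D, ρ d * ρ e *
        (∑ n ∈ Ioc a b, (if (d : ℤ) ∣ (n : ℤ) + h ∧ (e : ℤ) ∣ (n : ℤ) + h' then (1 : ℝ) else 0) -
          (if ((Nat.gcd d e : ℕ) : ℤ) ∣ h - h' then ((b : ℝ) - a) / (Nat.lcm d e : ℝ) else 0)) := by
    rw [sum_congr rfl fun n _ => e1 n, sum_comm]
    unfold TT
    rw [mul_sum, ← sum_sub_distrib]
    refine sum_congr rfl fun d _ => ?_
    rw [sum_comm, mul_sum, ← sum_sub_distrib]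
    refine sum_congr rfl fun e _ => ?_
    rw [← mul_sum]
    split_ifs <;> ring
  rw [e2]
  refine (abs_sum_le_sum_abs _ _).trans ?_
  have e3 : ∀ d ∈ Icc 1 D, |∑ e ∈ Icc 1 D, ρ d * ρ e *
        (∑ n ∈ Ioc a b, (if (d : ℤ) ∣ (n : ℤ) + h ∧ (e : ℤ) ∣ (n : ℤ) + h' then (1 : ℝ) else 0) -
          (if ((Nat.gcd d e : ℕ) : ℤ) ∣ h - h' then ((b : ℝ) - a) / (Nat.lcm d e : ℝ) else 0))| ≤
        D * K ^ 2 := by
    intro d hd
    refine (abs_sum_le_sum_abs _ _).trans ?_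
    have e4 : ∀ e ∈ Icc 1 D, |ρ d * ρ e *
        (∑ n ∈ Ioc a b, (if (d : ℤ) ∣ (n : ℤ) + h ∧ (e : ℤ) ∣ (n : ℤ) + h' then (1 : ℝ) else 0) -
          (if ((Nat.gcd d e : ℕ) : ℤ) ∣ h - h' then ((b : ℝ) - a) / (Nat.lcm d e : ℝ) else 0))| ≤
        K ^ 2 := by
      intro e he
      rw [mem_Icc] at hd he
      have h1 := sqp_count hab d e (by omega) (by omega) h h'
      rw [abs_mul, abs_mul]
      have h2 : |ρ d| * |ρ e| ≤ K ^ 2 := by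
        rw [sq]
        exact mul_le_mul (hρ d) (hρ e) (abs_nonneg _) hK
      calc _ ≤ K ^ 2 * 1 := mul_le_mul h2 h1 (abs_nonneg _) (sq_nonneg K)
        _ = K ^ 2 := mul_one _
    refine (sum_le_sum e4).trans ?_
    rw [sum_const, Nat.card_Icc, nsmul_eq_mul, Nat.add_sub_cancel]
  refine (sum_le_sum e3).trans ?_
  rw [sum_const, Nat.card_Icc, nsmul_eq_mul, Nat.add_sub_cancel]
  apply le_of_eq
  ring

theorem sqp_neg (ρ : ℕ → ℝ) (D : ℕ) (k : ℤ) : TT ρ D (-k) = TT ρ D k := by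
  unfold TT
  simp only [dvd_neg]

theorem sqp_row (N h : ℕ) (hh : h ∈ Icc 1 N) (f : ℤ → ℝ) (hf : ∀ k, 0 ≤ f k)
    (hneg : ∀ k, f (-k) = f k) :
    ∑ h' ∈ (Icc 1 N).erase h, f ((h : ℤ) - ((h' : ℕ) : ℤ)) ≤ 2 * ∑ k ∈ Ico 1 N, f ((k : ℕ) : ℤ) := by
  rw [mem_Icc] at hh
  have hsplit : (Icc 1 N).erase h = Ico 1 h ∪ Ioc h N := by
    ext x
    simp only [mem_erase, mem_Icc, mem_union, mem_Ico, mem_Ioc]
    omega
  have hdis : Disjoint (Ico 1 h) (Ioc h N) := by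
    rw [Finset.disjoint_left]
    intro x hx hx'
    rw [mem_Ico] at hx
    rw [mem_Ioc] at hx'
    omega
  rw [hsplit, sum_union hdis]
  have h1 : ∑ h' ∈ Ico 1 h, f ((h : ℤ) - ((h' : ℕ) : ℤ)) ≤ ∑ k ∈ Ico 1 N, f ((k : ℕ) : ℤ) := by
    have e1 : ∑ h' ∈ Ico 1 h, f ((h : ℤ) - ((h' : ℕ) : ℤ)) =
        ∑ k ∈ (Ico 1 h).image (fun x => h - x), f ((k : ℕ) : ℤ) := by
      rw [sum_image]
      · refine sum_congr rfl fun x hx => ?_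
        rw [mem_Ico] at hx
        rw [Nat.cast_sub hx.2.le]
      · intro x hx y hy hxy
        simp only [coe_Ico, Set.mem_Ico] at hx hy
        simp only at hxy
        omega
    rw [e1]
    refine sum_le_sum_of_subset_of_nonneg ?_ fun k _ _ => hf _
    intro k hk
    rw [mem_image] at hk
    obtain ⟨x, hx, rfl⟩ := hk
    rw [mem_Ico] at hx ⊢
    omega
  have h2 : ∑ h' ∈ Ioc h N, f ((h : ℤ) - ((h' : ℕ) : ℤ)) ≤ ∑ k ∈ Ico 1 N, f ((k : ℕ) : ℤ) := by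
    have e1 : ∑ h' ∈ Ioc h N, f ((h : ℤ) - ((h' : ℕ) : ℤ)) =
        ∑ k ∈ (Ioc h N).image (fun x => x - h), f ((k : ℕ) : ℤ) := by
      rw [sum_image]
      · refine sum_congr rfl fun x hx => ?_
        rw [mem_Ioc] at hx
        rw [Nat.cast_sub hx.1.le, ← hneg, neg_sub]
      · intro x hx y hy hxy
        simp only [coe_Ioc, Set.mem_Ioc] at hx hy
        simp only at hxy
        omega
    rw [e1]
    refine sum_le_sum_of_subset_of_nonneg ?_ fun k _ _ => hf _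
    intro k hk
    rw [mem_image] at hk
    obtain ⟨x, hx, rfl⟩ := hk
    rw [mem_Ioc] at hx
    rw [mem_Ico]
    omega
  linarith

theorem sq_piece {a b N D : ℕ} {ρ : ℕ → ℝ} {K : ℝ} {φ : ℤ → ℝ} (hab : a ≤ b) (hK : 0 ≤ K)
    (hρ : ∀ d, |ρ d| ≤ K) (hφ : ∀ h, 0 ≤ φ h ∧ φ h ≤ 1) :
    ∑ n ∈ Ioc a b, (∑ h ∈ Icc 1 N, φ (h : ℤ) * FF ρ D n (h : ℤ)) ^ 2 ≤
      ((b : ℝ) - a) * (|TT ρ D 0| * ∑ h ∈ Icc 1 N, φ ((h : ℕ) : ℤ) +
        2 * N * ∑ k ∈ Ico 1 N, |TT ρ D ((k : ℕ) : ℤ)|) + (N : ℝ) ^ 2 * (D * K) ^ 2 := by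
  have hba : 0 ≤ (b : ℝ) - a := by
    have : (a : ℝ) ≤ b := by exact_mod_cast hab
    linarith
  have e1 : ∑ n ∈ Ioc a b, (∑ h ∈ Icc 1 N, φ (h : ℤ) * FF ρ D n (h : ℤ)) ^ 2 =
      ∑ h ∈ Icc 1 N, ∑ h' ∈ Icc 1 N, φ (h : ℤ) * φ (h' : ℤ) *
        ∑ n ∈ Ioc a b, FF ρ D n (h : ℤ) * FF ρ D n (h' : ℤ) := by
    have e2 : ∀ n : ℕ, (∑ h ∈ Icc 1 N, φ (h : ℤ) * FF ρ D n (h : ℤ)) ^ 2 =
        ∑ h ∈ Icc 1 N, ∑ h' ∈ Icc 1 N, φ (h : ℤ) * φ (h' : ℤ) *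
          (FF ρ D n (h : ℤ) * FF ρ D n (h' : ℤ)) := by
      intro n
      rw [sq, sum_mul_sum]
      refine sum_congr rfl fun h _ => sum_congr rfl fun h' _ => ?_
      ring
    rw [sum_congr rfl fun n _ => e2 n, sum_comm]
    refine sum_congr rfl fun h _ => ?_
    rw [sum_comm]
    refine sum_congr rfl fun h' _ => ?_
    rw [mul_sum]
  rw [e1]
  have e3 : ∀ h ∈ Icc 1 N, ∑ h' ∈ Icc 1 N, φ (h : ℤ) * φ (h' : ℤ) *
        ∑ n ∈ Ioc a b, FF ρ D n (h : ℤ) * FF ρ D n (h' : ℤ) ≤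
      ((b : ℝ) - a) * (|TT ρ D 0| * φ ((h : ℕ) : ℤ) + 2 * ∑ k ∈ Ico 1 N, |TT ρ D ((k : ℕ) : ℤ)|) +
        N * (D * K) ^ 2 := by
    intro h hh
    have e4 : ∀ h' ∈ Icc 1 N, φ (h : ℤ) * φ (h' : ℤ) *
        ∑ n ∈ Ioc a b, FF ρ D n (h : ℤ) * FF ρ D n (h' : ℤ) ≤
        ((b : ℝ) - a) * (φ (h : ℤ) * φ (h' : ℤ) * |TT ρ D ((h : ℤ) - (h' : ℤ))|) +
          (D * K) ^ 2 := by
      intro h' _
      have h1 := (abs_le.1 (sqp_corr (D := D) hab hK hρ (h : ℤ) (h' : ℤ))).2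
      have h2 : 0 ≤ φ (h : ℤ) * φ (h' : ℤ) := mul_nonneg (hφ _).1 (hφ _).1
      have h3 : φ (h : ℤ) * φ (h' : ℤ) ≤ 1 := mul_le_one₀ (hφ _).2 (hφ _).1 (hφ _).2
      have h4 : ∑ n ∈ Ioc a b, FF ρ D n (h : ℤ) * FF ρ D n (h' : ℤ) ≤
          ((b : ℝ) - a) * |TT ρ D ((h : ℤ) - (h' : ℤ))| + (D * K) ^ 2 := by
        have h5 : ((b : ℝ) - a) * TT ρ D ((h : ℤ) - (h' : ℤ)) ≤
            ((b : ℝ) - a) * |TT ρ D ((h : ℤ) - (h' : ℤ))| :=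
          mul_le_mul_of_nonneg_left (le_abs_self _) hba
        linarith
      calc _ ≤ φ (h : ℤ) * φ (h' : ℤ) *
            (((b : ℝ) - a) * |TT ρ D ((h : ℤ) - (h' : ℤ))| + (D * K) ^ 2) :=
            mul_le_mul_of_nonneg_left h4 h2
        _ = ((b : ℝ) - a) * (φ (h : ℤ) * φ (h' : ℤ) * |TT ρ D ((h : ℤ) - (h' : ℤ))|) +
            φ (h : ℤ) * φ (h' : ℤ) * (D * K) ^ 2 := by ring
        _ ≤ _ := by
            have h6 : φ (h : ℤ) * φ (h' : ℤ) * (D * K) ^ 2 ≤ 1 * (D * K) ^ 2 :=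
              mul_le_mul_of_nonneg_right h3 (sq_nonneg _)
            linarith
    refine (sum_le_sum e4).trans ?_
    rw [sum_add_distrib, ← mul_sum, sum_const, Nat.card_Icc, nsmul_eq_mul, Nat.add_sub_cancel]
    have e5 : ∑ h' ∈ Icc 1 N, φ (h : ℤ) * φ (h' : ℤ) * |TT ρ D ((h : ℤ) - (h' : ℤ))| ≤
        |TT ρ D 0| * φ ((h : ℕ) : ℤ) + 2 * ∑ k ∈ Ico 1 N, |TT ρ D ((k : ℕ) : ℤ)| := by
      rw [← add_sum_erase _ _ hh]
      refine add_le_add ?_ ?_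
      · rw [sub_self, mul_comm]
        refine mul_le_mul_of_nonneg_left ?_ (abs_nonneg _)
        calc φ (h : ℤ) * φ (h : ℤ) ≤ φ (h : ℤ) * 1 :=
              mul_le_mul_of_nonneg_left (hφ _).2 (hφ _).1
          _ = _ := mul_one _
      · refine le_trans ?_ (sqp_row N h hh (fun k => |TT ρ D k|) (fun k => abs_nonneg _)
          (fun k => by rw [sqp_neg]))
        refine sum_le_sum fun h' _ => ?_
        have h3 : φ (h : ℤ) * φ (h' : ℤ) ≤ 1 := mul_le_one₀ (hφ _).2 (hφ _).1 (hφ _).2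
        calc _ ≤ 1 * |TT ρ D ((h : ℤ) - (h' : ℤ))| :=
              mul_le_mul_of_nonneg_right h3 (abs_nonneg _)
          _ = _ := one_mul _
    have e6 := mul_le_mul_of_nonneg_left e5 hba
    linarith
  refine (sum_le_sum e3).trans ?_
  rw [sum_add_distrib, ← mul_sum, sum_add_distrib, ← mul_sum, sum_const, sum_const,
    Nat.card_Icc, nsmul_eq_mul, nsmul_eq_mul, Nat.add_sub_cancel]
  apply le_of_eq
  ring

end Pool.Agent.H67.VW
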