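import Pool.Agent.H67.VW.RhB
import Pool.Agent.H67.VW.Arith

/-!
[H67 VW TTS]  The correlations `TT (rh Z D) D k`.

Proofs.
* `tt_eq`: `1/[d,e] = (d,e)/(d e)` and `(d,e) [(d,e) ∣ k] = ∑_{s ∣ (d,e)} c_s(k)` with Ramanujan's sum
  `c_s(k) = ∑_{g ∣ s, g ∣ k} g μ(s/g)` (Moebius inversion: `∑_{s ∣ m} ∑_{g ∣ s, g ∣ k} g μ(s/g) = ∑_{g ∣ m, g ∣ k} g [g = m]`).
  So `TT = ∑_s c_s(k) (∑_{s ∣ d} ρ(d)/d)^2 = ∑_{s ∈ RR} c_s(k)/φ(s)^2` by `rh_div` (`μ(s)^2 = 1`), and for squarefree `s`: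
  `c_s(k) = μ(s) ∑_{g ∣ s, g ∣ k} μ(g) g = μ(s) cs s k`.
* `tt_zero`: `cs s 0 = ∑_{g ∣ s} μ(g) g = ∏_{p ∣ s} (1-p) = μ(s) φ(s)` for squarefree `s`.
* `tt_small`: `|cs s k| ≤ ∑_{g ∣ s, g ∣ k} g`; `∑_{1 ≤ k < N} ∑_{g ∣ s, g ∣ k} g ≤ ∑_{g ∣ s} g (N/g) = N τ(s)`; `tau_phi`.
-/

namespace Pool.Agent.H67.VW

open Finset

private noncomputable def ttG (k : ℤ) (m : ℕ) : ℝ := if (m : ℤ) ∣ k then (m : ℝ) else 0

private noncomputable def ttC (k : ℤ) (s : ℕ) : ℝ :=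
  ∑ x ∈ s.divisorsAntidiagonal, ((ArithmeticFunction.moebius x.1 : ℤ) : ℝ) * ttG k x.2

private theorem ttC_sum (k : ℤ) (n : ℕ) (hn : 0 < n) : ∑ i ∈ n.divisors, ttC k i = ttG k n :=
  (ArithmeticFunction.sum_eq_iff_sum_mul_moebius_eq (f := ttC k) (g := ttG k)).2
    (fun _ _ => rfl) n hn

private theorem cs_eq (k : ℤ) (s : ℕ) :
    cs s k = ∑ e ∈ s.divisors, ((ArithmeticFunction.moebius e : ℤ) : ℝ) * ttG k e := by
  unfold cs ttG
  rw [Finset.sum_filter]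
  refine Finset.sum_congr rfl fun e _ => ?_
  split_ifs <;> simp

private theorem tt_mu {s : ℕ} (hs : Squarefree s) :
    ((ArithmeticFunction.moebius s : ℤ) : ℝ) ^ 2 = 1 := by
  have h1 := ArithmeticFunction.moebius_sq_eq_one_of_squarefree hs
  exact_mod_cast h1

private theorem tt_mu_le (s : ℕ) : |((ArithmeticFunction.moebius s : ℤ) : ℝ)| ≤ 1 := by
  exact_mod_cast ArithmeticFunction.abs_moebius_le_one

private theorem ttC_sqf (k : ℤ) (s : ℕ) (hs : Squarefree s) :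
    ttC k s = ((ArithmeticFunction.moebius s : ℤ) : ℝ) * cs s k := by
  unfold ttC
  rw [Nat.sum_divisorsAntidiagonal'
    (fun a b => ((ArithmeticFunction.moebius a : ℤ) : ℝ) * ttG k b), cs_eq, Finset.mul_sum]
  refine Finset.sum_congr rfl fun e he => ?_
  have hd := Nat.dvd_of_mem_divisors he
  obtain ⟨t, rfl⟩ := hd
  have hs' := Nat.squarefree_mul_iff.1 hs
  have he0 : 0 < e := Nat.pos_of_mem_divisors he
  rw [Nat.mul_div_cancel_left _ he0,
    ArithmeticFunction.isMultiplicative_moebius.map_mul_of_coprime hs'.1]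
  have h1 := tt_mu hs'.2.1
  push_cast
  linear_combination (-(((ArithmeticFunction.moebius t : ℤ) : ℝ) * ttG k e)) * h1

theorem tt_eq (Z D : ℕ) (k : ℤ) : TT (rh Z D) D k =
    ∑ s ∈ RR Z D, ((ArithmeticFunction.moebius s : ℤ) : ℝ) * cs s k / (s.totient : ℝ) ^ 2 := by
  obtain ⟨ρ, hρ⟩ : ∃ ρ : ℕ → ℝ, ρ = rh Z D := ⟨_, rfl⟩
  rw [← hρ]
  have h1 : ∀ d ∈ Icc 1 D, ∀ e ∈ Icc 1 D,
      (if ((Nat.gcd d e : ℕ) : ℤ) ∣ k then ρ d * ρ e / (Nat.lcm d e : ℝ) else 0) =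
      ∑ s ∈ Icc 1 D, if s ∣ d ∧ s ∣ e then ttC k s * ((ρ d / d) * (ρ e / e)) else 0 := by
    intro d hd e he
    rw [mem_Icc] at hd he
    have hg : 0 < Nat.gcd d e := Nat.gcd_pos_of_pos_left _ (by omega)
    have h2 : ∑ s ∈ Icc 1 D, (if s ∣ d ∧ s ∣ e then ttC k s * ((ρ d / d) * (ρ e / e)) else 0) =
        ttG k (Nat.gcd d e) * ((ρ d / d) * (ρ e / e)) := by
      rw [← ttC_sum k _ hg, Finset.sum_mul, ← Finset.sum_filter]
      refine Finset.sum_congr ?_ fun _ _ => rfl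
      ext s
      rw [Nat.mem_divisors, mem_filter, mem_Icc, Nat.dvd_gcd_iff]
      constructor
      · rintro ⟨_, h3, h4⟩
        exact ⟨⟨h3, h4⟩, hg.ne'⟩
      · rintro ⟨⟨h3, h4⟩, _⟩
        exact ⟨⟨Nat.pos_of_dvd_of_pos h3 (by omega),
          (Nat.le_of_dvd (by omega) h3).trans hd.2⟩, h3, h4⟩
    rw [h2]
    unfold ttG
    split_ifs with h
    · have h5 : (Nat.gcd d e : ℝ) * (Nat.lcm d e : ℝ) = d * e := by
        exact_mod_cast Nat.gcd_mul_lcm d e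
      have hd0 : (d : ℝ) ≠ 0 := by
        have : d ≠ 0 := by omega
        exact_mod_cast this
      have he0 : (e : ℝ) ≠ 0 := by
        have : e ≠ 0 := by omega
        exact_mod_cast this
      have hL : (Nat.lcm d e : ℝ) ≠ 0 := by
        have : Nat.lcm d e ≠ 0 := Nat.lcm_ne_zero (by omega) (by omega)
        exact_mod_cast this
      symm
      rw [eq_div_iff hL]
      calc (Nat.gcd d e : ℝ) * (ρ d / d * (ρ e / e)) * (Nat.lcm d e : ℝ)
          = ((Nat.gcd d e : ℝ) * (Nat.lcm d e : ℝ)) * (ρ d / d * (ρ e / e)) := by ring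
        _ = _ := by
          rw [h5]
          field_simp
    · rw [zero_mul]
  unfold TT
  rw [Finset.sum_congr rfl fun d hd => Finset.sum_congr rfl fun e he => h1 d hd e he]
  have h7 : ∑ d ∈ Icc 1 D, ∑ e ∈ Icc 1 D, ∑ s ∈ Icc 1 D,
      (if s ∣ d ∧ s ∣ e then ttC k s * ((ρ d / d) * (ρ e / e)) else 0) =
      ∑ s ∈ Icc 1 D, ttC k s *
        (∑ d ∈ (Icc 1 D).filter (fun d => s ∣ d), ρ d / (d : ℝ)) ^ 2 := by
    rw [Finset.sum_congr rfl fun d _ => Finset.sum_comm, Finset.sum_comm]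
    refine Finset.sum_congr rfl fun s _ => ?_
    rw [sq, Finset.sum_mul_sum, Finset.mul_sum, Finset.sum_filter]
    refine Finset.sum_congr rfl fun d _ => ?_
    by_cases h : s ∣ d
    · rw [if_pos h, Finset.mul_sum, Finset.sum_filter]
      refine Finset.sum_congr rfl fun e _ => ?_
      simp [h]
    · simp [h]
  rw [h7]
  have h8 : ∀ s ∈ Icc 1 D, ttC k s *
      (∑ d ∈ (Icc 1 D).filter (fun d => s ∣ d), ρ d / (d : ℝ)) ^ 2 =
      if s ∈ RR Z D then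
        ((ArithmeticFunction.moebius s : ℤ) : ℝ) * cs s k / (s.totient : ℝ) ^ 2 else 0 := by
    intro s hs
    rw [mem_Icc] at hs
    rw [hρ, rh_div Z D s hs.1]
    split_ifs with h
    · have hsq : Squarefree s := (mem_filter.1 h).2
      rw [ttC_sqf k s hsq, div_pow, tt_mu hsq]
      ring
    · simp
  rw [Finset.sum_congr rfl h8, Finset.sum_ite_mem]
  refine Finset.sum_congr ?_ fun _ _ => rfl
  rw [Finset.inter_eq_right]
  intro s hs
  have h9 := (mem_filter.1 hs).1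
  rw [mem_Ioc] at h9
  rw [mem_Icc]
  omega

theorem tt_zero (Z D : ℕ) : TT (rh Z D) D 0 = S1 Z D := by
  rw [tt_eq]
  unfold S1
  refine Finset.sum_congr rfl fun s hs => ?_
  have hsq : Squarefree s := (mem_filter.1 hs).2
  have hs0 : 0 < s := Nat.pos_of_ne_zero hsq.ne_zero
  rw [← ttC_sqf 0 s hsq]
  have h1 : ttC 0 s = (s.totient : ℝ) := by
    have h2 := (ArithmeticFunction.sum_eq_iff_sum_mul_moebius_eq
      (f := fun n => (n.totient : ℝ)) (g := fun n => (n : ℝ))).1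
      (fun n _ => by exact_mod_cast Nat.sum_totient n) s hs0
    unfold ttC ttG
    simpa using h2
  rw [h1]
  have h3 : (s.totient : ℝ) ≠ 0 := by exact_mod_cast (Nat.totient_pos.2 hs0).ne'
  field_simp

private theorem cs_sum (N s : ℕ) :
    ∑ k ∈ Ico 1 N, |cs s (k : ℤ)| ≤ N * (s.divisors.card : ℝ) := by
  have h2 : ∀ k ∈ Ico 1 N, |cs s (k : ℤ)| ≤ ∑ g ∈ s.divisors, if g ∣ k then (g : ℝ) else 0 := by
    intro k _
    rw [cs_eq]
    refine (Finset.abs_sum_le_sum_abs _ _).trans (Finset.sum_le_sum fun g _ => ?_)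
    rw [abs_mul]
    have h3 := tt_mu_le g
    unfold ttG
    by_cases h : g ∣ k
    · have h' : ((g : ℤ) ∣ (k : ℤ)) := by exact_mod_cast h
      rw [if_pos h', if_pos h, abs_of_nonneg (Nat.cast_nonneg g : (0 : ℝ) ≤ (g : ℝ))]
      exact mul_le_of_le_one_left (Nat.cast_nonneg g) h3
    · have h' : ¬ ((g : ℤ) ∣ (k : ℤ)) := by exact_mod_cast h
      rw [if_neg h', if_neg h]
      simp
  refine (Finset.sum_le_sum h2).trans ?_
  rw [Finset.sum_comm]
  have h4 : ∀ g ∈ s.divisors, ∑ k ∈ Ico 1 N, (if g ∣ k then (g : ℝ) else 0) ≤ N := by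
    intro g _
    rw [← Finset.sum_filter, Finset.sum_const, nsmul_eq_mul]
    have h5 : ((Ico 1 N).filter (fun k => g ∣ k)).card ≤ N / g := by
      rw [← Nat.Ioc_filter_dvd_card_eq_div N g]
      refine card_le_card (filter_subset_filter _ ?_)
      intro k hk
      rw [mem_Ico] at hk
      rw [mem_Ioc]
      omega
    calc (((Ico 1 N).filter (fun k => g ∣ k)).card : ℝ) * g ≤ ((N / g : ℕ) : ℝ) * g :=
          mul_le_mul_of_nonneg_right (by exact_mod_cast h5) (Nat.cast_nonneg g)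
      _ ≤ N := by exact_mod_cast Nat.div_mul_le_self N g
  refine (Finset.sum_le_sum h4).trans (le_of_eq ?_)
  rw [Finset.sum_const, nsmul_eq_mul]
  ring

theorem tt_small (Z D N : ℕ) (hZ : 1 ≤ Z) :
    ∑ k ∈ Ico 1 N, |TT (rh Z D) D (k : ℤ)| ≤ N * (2 + 2 * Real.log D) ^ 4 / Z := by
  calc ∑ k ∈ Ico 1 N, |TT (rh Z D) D (k : ℤ)|
      ≤ ∑ k ∈ Ico 1 N, ∑ s ∈ RR Z D, |cs s (k : ℤ)| / (s.totient : ℝ) ^ 2 := by
        refine Finset.sum_le_sum fun k _ => ?_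
        rw [tt_eq]
        refine (Finset.abs_sum_le_sum_abs _ _).trans (Finset.sum_le_sum fun s _ => ?_)
        rw [abs_div, abs_mul, abs_of_nonneg (by positivity : (0 : ℝ) ≤ (s.totient : ℝ) ^ 2)]
        apply div_le_div_of_nonneg_right _ (by positivity)
        exact mul_le_of_le_one_left (abs_nonneg _) (tt_mu_le s)
    _ = ∑ s ∈ RR Z D, (∑ k ∈ Ico 1 N, |cs s (k : ℤ)|) / (s.totient : ℝ) ^ 2 := by
        rw [Finset.sum_comm]
        refine Finset.sum_congr rfl fun s _ => ?_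
        rw [Finset.sum_div]
    _ ≤ ∑ s ∈ RR Z D, (N * (s.divisors.card : ℝ)) / (s.totient : ℝ) ^ 2 :=
        Finset.sum_le_sum fun s _ => div_le_div_of_nonneg_right (cs_sum N s) (by positivity)
    _ ≤ ∑ s ∈ Ioc Z D, (N * (s.divisors.card : ℝ)) / (s.totient : ℝ) ^ 2 :=
        Finset.sum_le_sum_of_subset_of_nonneg (filter_subset _ _) fun _ _ _ => by positivity
    _ = N * ∑ s ∈ Ioc Z D, (s.divisors.card : ℝ) / (s.totient : ℝ) ^ 2 := by
        rw [Finset.mul_sum]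
        exact Finset.sum_congr rfl fun s _ => by ring
    _ ≤ N * ((2 + 2 * Real.log D) ^ 4 / Z) :=
        mul_le_mul_of_nonneg_left (tau_phi Z D hZ) (Nat.cast_nonneg N)
    _ = _ := by ring

end Pool.Agent.H67.VW
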