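import Pool.Agent.H67.VW.Defs

/-!
[H67 VW TRAP]  The trapezoid.

Proofs.  With `p(x) = max x 0`: `I trap(x) = p(x) - p(x-I) - p(x-(N+1-I)) + p(x-(N+1))`, `1 ≤ I`, `2I ≤ N+1`: by cases
`x ≤ 0`, `0 ≤ x ≤ I`, `I ≤ x ≤ N+1-I`, `N+1-I ≤ x ≤ N+1`, `x ≥ N+1` the value `I trap(x)` is `0`, `x`, `I`, `N+1-x`, `0`.
* `trap_sum`: `trap h = 1` for `I ≤ h ≤ N+1-I`, that is for `N + 2 - 2I = N - 2⌊δN⌋ ≥ (1-2δ) N` values of `h`.
* `trap_ker`: support: `1 ≤ k+h ≤ N`, so `|k| ≤ 2N` (`0 ≤ h ≤ 2N`).  Second differences: for each of the four terms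
  `P(k) = p(e k + h - c)` the second difference is `≥ 0` (convexity) and the sum over `k ∈ [A,B]` telescopes to
  `(P(B+1) - P(B)) - (P(A) - P(A-1)) ≤ e`.  So the sum is at most `4e/I ≤ 4e/(δN) = (8/δ) e/(2N)` (`I = ⌊δN⌋+1 ≥ δN`).
-/

namespace Pool.Agent.H67.VW

open Finset

theorem it_ok {δ : ℝ} {N : ℕ} (hδ : 0 < δ) (hδ1 : δ ≤ 1 / 4) (hN : 1 ≤ N) :
    1 ≤ It δ N ∧ 2 * It δ N ≤ N + 1 := by
  unfold It
  have h1 : ((⌊δ * N⌋₊ : ℕ) : ℝ) ≤ δ * N := Nat.floor_le (by positivity)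
  have h2 : ((4 * ⌊δ * N⌋₊ : ℕ) : ℝ) ≤ N := by
    push_cast
    have hN0 : (0 : ℝ) ≤ N := by positivity
    nlinarith
  have h3 : 4 * ⌊δ * N⌋₊ ≤ N := by exact_mod_cast h2
  omega

theorem trap_mem {N I : ℕ} (hI : 1 ≤ I) (hI2 : 2 * I ≤ N + 1) (x : ℤ) :
    0 ≤ trap N I x ∧ trap N I x ≤ 1 := by
  unfold trap
  have hI0 : (1 : ℝ) ≤ I := by exact_mod_cast hI
  have hI3 : 2 * (I : ℝ) ≤ N + 1 := by exact_mod_cast hI2
  constructor
  · apply div_nonneg _ (by linarith)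
    rcases max_cases (x : ℝ) 0 with h1 | h1 <;>
    rcases max_cases ((x : ℝ) - I) 0 with h2 | h2 <;>
    rcases max_cases ((x : ℝ) - (N + 1 - I)) 0 with h3 | h3 <;>
    rcases max_cases ((x : ℝ) - (N + 1)) 0 with h4 | h4 <;>
    linarith [h1.1, h1.2, h2.1, h2.2, h3.1, h3.2, h4.1, h4.2]
  · rw [div_le_one (by linarith)]
    rcases max_cases (x : ℝ) 0 with h1 | h1 <;>
    rcases max_cases ((x : ℝ) - I) 0 with h2 | h2 <;>
    rcases max_cases ((x : ℝ) - (N + 1 - I)) 0 with h3 | h3 <;>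
    rcases max_cases ((x : ℝ) - (N + 1)) 0 with h4 | h4 <;>
    linarith [h1.1, h1.2, h2.1, h2.2, h3.1, h3.2, h4.1, h4.2]

theorem trap_zero {N I : ℕ} (hI : 1 ≤ I) (hI2 : 2 * I ≤ N + 1) (x : ℤ)
    (hx : x ∉ Icc (1 : ℤ) N) : trap N I x = 0 := by
  unfold trap
  have hI0 : (1 : ℝ) ≤ I := by exact_mod_cast hI
  have hI3 : 2 * (I : ℝ) ≤ N + 1 := by exact_mod_cast hI2
  rw [mem_Icc, not_and_or, not_le, not_le] at hx
  have h0 : max (x : ℝ) 0 - max ((x : ℝ) - I) 0 - max ((x : ℝ) - (N + 1 - I)) 0 +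
    max ((x : ℝ) - (N + 1)) 0 = 0 := by
    rcases hx with hx | hx
    · have hx1 : (x : ℝ) ≤ 0 := by exact_mod_cast (by omega : x ≤ 0)
      rw [max_eq_right hx1, max_eq_right (by linarith), max_eq_right (by linarith),
        max_eq_right (by linarith)]
      ring
    · have hx1 : (N : ℝ) + 1 ≤ x := by exact_mod_cast (by omega : (N : ℤ) + 1 ≤ x)
      rw [max_eq_left (by linarith), max_eq_left (by linarith), max_eq_left (by linarith),
        max_eq_left (by linarith)]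
      ring
  rw [h0, zero_div]

private theorem trap_one {N I : ℕ} (hI : 1 ≤ I) (hI2 : 2 * I ≤ N + 1) (x : ℕ)
    (hx : I ≤ x) (hx2 : x + I ≤ N + 1) : trap N I (x : ℤ) = 1 := by
  unfold trap
  have hI0 : (1 : ℝ) ≤ I := by exact_mod_cast hI
  have hI3 : 2 * (I : ℝ) ≤ N + 1 := by exact_mod_cast hI2
  have h1 : (I : ℝ) ≤ x := by exact_mod_cast hx
  have h2 : (x : ℝ) + I ≤ N + 1 := by exact_mod_cast hx2
  rw [Int.cast_natCast, max_eq_left (by linarith), max_eq_left (by linarith),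
    max_eq_right (by linarith), max_eq_right (by linarith), div_eq_one_iff_eq (by linarith)]
  ring

theorem trap_sum {δ : ℝ} {N : ℕ} (hδ : 0 < δ) (hδ1 : δ ≤ 1 / 4) (hN : 1 ≤ N) :
    (1 - 2 * δ) * N ≤ ∑ h ∈ Icc 1 N, trap N (It δ N) ((h : ℕ) : ℤ) := by
  obtain ⟨hI, hI2⟩ := it_ok hδ hδ1 hN
  obtain ⟨I, hIe⟩ : ∃ I, I = It δ N := ⟨_, rfl⟩
  have h1 : ((⌊δ * N⌋₊ : ℕ) : ℝ) ≤ δ * N := Nat.floor_le (by positivity)
  have h2 : (I : ℝ) ≤ δ * N + 1 := by
    rw [hIe]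
    unfold It
    push_cast
    linarith
  rw [← hIe] at hI hI2 ⊢
  have h3 : ∑ h ∈ Icc I (N + 1 - I), (1 : ℝ) ≤ ∑ h ∈ Icc 1 N, trap N I ((h : ℕ) : ℤ) := by
    calc ∑ h ∈ Icc I (N + 1 - I), (1 : ℝ) = ∑ h ∈ Icc I (N + 1 - I), trap N I ((h : ℕ) : ℤ) := by
          apply sum_congr rfl
          intro h hh
          rw [mem_Icc] at hh
          rw [trap_one hI hI2 h hh.1 (by omega)]
      _ ≤ ∑ h ∈ Icc 1 N, trap N I ((h : ℕ) : ℤ) := by
          apply sum_le_sum_of_subset_of_nonneg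
          · intro h hh
            rw [mem_Icc] at hh ⊢
            omega
          · intro i _ _
            exact (trap_mem hI hI2 _).1
  refine le_trans ?_ h3
  rw [sum_const, Nat.card_Icc, nsmul_eq_mul, mul_one]
  have h4 : ((N + 1 - I + 1 - I : ℕ) : ℝ) = (N : ℝ) + 2 - 2 * I := by
    rw [eq_sub_iff_add_eq]
    have h5 : (N + 1 - I + 1 - I) + 2 * I = N + 2 := by omega
    exact_mod_cast h5
  rw [h4]
  nlinarith

private theorem trap_tel (P : ℤ → ℝ) (A : ℤ) (n : ℕ) :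
    ∑ k ∈ Icc A (A + n), (P (k + 1) - 2 * P k + P (k - 1)) =
      (P (A + n + 1) - P (A + n)) - (P A - P (A - 1)) := by
  induction n with
  | zero =>
    rw [Nat.cast_zero, add_zero, Icc_self, sum_singleton]
    ring
  | succ n ih =>
    have h1 : Icc A (A + ((n + 1 : ℕ) : ℤ)) = insert (A + n + 1) (Icc A (A + n)) := by
      ext k
      rw [mem_insert, mem_Icc, mem_Icc]
      push_cast
      omega
    have h2 : (A + (n : ℤ) + 1) ∉ Icc A (A + (n : ℤ)) := by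
      rw [mem_Icc]
      omega
    rw [h1, sum_insert h2, ih]
    have h3 : A + (n : ℤ) + 1 - 1 = A + n := by ring
    have h4 : A + (((n + 1 : ℕ)) : ℤ) = A + n + 1 := by push_cast; ring
    rw [h3, h4]
    ring

/-- a ramp -/
private noncomputable def rp (e : ℝ) (t : ℝ) (k : ℤ) : ℝ := max (e * (k : ℝ) + t) 0

private theorem rp_conv (e : ℝ) (he : 0 ≤ e) (t : ℝ) (k : ℤ) :
    0 ≤ rp e t (k + 1) - 2 * rp e t k + rp e t (k - 1) := by
  unfold rp
  push_cast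
  rcases max_cases (e * ((k : ℝ) + 1) + t) 0 with h1 | h1 <;>
  rcases max_cases (e * (k : ℝ) + t) 0 with h2 | h2 <;>
  rcases max_cases (e * ((k : ℝ) - 1) + t) 0 with h3 | h3 <;>
  linarith [h1.1, h1.2, h2.1, h2.2, h3.1, h3.2]

private theorem rp_sum (e : ℝ) (he : 0 ≤ e) (t : ℝ) (A B : ℤ) (hAB : A ≤ B) :
    ∑ k ∈ Icc A B, (rp e t (k + 1) - 2 * rp e t k + rp e t (k - 1)) ≤ e := by
  obtain ⟨n, hn⟩ : ∃ n : ℕ, B = A + n := ⟨(B - A).toNat, by omega⟩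
  rw [hn, trap_tel (rp e t) A n]
  have h1 : rp e t (A + n + 1) - rp e t (A + n) ≤ e := by
    unfold rp
    push_cast
    rcases max_cases (e * ((A : ℝ) + n + 1) + t) 0 with h1 | h1 <;>
    rcases max_cases (e * ((A : ℝ) + n) + t) 0 with h2 | h2 <;>
    linarith [h1.1, h1.2, h2.1, h2.2]
  have h2 : 0 ≤ rp e t A - rp e t (A - 1) := by
    unfold rp
    push_cast
    rcases max_cases (e * (A : ℝ) + t) 0 with h1 | h1 <;>
    rcases max_cases (e * ((A : ℝ) - 1) + t) 0 with h2 | h2 <;>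
    linarith [h1.1, h1.2, h2.1, h2.2]
  linarith

private theorem trap_rp (N I e h : ℕ) (k : ℤ) :
    trap N I ((e : ℤ) * k + (h : ℤ)) =
      (rp e h k - rp e (h - I) k - rp e (h - (N + 1 - I)) k + rp e (h - (N + 1)) k) / I := by
  unfold trap rp
  push_cast
  simp only [add_sub_assoc]

theorem trap_ker {δ : ℝ} {N h : ℕ} (hδ : 0 < δ) (hδ1 : δ ≤ 1 / 4) (hN : 1 ≤ N)
    (hh : h ≤ 2 * N) : Ker (2 * N) (8 / δ) (fun k => trap N (It δ N) (k + (h : ℤ))) := by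
  obtain ⟨hI, hI2⟩ := it_ok hδ hδ1 hN
  have hN0 : (0 : ℝ) < N := by exact_mod_cast hN
  have hIl : δ * N ≤ (It δ N : ℝ) := by
    unfold It
    push_cast
    exact (Nat.lt_floor_add_one _).le
  obtain ⟨I, hIe⟩ : ∃ I, I = It δ N := ⟨_, rfl⟩
  rw [← hIe] at hI hI2 hIl ⊢
  have hI0 : (0 : ℝ) < I := by exact_mod_cast hI
  refine ⟨by omega, ?_, ?_, ?_, ?_⟩
  · rw [le_div_iff₀ hδ]
    linarith
  · intro k
    have h1 := trap_mem hI hI2 (k + (h : ℤ))
    rw [abs_le]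
    constructor <;> linarith [h1.1, h1.2]
  · intro k hk
    have h1 : k + (h : ℤ) ∈ Icc (1 : ℤ) N := by
      by_contra h2
      exact hk (trap_zero hI hI2 _ h2)
    rw [mem_Icc] at h1
    rw [abs_le]
    push_cast
    omega
  · intro e he
    have he0 : (0 : ℝ) ≤ e := by positivity
    obtain ⟨A, hA⟩ : ∃ A : ℤ, A = -((2 * N : ℕ) : ℤ) - 1 := ⟨_, rfl⟩
    obtain ⟨B, hB⟩ : ∃ B : ℤ, B = ((2 * N : ℕ) : ℤ) + 1 := ⟨_, rfl⟩
    have hAB : A ≤ B := by
      rw [hA, hB]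
      push_cast
      omega
    rw [← hA, ← hB]
    have p1 := rp_sum e he0 (h : ℝ) A B hAB
    have p2 := rp_sum e he0 ((h : ℝ) - I) A B hAB
    have p3 := rp_sum e he0 ((h : ℝ) - (N + 1 - I)) A B hAB
    have p4 := rp_sum e he0 ((h : ℝ) - (N + 1)) A B hAB
    have hterm : ∀ k : ℤ, |trap N I ((e : ℤ) * (k + 1) + (h : ℤ)) -
        2 * trap N I ((e : ℤ) * k + (h : ℤ)) + trap N I ((e : ℤ) * (k - 1) + (h : ℤ))| ≤
        ((rp e h (k + 1) - 2 * rp e h k + rp e h (k - 1)) +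
          (rp e (h - I) (k + 1) - 2 * rp e (h - I) k + rp e (h - I) (k - 1)) +
          (rp e (h - (N + 1 - I)) (k + 1) - 2 * rp e (h - (N + 1 - I)) k +
            rp e (h - (N + 1 - I)) (k - 1)) +
          (rp e (h - (N + 1)) (k + 1) - 2 * rp e (h - (N + 1)) k +
            rp e (h - (N + 1)) (k - 1))) / I := by
      intro k
      have q1 := rp_conv e he0 (h : ℝ) k
      have q2 := rp_conv e he0 ((h : ℝ) - I) k
      have q3 := rp_conv e he0 ((h : ℝ) - (N + 1 - I)) k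
      have q4 := rp_conv e he0 ((h : ℝ) - (N + 1)) k
      rw [trap_rp, trap_rp, trap_rp]
      have e1 : ∀ a1 a2 a3 a4 b1 b2 b3 b4 c1 c2 c3 c4 : ℝ,
          (a1 - a2 - a3 + a4) / (I : ℝ) - 2 * ((b1 - b2 - b3 + b4) / I) + (c1 - c2 - c3 + c4) / I =
          ((a1 - 2 * b1 + c1) - (a2 - 2 * b2 + c2) - (a3 - 2 * b3 + c3) + (a4 - 2 * b4 + c4)) / I := by
        intros
        ring
      rw [e1, abs_div, abs_of_pos hI0]
      apply div_le_div_of_nonneg_right _ hI0.le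
      rw [abs_le]
      constructor <;> linarith
    calc ∑ k ∈ Icc A B, |trap N I ((e : ℤ) * (k + 1) + (h : ℤ)) -
        2 * trap N I ((e : ℤ) * k + (h : ℤ)) + trap N I ((e : ℤ) * (k - 1) + (h : ℤ))|
        ≤ _ := sum_le_sum fun k _ => hterm k
      _ ≤ (4 * e) / I := by
        rw [← sum_div]
        apply div_le_div_of_nonneg_right _ hI0.le
        rw [sum_add_distrib, sum_add_distrib, sum_add_distrib]
        linarith
      _ ≤ 4 * e / (δ * N) := div_le_div_of_nonneg_left (by positivity) (by positivity) hIl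
      _ = 8 / δ * e / ((2 * N : ℕ) : ℝ) := by
        push_cast
        field_simp
        ring

end Pool.Agent.H67.VW
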