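import Pool.Agent.H67.VW.Key4
import Pool.Agent.H67.VW.Sqp
import Pool.Agent.H67.VW.Fpc
import Pool.Agent.H67.VW.Cvp
import Pool.Agent.H67.VW.Trap
import Pool.Agent.H67.VW.TTs

/-!
[H67 VW PIECEV]  The inequality on an interval where the length varies by a factor 2 at most.

Proof.  `Z = Zw θ κ X`, `D = Dw d X`, `ρ = rh Z D`, `S = S1 Z D = ρ 1` (`rh_one`) `= TT ρ D 0` (`tt_zero`), `φ = trap N (It δ N)`, `g n = ∑_{h ≤ N} φ(h) FF ρ D n h`,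
`Φ = ∑_{h ≤ N} φ(h)` (`trap_sum`; `Φ ≤ N`).  `x² ≥ 2 x g - g²`: `∑ (PH - f)² ≥ 2 ∑ PH g - 2 ∑ f g - ∑ g²` over `Ioc a b`.
* `cov_piece` with `N' = 2N`, `E = (8/δ) X^(1-κ)` by `key4` (`t+h`, `b+h` in place of `t`, `T`, `b + h ≤ 2X + 2N ≤ 3X`; kernel `trap_ker`, `Y = 2N`):
  `2 ∑ PH g ≥ 2 S Φ (∑ pl - N log b) - 4 N (8/δ) X^(1-κ)`.
* `f_piece` (`rh_bd`, `rh_sum`, `K = KK D`): `2 |∑ f g| ≤ 2 N D KK D (X^(θ+κ/8) + X^(1/2+κ/4))`, `D ≤ X^d`, `d + 1/2 + κ/4 ≤ 1 - 4κ`.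
* `sq_piece`, `tt_small`: `∑ g² ≤ (b-a) (S Φ + 2N · N l^4/Z) + N² (D KK D)²`, `l = 2 + 2 log D`: `(b-a) 2N² l^4/Z ≤ N X · 4 l^4 X^(-4κ)` (`N ≤ X^θ`, `Z ≥ X^(θ+4κ)/2`),
  `N² D² l^6 ≤ N X^(θ+2d) l^6 ≤ N X^(1-10κ) l^6`.
* `S Φ N log b ≤ l² N X^θ log(2X)` (`S1_le`).
All error terms together are at most `N X^(1-κ/2)` for large `X`.
-/

namespace Pool.Agent.H67.VW

open Finset Filter Pool.Agent.H67.VS Pool.Agent.H67.VU Pool.Agent.H67.VT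

/-- logarithms are small -/
private theorem pv_log {r : ℝ} (hr : 0 < r) :
    ∀ᶠ X : ℝ in atTop, 2 + 2 * Real.log X ≤ X ^ r := by
  have h1 := (isLittleO_log_rpow_atTop hr).bound (show (0 : ℝ) < 1 / 4 by norm_num)
  have h2 : ∀ᶠ X : ℝ in atTop, (4 : ℝ) ≤ X ^ r := (tendsto_rpow_atTop hr).eventually_ge_atTop 4
  filter_upwards [h1, h2, eventually_ge_atTop 1] with X hX1 hX2 hX3
  have h3 : 0 < X ^ r := Real.rpow_pos_of_pos (by linarith) _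
  rw [Real.norm_of_nonneg (Real.log_nonneg hX3), Real.norm_of_nonneg h3.le] at hX1
  linarith

/-- the sum of the error terms -/
private theorem pv_num {θ κ d δ : ℝ} (hP : PW θ κ d) (hδ : 0 < δ) : ∀ᶠ X : ℝ in atTop,
    2 * (2 + 2 * Real.log X) ^ 3 * X ^ θ + 32 / δ * X ^ (1 - κ) +
      2 * (2 + 2 * Real.log X) ^ 3 * (X ^ (d + θ + κ / 8) + X ^ (d + 1 / 2 + κ / 4)) +
      4 * (2 + 2 * Real.log X) ^ 4 * X ^ (1 - 4 * κ) +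
      (2 + 2 * Real.log X) ^ 6 * X ^ (θ + 2 * d) ≤ X ^ (1 - κ / 2) := by
  have hθ0 := hP.θ0
  have hκ0 := hP.κ0
  have hκ1 := hP.κ1
  have hθ1 := hP.θ1
  have hup := hP.up
  have h1 := pv_log (show (0 : ℝ) < κ / 24 by positivity)
  have h2 : ∀ᶠ X : ℝ in atTop, (11 + 32 / δ : ℝ) ≤ X ^ (κ / 4) :=
    (tendsto_rpow_atTop (show (0 : ℝ) < κ / 4 by positivity)).eventually_ge_atTop _
  filter_upwards [h1, h2, eventually_ge_atTop 1] with X hX1 hX2 hX3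
  have hX0 : 0 < X := by linarith
  obtain ⟨L, hL⟩ : ∃ L : ℝ, L = 2 + 2 * Real.log X := ⟨_, rfl⟩
  rw [← hL] at hX1 ⊢
  have hL1 : 1 ≤ L := by
    have := Real.log_nonneg hX3
    linarith
  obtain ⟨P, hPe⟩ : ∃ P : ℝ, P = X ^ (1 - κ) := ⟨_, rfl⟩
  have hP0 : 0 < P := by
    rw [hPe]
    exact Real.rpow_pos_of_pos hX0 _
  have hm : ∀ e : ℝ, e ≤ 1 - κ → X ^ e ≤ P := by
    intro e he
    rw [hPe]
    exact Real.rpow_le_rpow_of_exponent_le hX3 he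
  have e1 := hm θ (by linarith)
  have e2 := hm (d + θ + κ / 8) (by linarith)
  have e3 := hm (d + 1 / 2 + κ / 4) (by linarith)
  have e4 := hm (1 - 4 * κ) (by linarith)
  have e5 := hm (θ + 2 * d) (by linarith)
  have hL3 : L ^ 3 ≤ L ^ 6 := pow_le_pow_right₀ hL1 (by norm_num)
  have hL4 : L ^ 4 ≤ L ^ 6 := pow_le_pow_right₀ hL1 (by norm_num)
  have hL6 : 1 ≤ L ^ 6 := one_le_pow₀ hL1
  have hLX : L ^ 6 ≤ X ^ (κ / 4) := by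
    calc L ^ 6 ≤ (X ^ (κ / 24)) ^ 6 := pow_le_pow_left₀ (by linarith) hX1 6
      _ = X ^ (κ / 4) := by
        rw [← Real.rpow_natCast, ← Real.rpow_mul hX0.le]
        congr 1
        push_cast
        ring
  have hq : 0 ≤ 32 / δ := by positivity
  rw [← hPe]
  calc 2 * L ^ 3 * X ^ θ + 32 / δ * P + 2 * L ^ 3 * (X ^ (d + θ + κ / 8) + X ^ (d + 1 / 2 + κ / 4)) +
        4 * L ^ 4 * X ^ (1 - 4 * κ) + L ^ 6 * X ^ (θ + 2 * d)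
      ≤ 2 * L ^ 6 * P + 32 / δ * (L ^ 6 * P) + 2 * L ^ 6 * (P + P) + 4 * L ^ 6 * P + L ^ 6 * P := by
        have f1 : P ≤ L ^ 6 * P := le_mul_of_one_le_left hP0.le hL6
        gcongr
    _ = (11 + 32 / δ) * L ^ 6 * P := by ring
    _ ≤ X ^ (κ / 4) * X ^ (κ / 4) * P := by gcongr
    _ = X ^ (1 - κ / 2) := by
        rw [hPe, ← Real.rpow_add hX0, ← Real.rpow_add hX0]
        congr 1
        ring

/-- the algebra of the final step -/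
private theorem pv_core {S Φ n lb A B PG FG Gs V E DK FT TS Xk Ms : ℝ}
    (h1 : 2 * PG - 2 * FG - Gs ≤ V)
    (h2 : S * Φ * (A - n * lb) - 2 * n * E ≤ PG)
    (h3 : |FG| ≤ n * DK * FT)
    (h4 : Gs ≤ B * (S * Φ + 2 * n * TS) + n ^ 2 * DK ^ 2)
    (h5 : 2 * (S * Φ * (n * lb)) ≤ n * Ms)
    (h6 : Ms + 4 * E + 2 * (DK * FT) + 2 * B * TS + n * DK ^ 2 ≤ Xk) (hn : 0 ≤ n) :
    S * Φ * (2 * A - B) - n * Xk ≤ V := by
  have h7 := le_abs_self FG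
  have h8 := mul_le_mul_of_nonneg_left h6 hn
  have h9 := h7.trans h3
  linarith only [h1, h2, h4, h5, h8, h9]

/-- the five error terms -/
private theorem pv_terms {θ κ d δ X N DK Z L B TS : ℝ} (hX0 : 0 < X)
    (hNX : N ≤ X ^ θ) (hDK0 : 0 ≤ DK) (hDK : DK ≤ X ^ d * L ^ 3) (hZ1 : 1 ≤ Z)
    (hZlow : X ^ (θ + 4 * κ) ≤ 2 * Z) (hB0 : 0 ≤ B) (hBX : B ≤ X)
    (hTT : TS ≤ N * L ^ 4 / Z) :
    2 * L ^ 3 * X ^ θ + 4 * (8 / δ * X ^ (1 - κ)) +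
      2 * (DK * (X ^ (θ + κ / 8) + X ^ (1 / 2 + κ / 4))) + 2 * B * TS + N * DK ^ 2 ≤
    2 * L ^ 3 * X ^ θ + 32 / δ * X ^ (1 - κ) +
      2 * L ^ 3 * (X ^ (d + θ + κ / 8) + X ^ (d + 1 / 2 + κ / 4)) +
      4 * L ^ 4 * X ^ (1 - 4 * κ) + L ^ 6 * X ^ (θ + 2 * d) := by
  have hadd : ∀ u v : ℝ, X ^ u * X ^ v = X ^ (u + v) := fun u v => (Real.rpow_add hX0 u v).symm
  have t1 : 4 * (8 / δ * X ^ (1 - κ)) = 32 / δ * X ^ (1 - κ) := by ring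
  have t2 : 2 * (DK * (X ^ (θ + κ / 8) + X ^ (1 / 2 + κ / 4))) ≤
      2 * L ^ 3 * (X ^ (d + θ + κ / 8) + X ^ (d + 1 / 2 + κ / 4)) := by
    have p1 : X ^ (d + θ + κ / 8) = X ^ d * X ^ (θ + κ / 8) := by
      rw [hadd]
      congr 1
      ring
    have p2 : X ^ (d + 1 / 2 + κ / 4) = X ^ d * X ^ (1 / 2 + κ / 4) := by
      rw [hadd]
      congr 1
      ring
    rw [p1, p2]
    have p3 : 0 ≤ X ^ (θ + κ / 8) + X ^ (1 / 2 + κ / 4) := by positivity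
    have p4 := mul_le_mul_of_nonneg_right hDK p3
    calc 2 * (DK * (X ^ (θ + κ / 8) + X ^ (1 / 2 + κ / 4))) ≤
          2 * ((X ^ d * L ^ 3) * (X ^ (θ + κ / 8) + X ^ (1 / 2 + κ / 4))) :=
            mul_le_mul_of_nonneg_left p4 (by norm_num)
      _ = _ := by ring
  have t3 : 2 * B * TS ≤ 4 * L ^ 4 * X ^ (1 - 4 * κ) := by
    have hZ0 : (0 : ℝ) < Z := by linarith
    have hL4 : 0 ≤ L ^ 4 := by positivity
    have hXk : 0 ≤ X ^ (-(4 * κ)) := by positivity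
    have q1 : N * L ^ 4 / Z ≤ 2 * L ^ 4 * X ^ (-(4 * κ)) := by
      rw [div_le_iff₀ hZ0]
      calc N * L ^ 4 ≤ X ^ θ * L ^ 4 := mul_le_mul_of_nonneg_right hNX hL4
        _ = L ^ 4 * (X ^ (-(4 * κ)) * X ^ (θ + 4 * κ)) := by
          rw [hadd, show -(4 * κ) + (θ + 4 * κ) = θ by ring]
          ring
        _ ≤ L ^ 4 * (X ^ (-(4 * κ)) * (2 * Z)) :=
          mul_le_mul_of_nonneg_left (mul_le_mul_of_nonneg_left hZlow hXk) hL4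
        _ = _ := by ring
    have q2 := hTT.trans q1
    have q3 : 0 ≤ 2 * L ^ 4 * X ^ (-(4 * κ)) := by positivity
    calc 2 * B * TS ≤ 2 * B * (2 * L ^ 4 * X ^ (-(4 * κ))) :=
          mul_le_mul_of_nonneg_left q2 (by linarith)
      _ ≤ 2 * X * (2 * L ^ 4 * X ^ (-(4 * κ))) := mul_le_mul_of_nonneg_right (by linarith) q3
      _ = 4 * L ^ 4 * (X ^ (1 : ℝ) * X ^ (-(4 * κ))) := by
          rw [Real.rpow_one]
          ring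
      _ = _ := by
          rw [hadd, show 1 + -(4 * κ) = 1 - 4 * κ by ring]
  have t4 : N * DK ^ 2 ≤ L ^ 6 * X ^ (θ + 2 * d) := by
    calc N * DK ^ 2 ≤ X ^ θ * (X ^ d * L ^ 3) ^ 2 :=
          mul_le_mul hNX (pow_le_pow_left₀ hDK0 hDK 2) (by positivity) (by positivity)
      _ = L ^ 6 * (X ^ θ * (X ^ d * X ^ d)) := by ring
      _ = _ := by
        rw [hadd, hadd, show θ + (d + d) = θ + 2 * d by ring]
  rw [t1]
  linarith only [t2, t3, t4]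

theorem piece_ineq {θ κ d δ : ℝ} (hP : PW θ κ d) (hδ : 0 < δ) (hδ1 : δ ≤ 1 / 4) :
    ∀ᶠ X : ℕ in atTop, ∀ (a b N : ℕ) (H : ℕ → ℕ) (f : ℕ → ℝ), X ≤ a → a ≤ b → b ≤ 2 * X →
    1 ≤ N → (N : ℝ) ≤ (X : ℝ) ^ θ → MonotoneOn H (Set.Icc a b) →
    (∀ n ∈ Ioc a b, N ≤ H n ∧ H n ≤ 2 * N) → FB θ κ X f →
    ∃ Φ : ℝ, (1 - 2 * δ) * N ≤ Φ ∧ Φ ≤ N ∧
      S1 (Zw θ κ X) (Dw d X) * Φ * (2 * ∑ n ∈ Ioc a b, pl n - ((b : ℝ) - a)) -
        N * (X : ℝ) ^ (1 - κ / 2) ≤ ∑ n ∈ Ioc a b, (PH (H n) n - f n) ^ 2 := by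
  have hθ0 := hP.θ0
  have hκ0 := hP.κ0
  have hκ1 := hP.κ1
  have hθ1 := hP.θ1
  have hup := hP.up
  have hlow := hP.low
  have hnat := tendsto_natCast_atTop_atTop (R := ℝ)
  have e1 : ∀ᶠ X : ℝ in atTop, (2 : ℝ) ≤ X ^ (1 - θ) :=
    (tendsto_rpow_atTop (by linarith)).eventually_ge_atTop _
  filter_upwards [key4 hP, hnat.eventually (pv_num hP hδ), hnat.eventually e1,
    eventually_ge_atTop 3] with X hkey hnum he1 hX3
  intro a b N H f hXa hab hbX hN hNX hH hHN hf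
  have hX1 : (1 : ℝ) ≤ X := by
    have : 1 ≤ X := by omega
    exact_mod_cast this
  have hX0 : (0 : ℝ) < X := by linarith
  obtain ⟨x, hx⟩ : ∃ x : ℝ, x = (X : ℝ) := ⟨_, rfl⟩
  have hN1 : (1 : ℝ) ≤ N := by exact_mod_cast hN
  obtain ⟨L, hL⟩ : ∃ L : ℝ, L = 2 + 2 * Real.log (X : ℝ) := ⟨_, rfl⟩
  rw [← hL] at hnum
  have hlogX := Real.log_nonneg hX1
  have hL2 : 2 ≤ L := by linarith
  obtain ⟨Z, hZ⟩ : ∃ Z : ℕ, Z = Zw θ κ X := ⟨_, rfl⟩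
  obtain ⟨D, hD⟩ : ∃ D : ℕ, D = Dw d X := ⟨_, rfl⟩
  rw [← hZ, ← hD] at hkey ⊢
  have hd0 : 0 ≤ d := by linarith
  have hD1 : 1 ≤ D := by
    rw [hD]
    refine Nat.le_floor ?_
    rw [Nat.cast_one]
    exact Real.one_le_rpow hX1 hd0
  have hZpos : (1 : ℝ) ≤ (X : ℝ) ^ (θ + 4 * κ) := Real.one_le_rpow hX1 (by linarith)
  have hZ1 : 1 ≤ Z := by
    rw [hZ]
    refine Nat.le_floor ?_
    rw [Nat.cast_one]
    exact hZpos
  have hDX : (D : ℝ) ≤ (X : ℝ) ^ d := by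
    rw [hD]
    exact Nat.floor_le (by positivity)
  have hDX1 : (D : ℝ) ≤ (X : ℝ) := by
    refine hDX.trans ?_
    calc (X : ℝ) ^ d ≤ (X : ℝ) ^ (1 : ℝ) := Real.rpow_le_rpow_of_exponent_le hX1 (by linarith)
      _ = X := Real.rpow_one _
  have hDXn : D ≤ X := by exact_mod_cast hDX1
  have hD1R : (1 : ℝ) ≤ D := by exact_mod_cast hD1
  have hZ1R : (1 : ℝ) ≤ Z := by exact_mod_cast hZ1
  have hZlow : (X : ℝ) ^ (θ + 4 * κ) ≤ 2 * (Z : ℝ) := by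
    have h1 : (X : ℝ) ^ (θ + 4 * κ) < (Z : ℝ) + 1 := by
      rw [hZ]
      exact Nat.lt_floor_add_one _
    linarith
  have hlD : 2 + 2 * Real.log D ≤ L := by
    have := Real.log_le_log (by linarith) hDX1
    linarith
  have hlD0 : 2 ≤ 2 + 2 * Real.log D := by
    have := Real.log_nonneg hD1R
    linarith
  -- the objects
  obtain ⟨ρ, hρ⟩ : ∃ ρ : ℕ → ℝ, ρ = rh Z D := ⟨_, rfl⟩
  obtain ⟨φ, hφ⟩ : ∃ φ : ℤ → ℝ, φ = trap N (It δ N) := ⟨_, rfl⟩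
  obtain ⟨Φ, hΦ⟩ : ∃ Φ : ℝ, Φ = ∑ h ∈ Icc 1 N, φ ((h : ℕ) : ℤ) := ⟨_, rfl⟩
  obtain ⟨S, hS⟩ : ∃ S : ℝ, S = S1 Z D := ⟨_, rfl⟩
  obtain ⟨hI1, hI2⟩ := it_ok (δ := δ) hδ hδ1 hN
  have hφm : ∀ h, 0 ≤ φ h ∧ φ h ≤ 1 := by
    intro h
    rw [hφ]
    exact trap_mem hI1 hI2 h
  have hφz : ∀ h : ℤ, h ∉ Icc (1 : ℤ) N → φ h = 0 := by
    intro h hh
    rw [hφ]
    exact trap_zero hI1 hI2 h hh
  have hΦ1 : (1 - 2 * δ) * N ≤ Φ := by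
    rw [hΦ, hφ]
    exact trap_sum hδ hδ1 hN
  have hΦ2 : Φ ≤ N := by
    rw [hΦ]
    calc ∑ h ∈ Icc 1 N, φ ((h : ℕ) : ℤ) ≤ ∑ h ∈ Icc 1 N, (1 : ℝ) :=
          sum_le_sum fun h _ => (hφm _).2
      _ = N := by
        rw [sum_const, Nat.card_Icc, nsmul_eq_mul, mul_one]
        congr 1
  have hΦ0 : 0 ≤ Φ := by
    rw [hΦ]
    exact sum_nonneg fun h _ => (hφm _).1
  refine ⟨Φ, hΦ1, hΦ2, ?_⟩
  have hρ1 : ρ 1 = S := by
    rw [hρ, hS]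
    exact rh_one Z D
  have hS0 : 0 ≤ S := by
    rw [hS]
    exact S1_nonneg Z D
  have hSL : S ≤ L ^ 2 := by
    rw [hS]
    exact (S1_le Z D).trans (pow_le_pow_left₀ (by linarith) hlD 2)
  have hKK : KK D ≤ L ^ 3 := pow_le_pow_left₀ (by linarith) hlD 3
  have hKK0 : 0 ≤ KK D := by
    unfold KK
    exact pow_nonneg (by linarith) 3
  have hρb : ∀ d, |ρ d| ≤ KK D := by
    intro d
    rw [hρ]
    exact rh_bd Z D d
  have hρs : ∑ d ∈ Icc 1 D, ρ d / (d : ℝ) = 0 := by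
    rw [hρ]
    exact rh_sum Z D hZ1
  obtain ⟨g, hg⟩ : ∃ g : ℕ → ℝ,
      g = fun n => ∑ h ∈ Icc 1 N, φ ((h : ℕ) : ℤ) * FF ρ D n ((h : ℕ) : ℤ) := ⟨_, rfl⟩
  -- covariance
  have hNX2 : 2 * (N : ℝ) ≤ (X : ℝ) := by
    have h1 : (X : ℝ) ^ θ * (X : ℝ) ^ (1 - θ) = X := by
      rw [← Real.rpow_add hX0]
      rw [show θ + (1 - θ) = (1 : ℝ) by ring, Real.rpow_one]
    have h2 : 0 < (X : ℝ) ^ θ := Real.rpow_pos_of_pos hX0 _
    calc 2 * (N : ℝ) ≤ 2 * (X : ℝ) ^ θ := by linarith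
      _ = (X : ℝ) ^ θ * 2 := by ring
      _ ≤ (X : ℝ) ^ θ * (X : ℝ) ^ (1 - θ) := mul_le_mul_of_nonneg_left he1 h2.le
      _ = X := h1
  have hNX2n : 2 * N ≤ X := by exact_mod_cast hNX2
  have hcov := cov_piece (a := a) (b := b) (N := N) (N' := 2 * N) (D := D) (H := H) (ρ := ρ)
    (E := 8 / δ * (X : ℝ) ^ (1 - κ)) (φ := φ) hD1 (hDXn.trans hXa) hab hH hHN (by omega)
    (by rw [hρ1]; exact hS0) hφm hφz (by
      intro h hh t hat htb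
      have hh2 := (mem_Icc.1 hh).2
      have hk := hkey (t + h) (b + h) (2 * N) (8 / δ) (fun k => trap N (It δ N) (k + (h : ℤ)))
        (by omega) (by omega) (by omega) (trap_ker hδ hδ1 hN hh2) (by
          push_cast
          linarith)
      rw [hφ, hρ]
      exact hk)
  have hfp := f_piece (a := a) (b := b) (N := N) (D := D) (ρ := ρ) (K := KK D)
    (F := (X : ℝ) ^ (θ + κ / 8)) (T := (X : ℝ) ^ (1 / 2 + κ / 4)) (φ := φ) hKK0 hρb hρs hφm f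
    hf.bd hf.tv
  have hsq := sq_piece (a := a) (b := b) (N := N) (D := D) (ρ := ρ) (K := KK D) (φ := φ) hab hKK0
    hρb hφm
  rw [← hΦ] at hcov hsq
  obtain ⟨TS, hTS⟩ : ∃ TS : ℝ, TS = ∑ k ∈ Ico 1 N, |TT ρ D ((k : ℕ) : ℤ)| := ⟨_, rfl⟩
  have hTT : TS ≤ N * L ^ 4 / Z := by
    rw [hTS, hρ]
    refine (tt_small Z D N hZ1).trans ?_
    have hZ0 : (0 : ℝ) < Z := by linarith
    have h1 : (2 + 2 * Real.log D) ^ 4 ≤ L ^ 4 := pow_le_pow_left₀ (by linarith) hlD 4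
    gcongr
  have hT0 : |TT ρ D 0| = S := by
    rw [hρ, tt_zero, ← hS]
    exact abs_of_nonneg hS0
  rw [hT0, ← hTS] at hsq
  rw [hρ1] at hcov
  -- assembling
  have hba0 : (0 : ℝ) ≤ (b : ℝ) - a := by
    have : (a : ℝ) ≤ b := by exact_mod_cast hab
    linarith
  have hbaX : (b : ℝ) - a ≤ X := by
    have h1 : (b : ℝ) ≤ 2 * X := by exact_mod_cast hbX
    have h2 : (X : ℝ) ≤ a := by exact_mod_cast hXa
    linarith
  have hb1 : (1 : ℝ) ≤ b := by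
    have : 1 ≤ b := by omega
    exact_mod_cast this
  have hlogb : Real.log b ≤ L := by
    have h1 : (b : ℝ) ≤ 2 * X := by exact_mod_cast hbX
    have h2 : Real.log b ≤ Real.log (2 * X) := Real.log_le_log (by linarith) h1
    rw [Real.log_mul (by norm_num) (by linarith)] at h2
    have h3 := Real.log_two_lt_d9
    linarith
  have hlogb0 : 0 ≤ Real.log b := Real.log_nonneg hb1
  have hXθ : 0 < (X : ℝ) ^ θ := Real.rpow_pos_of_pos hX0 _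
  have hL0 : 0 ≤ L := by linarith
  have hadd : ∀ u v : ℝ, (X : ℝ) ^ u * (X : ℝ) ^ v = (X : ℝ) ^ (u + v) :=
    fun u v => (Real.rpow_add hX0 u v).symm
  have hDK : (D : ℝ) * KK D ≤ (X : ℝ) ^ d * L ^ 3 := mul_le_mul hDX hKK hKK0 (by positivity)
  have hDK0 : 0 ≤ (D : ℝ) * KK D := mul_nonneg (by linarith) hKK0
  rw [← hS]
  refine pv_core (S := S) (Φ := Φ) (n := N) (lb := Real.log b) (A := ∑ n ∈ Ioc a b, pl n)
    (B := (b : ℝ) - a) (PG := ∑ n ∈ Ioc a b, PH (H n) n * g n)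
    (FG := ∑ n ∈ Ioc a b, f n * g n) (Gs := ∑ n ∈ Ioc a b, g n ^ 2)
    (E := 8 / δ * (X : ℝ) ^ (1 - κ)) (DK := D * KK D)
    (FT := (X : ℝ) ^ (θ + κ / 8) + (X : ℝ) ^ (1 / 2 + κ / 4)) (TS := TS)
    (Xk := (X : ℝ) ^ (1 - κ / 2)) (Ms := 2 * L ^ 3 * (X : ℝ) ^ θ) ?_ ?_ ?_ ?_ ?_ ?_ (by linarith)
  · rw [mul_sum, mul_sum, ← sum_sub_distrib, ← sum_sub_distrib]
    refine sum_le_sum fun n _ => ?_
    have h1 := sq_nonneg (PH (H n) n - f n - g n)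
    linarith only [h1]
  · rw [hg]
    refine le_trans (le_of_eq ?_) hcov
    push_cast
    ring
  · rw [hg]
    exact hfp
  · rw [hg]
    refine hsq.trans (le_of_eq ?_)
    ring
  · calc 2 * (S * Φ * (N * Real.log b)) ≤ 2 * (L ^ 2 * (X : ℝ) ^ θ * (N * L)) := by
          have h1 : Φ ≤ (X : ℝ) ^ θ := hΦ2.trans hNX
          gcongr
      _ = N * (2 * L ^ 3 * (X : ℝ) ^ θ) := by ring
  · exact (pv_terms hX0 hNX hDK0 hDK hZ1R hZlow hba0 hbaX hTT).trans hnum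

end Pool.Agent.H67.VW
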