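import Pool.Agent.H67.VW.Defs
import Pool.Agent.H67.VT.Phi
import Pool.Agent.H67.VS.Sel

/-!
[H67 VW RHB]  The weights `rh Z D`.

Proofs.  (Compare the private lemmas on `rv` in `Pool/Agent/H67/VT/Sel.lean`.)
* `rh_bd`: for squarefree `d ≤ D`: `d ∑_{r ≤ D squarefree, d ∣ r} 1/φ(r) = (d/φ(d)) ∑_{m} 1/φ(m)` with `r = d m`, `(d,m) = 1`,
  `m ≤ D`; `d/φ(d) ≤ 2 + 2 log D` (`VT.phi_low`), `∑_{m ≤ D} 1/φ(m) ≤ (2 + 2 log D)(1 + log D)`; (`μ(d) = 0` otherwise; `D = 0` trivial).
* `rh_div`: exchange the sums: `∑_{d, s ∣ d} μ(d) ∑_{r, d ∣ r} 1/φ(r) = ∑_{r ∈ RR} 1/φ(r) ∑_{s ∣ d ∣ r} μ(d)`; with `d = s d'`,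
  `d' ∣ r/s` coprime to `s` (`r` squarefree): the inner sum is `μ(s) ∑_{d' ∣ r/s} μ(d') = μ(s) [r = s]`.
* `rh_sum`: `s = 1`; `1 ∉ RR Z D` as `Z ≥ 1`.
* `S1_le`: `∑_{m ≤ D} 1/φ(m)` as above.
-/

namespace Pool.Agent.H67.VW

open Finset Pool.Agent.H67.VT

private theorem mem_RR {Z D r : ℕ} : r ∈ RR Z D ↔ (Z < r ∧ r ≤ D) ∧ Squarefree r := by
  unfold RR
  rw [mem_filter, mem_Ioc]

/-- a nonzero value of `rh` gives a multiple in `RR` -/
private theorem rh_ne {Z D d : ℕ} (h : rh Z D d ≠ 0) :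
    d ≠ 0 ∧ Squarefree d ∧ ∃ m ∈ RR Z D, d ∣ m := by
  refine ⟨?_, ?_, ?_⟩
  · rintro rfl
    apply h
    unfold rh
    simp
  · by_contra h1
    apply h
    unfold rh
    rw [ArithmeticFunction.moebius_eq_zero_of_not_squarefree h1]
    simp
  · by_contra h1
    apply h
    unfold rh
    have h2 : (RR Z D).filter (fun m => d ∣ m) = ∅ := by
      rw [Finset.filter_eq_empty_iff]
      intro m hm h3
      exact h1 ⟨m, hm, h3⟩
    rw [h2, Finset.sum_empty, mul_zero]

theorem rh_zero (Z D d : ℕ) (hd : d ∉ Icc 1 D) : rh Z D d = 0 := by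
  by_contra h
  obtain ⟨hd0, hsq, m0, hm0, hdm0⟩ := rh_ne h
  have hm0' := mem_RR.1 hm0
  apply hd
  rw [mem_Icc]
  exact ⟨Nat.pos_of_ne_zero hd0, (Nat.le_of_dvd (by omega) hdm0).trans hm0'.1.2⟩

theorem rh_one (Z D : ℕ) : rh Z D 1 = S1 Z D := by
  unfold rh S1
  have h1 : (RR Z D).filter (fun m => 1 ∣ m) = RR Z D := by
    apply Finset.filter_true_of_mem
    intro m _
    exact one_dvd m
  rw [h1]
  simp

theorem rh_bd (Z D d : ℕ) : |rh Z D d| ≤ KK D := by
  have hlog : 0 ≤ Real.log D := Real.log_natCast_nonneg D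
  have hK : 0 ≤ KK D := by
    unfold KK
    positivity
  by_cases h : rh Z D d = 0
  · rw [h, abs_zero]
    exact hK
  obtain ⟨hd0, hsq, m0, hm0, hdm0⟩ := rh_ne h
  have hm0' := mem_RR.1 hm0
  have hD1 : 1 ≤ D := by omega
  have hdD : d ≤ D := (Nat.le_of_dvd (by omega) hdm0).trans hm0'.1.2
  have hφ : (0 : ℝ) < (d.totient : ℝ) := by
    exact_mod_cast Nat.totient_pos.2 (Nat.pos_of_ne_zero hd0)
  have hdpos : (0 : ℝ) < (d : ℝ) := by exact_mod_cast Nat.pos_of_ne_zero hd0
  -- the inner sum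
  have hS : ∑ m ∈ (RR Z D).filter (fun m => d ∣ m), 1 / (m.totient : ℝ) ≤
      1 / (d.totient : ℝ) * (2 + 2 * Real.log D) ^ 2 := by
    have h1 : ∀ m ∈ (RR Z D).filter (fun m => d ∣ m), 1 / (m.totient : ℝ) =
        1 / (d.totient : ℝ) * (1 / ((m / d).totient : ℝ)) := by
      intro m hm
      rw [mem_filter] at hm
      obtain ⟨hm1, k, rfl⟩ := hm
      have h2 := mem_RR.1 hm1
      have h3 := Nat.squarefree_mul_iff.mp h2.2
      rw [Nat.mul_div_cancel_left k (Nat.pos_of_ne_zero hd0), Nat.totient_mul h3.1, Nat.cast_mul,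
        one_div_mul_one_div]
    rw [Finset.sum_congr rfl h1, ← Finset.mul_sum]
    have h4 : ∑ m ∈ (RR Z D).filter (fun m => d ∣ m), 1 / ((m / d).totient : ℝ) ≤
        ∑ m ∈ Icc 1 D, 1 / (m.totient : ℝ) := by
      have hinj : Set.InjOn (fun m : ℕ => m / d) ((RR Z D).filter (fun m => d ∣ m) : Finset ℕ) := by
        intro a ha b hb hab
        rw [mem_coe, mem_filter] at ha hb
        obtain ⟨_, k, rfl⟩ := ha
        obtain ⟨_, l, rfl⟩ := hb
        simp only at hab
        rw [Nat.mul_div_cancel_left k (Nat.pos_of_ne_zero hd0),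
          Nat.mul_div_cancel_left l (Nat.pos_of_ne_zero hd0)] at hab
        rw [hab]
      rw [← Finset.sum_image (f := fun k : ℕ => 1 / (k.totient : ℝ)) hinj]
      apply Finset.sum_le_sum_of_subset_of_nonneg
      · intro k hk
        rw [mem_image] at hk
        obtain ⟨m, hm, rfl⟩ := hk
        rw [mem_filter] at hm
        have h5 := mem_RR.1 hm.1
        rw [mem_Icc]
        constructor
        · exact Nat.div_pos (Nat.le_of_dvd (by omega) hm.2) (Nat.pos_of_ne_zero hd0)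
        · exact (Nat.div_le_self _ _).trans h5.1.2
      · intros
        positivity
    have h5 := h4.trans (sum_phi D hD1)
    exact mul_le_mul_of_nonneg_left h5 (by positivity)
  have hμ : |((ArithmeticFunction.moebius d : ℤ) : ℝ)| ≤ 1 := by
    have := ArithmeticFunction.abs_moebius_le_one (n := d)
    exact_mod_cast this
  have hS0 : 0 ≤ ∑ m ∈ (RR Z D).filter (fun m => d ∣ m), 1 / (m.totient : ℝ) :=
    Finset.sum_nonneg fun _ _ => by positivity
  have hd1 : (d : ℝ) ≤ (2 + 2 * Real.log D) * d.totient := by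
    refine (phi_low d (Nat.pos_of_ne_zero hd0)).trans ?_
    apply mul_le_mul_of_nonneg_right _ hφ.le
    have h6 : Real.log d ≤ Real.log D := Real.log_le_log hdpos (by exact_mod_cast hdD)
    linarith
  unfold rh
  rw [abs_mul, abs_mul, abs_of_nonneg hdpos.le, abs_of_nonneg hS0]
  calc |((ArithmeticFunction.moebius d : ℤ) : ℝ)| * (d : ℝ) *
        ∑ m ∈ (RR Z D).filter (fun m => d ∣ m), 1 / (m.totient : ℝ)
      ≤ 1 * (d : ℝ) * (1 / (d.totient : ℝ) * (2 + 2 * Real.log D) ^ 2) := by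
        apply mul_le_mul _ hS hS0 (by positivity)
        exact mul_le_mul_of_nonneg_right hμ hdpos.le
    _ ≤ 1 * ((2 + 2 * Real.log D) * d.totient) *
          (1 / (d.totient : ℝ) * (2 + 2 * Real.log D) ^ 2) := by
        apply mul_le_mul_of_nonneg_right _ (by positivity)
        linarith
    _ = KK D := by
        unfold KK
        field_simp

theorem rh_div (Z D s : ℕ) (hs : 1 ≤ s) :
    ∑ d ∈ (Icc 1 D).filter (fun d => s ∣ d), rh Z D d / (d : ℝ) =
      if s ∈ RR Z D then ((ArithmeticFunction.moebius s : ℤ) : ℝ) / (s.totient : ℝ) else 0 := by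
  classical
  rw [Finset.sum_filter]
  have h1 : ∀ d ∈ Icc 1 D, (if s ∣ d then rh Z D d / (d : ℝ) else 0) =
      ∑ m ∈ RR Z D, 1 / (m.totient : ℝ) *
        (if d ∣ m then (if s ∣ d then ((ArithmeticFunction.moebius d : ℤ) : ℝ) else 0) else 0) := by
    intro d hd
    have hd0 : (d : ℝ) ≠ 0 := by
      rw [mem_Icc] at hd
      exact_mod_cast (by omega : d ≠ 0)
    by_cases hkd : s ∣ d
    · simp only [hkd, if_true]
      unfold rh
      rw [Finset.sum_filter]
      have e1 : ((ArithmeticFunction.moebius d : ℤ) : ℝ) * d *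
          (∑ m ∈ RR Z D, if d ∣ m then 1 / (m.totient : ℝ) else 0) / d =
          (∑ m ∈ RR Z D, if d ∣ m then 1 / (m.totient : ℝ) else 0) *
            ((ArithmeticFunction.moebius d : ℤ) : ℝ) := by
        field_simp
      rw [e1, Finset.sum_mul]
      refine Finset.sum_congr rfl fun m _ => ?_
      split_ifs <;> ring
    · simp [hkd]
  rw [Finset.sum_congr rfl h1, Finset.sum_comm]
  have h2 : ∀ m ∈ RR Z D, ∑ d ∈ Icc 1 D, 1 / (m.totient : ℝ) *
      (if d ∣ m then (if s ∣ d then ((ArithmeticFunction.moebius d : ℤ) : ℝ) else 0) else 0) =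
      if m = s then ((ArithmeticFunction.moebius s : ℤ) : ℝ) / (s.totient : ℝ) else 0 := by
    intro m hm
    have hm' := mem_RR.1 hm
    rw [← Finset.mul_sum]
    have h3 : ∑ d ∈ Icc 1 D,
        (if d ∣ m then (if s ∣ d then ((ArithmeticFunction.moebius d : ℤ) : ℝ) else 0) else 0) =
        ∑ d ∈ m.divisors, (if s ∣ d then ((ArithmeticFunction.moebius d : ℤ) : ℝ) else 0) := by
      rw [← Finset.sum_filter]
      refine Finset.sum_congr ?_ fun _ _ => rfl
      ext d
      rw [mem_filter, mem_Icc, Nat.mem_divisors]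
      constructor
      · rintro ⟨_, h⟩
        exact ⟨h, by omega⟩
      · rintro ⟨h, _⟩
        exact ⟨⟨Nat.pos_of_dvd_of_pos h (by omega), (Nat.le_of_dvd (by omega) h).trans hm'.1.2⟩, h⟩
    rw [h3, Pool.Agent.H67.VS.sel_moebius hm'.2]
    split_ifs with h4
    · subst h4
      ring
    · ring
  rw [Finset.sum_congr rfl h2, Finset.sum_ite_eq' _ _ _]

theorem rh_sum (Z D : ℕ) (hZ : 1 ≤ Z) : ∑ d ∈ Icc 1 D, rh Z D d / (d : ℝ) = 0 := by
  have h := rh_div Z D 1 le_rfl
  have h1 : (Icc 1 D).filter (fun d => 1 ∣ d) = Icc 1 D := by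
    apply Finset.filter_true_of_mem
    intro m _
    exact one_dvd m
  rw [h1] at h
  rw [h, if_neg]
  intro h2
  have := (mem_RR.1 h2).1.1
  omega

theorem S1_nonneg (Z D : ℕ) : 0 ≤ S1 Z D := by
  unfold S1
  exact sum_nonneg fun r _ => by positivity

theorem S1_le (Z D : ℕ) : S1 Z D ≤ (2 + 2 * Real.log D) ^ 2 := by
  rcases Nat.eq_zero_or_pos D with h0 | h0
  · subst h0
    have h1 : RR Z 0 = ∅ := by
      ext r
      rw [mem_RR]
      constructor
      · rintro ⟨h, _⟩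
        omega
      · intro h
        simp at h
    unfold S1
    rw [h1, Finset.sum_empty]
    positivity
  · refine le_trans ?_ (sum_phi D h0)
    unfold S1
    apply Finset.sum_le_sum_of_subset_of_nonneg
    · intro r hr
      have := mem_RR.1 hr
      rw [mem_Icc]
      omega
    · intros
      positivity

end Pool.Agent.H67.VW
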