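import Pool.Agent.H67.VW.Defs

/-!
[H67 VW TRANS]  Changing the bound of the conductors.
-/

namespace Pool.Agent.H67.VW

open Finset Pool.Agent.H21.MT

theorem transport (R R' : ℕ) (f : (q : ℕ) → DirichletCharacter ℂ q → ℝ)
    (hf : ∀ q χ, 0 ≤ f q χ) (s : Finset (Ch R)) (hs : ∀ c ∈ s, c ∈ PC R ∧ c.md ≤ R') :
    ∑ c ∈ s, f (c.1.val + 1) c.2 ≤ ∑ c ∈ PC R', f (c.1.val + 1) c.2 := by
  classical
  have hlt : ∀ c : {x // x ∈ s}, c.1.1.val < R' := fun c => (hs c.1 c.2).2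
  let g : {x // x ∈ s} → Ch R' := fun c => ⟨⟨c.1.1.val, hlt c⟩, c.1.2⟩
  have hg : ∀ x ∈ s.attach, ∀ y ∈ s.attach, g x = g y → x = y := by
    rintro ⟨⟨⟨r, hr⟩, χ⟩, hx⟩ _ ⟨⟨⟨r', hr'⟩, χ'⟩, hy⟩ _ h
    have h1 : (⟨⟨r, hlt ⟨⟨⟨r, hr⟩, χ⟩, hx⟩⟩, χ⟩ : Ch R') =
        ⟨⟨r', hlt ⟨⟨⟨r', hr'⟩, χ'⟩, hy⟩⟩, χ'⟩ := h
    have h2 := congrArg (fun c : Ch R' => c.1.val) h1
    simp only at h2
    subst h2
    have h3 : χ = χ' := by
      have := (Sigma.mk.inj_iff.1 h1).2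
      exact eq_of_heq this
    subst h3
    rfl
  calc ∑ c ∈ s, f (c.1.val + 1) c.2 = ∑ c ∈ s.attach, f (c.1.1.val + 1) c.1.2 :=
        (sum_attach s fun c => f (c.1.val + 1) c.2).symm
    _ = ∑ c ∈ s.attach.image g, f (c.1.val + 1) c.2 := by
        rw [sum_image hg]
    _ ≤ ∑ c ∈ PC R', f (c.1.val + 1) c.2 := by
        refine sum_le_sum_of_subset_of_nonneg ?_ fun c _ _ => hf _ _
        intro c hc
        rw [mem_image] at hc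
        obtain ⟨x, _, rfl⟩ := hc
        have h1 := (hs x.1 x.2).1
        rw [PC, mem_filter] at h1 ⊢
        exact ⟨mem_univ _, h1.2.1, h1.2.2⟩

end Pool.Agent.H67.VW
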