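import Pool.Agent.H67.VW.CutK
import Pool.Agent.H67.VU.Th

/-!
[H67 VW TYK]  Sums of type II with a sharp cut-off and an additional factor `Kc B`.

Proof.  Copy `ty_cut` of `Pool/Agent/H67/VU/TyC.lean` (same dyadic blocks `(M,2M]`, `M = 2^i u`, `M u ≤ T`, `k ∈ (u, T/M]`, empty otherwise),
`l = 1 + log T`; all logarithms `1 + log (..)` occurring are `≤ 3 l` (`B ≤ T`), `s ≤ 3 l`, at most `2 l` blocks.
Blocks with `M^2 ≤ T`: `bil_cutK` (`M2 = 2M`, `‖a m‖ ≤ α`), bound, up to a constant times `α β l^(1+3/2)`: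
`√((MB+R²)(MB)) √((T/M+R²)(T/M)) = √(BT) √(BT + R²MB + R²T/M + R⁴) ≤ BT + R B √(MT) + R T √(B/M) + R² √(BT)`,
`√(MT) ≤ T^(3/4)`, `√(B/M) ≤ √B/√u`.
Blocks with `M^2 > T`: `bil_cutK2` (`N2 = T/M`, `‖b k‖ ≤ β`): `√((BT/M+R²)(BT/M)) √((M+R²) M) = √(BT) √(BT + R²BT/M + R²M + R⁴)
≤ BT + R B √(T·T/M) + R √(BTM) + R² √(BT)`, `T/M < √T`, `M ≤ T/u`: `R √(BTM) ≤ R T √B/√u`.
All are `≤ B PB R u T + √B QB R u T`.
-/

namespace Pool.Agent.H67.VW

open Finset Pool.Agent.H21.MT Pool.Agent.H67.VU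

private theorem tyk_blk (f : ℕ → ℂ) (u : ℕ) (hu : 1 ≤ u) (J : ℕ) :
    ∑ m ∈ Ioc u (2 ^ J * u), f m =
      ∑ i ∈ range J, ∑ m ∈ Ioc (2 ^ i * u) (2 * (2 ^ i * u)), f m := by
  induction J with
  | zero => simp
  | succ J ih =>
    rw [Finset.sum_range_succ, ← ih]
    have e : 2 * (2 ^ J * u) = 2 ^ (J + 1) * u := by ring
    rw [e, Finset.sum_Ioc_consecutive]
    · calc u = 1 * u := (one_mul u).symm
        _ ≤ 2 ^ J * u := Nat.mul_le_mul_right u Nat.one_le_two_pow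
    · exact Nat.mul_le_mul_right u (Nat.pow_le_pow_right (by norm_num) (by omega))

private theorem tyk_log {T : ℕ} (hT : 1 ≤ T) :
    ((Nat.log 2 T : ℕ) : ℝ) ≤ 2 * Real.log T := by
  have h1 : 2 ^ Nat.log 2 T ≤ T := Nat.pow_log_le_self 2 (by omega)
  have h2 : ((2 : ℝ) ^ Nat.log 2 T) ≤ T := by exact_mod_cast h1
  have h3 := Real.log_le_log (by positivity) h2
  rw [Real.log_pow] at h3
  have h4 : (0.6931471803 : ℝ) < Real.log 2 := Real.log_two_gt_d9
  have h5 : (0 : ℝ) ≤ (Nat.log 2 T : ℝ) := Nat.cast_nonneg _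
  nlinarith

/-- the square of the right hand side dominates the four terms -/
private theorem tyk_sq {B T u R : ℝ} (hB : 0 ≤ B) (hT : 0 < T) (hu : 0 < u) (hR : 0 ≤ R) :
    B ^ 2 * T ^ 2 + B ^ 2 * R ^ 2 * (T * Real.sqrt T) + B * R ^ 2 * T * (T / u) +
      B * T * R ^ 4 ≤ (B * PB R u T + Real.sqrt B * QB R u T) ^ 2 := by
  have hsB2 : Real.sqrt B ^ 2 = B := Real.sq_sqrt hB
  have hsT2 : Real.sqrt T ^ 2 = T := Real.sq_sqrt hT.le
  have hsu2 : Real.sqrt u ^ 2 = u := Real.sq_sqrt hu.le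
  have hT34 : (T ^ (3 / 4 : ℝ)) ^ 2 = T * Real.sqrt T := by
    rw [← Real.rpow_natCast, ← Real.rpow_mul hT.le, Real.sqrt_eq_rpow]
    nth_rewrite 2 [← Real.rpow_one T]
    rw [← Real.rpow_add hT]
    norm_num
  have hT34' : 0 ≤ T ^ (3 / 4 : ℝ) := Real.rpow_nonneg hT.le _
  obtain ⟨a1, ha1⟩ : ∃ x : ℝ, x = B * T := ⟨_, rfl⟩
  obtain ⟨a2, ha2⟩ : ∃ x : ℝ, x = B * (R * T ^ (3 / 4 : ℝ)) := ⟨_, rfl⟩
  obtain ⟨a3, ha3⟩ : ∃ x : ℝ, x = Real.sqrt B * (R * T / Real.sqrt u) := ⟨_, rfl⟩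
  obtain ⟨a4, ha4⟩ : ∃ x : ℝ, x = Real.sqrt B * (R ^ 2 * Real.sqrt T) := ⟨_, rfl⟩
  have p1 : 0 ≤ a1 := by rw [ha1]; positivity
  have p2 : 0 ≤ a2 := by rw [ha2]; positivity
  have p3 : 0 ≤ a3 := by rw [ha3]; positivity
  have p4 : 0 ≤ a4 := by rw [ha4]; positivity
  have hle : a1 + a2 + a3 + a4 ≤ B * PB R u T + Real.sqrt B * QB R u T := by
    unfold PB QB
    have r1 : 0 ≤ B * (R * Real.sqrt R * u) := by positivity
    have r2 : 0 ≤ Real.sqrt B * (R ^ 2 * Real.sqrt R * u) := by positivity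
    rw [ha1, ha2, ha3, ha4]
    nlinarith
  have hsq : (a1 + a2 + a3 + a4) ^ 2 ≤ (B * PB R u T + Real.sqrt B * QB R u T) ^ 2 :=
    pow_le_pow_left₀ (by positivity) hle 2
  refine le_trans ?_ hsq
  have s1 : a1 ^ 2 = B ^ 2 * T ^ 2 := by rw [ha1]; ring
  have s2 : a2 ^ 2 = B ^ 2 * R ^ 2 * (T * Real.sqrt T) := by
    rw [ha2, mul_pow, mul_pow, hT34]
    ring
  have s3 : a3 ^ 2 = B * R ^ 2 * T * (T / u) := by
    rw [ha3, mul_pow, hsB2, div_pow, hsu2]
    ring
  have s4 : a4 ^ 2 = B * T * R ^ 4 := by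
    rw [ha4, mul_pow, hsB2, mul_pow, hsT2]
    ring
  rw [← s1, ← s2, ← s3, ← s4]
  have q1 := mul_nonneg p1 p2
  have q2 := mul_nonneg p1 p3
  have q3 := mul_nonneg p1 p4
  have q4 := mul_nonneg p2 p3
  have q5 := mul_nonneg p2 p4
  have q6 := mul_nonneg p3 p4
  nlinarith

/-- the numerical inequality for the blocks with small `M` -/
private theorem tyk_num1 {M T u R B : ℝ} (hu : 1 ≤ u) (hM : u ≤ M) (hMT : M ^ 2 ≤ T)
    (hR : 0 ≤ R) (hB : 0 ≤ B) :
    (2 * M * B + R ^ 2) * (2 * M * B) * ((T / M + R ^ 2) * (T / M)) ≤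
      4 * (B * PB R u T + Real.sqrt B * QB R u T) ^ 2 := by
  have hu0 : 0 < u := by linarith
  have hM0 : 0 < M := by linarith
  have hT0 : 0 < T := lt_of_lt_of_le (by positivity) hMT
  have h1 : (2 * M * B + R ^ 2) * (2 * M * B) * ((T / M + R ^ 2) * (T / M)) =
      4 * (B ^ 2 * T ^ 2) + 4 * (B ^ 2 * R ^ 2) * (T * M) + 2 * (B * R ^ 2 * T) * (T / M) +
        2 * (B * T * R ^ 4) := by
    field_simp
    ring
  have h2 : M ≤ Real.sqrt T := Real.le_sqrt_of_sq_le hMT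
  have h3 : T / M ≤ T / u := div_le_div_of_nonneg_left hT0.le hu0 hM
  have h4 := tyk_sq hB hT0 hu0 hR
  have h5 : 4 * (B ^ 2 * R ^ 2) * (T * M) ≤ 4 * (B ^ 2 * R ^ 2) * (T * Real.sqrt T) :=
    mul_le_mul_of_nonneg_left (mul_le_mul_of_nonneg_left h2 hT0.le) (by positivity)
  have h6 : 2 * (B * R ^ 2 * T) * (T / M) ≤ 2 * (B * R ^ 2 * T) * (T / u) :=
    mul_le_mul_of_nonneg_left h3 (by positivity)
  have h7 : 0 ≤ B * R ^ 2 * T * (T / u) := by positivity
  have h8 : 0 ≤ B * T * R ^ 4 := by positivity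
  rw [h1]
  linarith

/-- the numerical inequality for the blocks with large `M` -/
private theorem tyk_num2 {M T u R B : ℝ} (hu : 1 ≤ u) (hM : u ≤ M) (hMT : T ≤ M ^ 2)
    (hMu : M * u ≤ T) (hR : 0 ≤ R) (hB : 0 ≤ B) :
    (T / M * B + R ^ 2) * (T / M * B) * ((M + R ^ 2) * M) ≤
      4 * (B * PB R u T + Real.sqrt B * QB R u T) ^ 2 := by
  have hu0 : 0 < u := by linarith
  have hM0 : 0 < M := by linarith
  have hT0 : 0 < T := lt_of_lt_of_le (by positivity) hMu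
  have h1 : (T / M * B + R ^ 2) * (T / M * B) * ((M + R ^ 2) * M) =
      B ^ 2 * T ^ 2 + B ^ 2 * R ^ 2 * (T * (T / M)) + B * R ^ 2 * T * M +
        B * T * R ^ 4 := by
    field_simp
    ring
  have hs : Real.sqrt T ≤ M := Real.sqrt_le_iff.2 ⟨hM0.le, hMT⟩
  have hs0 : 0 < Real.sqrt T := Real.sqrt_pos.2 hT0
  have h2 : T / M ≤ Real.sqrt T := by
    rw [div_le_iff₀ hM0]
    calc T = Real.sqrt T * Real.sqrt T := (Real.mul_self_sqrt hT0.le).symm
      _ ≤ Real.sqrt T * M := mul_le_mul_of_nonneg_left hs hs0.le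
  have h3 : M ≤ T / u := by
    rw [le_div_iff₀ hu0]
    exact hMu
  have h4 := tyk_sq hB hT0 hu0 hR
  have h5 : B ^ 2 * R ^ 2 * (T * (T / M)) ≤ B ^ 2 * R ^ 2 * (T * Real.sqrt T) :=
    mul_le_mul_of_nonneg_left (mul_le_mul_of_nonneg_left h2 hT0.le) (by positivity)
  have h6 : B * R ^ 2 * T * M ≤ B * R ^ 2 * T * (T / u) :=
    mul_le_mul_of_nonneg_left h3 (by positivity)
  have h7 : 0 ≤ (B * PB R u T + Real.sqrt B * QB R u T) ^ 2 := sq_nonneg _
  rw [h1]
  linarith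

/-- from the squares to the product of the square roots -/
private theorem tyk_sqrt {P Q α β L W x y : ℝ} (hP : 0 ≤ P) (hQ : 0 ≤ Q) (hα : 0 ≤ α)
    (hβ : 0 ≤ β) (hW : 0 ≤ W) (hL : 0 ≤ L) (hPQ : P * Q ≤ 4 * W ^ 2)
    (hx : x ≤ P * (α ^ 2 * L ^ 4 * 9)) (hy : y ≤ Q * β ^ 2) :
    Real.sqrt x * Real.sqrt y ≤ 6 * α * β * L ^ 2 * W := by
  have h1 : Real.sqrt x * Real.sqrt y ≤
      Real.sqrt (P * (α ^ 2 * L ^ 4 * 9)) * Real.sqrt (Q * β ^ 2) :=
    mul_le_mul (Real.sqrt_le_sqrt hx) (Real.sqrt_le_sqrt hy) (Real.sqrt_nonneg _)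
      (Real.sqrt_nonneg _)
  refine h1.trans ?_
  rw [← Real.sqrt_mul (by positivity)]
  apply Real.sqrt_le_iff.2
  refine ⟨by positivity, ?_⟩
  have h2 : P * (α ^ 2 * L ^ 4 * 9) * (Q * β ^ 2) = (P * Q) * (α ^ 2 * L ^ 4 * 9 * β ^ 2) := by
    ring
  rw [h2]
  calc (P * Q) * (α ^ 2 * L ^ 4 * 9 * β ^ 2) ≤ (4 * W ^ 2) * (α ^ 2 * L ^ 4 * 9 * β ^ 2) :=
        mul_le_mul_of_nonneg_right hPQ (by positivity)
    _ = (6 * α * β * L ^ 2 * W) ^ 2 := by ring

private theorem tyk_l {T : ℕ} (hT : 1 ≤ T) {n : ℕ} (hn1 : 1 ≤ n) (hn : (n : ℝ) ≤ 2 * (T : ℝ) ^ 2) :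
    (1 + Real.log (n : ℝ)) ^ 3 ≤ 9 * (1 + Real.log T) ^ 4 := by
  have hT0 : (0 : ℝ) < T := by exact_mod_cast hT
  have hlogT : 0 ≤ Real.log T := Real.log_nonneg (by exact_mod_cast hT)
  have hn0 : (0 : ℝ) < n := by exact_mod_cast hn1
  have h1 : Real.log (n : ℝ) ≤ Real.log 2 + 2 * Real.log T := by
    have h2 := Real.log_le_log hn0 hn
    rwa [Real.log_mul (by norm_num) (by positivity), Real.log_pow, Nat.cast_ofNat] at h2
  have h3 : Real.log 2 < 0.6931471808 := Real.log_two_lt_d9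
  have h4 : 0 ≤ Real.log (n : ℝ) := Real.log_nonneg (by exact_mod_cast hn1)
  have h5 : 1 + Real.log (n : ℝ) ≤ 2 * (1 + Real.log T) := by linarith
  have h6 : (1 + Real.log (n : ℝ)) ^ 3 ≤ (2 * (1 + Real.log T)) ^ 3 :=
    pow_le_pow_left₀ (by linarith) h5 3
  obtain ⟨l, hl⟩ : ∃ l : ℝ, l = 1 + Real.log T := ⟨_, rfl⟩
  rw [← hl] at h6 ⊢
  have hl1 : 1 ≤ l := by rw [hl]; linarith
  refine h6.trans ?_
  have h7 : 0 ≤ l ^ 3 := by positivity
  nlinarith

theorem ty_cutK : ∃ C : ℝ, 0 < C ∧ ∀ (R u T B : ℕ), 1 ≤ u → 1 ≤ T → 1 ≤ B → B ≤ T →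
    ∀ (a b : ℕ → ℝ) (α β : ℝ),
    (∀ m, u < m → m ≤ T → |a m| ≤ α) → (∀ k, u < k → k ≤ T → |b k| ≤ β) → 0 ≤ α → 0 ≤ β →
    ∑ c ∈ PC R, ‖thG u T a b c.2‖ * ‖Kc B c.2‖ ≤
      C * α * β * (1 + Real.log T) ^ 4 * (B * PB R u T + Real.sqrt B * QB R u T) := by
  obtain ⟨C1, hC1, hbil1⟩ := bil_cutK
  obtain ⟨C2, hC2, hbil2⟩ := bil_cutK2
  obtain ⟨C, hCdef⟩ : ∃ C : ℝ, C = C1 + C2 := ⟨_, rfl⟩
  have hC : 0 < C := by rw [hCdef]; linarith
  refine ⟨36 * C, by positivity, ?_⟩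
  intro R u T B hu hT hB hBT a b α β ha hb hα hβ
  obtain ⟨J, hJ⟩ : ∃ J : ℕ, J = Nat.log 2 T + 1 := ⟨_, rfl⟩
  have hTJ : T < 2 ^ J := by
    rw [hJ]
    exact Nat.lt_pow_succ_log_self (by norm_num) T
  have hT0 : (0 : ℝ) < T := by exact_mod_cast hT
  have hlogT : 0 ≤ Real.log T := Real.log_nonneg (by exact_mod_cast hT)
  have hJ2 : (J : ℝ) ≤ 2 * (1 + Real.log T) := by
    have := tyk_log hT
    rw [hJ]
    push_cast
    linarith
  obtain ⟨W, hW⟩ : ∃ W : ℝ, W = (B * PB R u T + Real.sqrt B * QB R u T) := ⟨_, rfl⟩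
  have hW0 : 0 ≤ W := by
    rw [hW]
    unfold PB QB
    have := Real.rpow_nonneg hT0.le (3 / 4 : ℝ)
    positivity
  have hur : (1 : ℝ) ≤ u := by exact_mod_cast hu
  have hR0 : (0 : ℝ) ≤ R := Nat.cast_nonneg R
  have hBr : (1 : ℝ) ≤ B := by exact_mod_cast hB
  have hB0 : (0 : ℝ) ≤ B := by linarith
  have hBTr : (B : ℝ) ≤ T := by exact_mod_cast hBT
  have hblock : ∀ i ∈ range J, ∑ c ∈ PC R, ‖∑ m ∈ Ioc (2 ^ i * u) (2 * (2 ^ i * u)),
      ((a m : ℝ) : ℂ) * ∑ k ∈ Ioc u (T / m), ((b k : ℝ) : ℂ) *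
        c.2 ((m * k : ℕ) : ZMod (c.1.val + 1))‖ * ‖Kc B c.2‖ ≤
        18 * C * (1 + Real.log T) ^ 3 * (α * β * W) := by
    intro i _
    obtain ⟨M, hM⟩ : ∃ M : ℕ, M = 2 ^ i * u := ⟨_, rfl⟩
    rw [← hM]
    have hMu : u ≤ M := by
      rw [hM]
      calc u = 1 * u := (one_mul u).symm
        _ ≤ 2 ^ i * u := Nat.mul_le_mul_right u Nat.one_le_two_pow
    have hM1 : 1 ≤ M := by omega
    by_cases hMT : M * u ≤ T
    · have hN : u ≤ T / M := by
        rw [Nat.le_div_iff_mul_le (by omega), mul_comm]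
        exact hMT
      have hMleT : M ≤ T := by
        calc M = M * 1 := (mul_one M).symm
          _ ≤ M * u := Nat.mul_le_mul_left _ hu
          _ ≤ T := hMT
      have e1 : ∀ c : Ch R, (∑ m ∈ Ioc M (2 * M), ∑ k ∈ Ioc u (T / M),
          if m * k ≤ T then (if m ≤ T then ((a m : ℝ) : ℂ) else 0) * ((b k : ℝ) : ℂ) *
            c.2 ((m * k : ℕ) : ZMod (c.1.val + 1)) else 0) =
          ∑ m ∈ Ioc M (2 * M), ((a m : ℝ) : ℂ) * ∑ k ∈ Ioc u (T / m), ((b k : ℝ) : ℂ) *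
            c.2 ((m * k : ℕ) : ZMod (c.1.val + 1)) := by
        intro c
        refine Finset.sum_congr rfl fun m hm => ?_
        rw [mem_Ioc] at hm
        have hm0 : 0 < m := by omega
        rw [Finset.mul_sum, ← Finset.sum_filter]
        have hset : (Ioc u (T / M)).filter (fun k => m * k ≤ T) = Ioc u (T / m) := by
          ext k
          rw [mem_filter, mem_Ioc, mem_Ioc]
          constructor
          · rintro ⟨h1, h2⟩
            refine ⟨h1.1, ?_⟩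
            rw [Nat.le_div_iff_mul_le hm0, mul_comm]
            exact h2
          · rintro ⟨h1, h2⟩
            have h3 : T / m ≤ T / M := Nat.div_le_div_left (by omega) (by omega)
            rw [Nat.le_div_iff_mul_le hm0, mul_comm] at h2
            refine ⟨⟨h1, ?_⟩, h2⟩
            refine le_trans ?_ h3
            rw [Nat.le_div_iff_mul_le hm0, mul_comm]
            exact h2
        rw [hset]
        refine Finset.sum_congr rfl fun k hk => ?_
        rw [mem_Ioc] at hk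
        have hmT : m ≤ T := by
          by_contra hcon
          have : T / m = 0 := Nat.div_eq_of_lt (by omega)
          omega
        rw [if_pos hmT]
        ring
      have hMr : (1 : ℝ) ≤ M := by exact_mod_cast hM1
      have hMur : (u : ℝ) ≤ M := by exact_mod_cast hMu
      have hMTr : (M : ℝ) * u ≤ T := by exact_mod_cast hMT
      have hMleTr : (M : ℝ) ≤ T := by exact_mod_cast hMleT
      have hN1 : 1 ≤ T / M := le_trans hu hN
      have hNr : ((T / M : ℕ) : ℝ) ≤ (T : ℝ) / M := Nat.cast_div_le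
      have hNr0 : (0 : ℝ) ≤ (T : ℝ) / M := by positivity
      have haM : ∀ m ∈ Ioc M (2 * M), ‖(if m ≤ T then ((a m : ℝ) : ℂ) else 0)‖ ≤ α := by
        intro m hm
        rw [mem_Ioc] at hm
        split_ifs with h
        · rw [Complex.norm_real, Real.norm_eq_abs]
          exact ha m (by omega) h
        · rw [norm_zero]
          exact hα
      have hbN : ∀ k ∈ Ioc u (T / M), ‖((b k : ℝ) : ℂ)‖ ≤ β := by
        intro k hk
        rw [mem_Ioc] at hk
        rw [Complex.norm_real, Real.norm_eq_abs]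
        exact hb k hk.1 (hk.2.trans (Nat.div_le_self T M))
      have hs0 : (((J + 1 : ℕ) : ℝ)) ≤ 3 * (1 + Real.log T) := by
        push_cast
        linarith
      have hfin : ∀ C' x : ℝ, 0 < C' → C' ≤ C → x ≤ 6 * α * β * (1 + Real.log T) ^ 2 * W →
          C' * ((J + 1 : ℕ) : ℝ) * x ≤ 18 * C * (1 + Real.log T) ^ 3 * (α * β * W) := by
        intro C' x hC' hC'C hx
        have h1 : C' * ((J + 1 : ℕ) : ℝ) ≤ C * (3 * (1 + Real.log T)) :=
          mul_le_mul hC'C hs0 (Nat.cast_nonneg _) hC.le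
        calc C' * ((J + 1 : ℕ) : ℝ) * x
            ≤ C' * ((J + 1 : ℕ) : ℝ) * (6 * α * β * (1 + Real.log T) ^ 2 * W) :=
              mul_le_mul_of_nonneg_left hx (by positivity)
          _ ≤ C * (3 * (1 + Real.log T)) * (6 * α * β * (1 + Real.log T) ^ 2 * W) :=
              mul_le_mul_of_nonneg_right h1 (by positivity)
          _ = 18 * C * (1 + Real.log T) ^ 3 * (α * β * W) := by ring
      by_cases hM2 : M ^ 2 ≤ T
      · -- small `M`
        have hs : T / M + 1 < 2 ^ (J + 1) := by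
          have h1 : T / M ≤ T := Nat.div_le_self T M
          rw [pow_succ]
          omega
        have key := hbil1 R M (2 * M) u (T / M) T (J + 1) B (by omega) hN hs
          (fun m => if m ≤ T then ((a m : ℝ) : ℂ) else 0) (fun k => ((b k : ℝ) : ℂ)) α hα haM
        simp only [e1] at key
        refine key.trans ?_
        apply hfin C1 _ hC1 (by rw [hCdef]; linarith)
        have hM2r : (M : ℝ) ^ 2 ≤ T := by exact_mod_cast hM2
        have hnum := tyk_num1 hur hMur hM2r hR0 hB0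
        rw [← hW] at hnum
        have hL9 : (1 + Real.log ((2 * M * B : ℕ) : ℝ)) ^ 3 ≤ 9 * (1 + Real.log T) ^ 4 := by
          apply tyk_l hT
          · exact Nat.mul_pos (by omega) (by omega)
          · push_cast
            have : (M : ℝ) * B ≤ T * T := mul_le_mul hMleTr hBTr hB0 hT0.le
            nlinarith
        have hB2 : ∑ k ∈ Ioc u (T / M), ‖((b k : ℝ) : ℂ)‖ ^ 2 ≤ (T : ℝ) / M * β ^ 2 := by
          calc ∑ k ∈ Ioc u (T / M), ‖((b k : ℝ) : ℂ)‖ ^ 2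
              ≤ ∑ _k ∈ Ioc u (T / M), β ^ 2 :=
                Finset.sum_le_sum fun k hk => pow_le_pow_left₀ (norm_nonneg _) (hbN k hk) 2
            _ = ((T / M - u : ℕ) : ℝ) * β ^ 2 := by
                rw [Finset.sum_const, Nat.card_Ioc, nsmul_eq_mul]
            _ ≤ (T : ℝ) / M * β ^ 2 := by
                apply mul_le_mul_of_nonneg_right _ (by positivity)
                have h1 : ((T / M - u : ℕ) : ℝ) ≤ ((T / M : ℕ) : ℝ) := by
                  exact_mod_cast Nat.sub_le _ _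
                exact h1.trans hNr
        refine tyk_sqrt (P := (2 * M * B + (R : ℝ) ^ 2) * (2 * M * B))
          (Q := ((T : ℝ) / M + (R : ℝ) ^ 2) * ((T : ℝ) / M)) (by positivity) (by positivity) hα hβ
          hW0 (by linarith) hnum ?_ ?_
        · have e2 : ((2 * M * B : ℕ) : ℝ) = 2 * M * B := by push_cast; ring
          rw [e2] at hL9 ⊢
          have h1 : 0 ≤ (2 * (M : ℝ) * B + (R : ℝ) ^ 2) * (α ^ 2 * (2 * M * B)) := by positivity
          calc (2 * (M : ℝ) * B + (R : ℝ) ^ 2) * (α ^ 2 * (2 * M * B *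
                (1 + Real.log (2 * M * B)) ^ 3))
              = ((2 * (M : ℝ) * B + (R : ℝ) ^ 2) * (α ^ 2 * (2 * M * B))) *
                (1 + Real.log (2 * M * B)) ^ 3 := by ring
            _ ≤ ((2 * (M : ℝ) * B + (R : ℝ) ^ 2) * (α ^ 2 * (2 * M * B))) *
                (9 * (1 + Real.log T) ^ 4) := mul_le_mul_of_nonneg_left hL9 h1
            _ = _ := by ring
        · calc (((T / M : ℕ) : ℝ) - u + (R : ℝ) ^ 2) * ∑ k ∈ Ioc u (T / M), ‖((b k : ℝ) : ℂ)‖ ^ 2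
              ≤ ((T : ℝ) / M + (R : ℝ) ^ 2) * ((T : ℝ) / M * β ^ 2) := by
                apply mul_le_mul _ hB2 (Finset.sum_nonneg fun _ _ => by positivity) (by positivity)
                linarith
            _ = _ := by ring
      · -- large `M`
        have hs : 2 * M + 1 < 2 ^ (J + 1) := by
          rw [pow_succ]
          omega
        have key := hbil2 R M (2 * M) u (T / M) T (J + 1) B (by omega) hN hs
          (fun m => if m ≤ T then ((a m : ℝ) : ℂ) else 0) (fun k => ((b k : ℝ) : ℂ)) β hβ hbN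
        simp only [e1] at key
        refine key.trans ?_
        apply hfin C2 _ hC2 (by rw [hCdef]; linarith)
        have hM2r : (T : ℝ) ≤ (M : ℝ) ^ 2 := by
          have : T ≤ M ^ 2 := by omega
          exact_mod_cast this
        have hnum := tyk_num2 hur hMur hM2r hMTr hR0 hB0
        rw [← hW] at hnum
        have hNB : ((T / M * B : ℕ) : ℝ) ≤ (T : ℝ) / M * B := by
          rw [Nat.cast_mul]
          exact mul_le_mul_of_nonneg_right hNr hB0
        have hTM : (T : ℝ) / M ≤ T := div_le_self hT0.le hMr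
        have hL9 : (1 + Real.log ((T / M * B : ℕ) : ℝ)) ^ 3 ≤ 9 * (1 + Real.log T) ^ 4 := by
          apply tyk_l hT
          · exact Nat.mul_pos (by omega) (by omega)
          · refine hNB.trans ?_
            have : (T : ℝ) / M * B ≤ T * T := mul_le_mul hTM hBTr hB0 hT0.le
            nlinarith
        have hA2 : ∑ m ∈ Ioc M (2 * M), ‖(if m ≤ T then ((a m : ℝ) : ℂ) else 0)‖ ^ 2 ≤
            M * α ^ 2 := by
          calc ∑ m ∈ Ioc M (2 * M), ‖(if m ≤ T then ((a m : ℝ) : ℂ) else 0)‖ ^ 2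
              ≤ ∑ _m ∈ Ioc M (2 * M), α ^ 2 :=
                Finset.sum_le_sum fun m hm => pow_le_pow_left₀ (norm_nonneg _) (haM m hm) 2
            _ = M * α ^ 2 := by
                rw [Finset.sum_const, Nat.card_Ioc, nsmul_eq_mul]
                congr 2
                omega
        have hgoal := tyk_sqrt (P := ((T : ℝ) / M * B + (R : ℝ) ^ 2) * ((T : ℝ) / M * B))
          (Q := ((M : ℝ) + (R : ℝ) ^ 2) * M) (α := β) (β := α) (W := W)
          (L := 1 + Real.log T)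
          (x := ((T / M * B : ℕ) : ℝ) + (R : ℝ) ^ 2 |> fun z => z * (β ^ 2 * ((T / M * B : ℕ) *
            (1 + Real.log ((T / M * B : ℕ) : ℝ)) ^ 3)))
          (y := (((2 * M : ℕ) : ℝ) - M + (R : ℝ) ^ 2) *
            ∑ m ∈ Ioc M (2 * M), ‖(if m ≤ T then ((a m : ℝ) : ℂ) else 0)‖ ^ 2)
          (by positivity) (by positivity) hβ hα hW0 (by linarith) hnum ?_ ?_
        · refine le_trans hgoal (le_of_eq ?_)
          ring
        · show (((T / M * B : ℕ) : ℝ) + (R : ℝ) ^ 2) * (β ^ 2 * (((T / M * B : ℕ) : ℝ) *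
            (1 + Real.log ((T / M * B : ℕ) : ℝ)) ^ 3)) ≤ _
          have h0 : (0 : ℝ) ≤ ((T / M * B : ℕ) : ℝ) := Nat.cast_nonneg _
          have h1 : 0 ≤ (((T / M * B : ℕ) : ℝ) + (R : ℝ) ^ 2) *
            (β ^ 2 * ((T / M * B : ℕ) : ℝ)) := by positivity
          calc (((T / M * B : ℕ) : ℝ) + (R : ℝ) ^ 2) * (β ^ 2 * (((T / M * B : ℕ) : ℝ) *
                (1 + Real.log ((T / M * B : ℕ) : ℝ)) ^ 3))
              = ((((T / M * B : ℕ) : ℝ) + (R : ℝ) ^ 2) * (β ^ 2 * ((T / M * B : ℕ) : ℝ))) *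
                (1 + Real.log ((T / M * B : ℕ) : ℝ)) ^ 3 := by ring
            _ ≤ ((((T / M * B : ℕ) : ℝ) + (R : ℝ) ^ 2) * (β ^ 2 * ((T / M * B : ℕ) : ℝ))) *
                (9 * (1 + Real.log T) ^ 4) := mul_le_mul_of_nonneg_left hL9 h1
            _ ≤ (((T : ℝ) / M * B + (R : ℝ) ^ 2) * (β ^ 2 * ((T : ℝ) / M * B))) *
                (9 * (1 + Real.log T) ^ 4) := by
                apply mul_le_mul_of_nonneg_right _ (by positivity)
                apply mul_le_mul (by linarith) _ (by positivity) (by positivity)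
                exact mul_le_mul_of_nonneg_left hNB (by positivity)
            _ = _ := by ring
        · have e : (((2 * M : ℕ) : ℝ) - M + (R : ℝ) ^ 2) = M + (R : ℝ) ^ 2 := by
            push_cast
            ring
          rw [e]
          calc ((M : ℝ) + (R : ℝ) ^ 2) *
                ∑ m ∈ Ioc M (2 * M), ‖(if m ≤ T then ((a m : ℝ) : ℂ) else 0)‖ ^ 2
              ≤ ((M : ℝ) + (R : ℝ) ^ 2) * (M * α ^ 2) :=
                mul_le_mul_of_nonneg_left hA2 (by positivity)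
            _ = _ := by ring
    · have hz : ∀ c : Ch R, ‖∑ m ∈ Ioc M (2 * M),
          ((a m : ℝ) : ℂ) * ∑ k ∈ Ioc u (T / m), ((b k : ℝ) : ℂ) *
          c.2 ((m * k : ℕ) : ZMod (c.1.val + 1))‖ * ‖Kc B c.2‖ = 0 := by
        intro c
        rw [mul_eq_zero]
        left
        rw [norm_eq_zero]
        apply Finset.sum_eq_zero
        intro m hm
        rw [mem_Ioc] at hm
        have : Ioc u (T / m) = ∅ := by
          rw [Finset.Ioc_eq_empty_iff, not_lt]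
          have h1 : T / m ≤ T / M := Nat.div_le_div_left (by omega) (by omega)
          have h2 : T / M < u := by
            rw [Nat.div_lt_iff_lt_mul (by omega), mul_comm]
            omega
          omega
        rw [this, Finset.sum_empty, mul_zero]
      rw [Finset.sum_congr rfl (fun c _ => hz c), Finset.sum_const_zero]
      positivity
  have hmain : ∀ c ∈ PC R, ‖thG u T a b c.2‖ * ‖Kc B c.2‖ ≤
      ∑ i ∈ range J, ‖∑ m ∈ Ioc (2 ^ i * u) (2 * (2 ^ i * u)),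
      ((a m : ℝ) : ℂ) * ∑ k ∈ Ioc u (T / m), ((b k : ℝ) : ℂ) *
        c.2 ((m * k : ℕ) : ZMod (c.1.val + 1))‖ * ‖Kc B c.2‖ := by
    intro c _
    rw [← Finset.sum_mul]
    apply mul_le_mul_of_nonneg_right _ (norm_nonneg _)
    unfold thG
    have e1 : ∑ m ∈ Ioc u T, ((a m : ℝ) : ℂ) *
        ∑ k ∈ Ioc u (T / m), ((b k : ℝ) : ℂ) * c.2 ((m * k : ℕ) : ZMod (c.1.val + 1)) =
        ∑ m ∈ Ioc u (2 ^ J * u), ((a m : ℝ) : ℂ) *
        ∑ k ∈ Ioc u (T / m), ((b k : ℝ) : ℂ) * c.2 ((m * k : ℕ) : ZMod (c.1.val + 1)) := by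
      apply Finset.sum_subset
      · apply Finset.Ioc_subset_Ioc_right
        calc T ≤ 2 ^ J := hTJ.le
          _ = 2 ^ J * 1 := (mul_one _).symm
          _ ≤ 2 ^ J * u := Nat.mul_le_mul_left _ hu
      · intro m hm hm2
        rw [mem_Ioc] at hm hm2
        have hmT : T < m := by omega
        rw [Nat.div_eq_of_lt hmT, Finset.Ioc_eq_empty_iff.2 (by omega), Finset.sum_empty, mul_zero]
    rw [e1, tyk_blk _ u hu J]
    exact norm_sum_le _ _
  refine (Finset.sum_le_sum hmain).trans ?_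
  rw [Finset.sum_comm]
  refine (Finset.sum_le_sum hblock).trans ?_
  rw [Finset.sum_const, card_range, nsmul_eq_mul, ← hW]
  calc (J : ℝ) * (18 * C * (1 + Real.log T) ^ 3 * (α * β * W))
      ≤ (2 * (1 + Real.log T)) * (18 * C * (1 + Real.log T) ^ 3 * (α * β * W)) :=
        mul_le_mul_of_nonneg_right hJ2 (by positivity)
    _ = 36 * C * α * β * (1 + Real.log T) ^ 4 * W := by ring

end Pool.Agent.H67.VW
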