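import Pool.Agent.H67.VW.Defs

/-!
[H67 VW WF]  The weights `WW (rh Z D) D r k` in closed form.

Proof.  `rh Z D d/φ(d) = μ(d) (d/φ(d)) ∑_{s ∈ RR, d ∣ s} 1/φ(s)`.  Exchange the sums: `∑_{s ∈ RR, r ∣ s} 1/φ(s) ∑_{r ∣ d ∣ s, (d,k)=1} μ(d) d/φ(d)`.
`s = r f` with `(r,f) = 1` (`s` squarefree), `f ∈ FS Z D r` (and `r` is squarefree; if `r` is not squarefree both sides are `0`);
`d = r g`, `g ∣ f`, `(d,k) = 1` iff `(g,k) = 1` as `(r,k) = 1`.  The inner sum is
`μ(r) (r/φ(r)) ∑_{g ∣ f, (g,k)=1} μ(g) g/φ(g) = μ(r) (r/φ(r)) ∏_{p ∣ f, p ∤ k} (1 - p/(p-1)) = μ(r) (r/φ(r)) (1/φ(f)) ∏_{p ∣ f, p ∤ k} (-1) ∏_{p ∣ f, p ∣ k} (p-1)`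
and `∏_{p ∣ f, p ∤ k} (-1) ∏_{p ∣ f, p ∣ k} (p-1) = μ(f) ∏_{p ∣ f, p ∣ k} (1-p) = μ(f) ∑_{e ∣ f, e ∣ k} μ(e) e = μ(f) cs f k`.
(Sums over divisors of squarefree numbers as products: `Nat.sum_divisors_filter_squarefree`, `Finset.prod_one_add`/`prod_add`,
or `ArithmeticFunction` multiplicativity, or induction on `f` by `Nat.recOnPosPrimePosCoprime`.)
-/

namespace Pool.Agent.H67.VW

open Finset

theorem wf_gcd_mul (m n : ℕ) (k : ℤ) :
    Int.gcd ((m * n : ℕ) : ℤ) k = 1 ↔ Int.gcd (m : ℤ) k = 1 ∧ Int.gcd (n : ℤ) k = 1 := by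
  rw [← Int.isCoprime_iff_gcd_eq_one, ← Int.isCoprime_iff_gcd_eq_one,
    ← Int.isCoprime_iff_gcd_eq_one, Nat.cast_mul]
  exact IsCoprime.mul_left_iff

/-- `n/φ(n)` for `n` coprime to `k` -/
noncomputable def wfA (k : ℤ) : ArithmeticFunction ℝ :=
  ⟨fun n => if Int.gcd (n : ℤ) k = 1 then (n : ℝ) / (n.totient : ℝ) else 0, by
    simp⟩

theorem wfA_apply (k : ℤ) (n : ℕ) :
    wfA k n = if Int.gcd (n : ℤ) k = 1 then (n : ℝ) / (n.totient : ℝ) else 0 := rfl

theorem wfA_mult (k : ℤ) : (wfA k).IsMultiplicative := by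
  refine ⟨?_, ?_⟩
  · rw [wfA_apply]
    simp
  · intro m n hmn
    rw [wfA_apply, wfA_apply, wfA_apply, Nat.totient_mul hmn]
    by_cases hm : Int.gcd (m : ℤ) k = 1
    · by_cases hn : Int.gcd (n : ℤ) k = 1
      · rw [if_pos hm, if_pos hn, if_pos ((wf_gcd_mul m n k).2 ⟨hm, hn⟩)]
        push_cast
        rw [mul_div_mul_comm]
      · rw [if_neg hn, mul_zero, if_neg (fun h => hn ((wf_gcd_mul m n k).1 h).2)]
    · rw [if_neg hm, zero_mul, if_neg (fun h => hm ((wf_gcd_mul m n k).1 h).1)]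

/-- `n` for `n ∣ k` -/
noncomputable def wfB (k : ℤ) : ArithmeticFunction ℝ :=
  ⟨fun n => if (n : ℤ) ∣ k then (n : ℝ) else 0, by simp⟩

theorem wfB_apply (k : ℤ) (n : ℕ) : wfB k n = if (n : ℤ) ∣ k then (n : ℝ) else 0 := rfl

theorem wfB_mult (k : ℤ) : (wfB k).IsMultiplicative := by
  refine ⟨?_, ?_⟩
  · rw [wfB_apply]
    simp
  · intro m n hmn
    rw [wfB_apply, wfB_apply, wfB_apply]
    have hc : IsCoprime (m : ℤ) (n : ℤ) := Nat.isCoprime_iff_coprime.2 hmn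
    by_cases hm : (m : ℤ) ∣ k
    · by_cases hn : (n : ℤ) ∣ k
      · have h1 : ((m * n : ℕ) : ℤ) ∣ k := by
          push_cast
          exact hc.mul_dvd hm hn
        rw [if_pos hm, if_pos hn, if_pos h1]
        push_cast
        rfl
      · have h1 : ¬ ((m * n : ℕ) : ℤ) ∣ k := by
          intro h
          apply hn
          push_cast at h
          exact (Dvd.intro_left _ rfl).trans h
        rw [if_neg hn, mul_zero, if_neg h1]
    · have h1 : ¬ ((m * n : ℕ) : ℤ) ∣ k := by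
        intro h
        apply hm
        push_cast at h
        exact (Dvd.intro _ rfl).trans h
      rw [if_neg hm, zero_mul, if_neg h1]

/-- `μ(n)/φ(n)` -/
noncomputable def wfC : ArithmeticFunction ℝ :=
  ⟨fun n => ((ArithmeticFunction.moebius n : ℤ) : ℝ) / (n.totient : ℝ), by simp⟩

theorem wfC_apply (n : ℕ) :
    wfC n = ((ArithmeticFunction.moebius n : ℤ) : ℝ) / (n.totient : ℝ) := rfl

theorem wfC_mult : wfC.IsMultiplicative := by
  refine ⟨?_, ?_⟩
  · rw [wfC_apply]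
    simp
  · intro m n hmn
    rw [wfC_apply, wfC_apply, wfC_apply, Nat.totient_mul hmn,
      ArithmeticFunction.isMultiplicative_moebius.map_mul_of_coprime hmn]
    push_cast
    rw [mul_div_mul_comm]

/-- the divisor sum as a product -/
theorem wf_key {f : ℕ} (hf : Squarefree f) (k : ℤ) :
    ∑ g ∈ f.divisors.filter (fun g : ℕ => Int.gcd (g : ℤ) k = 1),
      ((ArithmeticFunction.moebius g : ℤ) : ℝ) * ((g : ℝ) / (g.totient : ℝ)) =
      ((ArithmeticFunction.moebius f : ℤ) : ℝ) / (f.totient : ℝ) * cs f k := by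
  have h1 := ArithmeticFunction.IsMultiplicative.prodPrimeFactors_one_sub_of_squarefree
    (wfA k) (wfA_mult k) hf
  have h2 := ArithmeticFunction.IsMultiplicative.prodPrimeFactors_one_sub_of_squarefree
    (wfB k) (wfB_mult k) hf
  have h3 := wfC_mult.prod_primeFactors hf
  have e1 : ∑ g ∈ f.divisors.filter (fun g : ℕ => Int.gcd (g : ℤ) k = 1),
      ((ArithmeticFunction.moebius g : ℤ) : ℝ) * ((g : ℝ) / (g.totient : ℝ)) =
      ∑ d ∈ f.divisors, ((ArithmeticFunction.moebius d : ℤ) : ℝ) * wfA k d := by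
    rw [Finset.sum_filter]
    refine Finset.sum_congr rfl fun g _ => ?_
    rw [wfA_apply, mul_ite, mul_zero]
  have e2 : cs f k = ∑ d ∈ f.divisors, ((ArithmeticFunction.moebius d : ℤ) : ℝ) * wfB k d := by
    unfold cs
    rw [Finset.sum_filter]
    refine Finset.sum_congr rfl fun g _ => ?_
    rw [wfB_apply, mul_ite, mul_zero]
  rw [e1, e2, ← wfC_apply, ← h3, ← h1, ← h2, ← Finset.prod_mul_distrib]
  refine Finset.prod_congr rfl fun p hp => ?_
  have hpp : p.Prime := Nat.prime_of_mem_primeFactors hp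
  have hp1 : (1 : ℝ) < p := by exact_mod_cast hpp.one_lt
  have hp0 : (p : ℝ) - 1 ≠ 0 := by linarith
  have ht : (p.totient : ℝ) = (p : ℝ) - 1 := by
    rw [Nat.totient_prime hpp, Nat.cast_sub hpp.one_lt.le, Nat.cast_one]
  rw [wfA_apply, wfB_apply, wfC_apply, ArithmeticFunction.moebius_apply_prime hpp, ht]
  have hiff : Int.gcd (p : ℤ) k = 1 ↔ ¬ (p : ℤ) ∣ k := by
    rw [← Int.isCoprime_iff_gcd_eq_one]
    exact (Nat.prime_iff_prime_int.1 hpp).coprime_iff_not_dvd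
  by_cases hk : (p : ℤ) ∣ k
  · rw [if_neg (fun h => (hiff.1 h) hk), if_pos hk]
    push_cast
    field_simp
    ring
  · rw [if_pos (hiff.2 hk), if_neg hk]
    push_cast
    field_simp
    ring

/-- the summand of `s` -/
noncomputable def wfG (r : ℕ) (k : ℤ) (s : ℕ) : ℝ :=
  ∑ d ∈ s.divisors.filter (fun d : ℕ => r ∣ d ∧ Int.gcd (d : ℤ) k = 1),
    ((ArithmeticFunction.moebius d : ℤ) : ℝ) * d / (d.totient : ℝ) * (1 / (s.totient : ℝ))

theorem wf_left (Z D r : ℕ) (k : ℤ) : WW (rh Z D) D r k = ∑ s ∈ RR Z D, wfG r k s := by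
  have h1 : WW (rh Z D) D r k = ∑ d ∈ (Icc 1 D).filter (fun d : ℕ => r ∣ d ∧ Int.gcd (d : ℤ) k = 1),
      ∑ s ∈ RR Z D, if d ∣ s then
        ((ArithmeticFunction.moebius d : ℤ) : ℝ) * d / (d.totient : ℝ) * (1 / (s.totient : ℝ))
        else 0 := by
    unfold WW rh
    refine Finset.sum_congr rfl fun d _ => ?_
    rw [← Finset.sum_filter, ← Finset.mul_sum]
    ring
  rw [h1, Finset.sum_comm]
  refine Finset.sum_congr rfl fun s hs => ?_
  unfold RR at hs
  rw [Finset.mem_filter, Finset.mem_Ioc] at hs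
  have hs0 : s ≠ 0 := hs.2.ne_zero
  rw [← Finset.sum_filter, Finset.filter_filter]
  unfold wfG
  refine Finset.sum_congr ?_ fun d _ => rfl
  ext d
  rw [Finset.mem_filter, Finset.mem_filter, Finset.mem_Icc, Nat.mem_divisors]
  constructor
  · rintro ⟨-, ⟨h2, h3⟩, h4⟩
    exact ⟨⟨h4, hs0⟩, h2, h3⟩
  · rintro ⟨⟨h4, -⟩, h2, h3⟩
    exact ⟨⟨Nat.pos_of_dvd_of_pos h4 (by omega),
      (Nat.le_of_dvd (by omega) h4).trans hs.1.2⟩, ⟨h2, h3⟩, h4⟩

theorem wf_G (r : ℕ) (hr : 1 ≤ r) (k : ℤ) (hk : Int.gcd (r : ℤ) k = 1) {f : ℕ}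
    (hf : Squarefree f) (hfr : f.Coprime r) :
    wfG r k (r * f) =
      ((ArithmeticFunction.moebius r : ℤ) : ℝ) * ((r : ℝ) / (r.totient : ℝ) ^ 2) *
        (((ArithmeticFunction.moebius f : ℤ) : ℝ) / (f.totient : ℝ) ^ 2 * cs f k) := by
  have hf0 : f ≠ 0 := hf.ne_zero
  have h1 : wfG r k (r * f) = ∑ g ∈ f.divisors.filter (fun g : ℕ => Int.gcd (g : ℤ) k = 1),
      ((ArithmeticFunction.moebius r : ℤ) : ℝ) * ((r : ℝ) / (r.totient : ℝ) ^ 2) *
        (1 / (f.totient : ℝ)) *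
        (((ArithmeticFunction.moebius g : ℤ) : ℝ) * ((g : ℝ) / (g.totient : ℝ))) := by
    unfold wfG
    symm
    refine Finset.sum_bij (fun g _ => r * g) ?_ ?_ ?_ ?_
    · intro g hg
      rw [Finset.mem_filter, Nat.mem_divisors] at hg ⊢
      exact ⟨⟨Nat.mul_dvd_mul_left r hg.1.1, Nat.mul_ne_zero (by omega) hf0⟩, dvd_mul_right r g,
        (wf_gcd_mul r g k).2 ⟨hk, hg.2⟩⟩
    · intro g _ g' _ h
      exact Nat.eq_of_mul_eq_mul_left (by omega) h
    · intro d hd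
      rw [Finset.mem_filter, Nat.mem_divisors] at hd
      obtain ⟨⟨hd1, -⟩, ⟨g, rfl⟩, hd3⟩ := hd
      refine ⟨g, ?_, rfl⟩
      rw [Finset.mem_filter, Nat.mem_divisors]
      exact ⟨⟨Nat.dvd_of_mul_dvd_mul_left (by omega) hd1, hf0⟩, ((wf_gcd_mul r g k).1 hd3).2⟩
    · intro g hg
      rw [Finset.mem_filter, Nat.mem_divisors] at hg
      have hrg : r.Coprime g := (Nat.Coprime.coprime_dvd_left hg.1.1 hfr).symm
      have hg0 : g ≠ 0 := by
        rintro rfl
        exact hf0 (zero_dvd_iff.1 hg.1.1)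
      have t1 : (r.totient : ℝ) ≠ 0 := by
        have := Nat.totient_pos.2 (by omega : 0 < r)
        exact_mod_cast this.ne'
      have t2 : (g.totient : ℝ) ≠ 0 := by
        have := Nat.totient_pos.2 (Nat.pos_of_ne_zero hg0)
        exact_mod_cast this.ne'
      have t3 : (f.totient : ℝ) ≠ 0 := by
        have := Nat.totient_pos.2 (Nat.pos_of_ne_zero hf0)
        exact_mod_cast this.ne'
      rw [ArithmeticFunction.isMultiplicative_moebius.map_mul_of_coprime hrg,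
        Nat.totient_mul hrg, Nat.totient_mul hfr.symm]
      push_cast
      field_simp
  rw [h1, ← Finset.mul_sum, wf_key hf k]
  ring

theorem ww_eq (Z D r : ℕ) (hr : 1 ≤ r) (k : ℤ) (hk : Int.gcd (r : ℤ) k = 1) :
    WW (rh Z D) D r k =
      ((ArithmeticFunction.moebius r : ℤ) : ℝ) * ((r : ℝ) / (r.totient : ℝ) ^ 2) *
        ∑ f ∈ FS Z D r, ((ArithmeticFunction.moebius f : ℤ) : ℝ) / (f.totient : ℝ) ^ 2 *
          cs f k := by
  rw [wf_left]
  have hG0 : ∀ s, ¬ r ∣ s → wfG r k s = 0 := by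
    intro s hs
    unfold wfG
    refine Finset.sum_eq_zero fun d hd => ?_
    rw [Finset.mem_filter, Nat.mem_divisors] at hd
    exact absurd (hd.2.1.trans hd.1.1) hs
  by_cases hrs : Squarefree r
  · have h1 : ∑ s ∈ RR Z D, wfG r k s = ∑ s ∈ (RR Z D).filter (fun s => r ∣ s), wfG r k s := by
      rw [Finset.sum_filter]
      refine Finset.sum_congr rfl fun s _ => ?_
      split_ifs with h
      · rfl
      · exact hG0 s h
    rw [h1, Finset.mul_sum]
    symm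
    refine Finset.sum_bij (fun f _ => r * f) ?_ ?_ ?_ ?_
    · intro f hf
      unfold FS at hf
      unfold RR
      rw [Finset.mem_filter, Finset.mem_Icc] at hf
      rw [Finset.mem_filter, Finset.mem_filter, Finset.mem_Ioc]
      obtain ⟨-, h2, h3, h4, h5⟩ := hf
      exact ⟨⟨⟨h4, h5⟩, (Nat.squarefree_mul h3.symm).2 ⟨hrs, h2⟩⟩, dvd_mul_right r f⟩
    · intro f _ f' _ h
      exact Nat.eq_of_mul_eq_mul_left (by omega) h
    · intro s hs
      unfold RR at hs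
      rw [Finset.mem_filter, Finset.mem_filter, Finset.mem_Ioc] at hs
      obtain ⟨⟨⟨h4, h5⟩, h2⟩, ⟨f, rfl⟩⟩ := hs
      refine ⟨f, ?_, rfl⟩
      unfold FS
      rw [Finset.mem_filter, Finset.mem_Icc]
      have h6 := Nat.squarefree_mul_iff.1 h2
      have hf0 : f ≠ 0 := h6.2.2.ne_zero
      refine ⟨⟨by omega, ?_⟩, h6.2.2, h6.1.symm, h4, h5⟩
      exact (Nat.le_mul_of_pos_left f (by omega)).trans h5
    · intro f hf
      unfold FS at hf
      rw [Finset.mem_filter] at hf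
      exact (wf_G r hr k hk hf.2.1 hf.2.2.1).symm
  · rw [ArithmeticFunction.moebius_eq_zero_of_not_squarefree hrs]
    rw [Int.cast_zero, zero_mul, zero_mul]
    refine Finset.sum_eq_zero fun s hs => hG0 s fun h => ?_
    unfold RR at hs
    rw [Finset.mem_filter] at hs
    exact hrs (hs.2.squarefree_of_dvd h)

end Pool.Agent.H67.VW
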